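import Mathlib

/-! # Fubini on boxes, slabs, Borel-Cantelli -/

set_option autoImplicit false

open MeasureTheory Filter
open scoped ENNReal

namespace Pool.Agent.Y867.WR

/-- the box `[-B,B]^n` -/
def QB (n : ℕ) (B : ℝ) : Set (Fin n → ℝ) := Set.Icc (fun _ => -B) (fun _ => B)

theorem mem_QB (n : ℕ) (B : ℝ) (b : Fin n → ℝ) : b ∈ QB n B ↔ ∀ i, |b i| ≤ B := by
  unfold QB
  rw [Set.mem_Icc, Pi.le_def, Pi.le_def]
  simp only [abs_le]
  exact ⟨fun h i => ⟨h.1 i, h.2 i⟩, fun h => ⟨fun i => (h i).1, fun i => (h i).2⟩⟩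

theorem QB_meas (n : ℕ) (B : ℝ) : MeasurableSet (QB n B) := measurableSet_Icc

theorem QB_vol (n : ℕ) (B : ℝ) : volume (QB n B) = ENNReal.ofReal (2 * B) ^ n := by
  unfold QB
  rw [Real.volume_Icc_pi]
  simp only [Finset.prod_const, Finset.card_univ, Fintype.card_fin]
  congr 2
  ring

/-- Fubini on a box: slices bounded by `m` -/
theorem fub (n : ℕ) (j0 : Fin (n + 1)) (A : Set (Fin (n + 1) → ℝ)) (hA : MeasurableSet A) (B : ℝ) (m : ℝ≥0∞)
    (h : ∀ b' : Fin n → ℝ, (∀ i, |b' i| ≤ B) → volume {t : ℝ | |t| ≤ B ∧ j0.insertNth t b' ∈ A} ≤ m) :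
    volume (A ∩ QB (n + 1) B) ≤ m * ENNReal.ofReal (2 * B) ^ n := by
  have hmp := (volume_preserving_piFinSuccAbove (fun _ : Fin (n + 1) => ℝ) j0).symm
  have hAQ : MeasurableSet (A ∩ QB (n + 1) B) := hA.inter (QB_meas _ _)
  rw [← hmp.measure_preimage hAQ.nullMeasurableSet, Measure.volume_eq_prod]
  rw [Measure.prod_apply_symm (hmp.measurable hAQ)]
  have h1 : ∀ b' : Fin n → ℝ, volume ((fun x : ℝ => (x, b')) ⁻¹'
      ((MeasurableEquiv.piFinSuccAbove (fun _ : Fin (n + 1) => ℝ) j0).symm ⁻¹' (A ∩ QB (n + 1) B))) ≤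
      (QB n B).indicator (fun _ => m) b' := by
    intro b'
    by_cases hb : b' ∈ QB n B
    · rw [Set.indicator_of_mem hb]
      refine le_trans (measure_mono ?_) (h b' ((mem_QB n B b').mp hb))
      intro t ht
      simp only [Set.mem_preimage, MeasurableEquiv.piFinSuccAbove_symm_apply] at ht
      rw [Set.mem_setOf_eq]
      have h2 : Fin.insertNthEquiv (fun _ : Fin (n + 1) => ℝ) j0 (t, b') = j0.insertNth t b' := rfl
      rw [h2] at ht
      refine ⟨?_, ht.1⟩
      have h3 := (mem_QB (n + 1) B _).mp ht.2 j0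
      rwa [Fin.insertNth_apply_same] at h3
    · rw [Set.indicator_of_notMem hb]
      rw [nonpos_iff_eq_zero]
      have h4 : ((fun x : ℝ => (x, b')) ⁻¹'
        ((MeasurableEquiv.piFinSuccAbove (fun _ : Fin (n + 1) => ℝ) j0).symm ⁻¹' (A ∩ QB (n + 1) B))) = ∅ := by
        rw [Set.eq_empty_iff_forall_notMem]
        intro t ht
        apply hb
        simp only [Set.mem_preimage, MeasurableEquiv.piFinSuccAbove_symm_apply] at ht
        have h2 : Fin.insertNthEquiv (fun _ : Fin (n + 1) => ℝ) j0 (t, b') = j0.insertNth t b' := rfl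
        rw [h2] at ht
        rw [mem_QB]
        intro i
        have h3 := (mem_QB (n + 1) B _).mp ht.2 (j0.succAbove i)
        rwa [Fin.insertNth_apply_succAbove] at h3
      rw [h4, measure_empty]
  refine (lintegral_mono h1).trans ?_
  rw [lintegral_indicator (QB_meas n B), setLIntegral_const, QB_vol]

/-- measure of a slab -/
theorem slab (n : ℕ) (j0 : Fin (n + 1)) (D : Fin (n + 1) → ℝ) (α K B : ℝ) (hD : D j0 ≠ 0) :
    volume ({b : Fin (n + 1) → ℝ | |α + ∑ j, b j * D j| ≤ K} ∩ QB (n + 1) B) ≤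
      ENNReal.ofReal (2 * (K / |D j0|)) * ENNReal.ofReal (2 * B) ^ n := by
  apply fub n j0
  · apply measurableSet_le _ measurable_const
    fun_prop
  · intro b' _
    have h1 : {t : ℝ | |t| ≤ B ∧ j0.insertNth (α := fun _ => ℝ) t b' ∈ {b : Fin (n + 1) → ℝ | |α + ∑ j, b j * D j| ≤ K}} ⊆
        Metric.closedBall (-(α + ∑ i, b' i * D (j0.succAbove i)) / D j0) (K / |D j0|) := by
      intro t ht
      rw [Set.mem_setOf_eq, Set.mem_setOf_eq] at ht
      have h2 := ht.2
      rw [Fin.sum_univ_succAbove _ j0] at h2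
      simp only [Fin.insertNth_apply_same, Fin.insertNth_apply_succAbove] at h2
      rw [Metric.mem_closedBall, Real.dist_eq, le_div_iff₀ (abs_pos.mpr hD), ← abs_mul]
      have h3 : (t - -(α + ∑ i, b' i * D (j0.succAbove i)) / D j0) * D j0 =
          α + (t * D j0 + ∑ i, b' i * D (j0.succAbove i)) := by
        field_simp
        ring
      rw [h3]
      exact h2
    refine (measure_mono h1).trans ?_
    rw [Real.volume_closedBall]

/-- Borel-Cantelli with a summable bound -/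
theorem bc {α : Type*} [MeasurableSpace α] (μ : Measure α) (s : ℕ → Set α) (f : ℕ → ℝ) (hf : Summable f)
    (h : ∀ p, μ (s p) ≤ ENNReal.ofReal (f p)) : ∀ᵐ x ∂μ, ∀ᶠ p in atTop, x ∉ s p := by
  apply ae_eventually_notMem
  have h1 : ∑' p, μ (s p) ≤ ∑' p, ENNReal.ofReal (f p) := ENNReal.tsum_le_tsum h
  exact ne_top_of_le_ne_top hf.tsum_ofReal_ne_top h1

/-- Borel-Cantelli, bound from some index on -/
theorem bc' {α : Type*} [MeasurableSpace α] (μ : Measure α) (s : ℕ → Set α) (f : ℕ → ℝ) (hf : Summable f) (p0 : ℕ)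
    (h : ∀ p, p0 ≤ p → μ (s p) ≤ ENNReal.ofReal (f p)) : ∀ᵐ x ∂μ, ∀ᶠ p in atTop, x ∉ s p := by
  have h1 := bc μ (fun p => s (p + p0)) (fun p => f (p + p0)) ((summable_nat_add_iff p0).mpr hf)
    (fun p => h (p + p0) (by omega))
  filter_upwards [h1] with x hx
  rw [eventually_atTop] at hx ⊢
  obtain ⟨a, ha⟩ := hx
  refine ⟨a + p0, fun b hb => ?_⟩
  have h2 := ha (b - p0) (by omega)
  rwa [Nat.sub_add_cancel (by omega)] at h2

/-- almost everywhere on all boxes -/
theorem ae_boxes (n : ℕ) (φ : (Fin n → ℝ) → Prop) (h : ∀ B : ℕ, ∀ᵐ b ∂(volume.restrict (QB n B)), φ b) :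
    ∀ᵐ b : Fin n → ℝ, φ b := by
  have h1 : ∀ᵐ b : Fin n → ℝ, ∀ B : ℕ, b ∈ QB n B → φ b := by
    rw [ae_all_iff]
    intro B
    exact (ae_restrict_iff' (QB_meas n B)).mp (h B)
  filter_upwards [h1] with b hb
  obtain ⟨B, hB⟩ := exists_nat_ge (∑ i, |b i|)
  apply hb B
  rw [mem_QB]
  intro i
  refine le_trans ?_ hB
  exact Finset.single_le_sum (f := fun i => |b i|) (fun i _ => abs_nonneg _) (Finset.mem_univ i)

/-- Markov's inequality for the number of sets containing a point -/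
theorem markov {α ι : Type*} [MeasurableSpace α] (μ : Measure α) (Z : Finset ι) (S : ι → Set α)
    (hS : ∀ z, MeasurableSet (S z)) (l : ℝ) (hl : 0 < l) (V : ℝ) (c : ι → ℝ)
    (hc : ∀ z ∈ Z, μ (S z) ≤ ENNReal.ofReal (c z)) (hc0 : ∀ z ∈ Z, 0 ≤ c z) (hV : ∑ z ∈ Z, c z ≤ V) :
    μ {x | l ≤ ∑ z ∈ Z, (S z).indicator (fun _ => (1 : ℝ)) x} ≤ ENNReal.ofReal (V / l) := by
  have h1 : ∀ x, ENNReal.ofReal (∑ z ∈ Z, (S z).indicator (fun _ => (1 : ℝ)) x) =
      ∑ z ∈ Z, (S z).indicator (fun _ => (1 : ℝ≥0∞)) x := by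
    intro x
    rw [ENNReal.ofReal_sum_of_nonneg]
    · apply Finset.sum_congr rfl
      intro z _
      by_cases hx : x ∈ S z
      · rw [Set.indicator_of_mem hx, Set.indicator_of_mem hx, ENNReal.ofReal_one]
      · rw [Set.indicator_of_notMem hx, Set.indicator_of_notMem hx, ENNReal.ofReal_zero]
    · intro z _
      exact Set.indicator_nonneg (fun _ _ => zero_le_one) _
  have h2 : {x | l ≤ ∑ z ∈ Z, (S z).indicator (fun _ => (1 : ℝ)) x} ⊆
      {x | ENNReal.ofReal l ≤ ∑ z ∈ Z, (S z).indicator (fun _ => (1 : ℝ≥0∞)) x} := by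
    intro x hx
    rw [Set.mem_setOf_eq] at hx ⊢
    rw [← h1]
    exact ENNReal.ofReal_le_ofReal hx
  refine (measure_mono h2).trans ?_
  have h3 := meas_ge_le_lintegral_div (μ := μ) (f := fun x => ∑ z ∈ Z, (S z).indicator (fun _ => (1 : ℝ≥0∞)) x)
    (Finset.measurable_fun_sum Z (fun z _ => measurable_const.indicator (hS z))).aemeasurable
    (ε := ENNReal.ofReal l) (by rw [Ne, ENNReal.ofReal_eq_zero]; linarith) ENNReal.ofReal_ne_top
  refine h3.trans ?_
  rw [lintegral_finset_sum _ (fun z _ => measurable_const.indicator (hS z)), ENNReal.ofReal_div_of_pos hl]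
  apply ENNReal.div_le_div_right
  have h4 : ∀ z ∈ Z, ∫⁻ x, (S z).indicator (fun _ => (1 : ℝ≥0∞)) x ∂μ ≤ ENNReal.ofReal (c z) := by
    intro z hz
    rw [lintegral_indicator (hS z), setLIntegral_const, one_mul]
    exact hc z hz
  refine (Finset.sum_le_sum h4).trans ?_
  rw [← ENNReal.ofReal_sum_of_nonneg hc0]
  exact ENNReal.ofReal_le_ofReal hV

end Pool.Agent.Y867.WR
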