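import Pool.Agent.Y867.WR.MinB

/-! # Minor arcs for almost all coefficients, conclusion -/

set_option autoImplicit false

open MeasureTheory Filter Finset
open scoped ENNReal

namespace Pool.Agent.Y867.WR

open Pool.Agent.W928.MW (e e_add e_norm e_cont e_lip)

/-- small denominators: a point of the net is close -/
theorem small_q (k : ℕ) (hk : 2 ≤ k) (a : ℝ) (ha : 0 < a) : ∀ᶠ p : ℕ in atTop, ∀ (β : ℝ) (r : ℤ) (q : ℕ), 1 ≤ q →
    IsCoprime r (q : ℤ) → (q : ℝ) ≤ ((2 : ℝ) ^ p) ^ (1 / 40 : ℝ) →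
    |β * a - r / q| ≤ 1 / (((2 : ℝ) ^ p) ^ ((k : ℝ) - 1 / 40) * q) →
    ((2 : ℝ) ^ p) ^ ((1 / 20 : ℝ) - k) ≤ |β| → |β| ≤ ((2 : ℝ) ^ p) ^ (1 / 40 : ℝ) →
    ∃ z ∈ nix k a ((2 : ℝ) ^ p), |β - npt k a ((2 : ℝ) ^ p) z.1 z.2.1 z.2.2| ≤ ((2 : ℝ) ^ p) ^ (-(k : ℝ) - 1 / 20) := by
  have hk2 : (2 : ℝ) ≤ k := by exact_mod_cast hk
  filter_upwards [ev_ge (2 / a) (1 / 40) (by norm_num), ev_ge 4 1 one_pos, ev_ge (4 * a) 1 one_pos] with
    p hp1 hp2 hp3 β r q hq hcop hqX happ hβ1 hβ2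
  rw [Real.rpow_one] at hp2 hp3
  set X : ℝ := (2 : ℝ) ^ p with hX
  have hX1 : 1 ≤ X := one_le_pow₀ (by norm_num)
  have hX0 : 0 < X := by linarith
  have hq' : (1 : ℝ) ≤ q := by exact_mod_cast hq
  have hq0 : (0 : ℝ) < q := by linarith
  set Y : ℝ := X ^ ((k : ℝ) - 1 / 40) with hY
  have hY0 : 0 < Y := by positivity
  have hY1 : 1 ≤ Y := Real.one_le_rpow hX1 (by linarith)
  have h1Y : 1 / (Y * q) ≤ 1 / Y := by
    apply div_le_div_of_nonneg_left (by norm_num) hY0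
    nlinarith
  -- the numerator is nonzero
  have hr : r ≠ 0 := by
    intro hr0
    rw [hr0] at hcop happ
    have hq1 : q = 1 := by
      have := Int.isCoprime_iff_gcd_eq_one.mp hcop
      rw [Int.gcd_zero_left, Int.natAbs_natCast] at this
      exact this
    rw [hq1] at happ
    simp only [Int.cast_zero, zero_div, sub_zero, Nat.cast_one, mul_one] at happ
    rw [abs_mul, abs_of_pos ha] at happ
    have h1 : X ^ ((1 / 20 : ℝ) - k) * a ≤ 1 / Y := le_trans (mul_le_mul_of_nonneg_right hβ1 ha.le) happ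
    rw [le_div_iff₀ hY0] at h1
    have h2 : X ^ ((1 / 20 : ℝ) - k) * a * Y = a * X ^ (1 / 40 : ℝ) := by
      rw [hY]
      calc X ^ ((1 / 20 : ℝ) - k) * a * X ^ ((k : ℝ) - 1 / 40) = a * (X ^ ((1 / 20 : ℝ) - k) * X ^ ((k : ℝ) - 1 / 40)) := by ring
        _ = _ := by
          rw [← Real.rpow_add hX0]
          congr 2
          ring
    rw [h2] at h1
    rw [div_le_iff₀ ha] at hp1
    linarith
  have hr1 : (1 : ℝ) ≤ |(r : ℝ)| := by
    rw [← Int.cast_abs]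
    exact_mod_cast Int.one_le_abs hr
  set β' : ℝ := r / (a * q) with hβ'
  have hββ' : |β - β'| ≤ 1 / (a * Y) := by
    have h1 : β - β' = (β * a - r / q) / a := by
      rw [hβ']; field_simp
    rw [h1, abs_div, abs_of_pos ha, div_le_iff₀ ha]
    have h2 : 1 / (a * Y) * a = 1 / Y := by field_simp
    rw [h2]
    exact happ.trans h1Y
  have hx40 : 0 < X ^ (1 / 40 : ℝ) := by positivity
  have hx401 : 1 ≤ X ^ (1 / 40 : ℝ) := Real.one_le_rpow hX1 (by norm_num)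
  set E : ℝ := X ^ (-(k : ℝ) - 1 / 20) with hE
  have hE0 : 0 < E := by positivity
  set m : ℤ := ⌊(β - β') / E⌋ with hm
  have hm1 : (m : ℝ) ≤ (β - β') / E := Int.floor_le _
  have hm2 : (β - β') / E < m + 1 := Int.lt_floor_add_one _
  have hclose : |β - npt k a X q r m| ≤ E := by
    unfold npt
    rw [← hβ', ← hE]
    have h1 : β - (β' + m * E) = ((β - β') / E - m) * E := by field_simp; ring
    rw [h1, abs_mul, abs_of_pos hE0]
    have h2 : |(β - β') / E - m| ≤ 1 := by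
      rw [abs_le]; constructor <;> linarith
    nlinarith
  have hEY : (1 / (a * Y)) / E = X ^ (3 / 40 : ℝ) / a := by
    rw [hY, hE, div_div, div_eq_div_iff (by positivity) ha.ne']
    have : X ^ (3 / 40 : ℝ) * (a * X ^ ((k : ℝ) - 1 / 40) * X ^ (-(k : ℝ) - 1 / 20)) =
        a * (X ^ (3 / 40 : ℝ) * (X ^ ((k : ℝ) - 1 / 40) * X ^ (-(k : ℝ) - 1 / 20))) := by ring
    rw [this, ← Real.rpow_add hX0, ← Real.rpow_add hX0]
    have : (3 / 40 : ℝ) + ((k : ℝ) - 1 / 40 + (-(k : ℝ) - 1 / 20)) = 0 := by ring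
    rw [this, Real.rpow_zero]
    ring
  have hmabs : |(β - β') / E| ≤ X ^ (3 / 40 : ℝ) / a := by
    rw [abs_div, abs_of_pos hE0, ← hEY]
    exact div_le_div_of_nonneg_right hββ' hE0.le
  have hmem : (q, r, m) ∈ nix k a X := by
    unfold nix
    rw [Finset.mem_filter, Finset.mem_product, Finset.mem_product, Finset.mem_Icc, Finset.mem_Icc, Finset.mem_Icc]
    dsimp only
    refine ⟨⟨⟨hq, Nat.le_floor hqX⟩, ?_, ?_⟩, ?_⟩
    · have h1 : |(r : ℝ)| ≤ X ^ (1 / 40 : ℝ) * (a * X ^ (1 / 40 : ℝ) + 1) := by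
        have h2 : (r : ℝ) = q * (β * a) - q * (β * a - r / q) := by field_simp; ring
        have h3 : |β * a| ≤ a * X ^ (1 / 40 : ℝ) := by
          rw [abs_mul, abs_of_pos ha, mul_comm]
          exact mul_le_mul_of_nonneg_left hβ2 ha.le
        have h4 : |β * a - r / q| ≤ 1 := by
          refine happ.trans (h1Y.trans ?_)
          rw [div_le_one hY0]
          exact hY1
        rw [h2]
        refine (abs_sub _ _).trans ?_
        rw [abs_mul (q : ℝ) (β * a), abs_mul (q : ℝ) (β * a - r / q), abs_of_pos hq0]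
        calc (q : ℝ) * |β * a| + q * |β * a - r / q| = q * (|β * a| + |β * a - r / q|) := by ring
          _ ≤ X ^ (1 / 40 : ℝ) * (a * X ^ (1 / 40 : ℝ) + 1) :=
            mul_le_mul hqX (add_le_add h3 h4) (by positivity) hx40.le
      have h5 := h1.trans (Nat.le_ceil _)
      rw [abs_le] at h5
      exact ⟨by exact_mod_cast h5.1, by exact_mod_cast h5.2⟩
    · have h5 : (X ^ (3 / 40 : ℝ) / a : ℝ) ≤ (⌈X ^ (3 / 40 : ℝ) / a⌉₊ : ℝ) := Nat.le_ceil _
      rw [abs_le] at hmabs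
      constructor
      · have : (-((⌈X ^ (3 / 40 : ℝ) / a⌉₊ : ℝ) + 1)) ≤ (m : ℝ) := by linarith
        exact_mod_cast this
      · have : (m : ℝ) ≤ (⌈X ^ (3 / 40 : ℝ) / a⌉₊ : ℝ) + 1 := by linarith
        exact_mod_cast this
    · -- lower bound for the point
      have h1 : X ^ (-(1 / 40) : ℝ) / a ≤ |β'| := by
        rw [hβ', abs_div, abs_of_pos (show 0 < a * (q : ℝ) by positivity)]
        rw [div_le_div_iff₀ ha (by positivity)]
        calc X ^ (-(1 / 40) : ℝ) * (a * q) ≤ X ^ (-(1 / 40) : ℝ) * (a * X ^ (1 / 40 : ℝ)) := by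
              apply mul_le_mul_of_nonneg_left _ (by positivity)
              exact mul_le_mul_of_nonneg_left hqX ha.le
          _ = a * (X ^ (-(1 / 40) : ℝ) * X ^ (1 / 40 : ℝ)) := by ring
          _ = 1 * a := by rw [← Real.rpow_add hX0]; norm_num
          _ ≤ |(r : ℝ)| * a := mul_le_mul_of_nonneg_right hr1 ha.le
      have h2 : |β'| ≤ |npt k a X q r m| + |β - β'| + |β - npt k a X q r m| := by
        have : β' = npt k a X q r m - (β - β') + (β - npt k a X q r m) := by ring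
        calc |β'| = |npt k a X q r m - (β - β') + (β - npt k a X q r m)| := by rw [← this]
          _ ≤ |npt k a X q r m - (β - β')| + |β - npt k a X q r m| := abs_add_le _ _
          _ ≤ _ := add_le_add (abs_sub _ _) le_rfl
      have h3 : 1 / (a * Y) ≤ X ^ (-(1 / 40) : ℝ) / (4 * a) := by
        rw [div_le_div_iff₀ (by positivity) (by positivity)]
        have h4 : X ≤ X ^ (-(1 / 40) : ℝ) * Y := by
          rw [hY, ← Real.rpow_add hX0]
          calc X = X ^ (1 : ℝ) := (Real.rpow_one _).symm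
            _ ≤ _ := Real.rpow_le_rpow_of_exponent_le hX1 (by linarith)
        calc 1 * (4 * a) = a * 4 := by ring
          _ ≤ a * (X ^ (-(1 / 40) : ℝ) * Y) := mul_le_mul_of_nonneg_left (hp2.trans h4) ha.le
          _ = _ := by ring
      have h5 : E ≤ X ^ (-(1 / 40) : ℝ) / (4 * a) := by
        rw [le_div_iff₀ (by positivity)]
        calc E * (4 * a) ≤ E * X := mul_le_mul_of_nonneg_left hp3 hE0.le
          _ = X ^ (-(k : ℝ) - 1 / 20 + 1) := by
            rw [hE, Real.rpow_add hX0, Real.rpow_one]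
          _ ≤ _ := Real.rpow_le_rpow_of_exponent_le hX1 (by linarith)
      have h6 : X ^ (-(1 / 40) : ℝ) / a = X ^ (-(1 / 40) : ℝ) / (2 * a) + X ^ (-(1 / 40) : ℝ) / (4 * a) + X ^ (-(1 / 40) : ℝ) / (4 * a) := by
        field_simp; ring
      linarith
  exact ⟨(q, r, m), hmem, hclose⟩

/-- the exponential sums are small on the minor arcs, for almost all coefficients -/
theorem minor_ae (k : ℕ) (hk : 2 ≤ k) (a : ℝ) (ha : 0 < a) (c4 : ℕ) (hc4 : 1 ≤ c4) :
    ∀ᵐ b : Fin k → ℝ, ∀ᶠ p : ℕ in atTop, ∀ β : ℝ, ((2 : ℝ) ^ p) ^ ((1 / 20 : ℝ) - k) ≤ |β| →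
    |β| ≤ ((2 : ℝ) ^ p) ^ (1 / 40 : ℝ) →
    ‖∑ n ∈ Icc 1 ((c4 * 2 ^ p : ℕ) : ℤ), e (β * fb k a b n)‖ ≤ ((2 : ℝ) ^ p) ^ (1 - sg k) := by
  apply ae_boxes
  intro B
  have hk2 : (2 : ℝ) ≤ k := by exact_mod_cast hk
  filter_upwards [net_ae k hk a ha c4 hc4 B, ae_restrict_mem (QB_meas k B)] with b hb hbB
  rw [mem_QB] at hbB
  set C : ℝ := 2 * Real.pi * ((a + k * B) * (c4 : ℝ) ^ (k + 1)) with hC
  have hC0 : 0 ≤ C := by positivity
  filter_upwards [hb, big_q k hk c4 hc4, small_q k hk a ha, ev_ge (2 * C) (1 / 80) (by norm_num),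
    ev_ge 2 (1 / 80) (by norm_num)] with p hp1 hp2 hp3 hp4 hp5 β hβ1 hβ2
  set X : ℝ := (2 : ℝ) ^ p with hX
  have hX1 : 1 ≤ X := one_le_pow₀ (by norm_num)
  have hX0 : 0 < X := by linarith
  set Y : ℝ := X ^ ((k : ℝ) - 1 / 40) with hY
  have hY1 : 1 ≤ Y := Real.one_le_rpow hX1 (by linarith)
  have hfl : 0 < ⌊Y⌋₊ := Nat.floor_pos.mpr hY1
  obtain ⟨ρ, hρ1, hρ2⟩ := Real.exists_rat_abs_sub_le_and_den_le (β * a) hfl
  have hq1 : 1 ≤ ρ.den := ρ.den_pos
  have hq1' : (1 : ℝ) ≤ ρ.den := by exact_mod_cast hq1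
  have hcop : IsCoprime ρ.num (ρ.den : ℤ) := by
    rw [Int.isCoprime_iff_gcd_eq_one, Int.gcd, Int.natAbs_natCast]
    exact ρ.reduced
  have hρ : (ρ : ℝ) = (ρ.num : ℝ) / (ρ.den : ℝ) := by
    exact_mod_cast (Rat.num_div_den ρ).symm
  rw [hρ] at hρ1
  have hfl2 : Y ≤ (⌊Y⌋₊ : ℝ) + 1 := (Nat.lt_floor_add_one Y).le
  have hYq : |β * a - (ρ.num : ℝ) / (ρ.den : ℝ)| ≤ 1 / (Y * ρ.den) := by
    refine hρ1.trans ?_
    apply div_le_div_of_nonneg_left (by norm_num) (by positivity)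
    exact mul_le_mul_of_nonneg_right hfl2 (by positivity)
  have hden : (ρ.den : ℝ) ≤ Y := by
    calc (ρ.den : ℝ) ≤ (⌊Y⌋₊ : ℝ) := by exact_mod_cast hρ2
      _ ≤ Y := Nat.floor_le (by linarith)
  rcases lt_or_ge (X ^ (1 / 40 : ℝ)) (ρ.den : ℝ) with hcase | hcase
  · apply hp2 a β b ρ.num ρ.den hq1 hcop hcase hden
    refine hYq.trans ?_
    apply div_le_div_of_nonneg_left (by norm_num) (by positivity)
    rw [sq]
    exact mul_le_mul_of_nonneg_right hden (by positivity)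
  · obtain ⟨z, hz, hz2⟩ := hp3 β ρ.num ρ.den hq1 hcop hcase hYq hβ1 hβ2
    have h1 := hp1 z hz
    have h2 := S_lip k a ha b B hbB (c4 * 2 ^ p) β (npt k a X z.1 z.2.1 z.2.2)
    refine h2.trans ?_
    have hN : ((c4 * 2 ^ p : ℕ) : ℝ) = c4 * X := by push_cast; rfl
    rw [hN]
    have h3 : 2 * Real.pi * |β - npt k a X z.1 z.2.1 z.2.2| * ((a + k * B) * (c4 * X) ^ (k + 1)) ≤ C * X ^ (1 - 1 / 20 : ℝ) := by
      calc 2 * Real.pi * |β - npt k a X z.1 z.2.1 z.2.2| * ((a + k * B) * (c4 * X) ^ (k + 1))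
          ≤ 2 * Real.pi * X ^ (-(k : ℝ) - 1 / 20) * ((a + k * B) * (c4 * X) ^ (k + 1)) := by
            apply mul_le_mul_of_nonneg_right _ (by positivity)
            exact mul_le_mul_of_nonneg_left hz2 (by positivity)
        _ = C * (X ^ (-(k : ℝ) - 1 / 20) * X ^ (k + 1)) := by rw [hC, mul_pow]; ring
        _ = C * X ^ (1 - 1 / 20 : ℝ) := by
            rw [← Real.rpow_natCast X (k + 1), ← Real.rpow_add hX0]
            congr 2
            push_cast
            ring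
    have hs1 := sg_le k
    have h4 : X ^ (1 - 1 / 40 : ℝ) ≤ X ^ (1 - sg k) / 2 := by
      rw [le_div_iff₀ (by norm_num)]
      calc X ^ (1 - 1 / 40 : ℝ) * 2 ≤ X ^ (1 - 1 / 40 : ℝ) * X ^ (1 / 80 : ℝ) := mul_le_mul_of_nonneg_left hp5 (by positivity)
        _ = X ^ (1 - 1 / 80 : ℝ) := by rw [← Real.rpow_add hX0]; norm_num
        _ ≤ _ := Real.rpow_le_rpow_of_exponent_le hX1 (by linarith)
    have h5 : C * X ^ (1 - 1 / 20 : ℝ) ≤ X ^ (1 - sg k) / 2 := by
      rw [le_div_iff₀ (by norm_num)]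
      calc C * X ^ (1 - 1 / 20 : ℝ) * 2 = (2 * C) * X ^ (1 - 1 / 20 : ℝ) := by ring
        _ ≤ X ^ (1 / 80 : ℝ) * X ^ (1 - 1 / 20 : ℝ) := mul_le_mul_of_nonneg_right hp4 (by positivity)
        _ = X ^ (1 - 3 / 80 : ℝ) := by rw [← Real.rpow_add hX0]; norm_num
        _ ≤ _ := Real.rpow_le_rpow_of_exponent_le hX1 (by linarith)
    linarith

end Pool.Agent.Y867.WR
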