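import Pool.Agent.W928.MW.Dim

/-! # Poisson summation: exponential sums over integer parts -/

set_option autoImplicit false

open MeasureTheory Filter Finset
open scoped FourierTransform SchwartzMap ContDiff

namespace Pool.Agent.Y867.WR

open Pool.Agent.W928.MW (e e_add e_norm e_cont e_lip)

/-- a smooth bump on `(0,1)` -/
noncomputable def bmp : ContDiffBump (1 / 2 : ℝ) := ⟨3 / 8, 1 / 2, by norm_num, by norm_num⟩

/-- the weight -/
noncomputable def psi (u : ℝ) : ℝ := bmp u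

theorem psi_nonneg (u : ℝ) : 0 ≤ psi u := bmp.nonneg

theorem psi_le_one (u : ℝ) : psi u ≤ 1 := bmp.le_one

theorem psi_one (u : ℝ) (h1 : 1 / 8 ≤ u) (h2 : u ≤ 7 / 8) : psi u = 1 := by
  unfold psi
  apply bmp.one_of_mem_closedBall
  rw [Metric.mem_closedBall, Real.dist_eq, abs_le]
  have : bmp.rIn = 3 / 8 := rfl
  rw [this]
  constructor <;> linarith

theorem psi_zero (u : ℝ) (h : 1 / 2 ≤ |u - 1 / 2|) : psi u = 0 := by
  unfold psi
  apply bmp.zero_of_le_dist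
  rw [Real.dist_eq]
  have : bmp.rOut = 1 / 2 := rfl
  rw [this]
  exact h

/-- the complex weight -/
noncomputable def psiC (u : ℝ) : ℂ := (psi u : ℂ)

theorem psiC_contDiff : ContDiff ℝ ∞ psiC := by
  unfold psiC psi
  exact Complex.ofRealCLM.contDiff.comp bmp.contDiff

theorem psiC_supp : HasCompactSupport psiC := by
  have h1 : HasCompactSupport (fun u => psi u) := bmp.hasCompactSupport
  exact h1.comp_left (g := fun x : ℝ => (x : ℂ)) Complex.ofReal_zero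

noncomputable def psiS : 𝓢(ℝ, ℂ) := psiC_supp.toSchwartzMap psiC_contDiff

theorem psiS_coe : (psiS : ℝ → ℂ) = psiC := rfl

theorem psiF_decay : ∃ A : ℝ, 0 < A ∧ ∀ s : ℝ, ‖𝓕 psiC s‖ ≤ A / (1 + s ^ 2) ^ 2 := by
  obtain ⟨C0, _, h0⟩ := (𝓕 psiS).decay 0 0
  obtain ⟨C4, _, h4⟩ := (𝓕 psiS).decay 4 0
  refine ⟨2 * (|C0| + |C4|) + 1, by positivity, fun s => ?_⟩
  have e0 := h0 s
  have e4 := h4 s
  rw [norm_iteratedFDeriv_zero, pow_zero, one_mul] at e0
  rw [norm_iteratedFDeriv_zero, Real.norm_eq_abs] at e4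
  have hc : (𝓕 psiS) s = 𝓕 psiC s := rfl
  rw [hc] at e0 e4
  have h5 : |s| ^ 4 = s ^ 4 := by
    rw [← abs_pow]; exact abs_of_nonneg (by positivity)
  rw [h5] at e4
  rw [le_div_iff₀ (by positivity)]
  have h6 : (1 + s ^ 2) ^ 2 ≤ 2 * (1 + s ^ 4) := by
    nlinarith [sq_nonneg (s ^ 2 - 1)]
  have h7 := norm_nonneg (𝓕 psiC s)
  have h8 := le_abs_self C0
  have h9 := le_abs_self C4
  calc ‖𝓕 psiC s‖ * (1 + s ^ 2) ^ 2 ≤ ‖𝓕 psiC s‖ * (2 * (1 + s ^ 4)) := mul_le_mul_of_nonneg_left h6 h7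
    _ = 2 * (‖𝓕 psiC s‖ + s ^ 4 * ‖𝓕 psiC s‖) := by ring
    _ ≤ _ := by linarith

theorem four_shift (θ s : ℝ) : 𝓕 (fun u : ℝ => psiC u * e (-(θ * u))) s = 𝓕 psiC (s + θ) := by
  rw [Real.fourier_real_eq_integral_exp_smul, Real.fourier_real_eq_integral_exp_smul]
  apply integral_congr_ae
  filter_upwards with u
  rw [smul_eq_mul, smul_eq_mul]
  unfold Pool.Agent.W928.MW.e
  have : Complex.exp (((-2 * Real.pi * u * (s + θ) : ℝ) : ℂ) * Complex.I) =
      Complex.exp (((-2 * Real.pi * u * s : ℝ) : ℂ) * Complex.I) * Complex.exp (2 * (Real.pi : ℂ) * Complex.I * ((-(θ * u) : ℝ) : ℂ)) := by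
    rw [← Complex.exp_add]
    congr 1
    push_cast
    ring
  rw [this]
  ring

theorem int_summ : Summable (fun h : ℤ => 1 / (1 + (h : ℝ) ^ 2)) := by
  have h1 : Summable (fun h : ℤ => 1 / (h : ℝ) ^ 2) := Real.summable_one_div_int_pow.mpr (by norm_num)
  refine Summable.of_norm_bounded_eventually h1 ?_
  have h2 : ({0} : Set ℤ)ᶜ ∈ (cofinite : Filter ℤ) := (Set.finite_singleton (0 : ℤ)).compl_mem_cofinite
  filter_upwards [h2] with h hh
  have hh' : h ≠ 0 := hh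
  have h3 : (0 : ℝ) < (h : ℝ) ^ 2 := by
    have : (h : ℝ) ≠ 0 := by exact_mod_cast hh'
    positivity
  rw [Real.norm_of_nonneg (by positivity)]
  apply div_le_div_of_nonneg_left (by norm_num) h3
  linarith

theorem shift_le (θ : ℝ) (hθ : |θ| ≤ 1 / 2) (h : ℤ) : 1 / (1 + ((h : ℝ) + θ) ^ 2) ≤ 4 * (1 / (1 + (h : ℝ) ^ 2)) := by
  rw [mul_one_div, div_le_div_iff₀ (by positivity) (by positivity)]
  rw [abs_le] at hθ
  have h1 : θ ^ 2 ≤ 1 / 4 := by nlinarith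
  nlinarith [sq_nonneg ((h : ℝ) + 2 * θ), sq_nonneg ((h : ℝ) + θ)]

theorem psiF_le : ∃ A : ℝ, 0 < A ∧ ∀ (θ : ℝ), |θ| ≤ 1 / 2 → ∀ h : ℤ,
    ‖𝓕 psiC ((h : ℝ) + θ)‖ ≤ A * (1 / (1 + (h : ℝ) ^ 2)) * (1 / (1 + ((h : ℝ) + θ) ^ 2)) := by
  obtain ⟨A, hA, h⟩ := psiF_decay
  refine ⟨4 * A, by positivity, fun θ hθ m => ?_⟩
  refine (h _).trans ?_
  have h1 := shift_le θ hθ m
  calc A / (1 + ((m : ℝ) + θ) ^ 2) ^ 2 = A * (1 / (1 + ((m : ℝ) + θ) ^ 2)) * (1 / (1 + ((m : ℝ) + θ) ^ 2)) := by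
        field_simp
    _ ≤ A * (4 * (1 / (1 + (m : ℝ) ^ 2))) * (1 / (1 + ((m : ℝ) + θ) ^ 2)) := by
        apply mul_le_mul_of_nonneg_right _ (by positivity)
        exact mul_le_mul_of_nonneg_left h1 hA.le
    _ = _ := by ring

theorem psiF_summ (θ : ℝ) (hθ : |θ| ≤ 1 / 2) : Summable (fun h : ℤ => ‖𝓕 psiC ((h : ℝ) + θ)‖) := by
  obtain ⟨A, hA, h⟩ := psiF_le
  refine Summable.of_nonneg_of_le (fun _ => norm_nonneg _) (fun m => ?_) (int_summ.mul_left A)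
  refine (h θ hθ m).trans ?_
  have h1 : 1 / (1 + ((m : ℝ) + θ) ^ 2) ≤ 1 := by
    rw [div_le_one (by positivity)]
    nlinarith [sq_nonneg ((m : ℝ) + θ)]
  have h2 : 0 ≤ A * (1 / (1 + (m : ℝ) ^ 2)) := by positivity
  nlinarith

/-- Poisson summation for the weight at the fractional part times a character at the integer part -/
theorem pois (θ : ℝ) (hθ : |θ| ≤ 1 / 2) (y : ℝ) : psiC (Int.fract y) * e (θ * (⌊y⌋ : ℝ)) =
    ∑' h : ℤ, 𝓕 psiC ((h : ℝ) + θ) * e (((h : ℝ) + θ) * y) := by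
  set g : ℝ → ℂ := fun u => psiC u * e (-(θ * u)) with hg
  have hgc : Continuous g := by
    rw [hg]
    exact psiC_contDiff.continuous.mul (e_cont.comp (by fun_prop))
  have hgF : ∀ s, 𝓕 g s = 𝓕 psiC (s + θ) := four_shift θ
  have hsupp : HasCompactSupport g := psiC_supp.mul_right
  have hO : g =O[cocompact ℝ] fun x : ℝ => |x| ^ (-2 : ℝ) := by
    have h1 : ∀ᶠ x in cocompact ℝ, g x = 0 := by
      have := hsupp.isCompact.compl_mem_cocompact
      filter_upwards [this] with x hx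
      exact image_eq_zero_of_notMem_tsupport hx
    refine Asymptotics.IsBigO.of_bound 0 ?_
    filter_upwards [h1] with x hx
    rw [hx, norm_zero, zero_mul]
  have hP := Real.tsum_eq_tsum_fourier_of_rpow_decay_of_summable hgc (b := 2) (by norm_num) hO (by
    simp_rw [hgF]
    exact (psiF_summ θ hθ).of_norm) y
  have hL : ∑' n : ℤ, g (y + n) = psiC (Int.fract y) * e (-(θ * Int.fract y)) := by
    rw [tsum_eq_single (-⌊y⌋)]
    · have : y + ((-⌊y⌋ : ℤ) : ℝ) = Int.fract y := by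
        push_cast
        rw [← sub_eq_add_neg, Int.self_sub_floor]
      rw [this]
    · intro n hn
      rw [hg]
      dsimp only
      have h1 : psiC (y + n) = 0 := by
        unfold psiC
        rw [psi_zero, Complex.ofReal_zero]
        have h2 : y + n = Int.fract y + ((⌊y⌋ + n : ℤ) : ℝ) := by
          push_cast
          rw [← add_assoc, Int.fract_add_floor]
        have h3 := Int.fract_nonneg y
        have h4 := Int.fract_lt_one y
        rw [h2]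
        rcases Int.lt_trichotomy (⌊y⌋ + n) 0 with h5 | h5 | h5
        · have h6 : ((⌊y⌋ + n : ℤ) : ℝ) ≤ -1 := by exact_mod_cast (by omega : ⌊y⌋ + n ≤ -1)
          rw [abs_of_neg (by linarith)]
          linarith
        · exfalso; apply hn; omega
        · have h6 : (1 : ℝ) ≤ ((⌊y⌋ + n : ℤ) : ℝ) := by exact_mod_cast (by omega : 1 ≤ ⌊y⌋ + n)
          rw [abs_of_nonneg (by linarith)]
          linarith
      rw [h1, zero_mul]
  rw [hL] at hP
  have h2 : psiC (Int.fract y) * e (θ * (⌊y⌋ : ℝ)) = e (θ * y) * (psiC (Int.fract y) * e (-(θ * Int.fract y))) := by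
    have h3 : e (θ * (⌊y⌋ : ℝ)) = e (θ * y) * e (-(θ * Int.fract y)) := by
      rw [← e_add]
      congr 1
      have := Int.self_sub_floor y
      rw [← this]
      ring
    rw [h3]; ring
  rw [h2, hP, ← tsum_mul_left]
  apply tsum_congr
  intro h
  rw [hgF, fourier_coe_apply]
  have h3 : Complex.exp (2 * Real.pi * Complex.I * h * y / ((1 : ℝ) : ℂ)) = e ((h : ℝ) * y) := by
    unfold Pool.Agent.W928.MW.e
    congr 1
    push_cast
    ring
  rw [h3]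
  have h4 : e (((h : ℝ) + θ) * y) = e (θ * y) * e ((h : ℝ) * y) := by
    rw [← e_add]
    congr 1
    ring
  rw [h4]
  ring

/-- exponential sums over integer parts are controlled by the exponential sums over the function -/
theorem T_bound : ∃ A : ℝ, 0 < A ∧ ∀ (Z : Finset ℤ) (f : ℤ → ℝ) (θ : ℝ), |θ| ≤ 1 / 2 → ∀ (M U : ℝ), 0 < U → 0 ≤ M →
    (∀ h : ℤ, |(h : ℝ) + θ| ≤ U → ‖∑ z ∈ Z, e (((h : ℝ) + θ) * f z)‖ ≤ M) →
    ‖∑ z ∈ Z, psiC (Int.fract (f z)) * e (θ * (⌊f z⌋ : ℝ))‖ ≤ A * (M + Z.card / U ^ 2) := by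
  obtain ⟨A, hA, hF⟩ := psiF_le
  set W : ℝ := ∑' h : ℤ, 1 / (1 + (h : ℝ) ^ 2) with hW
  have hW0 : 0 ≤ W := tsum_nonneg (fun h => by positivity)
  refine ⟨A * W + 1, by positivity, fun Z f θ hθ M U hU hM hS => ?_⟩
  have h1 : ∑ z ∈ Z, psiC (Int.fract (f z)) * e (θ * (⌊f z⌋ : ℝ)) =
      ∑' h : ℤ, 𝓕 psiC ((h : ℝ) + θ) * ∑ z ∈ Z, e (((h : ℝ) + θ) * f z) := by
    simp_rw [pois θ hθ, Finset.mul_sum]
    rw [Summable.tsum_finsetSum]
    intro z _
    apply Summable.of_norm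
    refine (psiF_summ θ hθ).congr (fun h => ?_)
    rw [norm_mul, e_norm, mul_one]
  rw [h1]
  have hbound : ∀ h : ℤ, ‖𝓕 psiC ((h : ℝ) + θ) * ∑ z ∈ Z, e (((h : ℝ) + θ) * f z)‖ ≤
      (A * (M + Z.card / U ^ 2)) * (1 / (1 + (h : ℝ) ^ 2)) := by
    intro h
    rw [norm_mul]
    have h2 := hF θ hθ h
    have h3 : 1 / (1 + ((h : ℝ) + θ) ^ 2) * ‖∑ z ∈ Z, e (((h : ℝ) + θ) * f z)‖ ≤ M + Z.card / U ^ 2 := by
      rcases le_or_gt |(h : ℝ) + θ| U with hc | hc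
      · have h4 := hS h hc
        have h5 : 1 / (1 + ((h : ℝ) + θ) ^ 2) ≤ 1 := by
          rw [div_le_one (by positivity)]
          nlinarith [sq_nonneg ((h : ℝ) + θ)]
        have h6 : 0 ≤ (Z.card : ℝ) / U ^ 2 := by positivity
        have h7 := norm_nonneg (∑ z ∈ Z, e (((h : ℝ) + θ) * f z))
        nlinarith
      · have h4 : ‖∑ z ∈ Z, e (((h : ℝ) + θ) * f z)‖ ≤ Z.card := by
          refine (norm_sum_le _ _).trans ?_
          rw [Finset.sum_congr rfl (fun z _ => e_norm _)]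
          simp
        have h5 : 1 / (1 + ((h : ℝ) + θ) ^ 2) ≤ 1 / U ^ 2 := by
          apply div_le_div_of_nonneg_left (by norm_num) (by positivity)
          have h6 : U ^ 2 ≤ |(h : ℝ) + θ| ^ 2 := pow_le_pow_left₀ hU.le hc.le 2
          rw [sq_abs] at h6
          linarith
        calc 1 / (1 + ((h : ℝ) + θ) ^ 2) * ‖∑ z ∈ Z, e (((h : ℝ) + θ) * f z)‖ ≤ 1 / U ^ 2 * Z.card :=
              mul_le_mul h5 h4 (norm_nonneg _) (by positivity)
          _ = Z.card / U ^ 2 := by ring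
          _ ≤ _ := by linarith
    calc ‖𝓕 psiC ((h : ℝ) + θ)‖ * ‖∑ z ∈ Z, e (((h : ℝ) + θ) * f z)‖
        ≤ (A * (1 / (1 + (h : ℝ) ^ 2)) * (1 / (1 + ((h : ℝ) + θ) ^ 2))) * ‖∑ z ∈ Z, e (((h : ℝ) + θ) * f z)‖ :=
          mul_le_mul_of_nonneg_right h2 (norm_nonneg _)
      _ = (A * (1 / (1 + (h : ℝ) ^ 2))) * (1 / (1 + ((h : ℝ) + θ) ^ 2) * ‖∑ z ∈ Z, e (((h : ℝ) + θ) * f z)‖) := by ring
      _ ≤ (A * (1 / (1 + (h : ℝ) ^ 2))) * (M + Z.card / U ^ 2) := mul_le_mul_of_nonneg_left h3 (by positivity)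
      _ = _ := by ring
  have hsum : Summable (fun h : ℤ => (A * (M + Z.card / U ^ 2)) * (1 / (1 + (h : ℝ) ^ 2))) := int_summ.mul_left _
  refine (tsum_of_norm_bounded hsum.hasSum hbound).trans ?_
  rw [tsum_mul_left, ← hW]
  have : 0 ≤ M + Z.card / U ^ 2 := by positivity
  nlinarith

end Pool.Agent.Y867.WR
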