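import Pool.Agent.Y867.WR.Circ
import Pool.Agent.Y867.WR.Poi
import Pool.Agent.Y867.WR.MinC

/-! # Assembly: the kernel, its sup norm and its main term -/

set_option autoImplicit false

open MeasureTheory Filter Finset

namespace Pool.Agent.Y867.WR

open Pool.Agent.W928.MW (e e_add e_norm e_cont e_lip)

/-- block length -/
def LL (p : ℕ) : ℕ := 2 ^ (p - p / 10)

theorem LL_mul (p : ℕ) : LL p * 2 ^ (p / 10) = 2 ^ p := by
  unfold LL
  rw [← pow_add]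
  congr 1
  have := Nat.div_le_self p 10
  omega

theorem LL_pos (p : ℕ) : 1 ≤ LL p := Nat.one_le_two_pow

theorem LL_le (p : ℕ) : (LL p : ℝ) ≤ 2 * ((2 : ℝ) ^ p) ^ (9 / 10 : ℝ) := by
  unfold LL
  push_cast
  have h1 : (2 : ℝ) * ((2 : ℝ) ^ p) ^ (9 / 10 : ℝ) = (2 : ℝ) ^ (1 + (p : ℝ) * (9 / 10)) := by
    rw [Real.rpow_add (by norm_num), Real.rpow_one, ← Real.rpow_natCast, ← Real.rpow_mul (by norm_num)]
  rw [h1, ← Real.rpow_natCast]
  apply Real.rpow_le_rpow_of_exponent_le (by norm_num)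
  have h2 : (p : ℝ) = 10 * ((p / 10 : ℕ) : ℝ) + ((p % 10 : ℕ) : ℝ) := by
    exact_mod_cast (Nat.div_add_mod p 10).symm
  have h3 : ((p % 10 : ℕ) : ℝ) ≤ 9 := by
    have := Nat.mod_lt p (show 0 < 10 by norm_num)
    exact_mod_cast (by omega : p % 10 ≤ 9)
  rw [Nat.cast_sub (Nat.div_le_self _ _)]
  linarith

/-- Fejer length -/
def HH (k C5 p : ℕ) : ℕ := C5 * LL p * (2 ^ p) ^ (k - 1)

theorem HH_pos (k C5 p : ℕ) (h5 : 1 ≤ C5) : 1 ≤ HH k C5 p := by
  unfold HH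
  have h1 := LL_pos p
  have h2 : 1 ≤ (2 ^ p) ^ (k - 1) := Nat.one_le_pow _ _ (by positivity)
  exact Nat.mul_pos (Nat.mul_pos (by omega) (by omega)) h2

/-- range of the last variable -/
noncomputable def ZZ (c4 p : ℕ) : Finset ℤ := Icc 1 ((c4 * 2 ^ p : ℕ) : ℤ)

/-- index set of the kernel -/
noncomputable def JJ (c4 p H : ℕ) : Finset (ℤ ⊕ ℤ × (ℕ × ℕ)) := (ZZ c4 p).disjSum (ZZ c4 p ×ˢ (range H ×ˢ range H))

noncomputable def cc (k : ℕ) (a : ℝ) (b : Fin k → ℝ) (H : ℕ) : ℤ ⊕ ℤ × (ℕ × ℕ) → ℂ :=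
  Sum.elim (fun z => psiC (Int.fract (fb k a b z))) (fun w => -(psiC (Int.fract (fb k a b w.1)) * (1 / (H : ℂ) ^ 2)))

noncomputable def nn (k : ℕ) (a : ℝ) (b : Fin k → ℝ) : ℤ ⊕ ℤ × (ℕ × ℕ) → ℤ :=
  Sum.elim (fun z => ⌊fb k a b z⌋) (fun w => ⌊fb k a b w.1⌋ + ((w.2.1 : ℤ) - w.2.2))

theorem JJ_trig (k : ℕ) (a : ℝ) (b : Fin k → ℝ) (c4 p H : ℕ) (θ : ℝ) :
    ∑ j ∈ JJ c4 p H, cc k a b H j * e (θ * nn k a b j) =
      (∑ z ∈ ZZ c4 p, psiC (Int.fract (fb k a b z)) * e (θ * (⌊fb k a b z⌋ : ℝ))) *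
      ((1 : ℂ) - ∑ z ∈ range H ×ˢ range H, (1 / (H : ℂ) ^ 2) * e (θ * (((z.1 : ℤ) - z.2 : ℤ) : ℝ))) := by
  unfold JJ
  rw [Finset.sum_disjSum]
  simp only [cc, nn, Sum.elim_inl, Sum.elim_inr]
  rw [mul_sub, mul_one, sub_eq_add_neg]
  congr 1
  rw [Finset.sum_product, Finset.sum_mul, ← Finset.sum_neg_distrib]
  apply Finset.sum_congr rfl
  intro z _
  rw [Finset.mul_sum, ← Finset.sum_neg_distrib]
  apply Finset.sum_congr rfl
  intro w _
  dsimp only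
  have h1 : e (θ * ((⌊fb k a b z⌋ + ((w.1 : ℤ) - w.2) : ℤ) : ℝ)) =
      e (θ * (⌊fb k a b z⌋ : ℝ)) * e (θ * (((w.1 : ℤ) - w.2 : ℤ) : ℝ)) := by
    rw [← e_add]
    congr 1
    push_cast
    ring
  rw [h1]
  ring

/-- the sup norm of the kernel -/
theorem sup_bound (k : ℕ) (hk : 2 ≤ k) (a : ℝ) (b : Fin k → ℝ) (c4 C5 : ℕ) (hc4 : 1 ≤ c4) (h5 : 1 ≤ C5)
    (hmin : ∀ᶠ p : ℕ in atTop, ∀ β : ℝ, ((2 : ℝ) ^ p) ^ ((1 / 20 : ℝ) - k) ≤ |β| → |β| ≤ ((2 : ℝ) ^ p) ^ (1 / 40 : ℝ) →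
      ‖∑ n ∈ Icc 1 ((c4 * 2 ^ p : ℕ) : ℤ), e (β * fb k a b n)‖ ≤ ((2 : ℝ) ^ p) ^ (1 - sg k)) :
    ∃ C : ℝ, 0 < C ∧ ∀ᶠ p : ℕ in atTop, ∀ θ : ℝ, |θ| ≤ 1 / 2 →
      ‖∑ j ∈ JJ c4 p (HH k C5 p), cc k a b (HH k C5 p) j * e (θ * nn k a b j)‖ ≤ C * ((2 : ℝ) ^ p) ^ (1 - sg k) := by
  obtain ⟨A, hA, hT⟩ := T_bound
  have hk2 : (2 : ℝ) ≤ k := by exact_mod_cast hk
  refine ⟨A * (1 + c4) * 2 + c4 * (2 * Real.pi * (2 * C5)), by positivity, ?_⟩
  filter_upwards [hmin, ev_ge 2 1 one_pos] with p hp hp2 θ hθ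
  rw [Real.rpow_one] at hp2
  set X : ℝ := (2 : ℝ) ^ p with hX
  have hX1 : 1 ≤ X := one_le_pow₀ (by norm_num)
  have hX0 : 0 < X := by linarith
  have hs := sg_le k
  have hs0 := sg_pos k
  have hcard : ((ZZ c4 p).card : ℝ) = c4 * X := by
    unfold ZZ
    rw [Int.card_Icc]
    have : (((c4 * 2 ^ p : ℕ) : ℤ) + 1 - 1).toNat = c4 * 2 ^ p := by omega
    rw [this]; push_cast; rfl
  rw [JJ_trig, norm_mul]
  rcases le_or_gt (X ^ ((1 / 20 : ℝ) - k)) |θ| with hc | hc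
  · have h1 := hT (ZZ c4 p) (fun z => fb k a b z) θ hθ (X ^ (1 - sg k)) (X ^ (1 / 40 : ℝ)) (by positivity) (by positivity)
      (by
        intro h hh
        apply hp _ _ hh
        by_cases h0 : h = 0
        · rw [h0, Int.cast_zero, zero_add]; exact hc
        · have h2 : (1 : ℝ) ≤ |(h : ℝ)| := by
            rw [← Int.cast_abs]
            exact_mod_cast Int.one_le_abs h0
          have h3 : |(h : ℝ)| ≤ |(h : ℝ) + θ| + |θ| := by
            calc |(h : ℝ)| = |((h : ℝ) + θ) - θ| := by ring_nf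
              _ ≤ _ := abs_sub _ _
          have h4 : X ^ ((1 / 20 : ℝ) - k) ≤ 1 / 2 := by
            calc X ^ ((1 / 20 : ℝ) - k) ≤ X ^ (-1 : ℝ) := Real.rpow_le_rpow_of_exponent_le hX1 (by linarith)
              _ = 1 / X := by rw [Real.rpow_neg_one, one_div]
              _ ≤ 1 / 2 := div_le_div_of_nonneg_left (by norm_num) (by norm_num) hp2
          linarith)
    have h2 := fejer_far (HH k C5 p) (HH_pos k C5 p h5) θ
    have h3 : X ^ (1 - sg k) + (ZZ c4 p).card / (X ^ (1 / 40 : ℝ)) ^ 2 ≤ (1 + c4) * X ^ (1 - sg k) := by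
      rw [hcard]
      have h4 : c4 * X / (X ^ (1 / 40 : ℝ)) ^ 2 = c4 * X ^ (1 - 1 / 20 : ℝ) := by
        rw [mul_div_assoc]
        congr 1
        rw [div_eq_iff (by positivity), ← Real.rpow_natCast, ← Real.rpow_mul hX0.le, ← Real.rpow_add hX0]
        norm_num
      rw [h4]
      have h5 : X ^ (1 - 1 / 20 : ℝ) ≤ X ^ (1 - sg k) := Real.rpow_le_rpow_of_exponent_le hX1 (by linarith)
      have h6 : (c4 : ℝ) * X ^ (1 - 1 / 20 : ℝ) ≤ c4 * X ^ (1 - sg k) := mul_le_mul_of_nonneg_left h5 (by positivity)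
      linarith
    calc ‖∑ z ∈ ZZ c4 p, psiC (Int.fract (fb k a b z)) * e (θ * (⌊fb k a b z⌋ : ℝ))‖ *
          ‖(1 : ℂ) - ∑ z ∈ range (HH k C5 p) ×ˢ range (HH k C5 p), (1 / ((HH k C5 p : ℕ) : ℂ) ^ 2) * e (θ * (((z.1 : ℤ) - z.2 : ℤ) : ℝ))‖
        ≤ (A * ((1 + c4) * X ^ (1 - sg k))) * 2 := by
          apply mul_le_mul _ h2 (norm_nonneg _) (by positivity)
          exact h1.trans (mul_le_mul_of_nonneg_left h3 hA.le)
      _ = (A * (1 + c4) * 2) * X ^ (1 - sg k) := by ring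
      _ ≤ _ := by
          apply mul_le_mul_of_nonneg_right _ (by positivity)
          have : 0 ≤ c4 * (2 * Real.pi * (2 * (C5 : ℝ))) := by positivity
          linarith
  · have h1 : ‖∑ z ∈ ZZ c4 p, psiC (Int.fract (fb k a b z)) * e (θ * (⌊fb k a b z⌋ : ℝ))‖ ≤ c4 * X := by
      rw [← hcard]
      refine (norm_sum_le _ _).trans ?_
      have h2 : ∀ z ∈ ZZ c4 p, ‖psiC (Int.fract (fb k a b z)) * e (θ * (⌊fb k a b z⌋ : ℝ))‖ ≤ 1 := by
        intro z _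
        rw [norm_mul, e_norm, mul_one]
        unfold psiC
        rw [Complex.norm_real, Real.norm_of_nonneg (psi_nonneg _)]
        exact psi_le_one _
      refine (Finset.sum_le_sum h2).trans (le_of_eq ?_)
      rw [Finset.sum_const, nsmul_eq_mul, mul_one]
    have h2 := fejer_near (HH k C5 p) (HH_pos k C5 p h5) θ
    have h3 : 2 * Real.pi * |θ| * (HH k C5 p : ℝ) ≤ (2 * Real.pi * (2 * C5)) * X ^ (-(1 / 20) : ℝ) := by
      have h4 : (HH k C5 p : ℝ) ≤ C5 * (2 * X ^ (9 / 10 : ℝ)) * X ^ ((k : ℝ) - 1) := by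
        unfold HH
        push_cast
        have h6 : X ^ ((k : ℝ) - 1) = X ^ (k - 1) := by
          rw [← Real.rpow_natCast, Nat.cast_sub (by omega)]
          push_cast; rfl
        rw [h6, ← hX]
        apply mul_le_mul_of_nonneg_right _ (by positivity)
        exact mul_le_mul_of_nonneg_left (LL_le p) (by positivity)
      calc 2 * Real.pi * |θ| * (HH k C5 p : ℝ) ≤ 2 * Real.pi * X ^ ((1 / 20 : ℝ) - k) * (C5 * (2 * X ^ (9 / 10 : ℝ)) * X ^ ((k : ℝ) - 1)) := by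
            apply mul_le_mul _ h4 (by positivity) (by positivity)
            exact mul_le_mul_of_nonneg_left hc.le (by positivity)
        _ = (2 * Real.pi * (2 * C5)) * (X ^ ((1 / 20 : ℝ) - k) * (X ^ (9 / 10 : ℝ) * X ^ ((k : ℝ) - 1))) := by ring
        _ = _ := by
            rw [← Real.rpow_add hX0, ← Real.rpow_add hX0]
            congr 2
            ring
    calc ‖∑ z ∈ ZZ c4 p, psiC (Int.fract (fb k a b z)) * e (θ * (⌊fb k a b z⌋ : ℝ))‖ *
          ‖(1 : ℂ) - ∑ z ∈ range (HH k C5 p) ×ˢ range (HH k C5 p), (1 / ((HH k C5 p : ℕ) : ℂ) ^ 2) * e (θ * (((z.1 : ℤ) - z.2 : ℤ) : ℝ))‖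
        ≤ (c4 * X) * ((2 * Real.pi * (2 * C5)) * X ^ (-(1 / 20) : ℝ)) :=
          mul_le_mul h1 (h2.trans h3) (norm_nonneg _) (by positivity)
      _ = (c4 * (2 * Real.pi * (2 * C5))) * (X ^ (1 : ℝ) * X ^ (-(1 / 20) : ℝ)) := by rw [Real.rpow_one]; ring
      _ = (c4 * (2 * Real.pi * (2 * C5))) * X ^ (1 - 1 / 20 : ℝ) := by rw [← Real.rpow_add hX0]; norm_num
      _ ≤ (c4 * (2 * Real.pi * (2 * C5))) * X ^ (1 - sg k) := by
          apply mul_le_mul_of_nonneg_left _ (by positivity)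
          exact Real.rpow_le_rpow_of_exponent_le hX1 (by linarith)
      _ ≤ _ := by
          apply mul_le_mul_of_nonneg_right _ (by positivity)
          have : 0 ≤ A * (1 + (c4 : ℝ)) * 2 := by positivity
          linarith

/-- weight against the cosine -/
theorem psi_cos (u : ℝ) (h0 : 0 ≤ u) (h1 : u < 1) : 7 / 17 - 10 / 17 * Real.cos (2 * Real.pi * u) ≤ psi u := by
  have hc : (7 : ℝ) / 10 ≤ Real.cos (Real.pi / 4) := by
    rw [Real.cos_pi_div_four]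
    have : (1.4 : ℝ) ≤ √2 := Real.le_sqrt_of_sq_le (by norm_num)
    linarith
  have hpi := Real.pi_pos
  by_cases h2 : 1 / 8 ≤ u ∧ u ≤ 7 / 8
  · rw [psi_one u h2.1 h2.2]
    have := Real.neg_one_le_cos (2 * Real.pi * u)
    linarith
  · have h3 := psi_nonneg u
    have h4 : 7 / 10 ≤ Real.cos (2 * Real.pi * u) := by
      rw [not_and_or, not_le, not_le] at h2
      rcases h2 with h2 | h2
      · refine hc.trans ?_
        apply Real.cos_le_cos_of_nonneg_of_le_pi (by positivity) (by linarith)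
        nlinarith
      · refine hc.trans ?_
        have h5 : Real.cos (2 * Real.pi * u) = Real.cos (2 * Real.pi * (1 - u)) := by
          rw [← Real.cos_two_pi_sub]
          congr 1
          ring
        rw [h5]
        apply Real.cos_le_cos_of_nonneg_of_le_pi _ (by linarith)
        · nlinarith
        · have : 0 ≤ 1 - u := by linarith
          positivity
    linarith

/-- lower bound for the weights on a block -/
theorem psi_block (X : Finset ℤ) (f : ℤ → ℝ) (h : ‖∑ x ∈ X, e (f x)‖ ≤ (X.card : ℝ) / 4) :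
    (X.card : ℝ) / 4 ≤ ∑ x ∈ X, psi (Int.fract (f x)) := by
  have h1 : ∀ x ∈ X, 7 / 17 - 10 / 17 * (e (f x)).re ≤ psi (Int.fract (f x)) := by
    intro x _
    refine le_trans (le_of_eq ?_) (psi_cos _ (Int.fract_nonneg _) (Int.fract_lt_one _))
    congr 2
    have h2 : (e (f x)).re = Real.cos (2 * Real.pi * f x) := by
      unfold Pool.Agent.W928.MW.e
      have : 2 * (Real.pi : ℂ) * Complex.I * ((f x : ℝ) : ℂ) = ((2 * Real.pi * f x : ℝ) : ℂ) * Complex.I := by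
        push_cast; ring
      rw [this, Complex.exp_ofReal_mul_I_re]
    rw [h2]
    have h3 : 2 * Real.pi * f x = 2 * Real.pi * Int.fract (f x) + (⌊f x⌋ : ℝ) * (2 * Real.pi) := by
      have := Int.fract_add_floor (f x)
      calc 2 * Real.pi * f x = 2 * Real.pi * (Int.fract (f x) + ⌊f x⌋) := by rw [this]
        _ = _ := by ring
    rw [h3, Real.cos_add_int_mul_two_pi]
  have h2 := Finset.sum_le_sum h1
  rw [Finset.sum_sub_distrib, ← Finset.mul_sum, Finset.sum_const, nsmul_eq_mul] at h2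
  have h3 : ∑ x ∈ X, (e (f x)).re ≤ (X.card : ℝ) / 4 := by
    rw [← Complex.re_sum]
    exact (Complex.re_le_norm _).trans h
  have h4 : (0 : ℝ) ≤ X.card := by positivity
  linarith

end Pool.Agent.Y867.WR
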