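import Pool.Agent.Y867.WR.AsmA

/-! # Assembly: geometry of the main term -/

set_option autoImplicit false

open MeasureTheory Filter Finset

namespace Pool.Agent.Y867.WR

open Pool.Agent.W928.MW (e e_add e_norm e_cont e_lip)

/-- a block on which `⌊f⌋` is close to `m` -/
theorem geo (k : ℕ) (hk : 1 ≤ k) (a : ℝ) (ha : 0 < a) (b : Fin k → ℝ) (B : ℝ) (hB : 0 ≤ B) (hb : ∀ i, |b i| ≤ B)
    (Cm : ℝ) (hCm : 0 ≤ Cm) (c4 C5 : ℕ) (hc4 : 1 ≤ c4) (h4 : Cm / a ≤ ((c4 : ℝ) - 1) ^ k)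
    (h5 : 2 * (a * k + k * B + 1) * (c4 : ℝ) ^ (k - 1) ≤ C5) (p : ℕ) (m : ℤ) (hm0 : 0 ≤ m)
    (hm1 : (m : ℝ) ≤ Cm * ((2 : ℝ) ^ p) ^ k) :
    ∃ i : ℕ, i < c4 * 2 ^ (p / 10) ∧ ∀ z ∈ Icc (((i * LL p : ℕ) : ℤ) + 1) (((i + 1) * LL p : ℕ) : ℤ),
      z ∈ ZZ c4 p ∧ 2 * |m - ⌊fb k a b z⌋| ≤ (HH k C5 p : ℕ) := by
  have hk0 : k ≠ 0 := by omega
  have hc4' : (1 : ℝ) ≤ c4 := by exact_mod_cast hc4
  set X : ℝ := (2 : ℝ) ^ p with hX
  have hX1 : 1 ≤ X := one_le_pow₀ (by norm_num)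
  have hX0 : 0 < X := by linarith
  have hm0' : (0 : ℝ) ≤ m := by exact_mod_cast hm0
  set z0 : ℝ := (m / a) ^ (1 / (k : ℝ)) with hz0
  have hz00 : 0 ≤ z0 := by positivity
  have hz0k : z0 ^ k = m / a := by
    rw [hz0, ← Real.rpow_natCast, ← Real.rpow_mul (by positivity)]
    have : 1 / (k : ℝ) * k = 1 := by
      have : (k : ℝ) ≠ 0 := by exact_mod_cast hk0
      field_simp
    rw [this, Real.rpow_one]
  have hz01 : z0 ≤ ((c4 : ℝ) - 1) * X := by
    have h6 : z0 ^ k ≤ (((c4 : ℝ) - 1) * X) ^ k := by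
      rw [hz0k, mul_pow, div_le_iff₀ ha]
      calc (m : ℝ) ≤ Cm * X ^ k := hm1
        _ = (Cm / a) * X ^ k * a := by field_simp
        _ ≤ ((c4 : ℝ) - 1) ^ k * X ^ k * a := by
          apply mul_le_mul_of_nonneg_right _ ha.le
          exact mul_le_mul_of_nonneg_right h4 (by positivity)
    exact (pow_le_pow_iff_left₀ hz00 (mul_nonneg (by linarith) hX0.le) hk0).mp h6
  set L : ℕ := LL p with hL
  have hL1 : 1 ≤ L := LL_pos p
  have hL1' : (1 : ℝ) ≤ L := by exact_mod_cast hL1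
  have hL0 : (0 : ℝ) < L := by linarith
  have hLX : (L : ℝ) * 2 ^ (p / 10) = X := by
    have := LL_mul p
    rw [hX, hL]
    exact_mod_cast this
  set i : ℕ := ⌊z0 / L⌋₊ with hi
  have hi1 : (i : ℝ) ≤ z0 / L := Nat.floor_le (by positivity)
  have hi2 : z0 / L < i + 1 := Nat.lt_floor_add_one _
  rw [le_div_iff₀ hL0] at hi1
  rw [div_lt_iff₀ hL0] at hi2
  have hilt : i < c4 * 2 ^ (p / 10) := by
    have h6 : (i : ℝ) * L ≤ ((c4 : ℝ) - 1) * (L * 2 ^ (p / 10)) := by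
      rw [hLX]; exact hi1.trans hz01
    have h7 : (i : ℝ) ≤ ((c4 : ℝ) - 1) * 2 ^ (p / 10) := by
      have : (i : ℝ) * L ≤ (((c4 : ℝ) - 1) * 2 ^ (p / 10)) * L := by linarith
      exact le_of_mul_le_mul_right this hL0
    have h8 : (0 : ℝ) < 2 ^ (p / 10) := by positivity
    have h9 : (i : ℝ) < c4 * 2 ^ (p / 10) := by nlinarith
    exact_mod_cast h9
  refine ⟨i, hilt, fun z hz => ?_⟩
  rw [Finset.mem_Icc] at hz
  obtain ⟨hz1, hz2⟩ := hz
  have hz1' : (i : ℝ) * L + 1 ≤ z := by exact_mod_cast hz1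
  have hz2' : (z : ℝ) ≤ ((i : ℝ) + 1) * L := by exact_mod_cast hz2
  have hil0 : (0 : ℝ) ≤ (i : ℝ) * L := by positivity
  have hzge1 : (1 : ℝ) ≤ z := by linarith
  have hzc4 : (z : ℝ) ≤ c4 * X := by
    have h6 : ((i : ℝ) + 1) * L ≤ c4 * X := by
      have h7 : (i : ℝ) + 1 ≤ c4 * 2 ^ (p / 10) := by exact_mod_cast hilt
      calc ((i : ℝ) + 1) * L ≤ (c4 * 2 ^ (p / 10)) * L := mul_le_mul_of_nonneg_right h7 hL0.le
        _ = c4 * (L * 2 ^ (p / 10)) := by ring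
        _ = _ := by rw [hLX]
    linarith
  have hz0c4 : z0 ≤ c4 * X := by nlinarith
  have hzz0 : |(z : ℝ) - z0| ≤ L := by
    rw [abs_le]; constructor <;> linarith
  constructor
  · unfold ZZ
    rw [Finset.mem_Icc]
    constructor
    · have : (0 : ℤ) ≤ ((i * L : ℕ) : ℤ) := by positivity
      linarith
    · have : (z : ℝ) ≤ ((c4 * 2 ^ p : ℕ) : ℝ) := by push_cast; exact hzc4
      exact_mod_cast this
  · set W : ℝ := (c4 * X) ^ (k - 1) with hW
    have hcX1 : 1 ≤ c4 * X := by nlinarith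
    have hW1 : 1 ≤ W := one_le_pow₀ hcX1
    have h6 : |a * (z : ℝ) ^ k - m| ≤ a * k * L * W := by
      have h7 : a * (z : ℝ) ^ k - m = a * ((z : ℝ) ^ k - z0 ^ k) := by
        rw [hz0k]; field_simp
      rw [h7, abs_mul, abs_of_pos ha]
      have h8 := abs_pow_sub_pow_le (z : ℝ) z0 k
      have h9 : max |(z : ℝ)| |z0| ^ (k - 1) ≤ W := by
        apply pow_le_pow_left₀ (by positivity)
        apply max_le
        · rw [abs_of_nonneg (by linarith)]; exact hzc4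
        · rw [abs_of_nonneg hz00]; exact hz0c4
      calc a * |(z : ℝ) ^ k - z0 ^ k| ≤ a * (|(z : ℝ) - z0| * k * max |(z : ℝ)| |z0| ^ (k - 1)) :=
            mul_le_mul_of_nonneg_left h8 ha.le
        _ ≤ a * (L * k * W) := by
            apply mul_le_mul_of_nonneg_left _ ha.le
            apply mul_le_mul _ h9 (by positivity) (by positivity)
            exact mul_le_mul_of_nonneg_right hzz0 (by positivity)
        _ = _ := by ring
    have h7 : |∑ j : Fin k, b j * (z : ℝ) ^ (j : ℕ)| ≤ k * B * W := by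
      refine (Finset.abs_sum_le_sum_abs _ _).trans ?_
      have h8 : ∀ j ∈ (univ : Finset (Fin k)), |b j * (z : ℝ) ^ (j : ℕ)| ≤ B * W := by
        intro j _
        rw [abs_mul, abs_of_nonneg (show 0 ≤ (z : ℝ) ^ (j : ℕ) by positivity)]
        apply mul_le_mul (hb j) _ (by positivity) hB
        calc (z : ℝ) ^ (j : ℕ) ≤ (c4 * X) ^ (j : ℕ) := pow_le_pow_left₀ (by linarith) hzc4 _
          _ ≤ W := pow_le_pow_right₀ hcX1 (by have := j.2; omega)
      refine (Finset.sum_le_sum h8).trans (le_of_eq ?_)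
      rw [Finset.sum_const, Finset.card_univ, Fintype.card_fin, nsmul_eq_mul]
      ring
    have h8 : |(m : ℝ) - (⌊fb k a b z⌋ : ℝ)| ≤ a * k * L * W + k * B * W + 1 := by
      have h9 : (m : ℝ) - (⌊fb k a b z⌋ : ℝ) = -(a * (z : ℝ) ^ k - m) - (∑ j : Fin k, b j * (z : ℝ) ^ (j : ℕ)) +
          Int.fract (fb k a b z) := by
        have := Int.self_sub_floor (fb k a b z)
        rw [← this]
        unfold fb
        ring
      rw [h9]
      have h10 : |Int.fract (fb k a b z)| ≤ 1 := by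
        rw [abs_of_nonneg (Int.fract_nonneg _)]; exact (Int.fract_lt_one _).le
      refine (abs_add_le _ _).trans (add_le_add ((abs_sub _ _).trans (add_le_add ?_ h7)) h10)
      rw [abs_neg]; exact h6
    have h9 : a * k * L * W + k * B * W + 1 ≤ (a * k + k * B + 1) * L * W := by
      have h10 : (k : ℝ) * B * W ≤ k * B * L * W := by
        have : (k : ℝ) * B * W * 1 ≤ k * B * W * L := mul_le_mul_of_nonneg_left hL1' (by positivity)
        linarith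
      have h11 : (1 : ℝ) ≤ L * W := by nlinarith
      nlinarith
    have h10 : 2 * ((a * k + k * B + 1) * L * W) ≤ (HH k C5 p : ℝ) := by
      unfold HH
      push_cast
      rw [hW, mul_pow, ← hX, ← hL]
      calc 2 * ((a * k + k * B + 1) * L * ((c4 : ℝ) ^ (k - 1) * X ^ (k - 1))) =
            (2 * (a * k + k * B + 1) * (c4 : ℝ) ^ (k - 1)) * (L * X ^ (k - 1)) := by ring
        _ ≤ C5 * (L * X ^ (k - 1)) := mul_le_mul_of_nonneg_right h5 (by positivity)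
        _ = _ := by ring
    have h11 : (2 : ℝ) * |(m : ℝ) - (⌊fb k a b z⌋ : ℝ)| ≤ (HH k C5 p : ℝ) := by linarith
    have h12 : ((2 * |m - ⌊fb k a b z⌋| : ℤ) : ℝ) ≤ ((HH k C5 p : ℕ) : ℝ) := by
      push_cast
      exact h11
    exact_mod_cast h12

/-- number of weighted values equal to `m` -/
noncomputable def rr (k : ℕ) (a : ℝ) (b : Fin k → ℝ) (c4 p : ℕ) (m : ℤ) : ℝ :=
  ∑ z ∈ ZZ c4 p, if ⌊fb k a b z⌋ = m then psi (Int.fract (fb k a b z)) else 0

/-- the smoothed version -/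
noncomputable def mm (k : ℕ) (a : ℝ) (b : Fin k → ℝ) (c4 p H : ℕ) (m : ℤ) : ℝ :=
  ∑ w ∈ ZZ c4 p ×ˢ (range H ×ˢ range H), if ⌊fb k a b w.1⌋ + ((w.2.1 : ℤ) - w.2.2) = m then
    psi (Int.fract (fb k a b w.1)) * (1 / (H : ℝ) ^ 2) else 0

theorem JJ_sum (k : ℕ) (a : ℝ) (b : Fin k → ℝ) (c4 p H : ℕ) (A N : ℤ) :
    ∑ j ∈ JJ c4 p H, (if A + nn k a b j = N then cc k a b H j else 0) =
      ((rr k a b c4 p (N - A) - mm k a b c4 p H (N - A) : ℝ) : ℂ) := by
  unfold JJ rr mm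
  rw [Finset.sum_disjSum]
  simp only [cc, nn, Sum.elim_inl, Sum.elim_inr]
  push_cast
  rw [sub_eq_add_neg, ← Finset.sum_neg_distrib]
  congr 1
  · apply Finset.sum_congr rfl
    intro z _
    have : A + ⌊fb k a b z⌋ = N ↔ ⌊fb k a b z⌋ = N - A := by omega
    simp only [this]
    split_ifs
    · rfl
    · simp
  · apply Finset.sum_congr rfl
    intro w _
    have : A + (⌊fb k a b w.1⌋ + ((w.2.1 : ℤ) - w.2.2)) = N ↔ ⌊fb k a b w.1⌋ + ((w.2.1 : ℤ) - w.2.2) = N - A := by omega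
    simp only [this]
    split_ifs
    · unfold psiC
      push_cast
      ring
    · simp

/-- the main term is large -/
theorem mm_ge (k : ℕ) (hk : 1 ≤ k) (a : ℝ) (ha : 0 < a) (b : Fin k → ℝ) (B : ℝ) (hB : 0 ≤ B) (hb : ∀ i, |b i| ≤ B)
    (Cm : ℝ) (hCm : 0 ≤ Cm) (c4 C5 : ℕ) (hc4 : 1 ≤ c4) (h4 : Cm / a ≤ ((c4 : ℝ) - 1) ^ k)
    (h5 : 2 * (a * k + k * B + 1) * (c4 : ℝ) ^ (k - 1) ≤ C5) (hC5 : 1 ≤ C5) (p : ℕ)
    (hbl : ∀ i : ℕ, i < c4 * 2 ^ (p / 10) →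
      ‖∑ x ∈ Icc (((i * LL p : ℕ) : ℤ) + 1) (((i + 1) * LL p : ℕ) : ℤ), e (fb k a b x)‖ ≤ (LL p : ℝ) / 4)
    (m : ℤ) (hm0 : 0 ≤ m) (hm1 : (m : ℝ) ≤ Cm * ((2 : ℝ) ^ p) ^ k) :
    1 / (8 * C5 * ((2 : ℝ) ^ p) ^ (k - 1)) ≤ mm k a b c4 p (HH k C5 p) m := by
  obtain ⟨i, hi, hz⟩ := geo k hk a ha b B hB hb Cm hCm c4 C5 hc4 h4 h5 p m hm0 hm1
  set H := HH k C5 p with hH
  have hH1 : 1 ≤ H := HH_pos k C5 p hC5
  have hH0 : (0 : ℝ) < H := by exact_mod_cast hH1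
  set Bl := Icc (((i * LL p : ℕ) : ℤ) + 1) (((i + 1) * LL p : ℕ) : ℤ) with hBl
  have hcard : (Bl.card : ℝ) = LL p := by
    rw [hBl, Int.card_Icc]
    have : ((((i + 1) * LL p : ℕ) : ℤ) + 1 - (((i * LL p : ℕ) : ℤ) + 1)).toNat = LL p := by
      have : (((i + 1) * LL p : ℕ) : ℤ) = ((i * LL p : ℕ) : ℤ) + LL p := by push_cast; ring
      rw [this]; omega
    rw [this]
  have h6 := psi_block Bl (fun x => fb k a b x) (by rw [hcard]; exact hbl i hi)
  rw [hcard] at h6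
  have hsub : Bl ⊆ ZZ c4 p := fun z hz' => (hz z hz').1
  unfold mm
  rw [Finset.sum_product]
  have h7 : ∀ z ∈ Bl, psi (Int.fract (fb k a b z)) * (1 / (2 * (H : ℝ))) ≤
      ∑ w ∈ range H ×ˢ range H, (if ⌊fb k a b z⌋ + ((w.1 : ℤ) - w.2) = m then
        psi (Int.fract (fb k a b z)) * (1 / (H : ℝ) ^ 2) else 0) := by
    intro z hz'
    have h8 := fejer_cnt H (m - ⌊fb k a b z⌋) (hz z hz').2
    rw [← Finset.sum_filter, Finset.sum_const, nsmul_eq_mul]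
    have h9 : (range H ×ˢ range H).filter (fun w : ℕ × ℕ => ⌊fb k a b z⌋ + ((w.1 : ℤ) - w.2) = m) =
        (range H ×ˢ range H).filter (fun w : ℕ × ℕ => (w.1 : ℤ) - w.2 = m - ⌊fb k a b z⌋) := by
      apply Finset.filter_congr
      intro w _
      omega
    rw [h9]
    have h10 : 0 ≤ psi (Int.fract (fb k a b z)) * (1 / (H : ℝ) ^ 2) := mul_nonneg (psi_nonneg _) (by positivity)
    calc psi (Int.fract (fb k a b z)) * (1 / (2 * (H : ℝ))) = (H : ℝ) / 2 * (psi (Int.fract (fb k a b z)) * (1 / (H : ℝ) ^ 2)) := by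
          field_simp
      _ ≤ _ := mul_le_mul_of_nonneg_right h8 h10
  have h8 : ∑ z ∈ Bl, psi (Int.fract (fb k a b z)) * (1 / (2 * (H : ℝ))) ≤
      ∑ z ∈ ZZ c4 p, ∑ w ∈ range H ×ˢ range H, (if ⌊fb k a b z⌋ + ((w.1 : ℤ) - w.2) = m then
        psi (Int.fract (fb k a b z)) * (1 / (H : ℝ) ^ 2) else 0) := by
    refine (Finset.sum_le_sum h7).trans ?_
    apply Finset.sum_le_sum_of_subset_of_nonneg hsub
    intro z _ _
    apply Finset.sum_nonneg
    intro w _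
    split_ifs
    · exact mul_nonneg (psi_nonneg _) (by positivity)
    · exact le_rfl
  refine le_trans ?_ h8
  rw [← Finset.sum_mul]
  have h9 : (LL p : ℝ) / 4 * (1 / (2 * (H : ℝ))) ≤ (∑ z ∈ Bl, psi (Int.fract (fb k a b z))) * (1 / (2 * (H : ℝ))) :=
    mul_le_mul_of_nonneg_right h6 (by positivity)
  refine le_trans (le_of_eq ?_) h9
  rw [hH]
  unfold HH
  push_cast
  have hL0 : (LL p : ℝ) ≠ 0 := by
    have := LL_pos p
    exact_mod_cast (by omega : LL p ≠ 0)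
  have hC0 : (C5 : ℝ) ≠ 0 := by exact_mod_cast (by omega : C5 ≠ 0)
  field_simp
  norm_num

/-- sums of integer parts over the box -/
noncomputable def uu (k : ℕ) (a : ℝ) (b : Fin k → ℝ) (x : Fin k → ℕ) : ℤ := ∑ l, ⌊fb k a b (x l)⌋

theorem uu_le (k : ℕ) (a : ℝ) (ha : 0 < a) (b : Fin k → ℝ) (B : ℝ) (hB : 0 ≤ B) (hb : ∀ i, |b i| ≤ B) (p : ℕ)
    (x : Fin k → ℕ) (hx : x ∈ BB k (2 ^ p)) :
    |(uu k a b x : ℝ)| ≤ (k * ((a + k * B) * (2 * k + 2) ^ k + 1)) * ((2 : ℝ) ^ p) ^ k := by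
  rw [mem_BB] at hx
  set X : ℝ := (2 : ℝ) ^ p with hX
  have hX1 : 1 ≤ X := one_le_pow₀ (by norm_num)
  unfold uu
  push_cast
  refine (Finset.abs_sum_le_sum_abs _ _).trans ?_
  have h1 : ∀ l ∈ (univ : Finset (Fin k)), |(⌊fb k a b (x l)⌋ : ℝ)| ≤ ((a + k * B) * (2 * k + 2) ^ k + 1) * X ^ k := by
    intro l _
    obtain ⟨h2, h3⟩ := hx l
    have h4 : (1 : ℝ) ≤ x l := by
      have h5 : 1 ≤ 2 ^ p := Nat.one_le_two_pow
      have : 1 ≤ x l := by nlinarith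
      exact_mod_cast this
    have h5 : (x l : ℝ) ≤ (2 * k + 2) * X := by
      have h6 : x l ≤ (2 * k + 2) * 2 ^ p := h3.trans (Nat.mul_le_mul_right _ (by have := l.2; omega))
      rw [hX]
      exact_mod_cast h6
    have h6 := fb_le k a ha b B hb (x l) ((2 * k + 2) * X) h4 h5
    rw [mul_pow] at h6
    have h7 : |(⌊fb k a b (x l)⌋ : ℝ)| ≤ |fb k a b (x l)| + 1 := by
      have h8 := Int.floor_le (fb k a b (x l))
      have h9 := Int.lt_floor_add_one (fb k a b (x l))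
      rw [abs_le]
      have h10 := neg_abs_le (fb k a b (x l))
      have h11 := le_abs_self (fb k a b (x l))
      constructor <;> linarith
    have h8 : 1 ≤ X ^ k := one_le_pow₀ hX1
    calc |(⌊fb k a b (x l)⌋ : ℝ)| ≤ |fb k a b (x l)| + 1 := h7
      _ ≤ (a + k * B) * ((2 * k + 2) ^ k * X ^ k) + X ^ k := add_le_add h6 h8
      _ = _ := by ring
  refine (Finset.sum_le_sum h1).trans (le_of_eq ?_)
  rw [Finset.sum_const, Finset.card_univ, Fintype.card_fin, nsmul_eq_mul]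
  ring

/-- the energy is controlled by the number of near collisions -/
theorem energy_le (k : ℕ) (a : ℝ) (b : Fin k → ℝ) (P : ℕ) :
    (((BB k P ×ˢ BB k P).filter (fun z => uu k a b z.1 = uu k a b z.2)).card : ℝ) ≤ NC k a b P := by
  unfold NC
  have h1 : (BB k P ×ˢ BB k P).filter (fun z => uu k a b z.1 = uu k a b z.2) ⊆
      (BB k P ×ˢ BB k P).filter (fun z => |∑ l, fb k a b (z.1 l) - ∑ l, fb k a b (z.2 l)| ≤ k) := by
    intro z hz
    rw [Finset.mem_filter] at hz ⊢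
    refine ⟨hz.1, ?_⟩
    have h2 : ∀ x : Fin k → ℕ, ∑ l, fb k a b (x l) = (uu k a b x : ℝ) + ∑ l, Int.fract (fb k a b (x l)) := by
      intro x
      unfold uu
      push_cast
      rw [← Finset.sum_add_distrib]
      apply Finset.sum_congr rfl
      intro l _
      rw [Int.floor_add_fract]
    have h3 : ∀ x : Fin k → ℕ, 0 ≤ ∑ l, Int.fract (fb k a b (x l)) :=
      fun x => Finset.sum_nonneg (fun l _ => Int.fract_nonneg _)
    have h4 : ∀ x : Fin k → ℕ, ∑ l, Int.fract (fb k a b (x l)) ≤ k := by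
      intro x
      calc ∑ l, Int.fract (fb k a b (x l)) ≤ ∑ _l : Fin k, (1 : ℝ) :=
            Finset.sum_le_sum (fun l _ => (Int.fract_lt_one _).le)
        _ = k := by simp
    rw [h2, h2, hz.2, abs_le]
    have := h3 z.1
    have := h3 z.2
    have := h4 z.1
    have := h4 z.2
    constructor <;> linarith
  exact_mod_cast Finset.card_le_card h1

end Pool.Agent.Y867.WR
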