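import Pool.Agent.Y867.WR.AsmB

/-! # Assembly: representation at dyadic scales -/

set_option autoImplicit false

open MeasureTheory Filter Finset

namespace Pool.Agent.Y867.WR

open Pool.Agent.W928.MW (e e_add e_norm e_cont e_lip)

/-- the generic properties used -/
def Good (k : ℕ) (a : ℝ) (b : Fin k → ℝ) : Prop :=
  (∀ᶠ p : ℕ in atTop, (NC k a b (2 ^ p) : ℝ) ≤ ((p : ℝ) + 1) ^ 3 * ((2 : ℝ) ^ p) ^ k) ∧
  (∀ c4 : ℕ, 1 ≤ c4 → ∀ᶠ p : ℕ in atTop, ∀ β : ℝ, ((2 : ℝ) ^ p) ^ ((1 / 20 : ℝ) - k) ≤ |β| →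
    |β| ≤ ((2 : ℝ) ^ p) ^ (1 / 40 : ℝ) →
    ‖∑ n ∈ Icc 1 ((c4 * 2 ^ p : ℕ) : ℤ), e (β * fb k a b n)‖ ≤ ((2 : ℝ) ^ p) ^ (1 - sg k)) ∧
  (∀ c4 : ℕ, ∀ᶠ p : ℕ in atTop, ∀ m : ℕ, m < c4 * 2 ^ (p / 10) →
    ‖∑ x ∈ Icc (((m * 2 ^ (p - p / 10) : ℕ) : ℤ) + 1) (((m + 1) * 2 ^ (p - p / 10) : ℕ) : ℤ), e (fb k a b x)‖ ≤
      ((2 ^ (p - p / 10) : ℕ) : ℝ) / 4)

theorem good_ae (k : ℕ) (hk : 2 ≤ k) (a : ℝ) (ha : 0 < a) : ∀ᵐ b : Fin k → ℝ, Good k a b := by
  have h2 : ∀ᵐ b : Fin k → ℝ, ∀ c4 : ℕ, 1 ≤ c4 → ∀ᶠ p : ℕ in atTop, ∀ β : ℝ, ((2 : ℝ) ^ p) ^ ((1 / 20 : ℝ) - k) ≤ |β| →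
    |β| ≤ ((2 : ℝ) ^ p) ^ (1 / 40 : ℝ) →
    ‖∑ n ∈ Icc 1 ((c4 * 2 ^ p : ℕ) : ℤ), e (β * fb k a b n)‖ ≤ ((2 : ℝ) ^ p) ^ (1 - sg k) := by
    rw [ae_all_iff]
    intro c4
    by_cases hc : 1 ≤ c4
    · filter_upwards [minor_ae k hk a ha c4 hc] with b hb _
      exact hb
    · exact Eventually.of_forall (fun b h => absurd h hc)
  have h3 : ∀ᵐ b : Fin k → ℝ, ∀ c4 : ℕ, ∀ᶠ p : ℕ in atTop, ∀ m : ℕ, m < c4 * 2 ^ (p / 10) →
    ‖∑ x ∈ Icc (((m * 2 ^ (p - p / 10) : ℕ) : ℤ) + 1) (((m + 1) * 2 ^ (p - p / 10) : ℕ) : ℤ), e (fb k a b x)‖ ≤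
      ((2 ^ (p - p / 10) : ℕ) : ℝ) / 4 := by
    rw [ae_all_iff]
    intro c4
    exact blocks_ae k hk a c4
  filter_upwards [energy_ae k a ha, h2, h3] with b hb1 hb2 hb3
  exact ⟨hb1, hb2, hb3⟩

theorem BB_card_ge (k p : ℕ) : ((2 : ℝ) ^ p) ^ k ≤ ((BB k (2 ^ p)).card : ℝ) := by
  rw [BB_card]
  push_cast
  exact pow_le_pow_left₀ (by positivity) (by linarith) k

/-- representations at the scale `2^p` -/
theorem core (k : ℕ) (hk : 2 ≤ k) (a : ℝ) (ha : 0 < a) (b : Fin k → ℝ) (hG : Good k a b) :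
    ∃ (C3 c4 : ℕ) (c : ℝ), 1 ≤ C3 ∧ 1 ≤ c4 ∧ 0 < c ∧
    (∀ (p : ℕ) (x : Fin k → ℕ), x ∈ BB k (2 ^ p) → 2 * |(uu k a b x : ℝ)| + 1 ≤ C3 * ((2 : ℝ) ^ p) ^ k) ∧
    (∀ᶠ p : ℕ in atTop, ∀ N : ℤ, (C3 : ℝ) * ((2 : ℝ) ^ p) ^ k ≤ N → (N : ℝ) ≤ 2 ^ k * C3 * ((2 : ℝ) ^ p) ^ k →
      c * ((2 : ℝ) ^ p) ^ (k + 1) ≤ ∑ x ∈ BB k (2 ^ p), ∑ y ∈ BB k (2 ^ p), rr k a b c4 p (N - (uu k a b x + uu k a b y))) ∧
    (∀ᶠ p : ℕ in atTop, ∀ E : Finset ℤ, (∀ N ∈ E, (C3 : ℝ) * ((2 : ℝ) ^ p) ^ k ≤ N ∧ (N : ℝ) ≤ 2 ^ k * C3 * ((2 : ℝ) ^ p) ^ k ∧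
      ∀ x ∈ BB k (2 ^ p), rr k a b c4 p (N - uu k a b x) = 0) → (E.card : ℝ) ≤ ((2 : ℝ) ^ p) ^ ((k : ℝ) - sg k)) := by
  classical
  obtain ⟨hG1, hG2, hG3⟩ := hG
  set B : ℝ := ∑ i, |b i| with hB
  have hB0 : 0 ≤ B := Finset.sum_nonneg (fun i _ => abs_nonneg _)
  have hbB : ∀ i, |b i| ≤ B := fun i => Finset.single_le_sum (f := fun i => |b i|) (fun i _ => abs_nonneg _) (Finset.mem_univ i)
  set Cu : ℝ := k * ((a + k * B) * (2 * k + 2) ^ k + 1) with hCu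
  have hCu0 : 0 ≤ Cu := by positivity
  set C3 : ℕ := ⌈2 * Cu + 1⌉₊ with hC3
  have hC3r : 2 * Cu + 1 ≤ C3 := Nat.le_ceil _
  have hC31 : (1 : ℝ) ≤ C3 := by linarith
  set Cm : ℝ := 2 ^ k * C3 + 2 * Cu with hCm
  have hCm0 : 0 ≤ Cm := by positivity
  set c4 : ℕ := ⌈Cm / a⌉₊ + 2 with hc4
  have hc41 : 1 ≤ c4 := by omega
  have h4 : Cm / a ≤ ((c4 : ℝ) - 1) ^ k := by
    have h1 : Cm / a ≤ (⌈Cm / a⌉₊ : ℝ) := Nat.le_ceil _
    have h2 : (c4 : ℝ) - 1 = (⌈Cm / a⌉₊ : ℝ) + 1 := by rw [hc4]; push_cast; ring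
    rw [h2]
    have h3 : (1 : ℝ) ≤ (⌈Cm / a⌉₊ : ℝ) + 1 := by
      have : (0 : ℝ) ≤ (⌈Cm / a⌉₊ : ℝ) := by positivity
      linarith
    calc Cm / a ≤ ((⌈Cm / a⌉₊ : ℝ) + 1) ^ 1 := by rw [pow_one]; linarith
      _ ≤ _ := pow_le_pow_right₀ h3 (by omega)
  set C5 : ℕ := ⌈2 * (a * k + k * B + 1) * (c4 : ℝ) ^ (k - 1)⌉₊ with hC5
  have h5 : 2 * (a * k + k * B + 1) * (c4 : ℝ) ^ (k - 1) ≤ C5 := Nat.le_ceil _
  have hC51 : 1 ≤ C5 := by
    rw [hC5]
    apply Nat.ceil_pos.mpr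
    have : (0 : ℝ) < c4 := by exact_mod_cast hc41
    positivity
  have hC5r : (1 : ℝ) ≤ C5 := by exact_mod_cast hC51
  obtain ⟨C6, hC6, hsup⟩ := sup_bound k hk a b c4 C5 hc41 hC51 (hG2 c4 hc41)
  have hs0 := sg_pos k
  have hs1 := sg_le k
  have huu : ∀ (p : ℕ) (x : Fin k → ℕ), x ∈ BB k (2 ^ p) → |(uu k a b x : ℝ)| ≤ Cu * ((2 : ℝ) ^ p) ^ k :=
    fun p x hx => uu_le k a ha b B hB0 hbB p x hx
  -- range of m
  have hrange : ∀ (p : ℕ) (N : ℤ) (A : ℤ), (C3 : ℝ) * ((2 : ℝ) ^ p) ^ k ≤ N → (N : ℝ) ≤ 2 ^ k * C3 * ((2 : ℝ) ^ p) ^ k →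
      |(A : ℝ)| ≤ 2 * Cu * ((2 : ℝ) ^ p) ^ k → 0 ≤ N - A ∧ ((N - A : ℤ) : ℝ) ≤ Cm * ((2 : ℝ) ^ p) ^ k := by
    intro p N A h1 h2 h3
    have hXk : 0 < ((2 : ℝ) ^ p) ^ k := by positivity
    rw [abs_le] at h3
    constructor
    · have : (0 : ℝ) ≤ ((N - A : ℤ) : ℝ) := by
        push_cast
        nlinarith
      exact_mod_cast this
    · push_cast
      rw [hCm]
      nlinarith
  refine ⟨C3, c4, 1 / (16 * C5), by exact_mod_cast hC31, hc41, by positivity, ?_, ?_, ?_⟩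
  · intro p x hx
    have h1 := huu p x hx
    have h2 : 1 ≤ ((2 : ℝ) ^ p) ^ k := one_le_pow₀ (one_le_pow₀ (by norm_num))
    nlinarith
  · filter_upwards [hsup, hG1, hG3 c4, ev_poly (16 * C5 * C6) (sg k) hs0 3] with p hp1 hp2 hp3 hp4 N hN1 hN2
    set X : ℝ := (2 : ℝ) ^ p with hX
    have hX1 : 1 ≤ X := one_le_pow₀ (by norm_num)
    have hX0 : 0 < X := by linarith
    have h6 := CM1 (BB k (2 ^ p)) (uu k a b) (JJ c4 p (HH k C5 p)) (cc k a b (HH k C5 p)) (nn k a b) _ hp1 N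
    have h7 : ∑ x ∈ BB k (2 ^ p), ∑ y ∈ BB k (2 ^ p), ∑ j ∈ JJ c4 p (HH k C5 p),
        (if uu k a b x + uu k a b y + nn k a b j = N then cc k a b (HH k C5 p) j else 0) =
        ((∑ x ∈ BB k (2 ^ p), ∑ y ∈ BB k (2 ^ p), (rr k a b c4 p (N - (uu k a b x + uu k a b y)) -
          mm k a b c4 p (HH k C5 p) (N - (uu k a b x + uu k a b y))) : ℝ) : ℂ) := by
      push_cast
      apply Finset.sum_congr rfl
      intro x _
      apply Finset.sum_congr rfl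
      intro y _
      have := JJ_sum k a b c4 p (HH k C5 p) (uu k a b x + uu k a b y) N
      push_cast at this
      exact this
    rw [h7, Complex.norm_real, Real.norm_eq_abs] at h6
    have h8 := (abs_le.mp h6).1
    simp only [Finset.sum_sub_distrib] at h8
    have h9 : X ^ (k + 1) / (8 * C5) ≤ ∑ x ∈ BB k (2 ^ p), ∑ y ∈ BB k (2 ^ p), mm k a b c4 p (HH k C5 p) (N - (uu k a b x + uu k a b y)) := by
      have h10 : ∀ x ∈ BB k (2 ^ p), ∀ y ∈ BB k (2 ^ p), 1 / (8 * C5 * X ^ (k - 1)) ≤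
          mm k a b c4 p (HH k C5 p) (N - (uu k a b x + uu k a b y)) := by
        intro x hx y hy
        obtain ⟨h11, h12⟩ := hrange p N (uu k a b x + uu k a b y) hN1 hN2 (by
          push_cast
          have := huu p x hx
          have := huu p y hy
          refine (abs_add_le _ _).trans ?_
          linarith)
        exact mm_ge k (by omega) a ha b B hB0 hbB Cm hCm0 c4 C5 hc41 h4 h5 hC51 p hp3 _ h11 h12
      have h11 : ∑ x ∈ BB k (2 ^ p), ∑ _y ∈ BB k (2 ^ p), 1 / (8 * C5 * X ^ (k - 1)) ≤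
          ∑ x ∈ BB k (2 ^ p), ∑ y ∈ BB k (2 ^ p), mm k a b c4 p (HH k C5 p) (N - (uu k a b x + uu k a b y)) :=
        Finset.sum_le_sum (fun x hx => Finset.sum_le_sum (fun y hy => h10 x hx y hy))
      refine le_trans ?_ h11
      rw [Finset.sum_const, Finset.sum_const, nsmul_eq_mul, nsmul_eq_mul]
      have h12 := BB_card_ge k p
      rw [← hX] at h12
      have h13 : X ^ (k + 1) / (8 * C5) = X ^ k * (X ^ k * (1 / (8 * C5 * X ^ (k - 1)))) := by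
        have h14 : X ^ k = X ^ (k - 1) * X := by
          rw [← pow_succ]; congr 1; omega
        rw [pow_succ, h14]
        field_simp
      rw [h13]
      have h15 : 0 ≤ 1 / (8 * (C5 : ℝ) * X ^ (k - 1)) := by positivity
      apply mul_le_mul h12 (mul_le_mul_of_nonneg_right h12 h15) (by positivity) (by positivity)
    have h10 : C6 * X ^ (1 - sg k) * (((BB k (2 ^ p) ×ˢ BB k (2 ^ p)).filter (fun z => uu k a b z.1 = uu k a b z.2)).card : ℝ) ≤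
        X ^ (k + 1) / (16 * C5) := by
      have h11 := (energy_le k a b (2 ^ p)).trans hp2
      calc C6 * X ^ (1 - sg k) * (((BB k (2 ^ p) ×ˢ BB k (2 ^ p)).filter (fun z => uu k a b z.1 = uu k a b z.2)).card : ℝ)
          ≤ C6 * X ^ (1 - sg k) * (((p : ℝ) + 1) ^ 3 * X ^ k) := mul_le_mul_of_nonneg_left h11 (by positivity)
        _ = (16 * C5 * C6 * ((p : ℝ) + 1) ^ 3) * (X ^ (1 - sg k) * X ^ k) / (16 * C5) := by
            field_simp
        _ ≤ X ^ sg k * (X ^ (1 - sg k) * X ^ k) / (16 * C5) := by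
            apply div_le_div_of_nonneg_right _ (by positivity)
            exact mul_le_mul_of_nonneg_right hp4 (by positivity)
        _ = _ := by
            congr 1
            rw [← mul_assoc, ← Real.rpow_add hX0, pow_succ]
            have : sg k + (1 - sg k) = 1 := by ring
            rw [this, Real.rpow_one]
            ring
    have h11 : X ^ (k + 1) / (8 * C5) = X ^ (k + 1) / (16 * C5) + 1 / (16 * C5) * X ^ (k + 1) := by
      field_simp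
      norm_num
    linarith
  · filter_upwards [hsup, hG1, hG3 c4, ev_poly (64 * C5 ^ 2 * C6 ^ 2) (sg k) hs0 3] with p hp1 hp2 hp3 hp4 E hE
    set X : ℝ := (2 : ℝ) ^ p with hX
    have hX1 : 1 ≤ X := one_le_pow₀ (by norm_num)
    have hX0 : 0 < X := by linarith
    set s : ℝ := C6 * X ^ (1 - sg k) with hs
    have hspos : 0 < s := by positivity
    set μ : ℝ := X / (8 * C5) with hμ
    have hμ0 : 0 < μ := by positivity
    set En : ℝ := (((BB k (2 ^ p) ×ˢ BB k (2 ^ p)).filter (fun z => uu k a b z.1 = uu k a b z.2)).card : ℝ) with hEn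
    have h6 := CM2 (BB k (2 ^ p)) (uu k a b) (JJ c4 p (HH k C5 p)) (cc k a b (HH k C5 p)) (nn k a b) s hp1 hspos.le E
      (s / μ) (by positivity)
    have h7 : ∑ N ∈ E, ∑ x ∈ BB k (2 ^ p), ∑ j ∈ JJ c4 p (HH k C5 p),
        (if uu k a b x + nn k a b j = N then cc k a b (HH k C5 p) j else 0) =
        ((∑ N ∈ E, ∑ x ∈ BB k (2 ^ p), (rr k a b c4 p (N - uu k a b x) -
          mm k a b c4 p (HH k C5 p) (N - uu k a b x)) : ℝ) : ℂ) := by
      push_cast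
      apply Finset.sum_congr rfl
      intro N _
      apply Finset.sum_congr rfl
      intro x _
      have := JJ_sum k a b c4 p (HH k C5 p) (uu k a b x) N
      push_cast at this
      exact this
    rw [h7, Complex.norm_real, Real.norm_eq_abs] at h6
    have h8 := (abs_le.mp h6).1
    have h9 : ∑ N ∈ E, ∑ x ∈ BB k (2 ^ p), (rr k a b c4 p (N - uu k a b x) - mm k a b c4 p (HH k C5 p) (N - uu k a b x)) ≤
        -(μ * E.card) := by
      have h10 : ∀ N ∈ E, ∑ x ∈ BB k (2 ^ p), (rr k a b c4 p (N - uu k a b x) - mm k a b c4 p (HH k C5 p) (N - uu k a b x)) ≤ -μ := by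
        intro N hN
        obtain ⟨hN1, hN2, hN3⟩ := hE N hN
        have h11 : ∀ x ∈ BB k (2 ^ p), rr k a b c4 p (N - uu k a b x) - mm k a b c4 p (HH k C5 p) (N - uu k a b x) ≤
            -(1 / (8 * C5 * X ^ (k - 1))) := by
          intro x hx
          rw [hN3 x hx]
          obtain ⟨h12, h13⟩ := hrange p N (uu k a b x) hN1 hN2 (by
            have h14 := huu p x hx
            have : 0 ≤ Cu * ((2 : ℝ) ^ p) ^ k := by positivity
            linarith)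
          have := mm_ge k (by omega) a ha b B hB0 hbB Cm hCm0 c4 C5 hc41 h4 h5 hC51 p hp3 _ h12 h13
          rw [← hX] at this
          linarith
        refine (Finset.sum_le_sum h11).trans ?_
        rw [Finset.sum_const, nsmul_eq_mul, mul_neg, neg_le_neg_iff]
        have h12 := BB_card_ge k p
        rw [← hX] at h12
        have h13 : μ = X ^ k * (1 / (8 * C5 * X ^ (k - 1))) := by
          have h14 : X ^ k = X ^ (k - 1) * X := by
            rw [← pow_succ]; congr 1; omega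
          rw [h14, hμ]
          field_simp
        rw [h13]
        exact mul_le_mul_of_nonneg_right h12 (by positivity)
      refine (Finset.sum_le_sum h10).trans (le_of_eq ?_)
      rw [Finset.sum_const, nsmul_eq_mul]
      ring
    have h10 : μ * E.card ≤ s * ((s / μ * En + E.card / (s / μ)) / 2) := by linarith
    have h11 : s * ((s / μ * En + (E.card : ℝ) / (s / μ)) / 2) = s ^ 2 / μ * En / 2 + μ * E.card / 2 := by
      field_simp
    rw [h11] at h10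
    have h12 : (E.card : ℝ) ≤ s ^ 2 * En / μ ^ 2 := by
      rw [le_div_iff₀ (by positivity)]
      have h13 : μ * E.card ≤ s ^ 2 / μ * En := by linarith
      have h14 := mul_le_mul_of_nonneg_right h13 hμ0.le
      have h15 : s ^ 2 / μ * En * μ = s ^ 2 * En := by field_simp
      rw [h15] at h14
      calc (E.card : ℝ) * μ ^ 2 = μ * E.card * μ := by ring
        _ ≤ _ := h14
    refine h12.trans ?_
    have h13 : En ≤ ((p : ℝ) + 1) ^ 3 * X ^ k := (energy_le k a b (2 ^ p)).trans hp2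
    calc s ^ 2 * En / μ ^ 2 ≤ s ^ 2 * (((p : ℝ) + 1) ^ 3 * X ^ k) / μ ^ 2 := by
          apply div_le_div_of_nonneg_right _ (by positivity)
          exact mul_le_mul_of_nonneg_left h13 (by positivity)
      _ = (64 * C5 ^ 2 * C6 ^ 2 * ((p : ℝ) + 1) ^ 3) * ((X ^ (1 - sg k)) ^ 2 * X ^ k / X ^ 2) := by
          rw [hs, hμ]
          field_simp
          norm_num
      _ ≤ X ^ sg k * ((X ^ (1 - sg k)) ^ 2 * X ^ k / X ^ 2) := mul_le_mul_of_nonneg_right hp4 (by positivity)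
      _ = _ := by
          have e1 : (X ^ (1 - sg k)) ^ 2 = X ^ (2 - 2 * sg k) := by
            rw [← Real.rpow_natCast, ← Real.rpow_mul hX0.le]
            congr 1
            push_cast
            ring
          have e2 : X ^ k = X ^ (k : ℝ) := (Real.rpow_natCast X k).symm
          have e3 : X ^ 2 = X ^ (2 : ℝ) := by
            rw [← Real.rpow_natCast]; norm_num
          rw [e1, e2, e3, ← Real.rpow_add hX0, ← Real.rpow_sub hX0, ← Real.rpow_add hX0]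
          congr 1
          ring

end Pool.Agent.Y867.WR
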