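import Pool.Agent.Y867.WR.Sec

/-! # The circle method inequalities -/

set_option autoImplicit false

open MeasureTheory Filter Finset

namespace Pool.Agent.Y867.WR

open Pool.Agent.W928.MW (e e_add e_norm e_cont e_lip)
open Pool.Agent.TH181.MW (e_conj)

theorem e_int_one (n : ℤ) : e (n : ℝ) = 1 := by
  unfold Pool.Agent.W928.MW.e
  have : 2 * (Real.pi : ℂ) * Complex.I * ((n : ℝ) : ℂ) = n * (2 * Real.pi * Complex.I) := by push_cast; ring
  rw [this]
  exact Complex.exp_int_mul_two_pi_mul_I n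

/-- orthogonality on `[-1/2,1/2]` -/
theorem ortho (n : ℤ) : ∫ θ in (-(1 / 2) : ℝ)..(1 / 2), e (θ * n) = if n = 0 then 1 else 0 := by
  have hper : Function.Periodic (fun θ : ℝ => e (θ * n)) 1 := by
    intro θ
    dsimp only
    rw [add_mul, one_mul, e_add, e_int_one, mul_one]
  have h1 := hper.intervalIntegral_add_eq (-(1 / 2)) 0
  have h2 : (-(1 / 2) : ℝ) + 1 = 1 / 2 := by norm_num
  rw [h2, zero_add] at h1
  rw [h1]
  have h3 := Pool.Agent.TH181.MX.int_e 0 1 n
  push_cast at h3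
  rw [h3]
  split_ifs <;> simp

theorem e_contf {ι : Type*} (X : Finset ι) (c : ι → ℂ) (u : ι → ℤ) : Continuous (fun θ : ℝ => ∑ x ∈ X, c x * e (θ * u x)) := by
  apply continuous_finsetSum
  intro x _
  exact continuous_const.mul (e_cont.comp (by fun_prop))

theorem e_contf' {ι : Type*} (X : Finset ι) (u : ι → ℤ) : Continuous (fun θ : ℝ => ∑ x ∈ X, e (θ * u x)) := by
  apply continuous_finsetSum
  intro x _
  exact e_cont.comp (by fun_prop)

/-- the energy as an integral -/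
theorem energy_int {ι : Type*} [DecidableEq ι] (X : Finset ι) (u : ι → ℤ) :
    ∫ θ in (-(1 / 2) : ℝ)..(1 / 2), ‖∑ x ∈ X, e (θ * u x)‖ ^ 2 = (((X ×ˢ X).filter (fun z => u z.1 = u z.2)).card : ℝ) := by
  have h1 : ((∫ θ in (-(1 / 2) : ℝ)..(1 / 2), ‖∑ x ∈ X, e (θ * u x)‖ ^ 2 : ℝ) : ℂ) =
      ((((X ×ˢ X).filter (fun z => u z.1 = u z.2)).card : ℝ) : ℂ) := by
    rw [← intervalIntegral.integral_ofReal]
    have h2 : ∀ θ : ℝ, ((‖∑ x ∈ X, e (θ * u x)‖ ^ 2 : ℝ) : ℂ) = ∑ z ∈ X ×ˢ X, e (θ * ((u z.1 - u z.2 : ℤ) : ℝ)) := by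
      intro θ
      rw [sq_e, Finset.sum_product]
      apply Finset.sum_congr rfl
      intro x _
      apply Finset.sum_congr rfl
      intro y _
      congr 1
      push_cast
      ring
    simp_rw [h2]
    have hc : ∀ m : ℤ, Continuous (fun θ : ℝ => e (θ * (m : ℝ))) := fun m => e_cont.comp (by fun_prop)
    rw [intervalIntegral.integral_finsetSum (fun z _ => (hc _).intervalIntegrable _ _)]
    simp_rw [ortho]
    rw [Finset.card_filter]
    push_cast
    apply Finset.sum_congr rfl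
    intro z _
    simp only [sub_eq_zero]
    split_ifs <;> simp
  exact_mod_cast h1

/-- first inequality: two copies of `X` and one of `J` -/
theorem CM1 {ι κ : Type*} [DecidableEq ι] (X : Finset ι) (u : ι → ℤ) (J : Finset κ) (c : κ → ℂ) (n : κ → ℤ) (s : ℝ)
    (hs : ∀ θ : ℝ, |θ| ≤ 1 / 2 → ‖∑ j ∈ J, c j * e (θ * n j)‖ ≤ s) (N : ℤ) :
    ‖∑ x ∈ X, ∑ y ∈ X, ∑ j ∈ J, (if u x + u y + n j = N then c j else 0)‖ ≤
      s * (((X ×ˢ X).filter (fun z => u z.1 = u z.2)).card : ℝ) := by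
  have h1 : ∑ x ∈ X, ∑ y ∈ X, ∑ j ∈ J, (if u x + u y + n j = N then c j else 0) =
      ∫ θ in (-(1 / 2) : ℝ)..(1 / 2), (∑ x ∈ X, e (θ * u x)) * (∑ y ∈ X, e (θ * u y)) * (∑ j ∈ J, c j * e (θ * n j)) * e (θ * ((-N : ℤ) : ℝ)) := by
    have h2 : ∀ θ : ℝ, (∑ x ∈ X, e (θ * u x)) * (∑ y ∈ X, e (θ * u y)) * (∑ j ∈ J, c j * e (θ * n j)) * e (θ * ((-N : ℤ) : ℝ)) =
        ∑ x ∈ X, ∑ y ∈ X, ∑ j ∈ J, c j * e (θ * ((u x + u y + n j - N : ℤ) : ℝ)) := by
      intro θ
      rw [Finset.sum_mul_sum, Finset.sum_mul, Finset.sum_mul]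
      apply Finset.sum_congr rfl
      intro x _
      rw [Finset.sum_mul, Finset.sum_mul]
      apply Finset.sum_congr rfl
      intro y _
      rw [Finset.mul_sum, Finset.sum_mul]
      apply Finset.sum_congr rfl
      intro j _
      have h3 : e (θ * ((u x + u y + n j - N : ℤ) : ℝ)) = e (θ * u x) * e (θ * u y) * e (θ * n j) * e (θ * ((-N : ℤ) : ℝ)) := by
        rw [← e_add, ← e_add, ← e_add]
        congr 1
        push_cast
        ring
      rw [h3]
      ring
    simp_rw [h2]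
    have hc : ∀ (c : ℂ) (m : ℤ), Continuous (fun θ : ℝ => c * e (θ * (m : ℝ))) :=
      fun c m => continuous_const.mul (e_cont.comp (by fun_prop))
    rw [intervalIntegral.integral_finsetSum (fun x _ => Continuous.intervalIntegrable
      (continuous_finsetSum _ (fun y _ => continuous_finsetSum _ (fun j _ => hc _ _))) _ _)]
    apply Finset.sum_congr rfl
    intro x _
    rw [intervalIntegral.integral_finsetSum (fun y _ => Continuous.intervalIntegrable
      (continuous_finsetSum _ (fun j _ => hc _ _)) _ _)]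
    apply Finset.sum_congr rfl
    intro y _
    rw [intervalIntegral.integral_finsetSum (fun j _ => Continuous.intervalIntegrable
      (hc _ _) _ _)]
    apply Finset.sum_congr rfl
    intro j _
    rw [intervalIntegral.integral_const_mul, ortho]
    simp only [sub_eq_zero]
    split_ifs <;> simp
  rw [h1, ← energy_int, ← intervalIntegral.integral_const_mul]
  apply intervalIntegral.norm_integral_le_of_norm_le (by norm_num)
  · filter_upwards with θ hθ
    have hθ' : |θ| ≤ 1 / 2 := by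
      rw [abs_le]; exact ⟨hθ.1.le, hθ.2⟩
    rw [norm_mul, norm_mul, norm_mul, e_norm, mul_one]
    have h3 := hs θ hθ'
    calc ‖∑ x ∈ X, e (θ * u x)‖ * ‖∑ y ∈ X, e (θ * u y)‖ * ‖∑ j ∈ J, c j * e (θ * n j)‖
        ≤ ‖∑ x ∈ X, e (θ * u x)‖ * ‖∑ y ∈ X, e (θ * u y)‖ * s := mul_le_mul_of_nonneg_left h3 (by positivity)
      _ = _ := by ring
  · apply Continuous.intervalIntegrable
    exact continuous_const.mul ((e_contf' X u).norm.pow 2)

/-- second inequality: one copy of `X` and one of `J`, summed over a set of targets -/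
theorem CM2 {ι κ : Type*} [DecidableEq ι] (X : Finset ι) (u : ι → ℤ) (J : Finset κ) (c : κ → ℂ) (n : κ → ℤ) (s : ℝ)
    (hs : ∀ θ : ℝ, |θ| ≤ 1 / 2 → ‖∑ j ∈ J, c j * e (θ * n j)‖ ≤ s) (hs0 : 0 ≤ s) (E : Finset ℤ) (l : ℝ) (hl : 0 < l) :
    ‖∑ N ∈ E, ∑ x ∈ X, ∑ j ∈ J, (if u x + n j = N then c j else 0)‖ ≤
      s * ((l * (((X ×ˢ X).filter (fun z => u z.1 = u z.2)).card : ℝ) + E.card / l) / 2) := by
  have h1 : ∑ N ∈ E, ∑ x ∈ X, ∑ j ∈ J, (if u x + n j = N then c j else 0) =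
      ∫ θ in (-(1 / 2) : ℝ)..(1 / 2), (∑ N ∈ E, e (θ * ((-N : ℤ) : ℝ))) * ((∑ x ∈ X, e (θ * u x)) * (∑ j ∈ J, c j * e (θ * n j))) := by
    have h2 : ∀ θ : ℝ, (∑ N ∈ E, e (θ * ((-N : ℤ) : ℝ))) * ((∑ x ∈ X, e (θ * u x)) * (∑ j ∈ J, c j * e (θ * n j))) =
        ∑ N ∈ E, ∑ x ∈ X, ∑ j ∈ J, c j * e (θ * ((u x + n j - N : ℤ) : ℝ)) := by
      intro θ
      rw [Finset.sum_mul]
      apply Finset.sum_congr rfl
      intro N _
      rw [Finset.sum_mul_sum, Finset.mul_sum]
      apply Finset.sum_congr rfl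
      intro x _
      rw [Finset.mul_sum]
      apply Finset.sum_congr rfl
      intro j _
      have h3 : e (θ * ((u x + n j - N : ℤ) : ℝ)) = e (θ * ((-N : ℤ) : ℝ)) * e (θ * u x) * e (θ * n j) := by
        rw [← e_add, ← e_add]
        congr 1
        push_cast
        ring
      rw [h3]
      ring
    simp_rw [h2]
    have hc : ∀ (c : ℂ) (m : ℤ), Continuous (fun θ : ℝ => c * e (θ * (m : ℝ))) :=
      fun c m => continuous_const.mul (e_cont.comp (by fun_prop))
    rw [intervalIntegral.integral_finsetSum (fun x _ => Continuous.intervalIntegrable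
      (continuous_finsetSum _ (fun y _ => continuous_finsetSum _ (fun j _ => hc _ _))) _ _)]
    apply Finset.sum_congr rfl
    intro N _
    rw [intervalIntegral.integral_finsetSum (fun y _ => Continuous.intervalIntegrable
      (continuous_finsetSum _ (fun j _ => hc _ _)) _ _)]
    apply Finset.sum_congr rfl
    intro x _
    rw [intervalIntegral.integral_finsetSum (fun j _ => Continuous.intervalIntegrable
      (hc _ _) _ _)]
    apply Finset.sum_congr rfl
    intro j _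
    rw [intervalIntegral.integral_const_mul, ortho]
    simp only [sub_eq_zero]
    split_ifs <;> simp
  have hEn : ∫ θ in (-(1 / 2) : ℝ)..(1 / 2), ‖∑ N ∈ E, e (θ * ((-N : ℤ) : ℝ))‖ ^ 2 = (E.card : ℝ) := by
    rw [energy_int E (fun N => -N)]
    congr 1
    have h3 : (E ×ˢ E).filter (fun z : ℤ × ℤ => -z.1 = -z.2) = E.image (fun N => (N, N)) := by
      ext ⟨x, y⟩
      simp only [Finset.mem_filter, Finset.mem_product, Finset.mem_image, Prod.mk.injEq, neg_inj]
      constructor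
      · rintro ⟨⟨h4, _⟩, h5⟩
        exact ⟨x, h4, rfl, h5⟩
      · rintro ⟨N, h4, rfl, rfl⟩
        exact ⟨⟨h4, h4⟩, rfl⟩
    rw [h3, Finset.card_image_of_injective]
    intro x y hxy
    exact (Prod.mk.inj hxy).1
  have hI1 : IntervalIntegrable (fun θ : ℝ => l * ‖∑ x ∈ X, e (θ * u x)‖ ^ 2) volume (-(1 / 2)) (1 / 2) :=
    (continuous_const.mul ((e_contf' X u).norm.pow 2)).intervalIntegrable _ _
  have hI2 : IntervalIntegrable (fun θ : ℝ => (1 / l) * ‖∑ N ∈ E, e (θ * ((-N : ℤ) : ℝ))‖ ^ 2) volume (-(1 / 2)) (1 / 2) :=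
    (continuous_const.mul ((e_contf' E (fun N => -N)).norm.pow 2)).intervalIntegrable _ _
  have hR : s * ((l * (((X ×ˢ X).filter (fun z => u z.1 = u z.2)).card : ℝ) + E.card / l) / 2) =
      ∫ θ in (-(1 / 2) : ℝ)..(1 / 2), (s / 2) * (l * ‖∑ x ∈ X, e (θ * u x)‖ ^ 2 + (1 / l) * ‖∑ N ∈ E, e (θ * ((-N : ℤ) : ℝ))‖ ^ 2) := by
    rw [intervalIntegral.integral_const_mul, intervalIntegral.integral_add hI1 hI2, intervalIntegral.integral_const_mul,
      intervalIntegral.integral_const_mul, energy_int, hEn]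
    ring
  rw [h1, hR]
  apply intervalIntegral.norm_integral_le_of_norm_le (by norm_num)
  · filter_upwards with θ hθ
    have hθ' : |θ| ≤ 1 / 2 := by
      rw [abs_le]; exact ⟨hθ.1.le, hθ.2⟩
    rw [norm_mul, norm_mul]
    have h3 := hs θ hθ'
    set G := ‖∑ x ∈ X, e (θ * u x)‖ with hG
    set K := ‖∑ N ∈ E, e (θ * ((-N : ℤ) : ℝ))‖ with hK
    have hG0 : 0 ≤ G := norm_nonneg _
    have hK0 : 0 ≤ K := norm_nonneg _
    have h4 : 2 * (K * G) ≤ l * G ^ 2 + (1 / l) * K ^ 2 := by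
      have h5 : 0 ≤ (1 / l) * (l * G - K) ^ 2 := by positivity
      have h6 : (1 / l) * (l * G - K) ^ 2 = l * G ^ 2 + (1 / l) * K ^ 2 - 2 * (K * G) := by
        field_simp
        ring
      linarith
    calc K * (G * ‖∑ j ∈ J, c j * e (θ * n j)‖) ≤ K * (G * s) := by
          apply mul_le_mul_of_nonneg_left _ hK0
          exact mul_le_mul_of_nonneg_left h3 hG0
      _ = (s / 2) * (2 * (K * G)) := by ring
      _ ≤ _ := mul_le_mul_of_nonneg_left h4 (by positivity)
  · exact (hI1.add hI2).const_mul (s / 2)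

/-- number of pairs with a given difference -/
theorem fejer_cnt (H : ℕ) (d : ℤ) (hd' : 2 * |d| ≤ H) :
    (H : ℝ) / 2 ≤ ((((range H) ×ˢ (range H)).filter (fun z => (z.1 : ℤ) - z.2 = d)).card : ℝ) := by
  have hd : 2 * d.natAbs ≤ H := by
    rw [Int.abs_eq_natAbs] at hd'
    exact_mod_cast hd'
  clear hd'
  have h1 : (H - d.natAbs) ≤ (((range H) ×ˢ (range H)).filter (fun z => (z.1 : ℤ) - z.2 = d)).card := by
    rcases le_total 0 d with h0 | h0
    · have h2 : ((range (H - d.natAbs)).image (fun h : ℕ => (h + d.natAbs, h))) ⊆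
          ((range H) ×ˢ (range H)).filter (fun z => (z.1 : ℤ) - z.2 = d) := by
        intro z hz
        rw [Finset.mem_image] at hz
        obtain ⟨h, hh, rfl⟩ := hz
        rw [Finset.mem_range] at hh
        rw [Finset.mem_filter, Finset.mem_product, Finset.mem_range, Finset.mem_range]
        dsimp only
        omega
      have h3 := Finset.card_le_card h2
      rw [Finset.card_image_of_injective, Finset.card_range] at h3
      · exact h3
      · intro x y hxy
        exact (Prod.mk.inj hxy).2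
    · have h2 : ((range (H - d.natAbs)).image (fun h : ℕ => (h, h + d.natAbs))) ⊆
          ((range H) ×ˢ (range H)).filter (fun z => (z.1 : ℤ) - z.2 = d) := by
        intro z hz
        rw [Finset.mem_image] at hz
        obtain ⟨h, hh, rfl⟩ := hz
        rw [Finset.mem_range] at hh
        rw [Finset.mem_filter, Finset.mem_product, Finset.mem_range, Finset.mem_range]
        dsimp only
        omega
      have h3 := Finset.card_le_card h2
      rw [Finset.card_image_of_injective, Finset.card_range] at h3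
      · exact h3
      · intro x y hxy
        exact (Prod.mk.inj hxy).1
  have h2 : H ≤ 2 * (H - d.natAbs) := by omega
  have h3 : (H : ℝ) ≤ 2 * ((((range H) ×ˢ (range H)).filter (fun z => (z.1 : ℤ) - z.2 = d)).card : ℝ) := by
    have : H ≤ 2 * (((range H) ×ˢ (range H)).filter (fun z => (z.1 : ℤ) - z.2 = d)).card := by omega
    exact_mod_cast this
  linarith

/-- the Fejer factor is close to one near zero -/
theorem fejer_near (H : ℕ) (hH : 1 ≤ H) (θ : ℝ) :
    ‖(1 : ℂ) - ∑ z ∈ range H ×ˢ range H, (1 / (H : ℂ) ^ 2) * e (θ * (((z.1 : ℤ) - z.2 : ℤ) : ℝ))‖ ≤ 2 * Real.pi * |θ| * H := by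
  have hH0 : (H : ℂ) ≠ 0 := by exact_mod_cast (by omega : H ≠ 0)
  have h1 : (1 : ℂ) = ∑ _z ∈ range H ×ˢ range H, (1 / (H : ℂ) ^ 2) := by
    rw [Finset.sum_const, Finset.card_product, Finset.card_range, nsmul_eq_mul]
    push_cast
    field_simp
  have h2 : (1 : ℂ) - ∑ z ∈ range H ×ˢ range H, (1 / (H : ℂ) ^ 2) * e (θ * (((z.1 : ℤ) - z.2 : ℤ) : ℝ)) =
      ∑ z ∈ range H ×ˢ range H, (1 / (H : ℂ) ^ 2) * (e 0 - e (θ * (((z.1 : ℤ) - z.2 : ℤ) : ℝ))) := by
    have he0 : e 0 = 1 := by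
      have := e_int_one 0
      simpa using this
    calc (1 : ℂ) - ∑ z ∈ range H ×ˢ range H, (1 / (H : ℂ) ^ 2) * e (θ * (((z.1 : ℤ) - z.2 : ℤ) : ℝ)) =
          ∑ _z ∈ range H ×ˢ range H, (1 / (H : ℂ) ^ 2) -
          ∑ z ∈ range H ×ˢ range H, (1 / (H : ℂ) ^ 2) * e (θ * (((z.1 : ℤ) - z.2 : ℤ) : ℝ)) := by rw [← h1]
      _ = _ := by
        rw [← Finset.sum_sub_distrib]
        apply Finset.sum_congr rfl
        intro z _
        rw [he0]
        ring
  rw [h2]
  have h3 : ∀ z ∈ range H ×ˢ range H, ‖(1 / (H : ℂ) ^ 2) * (e 0 - e (θ * (((z.1 : ℤ) - z.2 : ℤ) : ℝ)))‖ ≤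
      (1 / (H : ℝ) ^ 2) * (2 * Real.pi * |θ| * H) := by
    intro z hz
    rw [Finset.mem_product, Finset.mem_range, Finset.mem_range] at hz
    rw [norm_mul]
    have h4 : ‖(1 / (H : ℂ) ^ 2)‖ = 1 / (H : ℝ) ^ 2 := by
      rw [norm_div, norm_pow, Complex.norm_natCast, norm_one]
    rw [h4]
    apply mul_le_mul_of_nonneg_left _ (by positivity)
    refine (e_lip _ _).trans ?_
    rw [zero_sub, abs_neg, abs_mul, ← mul_assoc]
    apply mul_le_mul_of_nonneg_left _ (by positivity)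
    rw [abs_le]
    constructor
    · have : -(H : ℤ) ≤ (z.1 : ℤ) - z.2 := by omega
      exact_mod_cast this
    · have : (z.1 : ℤ) - z.2 ≤ H := by omega
      exact_mod_cast this
  refine (norm_sum_le _ _).trans ((Finset.sum_le_sum h3).trans (le_of_eq ?_))
  rw [Finset.sum_const, Finset.card_product, Finset.card_range, nsmul_eq_mul]
  have : (H : ℝ) ≠ 0 := by exact_mod_cast (by omega : H ≠ 0)
  push_cast
  field_simp

/-- the Fejer factor is bounded -/
theorem fejer_far (H : ℕ) (hH : 1 ≤ H) (θ : ℝ) :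
    ‖(1 : ℂ) - ∑ z ∈ range H ×ˢ range H, (1 / (H : ℂ) ^ 2) * e (θ * (((z.1 : ℤ) - z.2 : ℤ) : ℝ))‖ ≤ 2 := by
  have h3 : ∀ z ∈ range H ×ˢ range H, ‖(1 / (H : ℂ) ^ 2) * e (θ * (((z.1 : ℤ) - z.2 : ℤ) : ℝ))‖ ≤ (1 / (H : ℝ) ^ 2) := by
    intro z _
    rw [norm_mul, e_norm, mul_one, norm_div, norm_pow, Complex.norm_natCast, norm_one]
  refine (norm_sub_le _ _).trans ?_
  have h4 := (norm_sum_le (range H ×ˢ range H) (fun z : ℕ × ℕ => (1 / (H : ℂ) ^ 2) * e (θ * (((z.1 : ℤ) - z.2 : ℤ) : ℝ)))).trans (Finset.sum_le_sum h3)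
  rw [Finset.sum_const, Finset.card_product, Finset.card_range, nsmul_eq_mul] at h4
  have h5 : ((H * H : ℕ) : ℝ) * (1 / (H : ℝ) ^ 2) = 1 := by
    have : (H : ℝ) ≠ 0 := by exact_mod_cast (by omega : H ≠ 0)
    push_cast
    field_simp
  rw [h5] at h4
  rw [norm_one]
  linarith

end Pool.Agent.Y867.WR
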