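import Pool.Agent.Y867.WR.Sgn

/-! # Counting points with prescribed power sums -/

set_option autoImplicit false

open Finset

namespace Pool.Agent.Y867.WR

/-- truncation of a vector -/
def trn (k m : ℕ) (x : Fin k → ℕ) : Fin k → ℕ := fun l => if (l : ℕ) < m then x l else 0

theorem trn_trn (k m : ℕ) (x : Fin k → ℕ) : trn k m (trn k (m + 1) x) = trn k m x := by
  funext l
  unfold trn
  split_ifs with h1 h2
  · rfl
  · omega
  · rfl

theorem trn_eq (k m : ℕ) (x y : Fin k → ℕ) (h : trn k m x = trn k m y) (l : Fin k) (hl : (l : ℕ) < m) : x l = y l := by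
  have h1 := congrFun h l
  unfold trn at h1
  rwa [if_pos hl, if_pos hl] at h1

/-- a finite set of naturals with bounded differences -/
theorem card_diam (T : Finset ℕ) (L : ℝ) (hL : 0 ≤ L) (h : ∀ x ∈ T, ∀ y ∈ T, |(x : ℝ) - y| ≤ L) :
    T.card ≤ ⌊L⌋₊ + 1 := by
  rcases T.eq_empty_or_nonempty with h0 | h0
  · rw [h0]; simp
  · have h1 : T ⊆ Icc (T.min' h0) (T.min' h0 + ⌊L⌋₊) := by
      intro x hx
      rw [Finset.mem_Icc]
      have h2 := T.min'_le x hx
      refine ⟨h2, ?_⟩
      have h3 := h x hx _ (T.min'_mem h0)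
      have h4 : ((x - T.min' h0 : ℕ) : ℝ) ≤ L := by
        rw [Nat.cast_sub h2]
        exact (le_abs_self _).trans h3
      have h5 := Nat.le_floor h4
      omega
    have h2 := Finset.card_le_card h1
    rw [Nat.card_Icc] at h2
    omega

/-- the tree counting lemma -/
theorem tree (k : ℕ) (X : Finset (Fin k → ℕ)) (L : ℕ → ℝ) (hL : ∀ i, 0 ≤ L i)
    (h : ∀ x ∈ X, ∀ y ∈ X, ∀ i : Fin k, (∀ l : Fin k, (l : ℕ) < i → x l = y l) → |(x i : ℝ) - y i| ≤ L i) :
    (X.card : ℝ) ≤ ∏ i ∈ range k, (L i + 1) := by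
  classical
  have key : ∀ m : ℕ, m ≤ k → ((X.image (trn k m)).card : ℝ) ≤ ∏ i ∈ range m, (L i + 1) := by
    intro m
    induction m with
    | zero =>
      intro _
      rw [Finset.prod_range_zero]
      have h1 : X.image (trn k 0) ⊆ {fun _ => 0} := by
        intro z hz
        rw [Finset.mem_image] at hz
        obtain ⟨x, _, rfl⟩ := hz
        rw [Finset.mem_singleton]
        funext l
        simp [trn]
      have h2 := Finset.card_le_card h1
      rw [Finset.card_singleton] at h2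
      exact_mod_cast h2
    | succ m ih =>
      intro hm
      have ih' := ih (by omega)
      have h1 := Finset.card_le_mul_card_image (f := trn k m) (X.image (trn k (m + 1))) (⌊L m⌋₊ + 1) (by
        intro a _
        set T := (X.image (trn k (m + 1))).filter (fun z => trn k m z = a) with hT
        have h2 : T.card = (T.image (fun z : Fin k → ℕ => z ⟨m, by omega⟩)).card := by
          symm
          apply Finset.card_image_of_injOn
          intro z hz z' hz' hzz
          rw [Finset.mem_coe, hT, Finset.mem_filter, Finset.mem_image] at hz hz'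
          obtain ⟨⟨x, hx, rfl⟩, hxa⟩ := hz
          obtain ⟨⟨x', hx', rfl⟩, hxa'⟩ := hz'
          funext l
          rcases Nat.lt_trichotomy (l : ℕ) m with hl | hl | hl
          · exact trn_eq k m _ _ (hxa.trans hxa'.symm) l hl
          · have : l = ⟨m, by omega⟩ := Fin.ext hl
            rw [this]; exact hzz
          · unfold trn
            rw [if_neg (by omega), if_neg (by omega)]
        rw [h2]
        apply card_diam _ _ (hL m)
        intro a1 ha1 a2 ha2
        rw [Finset.mem_image] at ha1 ha2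
        obtain ⟨z, hz, rfl⟩ := ha1
        obtain ⟨z', hz', rfl⟩ := ha2
        rw [hT, Finset.mem_filter, Finset.mem_image] at hz hz'
        obtain ⟨⟨x, hx, rfl⟩, hxa⟩ := hz
        obtain ⟨⟨x', hx', rfl⟩, hxa'⟩ := hz'
        rw [trn_trn] at hxa hxa'
        have h3 := h x hx x' hx' ⟨m, by omega⟩ (fun l hl => trn_eq k m _ _ (hxa.trans hxa'.symm) l hl)
        have h4 : ∀ w : Fin k → ℕ, trn k (m + 1) w ⟨m, by omega⟩ = w ⟨m, by omega⟩ := by
          intro w
          unfold trn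
          rw [if_pos (by simp)]
        rw [h4, h4]
        exact h3)
      have h5 : (X.image (trn k (m + 1))).image (trn k m) = X.image (trn k m) := by
        rw [Finset.image_image]
        apply Finset.image_congr
        intro x _
        exact trn_trn k m x
      rw [h5] at h1
      have h6 : ((⌊L m⌋₊ + 1 : ℕ) : ℝ) ≤ L m + 1 := by
        push_cast
        have := Nat.floor_le (hL m)
        linarith
      rw [Finset.prod_range_succ, mul_comm]
      calc ((X.image (trn k (m + 1))).card : ℝ) ≤ (((⌊L m⌋₊ + 1) * (X.image (trn k m)).card : ℕ) : ℝ) := by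
            exact_mod_cast h1
        _ = ((⌊L m⌋₊ + 1 : ℕ) : ℝ) * ((X.image (trn k m)).card : ℝ) := by push_cast; ring
        _ ≤ (L m + 1) * ∏ i ∈ range m, (L i + 1) := by
          apply mul_le_mul h6 ih' (by positivity)
          have := hL m
          linarith
  have h7 := key k le_rfl
  have h8 : X.image (trn k k) = X := by
    have : trn k k = id := by
      funext x l
      simp [trn]
    rw [this, Finset.image_id]
  rwa [h8] at h7

/-- the box of separated intervals -/
def BB (k P : ℕ) : Finset (Fin k → ℕ) := Fintype.piFinset (fun l : Fin k => Icc ((2 * (l : ℕ) + 1) * P) ((2 * (l : ℕ) + 2) * P))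

theorem mem_BB (k P : ℕ) (x : Fin k → ℕ) :
    x ∈ BB k P ↔ ∀ l : Fin k, (2 * (l : ℕ) + 1) * P ≤ x l ∧ x l ≤ (2 * (l : ℕ) + 2) * P := by
  unfold BB
  rw [Fintype.mem_piFinset]
  simp only [Finset.mem_Icc]

theorem BB_card (k P : ℕ) : (BB k P).card = (P + 1) ^ k := by
  unfold BB
  rw [Fintype.card_piFinset]
  have h1 : ∀ l : Fin k, (Icc ((2 * (l : ℕ) + 1) * P) ((2 * (l : ℕ) + 2) * P)).card = P + 1 := by
    intro l
    rw [Nat.card_Icc]
    have : (2 * (l : ℕ) + 2) * P = (2 * (l : ℕ) + 1) * P + P := by ring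
    omega
  simp only [h1, Finset.prod_const, Finset.card_univ, Fintype.card_fin]

/-- number of points of the box with power sums in given intervals -/
theorem cnt (k : ℕ) : ∃ A : ℝ, 0 < A ∧ ∀ P : ℕ, 1 ≤ P → ∀ M : ℝ, 1 ≤ M → ∀ X : Finset (Fin k → ℕ), X ⊆ BB k P →
    (∀ x ∈ X, ∀ y ∈ X, ∀ j : ℕ, 1 ≤ j → j ≤ k → |∑ l, ((x l : ℝ) ^ j - (y l : ℝ) ^ j)| ≤ 2 * M) →
    (X.card : ℝ) ≤ A * M := by
  classical
  have hE : ∀ i : ℕ, ∃ A : ℝ, 0 < A ∧ ∀ hik : i < k, ∀ (u v : Fin k → ℝ) (η : ℝ),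
    (∀ l : Fin k, 2 * ((l : ℕ) : ℝ) + 1 ≤ u l ∧ u l ≤ 2 * ((l : ℕ) : ℝ) + 2) →
    (∀ l : Fin k, 2 * ((l : ℕ) : ℝ) + 1 ≤ v l ∧ v l ≤ 2 * ((l : ℕ) : ℝ) + 2) →
    (∀ l : Fin k, (l : ℕ) < i → u l = v l) →
    (∀ j : ℕ, i + 1 ≤ j → j ≤ k → |∑ l, (u l ^ j - v l ^ j)| ≤ η) →
    |u ⟨i, hik⟩ - v ⟨i, hik⟩| ≤ A * η := by
    intro i
    by_cases hik : i < k
    · obtain ⟨A, hA, h⟩ := sepE k i hik
      exact ⟨A, hA, fun _ => h⟩
    · exact ⟨1, one_pos, fun h => absurd h hik⟩
  choose A hA hEA using hE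
  refine ⟨∏ i ∈ range k, (2 * A i + 2), Finset.prod_pos (fun i _ => by have := hA i; positivity), ?_⟩
  intro P hP M hM X hX hXX
  have hP' : (1 : ℝ) ≤ (P : ℝ) := by exact_mod_cast hP
  have hP0 : (0 : ℝ) < (P : ℝ) := by linarith
  set L : ℕ → ℝ := fun i => min (P : ℝ) (A i * (2 * M) / (P : ℝ) ^ i) with hLdef
  have hL0 : ∀ i, 0 ≤ L i := by
    intro i
    have := hA i
    rw [hLdef]
    exact le_min hP0.le (by positivity)
  have h1 := tree k X L hL0 (by
    intro x hx y hy i hi
    have hxB := (mem_BB k P x).mp (hX hx)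
    have hyB := (mem_BB k P y).mp (hX hy)
    have hcast : ∀ z : Fin k → ℕ, z ∈ BB k P → ∀ l : Fin k, (2 * ((l : ℕ) : ℝ) + 1) * P ≤ (z l : ℝ) ∧
        (z l : ℝ) ≤ (2 * ((l : ℕ) : ℝ) + 2) * P := by
      intro z hz l
      obtain ⟨h2, h3⟩ := (mem_BB k P z).mp hz l
      exact ⟨by exact_mod_cast h2, by exact_mod_cast h3⟩
    have hxB' := hcast x (hX hx)
    have hyB' := hcast y (hX hy)
    rw [hLdef]
    apply le_min
    · rw [abs_le]
      obtain ⟨a1, a2⟩ := hxB' i
      obtain ⟨b1, b2⟩ := hyB' i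
      constructor <;> nlinarith
    · have h2 := hEA i i.2 (fun l => (x l : ℝ) / P) (fun l => (y l : ℝ) / P) (2 * M / (P : ℝ) ^ ((i : ℕ) + 1))
        (fun l => ⟨by rw [le_div_iff₀ hP0]; exact (hxB' l).1, by rw [div_le_iff₀ hP0]; exact (hxB' l).2⟩)
        (fun l => ⟨by rw [le_div_iff₀ hP0]; exact (hyB' l).1, by rw [div_le_iff₀ hP0]; exact (hyB' l).2⟩)
        (fun l hl => by rw [hi l hl])
        (by
          intro j hj1 hj2
          have h3 : ∑ l, (((x l : ℝ) / P) ^ j - ((y l : ℝ) / P) ^ j) = (∑ l, ((x l : ℝ) ^ j - (y l : ℝ) ^ j)) / (P : ℝ) ^ j := by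
            rw [Finset.sum_div]
            apply Finset.sum_congr rfl
            intro l _
            rw [div_pow, div_pow, sub_div]
          rw [h3, abs_div, abs_of_pos (show (0 : ℝ) < (P : ℝ) ^ j by positivity)]
          have h4 := hXX x hx y hy j (by omega) hj2
          have h5 : (P : ℝ) ^ ((i : ℕ) + 1) ≤ (P : ℝ) ^ j := pow_le_pow_right₀ hP' hj1
          exact div_le_div₀ (by positivity) h4 (by positivity) h5)
      have h6 : (x i : ℝ) - y i = P * ((x i : ℝ) / P - (y i : ℝ) / P) := by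
        field_simp
      rw [h6, abs_mul, abs_of_pos hP0]
      have h7 : A i * (2 * M) / (P : ℝ) ^ (i : ℕ) = P * (A i * (2 * M / (P : ℝ) ^ ((i : ℕ) + 1))) := by
        rw [pow_succ]
        field_simp
      rw [h7]
      exact mul_le_mul_of_nonneg_left h2 hP0.le)
  set t : ℕ → ℝ := fun i => min M ((P : ℝ) ^ i) with ht
  have ht0 : ∀ i, 0 < t i := by
    intro i
    rw [ht]
    exact lt_min (by linarith) (by positivity)
  have h2 : ∀ i ∈ range k, L i + 1 ≤ (2 * A i + 2) * (t (i + 1) / t i) := by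
    intro i _
    have hAi := hA i
    rw [← mul_div_assoc, le_div_iff₀ (ht0 i)]
    have e1 : L i ≤ P := min_le_left _ _
    have e2 : L i ≤ A i * (2 * M) / (P : ℝ) ^ i := min_le_right _ _
    have e3 : t i ≤ M := min_le_left _ _
    have e4 : t i ≤ (P : ℝ) ^ i := min_le_right _ _
    have e5 : (2 * A i + 2) * t (i + 1) = min ((2 * A i + 2) * M) ((2 * A i + 2) * (P : ℝ) ^ (i + 1)) := by
      rw [ht]
      exact (mul_min_of_nonneg _ _ (by positivity))
    rw [e5]
    have ht0i := ht0 i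
    have hLi := hL0 i
    apply le_min
    · have h3 : L i * t i ≤ A i * (2 * M) := by
        calc L i * t i ≤ (A i * (2 * M) / (P : ℝ) ^ i) * (P : ℝ) ^ i := mul_le_mul e2 e4 ht0i.le (by positivity)
          _ = A i * (2 * M) := by field_simp
      nlinarith
    · have h3 : L i * t i ≤ (P : ℝ) ^ (i + 1) := by
        calc L i * t i ≤ P * (P : ℝ) ^ i := mul_le_mul e1 e4 ht0i.le (by positivity)
          _ = (P : ℝ) ^ (i + 1) := by rw [pow_succ]; ring
      have h4 : (P : ℝ) ^ i ≤ (P : ℝ) ^ (i + 1) := pow_le_pow_right₀ hP' (by omega)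
      have h5 : 0 < (P : ℝ) ^ (i + 1) := by positivity
      nlinarith
  refine h1.trans ((Finset.prod_le_prod (fun i _ => by have := hL0 i; positivity) h2).trans ?_)
  have htel : ∀ n : ℕ, ∏ i ∈ range n, t (i + 1) / t i = t n / t 0 := by
    intro n
    induction n with
    | zero => rw [Finset.prod_range_zero, div_self (ht0 0).ne']
    | succ n ih =>
      rw [Finset.prod_range_succ, ih]
      have := (ht0 n).ne'
      field_simp
  rw [Finset.prod_mul_distrib, htel]
  have e6 : t 0 = 1 := by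
    rw [ht]
    simp [hM]
  have e7 : t k ≤ M := min_le_left _ _
  rw [e6, div_one]
  exact mul_le_mul_of_nonneg_left e7 (Finset.prod_nonneg (fun i _ => by have := hA i; positivity))

/-- number of pairs of points of the box with all differences of power sums small -/
theorem pairs (k : ℕ) : ∃ A : ℝ, 0 < A ∧ ∀ P : ℕ, 1 ≤ P → ∀ M : ℝ, 1 ≤ M → ∀ Y : Finset ((Fin k → ℕ) × (Fin k → ℕ)),
    Y ⊆ BB k P ×ˢ BB k P →
    (∀ z ∈ Y, ∀ j : ℕ, 1 ≤ j → j ≤ k → |∑ l, ((z.1 l : ℝ) ^ j - (z.2 l : ℝ) ^ j)| ≤ M) →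
    (Y.card : ℝ) ≤ A * (P : ℝ) ^ k * M := by
  classical
  obtain ⟨A, hA, h⟩ := cnt k
  refine ⟨A * 2 ^ k, by positivity, ?_⟩
  intro P hP M hM Y hY hYY
  have hP' : (1 : ℝ) ≤ (P : ℝ) := by exact_mod_cast hP
  have h1 : Y.card = ∑ y ∈ BB k P, (Y.filter (fun z => z.2 = y)).card := by
    apply Finset.card_eq_sum_card_fiberwise
    intro z hz
    exact (Finset.mem_product.mp (hY hz)).2
  rw [h1]
  push_cast
  have h2 : ∀ y ∈ BB k P, ((Y.filter (fun z => z.2 = y)).card : ℝ) ≤ A * M := by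
    intro y _
    have h3 : (Y.filter (fun z => z.2 = y)).card = ((Y.filter (fun z => z.2 = y)).image Prod.fst).card := by
      symm
      apply Finset.card_image_of_injOn
      intro a ha b hb hab
      rw [Finset.mem_coe, Finset.mem_filter] at ha hb
      exact Prod.ext hab (ha.2.trans hb.2.symm)
    rw [h3]
    apply h P hP M hM
    · intro x hx
      rw [Finset.mem_image] at hx
      obtain ⟨z, hz, rfl⟩ := hx
      exact (Finset.mem_product.mp (hY (Finset.mem_filter.mp hz).1)).1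
    · intro x hx x' hx' j hj1 hj2
      rw [Finset.mem_image] at hx hx'
      obtain ⟨z, hz, rfl⟩ := hx
      obtain ⟨z', hz', rfl⟩ := hx'
      rw [Finset.mem_filter] at hz hz'
      have h4 := hYY z hz.1 j hj1 hj2
      have h5 := hYY z' hz'.1 j hj1 hj2
      have h6 : ∑ l, ((z.1 l : ℝ) ^ j - (z'.1 l : ℝ) ^ j) = ∑ l, ((z.1 l : ℝ) ^ j - (z.2 l : ℝ) ^ j) -
          ∑ l, ((z'.1 l : ℝ) ^ j - (z'.2 l : ℝ) ^ j) := by
        rw [← Finset.sum_sub_distrib]
        apply Finset.sum_congr rfl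
        intro l _
        rw [hz.2, hz'.2]
        ring
      rw [h6]
      refine (abs_sub _ _).trans ?_
      linarith
  refine (Finset.sum_le_sum h2).trans ?_
  rw [Finset.sum_const, BB_card, nsmul_eq_mul]
  have h7 : (((P + 1) ^ k : ℕ) : ℝ) ≤ 2 ^ k * (P : ℝ) ^ k := by
    push_cast
    rw [← mul_pow]
    exact pow_le_pow_left₀ (by positivity) (by linarith) k
  calc (((P + 1) ^ k : ℕ) : ℝ) * (A * M) ≤ (2 ^ k * (P : ℝ) ^ k) * (A * M) :=
        mul_le_mul_of_nonneg_right h7 (by positivity)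
    _ = _ := by ring

end Pool.Agent.Y867.WR
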