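import Pool.Agent.Y867.WR.Main

/-! # General form of the assembly: two blocks from arbitrary families and one free variable -/

set_option autoImplicit false

open MeasureTheory Filter Finset

namespace Pool.Agent.Y867.WR

open Pool.Agent.W928.MW (e e_add e_norm e_cont e_lip)

/-- the generic properties of the sums over the free variable -/
def Good2 (k : ℕ) (a : ℝ) (b : Fin k → ℝ) : Prop :=
  (∀ c4 : ℕ, 1 ≤ c4 → ∀ᶠ p : ℕ in atTop, ∀ β : ℝ, ((2 : ℝ) ^ p) ^ ((1 / 20 : ℝ) - k) ≤ |β| →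
    |β| ≤ ((2 : ℝ) ^ p) ^ (1 / 40 : ℝ) →
    ‖∑ n ∈ Icc 1 ((c4 * 2 ^ p : ℕ) : ℤ), e (β * fb k a b n)‖ ≤ ((2 : ℝ) ^ p) ^ (1 - sg k)) ∧
  (∀ c4 : ℕ, ∀ᶠ p : ℕ in atTop, ∀ m : ℕ, m < c4 * 2 ^ (p / 10) →
    ‖∑ x ∈ Icc (((m * 2 ^ (p - p / 10) : ℕ) : ℤ) + 1) (((m + 1) * 2 ^ (p - p / 10) : ℕ) : ℤ), e (fb k a b x)‖ ≤
      ((2 ^ (p - p / 10) : ℕ) : ℝ) / 4)

theorem Good.good2 {k : ℕ} {a : ℝ} {b : Fin k → ℝ} (h : Good k a b) : Good2 k a b := ⟨h.2.1, h.2.2⟩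

/-- representations at the scale `2^p`, general form -/
theorem coreG (k : ℕ) (hk : 2 ≤ k) (a : ℝ) (ha : 0 < a) (b : Fin k → ℝ) (hG : Good2 k a b)
    {ι : Type*} [DecidableEq ι] (Xs : ℕ → Finset ι) (u : ι → ℤ) (Cu : ℝ) (hCu0 : 0 ≤ Cu)
    (huu : ∀ p : ℕ, ∀ x ∈ Xs p, |(u x : ℝ)| ≤ Cu * ((2 : ℝ) ^ p) ^ k)
    (hE : ∀ C : ℝ, ∀ᶠ p : ℕ in atTop, C * ((2 : ℝ) ^ p) ^ (1 - sg k) *
      (((Xs p ×ˢ Xs p).filter (fun z => u z.1 = u z.2)).card : ℝ) ≤ ((Xs p).card : ℝ) ^ 2 / ((2 : ℝ) ^ p) ^ (k - 1)) :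
    ∃ (C3 c4 : ℕ) (c : ℝ), 1 ≤ C3 ∧ 1 ≤ c4 ∧ 0 < c ∧
    (∀ p : ℕ, ∀ x ∈ Xs p, 2 * |(u x : ℝ)| + 1 ≤ C3 * ((2 : ℝ) ^ p) ^ k) ∧
    (∀ᶠ p : ℕ in atTop, ∀ N : ℤ, (C3 : ℝ) * ((2 : ℝ) ^ p) ^ k ≤ N → (N : ℝ) ≤ 2 ^ k * C3 * ((2 : ℝ) ^ p) ^ k →
      c * (((Xs p).card : ℝ) ^ 2 / ((2 : ℝ) ^ p) ^ (k - 1)) ≤
        ∑ x ∈ Xs p, ∑ y ∈ Xs p, rr k a b c4 p (N - (u x + u y))) := by
  classical
  obtain ⟨hG2, hG3⟩ := hG
  set B : ℝ := ∑ i, |b i| with hB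
  have hB0 : 0 ≤ B := Finset.sum_nonneg (fun i _ => abs_nonneg _)
  have hbB : ∀ i, |b i| ≤ B := fun i => Finset.single_le_sum (f := fun i => |b i|) (fun i _ => abs_nonneg _) (Finset.mem_univ i)
  set C3 : ℕ := ⌈2 * Cu + 1⌉₊ with hC3
  have hC3r : 2 * Cu + 1 ≤ C3 := Nat.le_ceil _
  have hC31 : (1 : ℝ) ≤ C3 := by linarith
  set Cm : ℝ := 2 ^ k * C3 + 2 * Cu with hCm
  have hCm0 : 0 ≤ Cm := by positivity
  set c4 : ℕ := ⌈Cm / a⌉₊ + 2 with hc4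
  have hc41 : 1 ≤ c4 := by omega
  have h4 : Cm / a ≤ ((c4 : ℝ) - 1) ^ k := by
    have h1 : Cm / a ≤ (⌈Cm / a⌉₊ : ℝ) := Nat.le_ceil _
    have h2 : (c4 : ℝ) - 1 = (⌈Cm / a⌉₊ : ℝ) + 1 := by rw [hc4]; push_cast; ring
    rw [h2]
    have h3 : (1 : ℝ) ≤ (⌈Cm / a⌉₊ : ℝ) + 1 := by
      have : (0 : ℝ) ≤ (⌈Cm / a⌉₊ : ℝ) := by positivity
      linarith
    calc Cm / a ≤ ((⌈Cm / a⌉₊ : ℝ) + 1) ^ 1 := by rw [pow_one]; linarith
      _ ≤ _ := pow_le_pow_right₀ h3 (by omega)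
  set C5 : ℕ := ⌈2 * (a * k + k * B + 1) * (c4 : ℝ) ^ (k - 1)⌉₊ with hC5
  have h5 : 2 * (a * k + k * B + 1) * (c4 : ℝ) ^ (k - 1) ≤ C5 := Nat.le_ceil _
  have hC51 : 1 ≤ C5 := by
    rw [hC5]
    apply Nat.ceil_pos.mpr
    have : (0 : ℝ) < c4 := by exact_mod_cast hc41
    positivity
  have hC5r : (1 : ℝ) ≤ C5 := by exact_mod_cast hC51
  obtain ⟨C6, hC6, hsup⟩ := sup_bound k hk a b c4 C5 hc41 hC51 (hG2 c4 hc41)
  -- range of m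
  have hrange : ∀ (p : ℕ) (N : ℤ) (A : ℤ), (C3 : ℝ) * ((2 : ℝ) ^ p) ^ k ≤ N → (N : ℝ) ≤ 2 ^ k * C3 * ((2 : ℝ) ^ p) ^ k →
      |(A : ℝ)| ≤ 2 * Cu * ((2 : ℝ) ^ p) ^ k → 0 ≤ N - A ∧ ((N - A : ℤ) : ℝ) ≤ Cm * ((2 : ℝ) ^ p) ^ k := by
    intro p N A h1 h2 h3
    have hXk : 0 < ((2 : ℝ) ^ p) ^ k := by positivity
    rw [abs_le] at h3
    constructor
    · have : (0 : ℝ) ≤ ((N - A : ℤ) : ℝ) := by
        push_cast
        nlinarith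
      exact_mod_cast this
    · push_cast
      rw [hCm]
      nlinarith
  refine ⟨C3, c4, 1 / (16 * C5), by exact_mod_cast hC31, hc41, by positivity, ?_, ?_⟩
  · intro p x hx
    have h1 := huu p x hx
    have h2 : 1 ≤ ((2 : ℝ) ^ p) ^ k := one_le_pow₀ (one_le_pow₀ (by norm_num))
    nlinarith
  · filter_upwards [hsup, hE (16 * C5 * C6), hG3 c4] with p hp1 hp2 hp3 N hN1 hN2
    set X : ℝ := (2 : ℝ) ^ p with hX
    have hX1 : 1 ≤ X := one_le_pow₀ (by norm_num)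
    have hX0 : 0 < X := by linarith
    have h6 := CM1 (Xs p) u (JJ c4 p (HH k C5 p)) (cc k a b (HH k C5 p)) (nn k a b) _ hp1 N
    have h7 : ∑ x ∈ Xs p, ∑ y ∈ Xs p, ∑ j ∈ JJ c4 p (HH k C5 p),
        (if u x + u y + nn k a b j = N then cc k a b (HH k C5 p) j else 0) =
        ((∑ x ∈ Xs p, ∑ y ∈ Xs p, (rr k a b c4 p (N - (u x + u y)) -
          mm k a b c4 p (HH k C5 p) (N - (u x + u y))) : ℝ) : ℂ) := by
      push_cast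
      apply Finset.sum_congr rfl
      intro x _
      apply Finset.sum_congr rfl
      intro y _
      have := JJ_sum k a b c4 p (HH k C5 p) (u x + u y) N
      push_cast at this
      exact this
    rw [h7, Complex.norm_real, Real.norm_eq_abs] at h6
    have h8 := (abs_le.mp h6).1
    simp only [Finset.sum_sub_distrib] at h8
    set W : ℝ := ((Xs p).card : ℝ) ^ 2 / X ^ (k - 1) with hW
    have h9 : W / (8 * C5) ≤ ∑ x ∈ Xs p, ∑ y ∈ Xs p, mm k a b c4 p (HH k C5 p) (N - (u x + u y)) := by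
      have h10 : ∀ x ∈ Xs p, ∀ y ∈ Xs p, 1 / (8 * C5 * X ^ (k - 1)) ≤
          mm k a b c4 p (HH k C5 p) (N - (u x + u y)) := by
        intro x hx y hy
        obtain ⟨h11, h12⟩ := hrange p N (u x + u y) hN1 hN2 (by
          push_cast
          have := huu p x hx
          have := huu p y hy
          refine (abs_add_le _ _).trans ?_
          linarith)
        exact mm_ge k (by omega) a ha b B hB0 hbB Cm hCm0 c4 C5 hc41 h4 h5 hC51 p hp3 _ h11 h12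
      have h11 : ∑ x ∈ Xs p, ∑ _y ∈ Xs p, 1 / (8 * C5 * X ^ (k - 1)) ≤
          ∑ x ∈ Xs p, ∑ y ∈ Xs p, mm k a b c4 p (HH k C5 p) (N - (u x + u y)) :=
        Finset.sum_le_sum (fun x hx => Finset.sum_le_sum (fun y hy => h10 x hx y hy))
      refine le_trans (le_of_eq ?_) h11
      rw [Finset.sum_const, Finset.sum_const, nsmul_eq_mul, nsmul_eq_mul, hW]
      field_simp
    have h10 : C6 * X ^ (1 - sg k) * (((Xs p ×ˢ Xs p).filter (fun z => u z.1 = u z.2)).card : ℝ) ≤ W / (16 * C5) := by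
      rw [le_div_iff₀ (by positivity)]
      refine le_trans (le_of_eq ?_) hp2
      ring
    have h11 : W / (8 * C5) = W / (16 * C5) + 1 / (16 * C5) * W := by
      field_simp
      ring
    linarith

/-- existence of representations, general form -/
theorem exG (k : ℕ) (hk : 2 ≤ k) (a : ℝ) (ha : 0 < a) (b : Fin k → ℝ) (hG : Good2 k a b)
    {ι : Type*} [DecidableEq ι] (Xs : ℕ → Finset ι) (u : ι → ℤ) (Cu : ℝ) (hCu0 : 0 ≤ Cu)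
    (huu : ∀ p : ℕ, ∀ x ∈ Xs p, |(u x : ℝ)| ≤ Cu * ((2 : ℝ) ^ p) ^ k)
    (hE : ∀ C : ℝ, ∀ᶠ p : ℕ in atTop, C * ((2 : ℝ) ^ p) ^ (1 - sg k) *
      (((Xs p ×ˢ Xs p).filter (fun z => u z.1 = u z.2)).card : ℝ) ≤ ((Xs p).card : ℝ) ^ 2 / ((2 : ℝ) ^ p) ^ (k - 1))
    (Φ : ι → Prop) (hΦ : ∀ᶠ p : ℕ in atTop, (Xs p).Nonempty ∧ ∀ x ∈ Xs p, Φ x) :
    ∃ N0 : ℕ, ∀ N : ℕ, N0 ≤ N → ∃ x y : ι, ∃ z : ℕ, Φ x ∧ Φ y ∧ 1 ≤ z ∧ 0 < ⌊fb k a b z⌋ ∧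
      u x + u y + ⌊fb k a b z⌋ = (N : ℤ) := by
  obtain ⟨C3, c4, c, hC3, hc4, hc, hu, h1⟩ := coreG k hk a ha b hG Xs u Cu hCu0 huu hE
  obtain ⟨p0, hp0⟩ := eventually_atTop.mp (h1.and hΦ)
  refine ⟨C3 * (2 ^ k) ^ p0, fun N hN => ?_⟩
  obtain ⟨hp, hN1, hN2⟩ := scale k (by omega) C3 hC3 p0 N hN
  set p := Nat.log (2 ^ k) (N / C3) with hpdef
  obtain ⟨hcore, hne, hpos⟩ := hp0 p hp
  set X : ℝ := (2 : ℝ) ^ p with hX
  have hX0 : 0 < X := by positivity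
  have h2 := hcore (N : ℤ) (by exact_mod_cast hN1) (by exact_mod_cast hN2)
  have hcard : (0 : ℝ) < (Xs p).card := by exact_mod_cast hne.card_pos
  have h3 : 0 < ∑ x ∈ Xs p, ∑ y ∈ Xs p, rr k a b c4 p ((N : ℤ) - (u x + u y)) := lt_of_lt_of_le (by positivity) h2
  obtain ⟨x, hx, hx2⟩ := Finset.exists_lt_of_sum_lt (s := Xs p) (f := fun _ => (0 : ℝ))
    (g := fun x => ∑ y ∈ Xs p, rr k a b c4 p ((N : ℤ) - (u x + u y))) (by rw [Finset.sum_const_zero]; exact h3)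
  obtain ⟨y, hy, hy2⟩ := Finset.exists_lt_of_sum_lt (s := Xs p) (f := fun _ => (0 : ℝ))
    (g := fun y => rr k a b c4 p ((N : ℤ) - (u x + u y))) (by rw [Finset.sum_const_zero]; exact hx2)
  unfold rr at hy2
  obtain ⟨z, hz, hz2⟩ := Finset.exists_lt_of_sum_lt (s := ZZ c4 p) (f := fun _ => (0 : ℝ))
    (g := fun z : ℤ => if ⌊fb k a b z⌋ = (N : ℤ) - (u x + u y) then psi (Int.fract (fb k a b z)) else 0)
    (by rw [Finset.sum_const_zero]; exact hy2)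
  have hzz : ⌊fb k a b z⌋ = (N : ℤ) - (u x + u y) := by
    by_contra hne
    rw [if_neg hne] at hz2
    exact lt_irrefl _ hz2
  have hz1 : 1 ≤ z := by
    unfold ZZ at hz
    exact (Finset.mem_Icc.mp hz).1
  have hzr : ((z.toNat : ℕ) : ℝ) = (z : ℝ) := by
    have : ((z.toNat : ℕ) : ℤ) = z := Int.toNat_of_nonneg (by omega)
    rw [← Int.cast_natCast, this]
  refine ⟨x, y, z.toNat, hpos x hx, hpos y hy, by omega, ?_, ?_⟩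
  · rw [hzr, hzz]
    have h4 := hu p x hx
    have h5 := hu p y hy
    have h7 := le_abs_self (u x : ℝ)
    have h8 := le_abs_self (u y : ℝ)
    have h9 : (1 : ℝ) ≤ (((N : ℤ) - (u x + u y) : ℤ) : ℝ) := by
      push_cast
      rw [← hX] at h4 h5
      linarith
    have h10 : (1 : ℤ) ≤ (N : ℤ) - (u x + u y) := by exact_mod_cast h9
    omega
  · rw [hzr, hzz]; ring

end Pool.Agent.Y867.WR
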