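import Pool.Agent.Y867.WR.AsmC

/-! # Main theorem -/

set_option autoImplicit false

open MeasureTheory Filter Finset

namespace Pool.Agent.Y867.WR

/-- `N` is a sum of `s` positive values `⌊f(n)⌋`, `n ≥ 1` -/
def IsRep (k : ℕ) (a : ℝ) (b : Fin k → ℝ) (s : ℕ) (x : Fin s → ℕ) (N : ℕ) : Prop :=
  (∀ i, 1 ≤ x i ∧ 0 < ⌊fb k a b (x i)⌋) ∧ ∑ i, ⌊fb k a b (x i)⌋ = (N : ℤ)

theorem pos_ev (k : ℕ) (hk : 1 ≤ k) (a : ℝ) (ha : 0 < a) (b : Fin k → ℝ) :
    ∀ᶠ p : ℕ in atTop, ∀ x ∈ BB k (2 ^ p), ∀ l : Fin k, 1 ≤ x l ∧ 0 < ⌊fb k a b (x l)⌋ := by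
  set B : ℝ := ∑ i, |b i| with hB
  have hB0 : 0 ≤ B := Finset.sum_nonneg (fun i _ => abs_nonneg _)
  have hbB : ∀ i, |b i| ≤ B := fun i => Finset.single_le_sum (f := fun i => |b i|) (fun i _ => abs_nonneg _) (Finset.mem_univ i)
  filter_upwards [ev_ge ((k * B + 1) / a) 1 one_pos] with p hp x hx l
  rw [Real.rpow_one, div_le_iff₀ ha] at hp
  rw [mem_BB] at hx
  have h1 := (hx l).1
  have h2 : 2 ^ p ≤ x l := by
    calc 2 ^ p = 1 * 2 ^ p := (one_mul _).symm
      _ ≤ (2 * (l : ℕ) + 1) * 2 ^ p := Nat.mul_le_mul_right _ (by omega)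
      _ ≤ _ := h1
  have h3 : 1 ≤ x l := le_trans Nat.one_le_two_pow h2
  refine ⟨h3, ?_⟩
  have h2' : (2 : ℝ) ^ p ≤ x l := by exact_mod_cast h2
  have h3' : (1 : ℝ) ≤ x l := by exact_mod_cast h3
  set t : ℝ := (x l : ℝ) with ht
  have h4 : |∑ j : Fin k, b j * t ^ (j : ℕ)| ≤ k * B * t ^ (k - 1) := by
    refine (Finset.abs_sum_le_sum_abs _ _).trans ?_
    have h8 : ∀ j ∈ (univ : Finset (Fin k)), |b j * t ^ (j : ℕ)| ≤ B * t ^ (k - 1) := by
      intro j _
      rw [abs_mul, abs_of_nonneg (show 0 ≤ t ^ (j : ℕ) by positivity)]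
      apply mul_le_mul (hbB j) _ (by positivity) hB0
      exact pow_le_pow_right₀ h3' (by have := j.2; omega)
    refine (Finset.sum_le_sum h8).trans (le_of_eq ?_)
    rw [Finset.sum_const, Finset.card_univ, Fintype.card_fin, nsmul_eq_mul]
    ring
  have h5 : 1 ≤ t ^ (k - 1) := one_le_pow₀ h3'
  have h6 : t ^ k = t ^ (k - 1) * t := by
    rw [← pow_succ]; congr 1; omega
  have h7 : (1 : ℝ) ≤ fb k a b t := by
    unfold fb
    have h8 := (abs_le.mp h4).1
    have h9 : k * B + 1 ≤ a * t := by nlinarith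
    have h10 : 1 * (t ^ (k - 1)) ≤ (a * t - k * B) * t ^ (k - 1) := mul_le_mul_of_nonneg_right (by linarith) (by positivity)
    rw [h6]
    nlinarith
  have h8 : (1 : ℤ) ≤ ⌊fb k a b t⌋ := by
    rw [Int.le_floor]
    exact_mod_cast h7
  omega

theorem rr_le (k : ℕ) (a : ℝ) (b : Fin k → ℝ) (c4 p : ℕ) (m : ℤ) :
    rr k a b c4 p m ≤ ∑ z ∈ ZZ c4 p, if ⌊fb k a b z⌋ = m then (1 : ℝ) else 0 := by
  unfold rr
  apply Finset.sum_le_sum
  intro z _
  split_ifs
  · exact psi_le_one _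
  · exact le_rfl

/-- choice of the dyadic scale -/
theorem scale (k : ℕ) (hk : 1 ≤ k) (C3 : ℕ) (hC3 : 1 ≤ C3) (p0 N : ℕ) (hN : C3 * (2 ^ k) ^ p0 ≤ N) :
    p0 ≤ Nat.log (2 ^ k) (N / C3) ∧ (C3 : ℝ) * ((2 : ℝ) ^ (Nat.log (2 ^ k) (N / C3))) ^ k ≤ N ∧
    (N : ℝ) ≤ 2 ^ k * C3 * ((2 : ℝ) ^ (Nat.log (2 ^ k) (N / C3))) ^ k := by
  have h2 : 1 < 2 ^ k := Nat.one_lt_two_pow (by omega)
  set q := N / C3 with hq
  have h3 : (2 ^ k) ^ p0 ≤ q := by
    rw [hq, Nat.le_div_iff_mul_le (by omega), mul_comm]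
    exact hN
  have hq0 : q ≠ 0 := by
    have : 0 < (2 ^ k) ^ p0 := by positivity
    omega
  set p := Nat.log (2 ^ k) q with hp
  have h4 : (2 ^ k) ^ p ≤ q := Nat.pow_log_le_self _ hq0
  have h5 : q < (2 ^ k) ^ (p + 1) := Nat.lt_pow_succ_log_self h2 _
  have h6 : C3 * q ≤ N := Nat.mul_div_le _ _
  have h7 : N < C3 * (q + 1) := by
    have := Nat.lt_mul_div_succ N (show 0 < C3 by omega)
    exact this
  refine ⟨?_, ?_, ?_⟩
  · exact (Nat.le_log_iff_pow_le h2 hq0).mpr h3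
  · have h8 : C3 * (2 ^ p) ^ k ≤ N := by
      calc C3 * (2 ^ p) ^ k = C3 * (2 ^ k) ^ p := by rw [← pow_mul, ← pow_mul, mul_comm p k]
        _ ≤ C3 * q := Nat.mul_le_mul_left _ h4
        _ ≤ N := h6
    exact_mod_cast h8
  · have h8 : N ≤ 2 ^ k * C3 * (2 ^ p) ^ k := by
      calc N ≤ C3 * (q + 1) := h7.le
        _ ≤ C3 * (2 ^ k) ^ (p + 1) := Nat.mul_le_mul_left _ h5
        _ = 2 ^ k * C3 * (2 ^ p) ^ k := by
          have : (2 ^ p) ^ k = (2 ^ k) ^ p := by rw [← pow_mul, ← pow_mul, mul_comm p k]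
          rw [this, pow_succ]; ring
    exact_mod_cast h8

/-- every large integer is a sum of `2k+1` values in many ways -/
theorem main1 (k : ℕ) (hk : 2 ≤ k) (a : ℝ) (ha : 0 < a) (b : Fin k → ℝ) (hG : Good k a b) :
    ∃ c : ℝ, 0 < c ∧ ∃ N0 : ℕ, ∀ N : ℕ, N0 ≤ N → ∃ S : Finset (Fin (2 * k + 1) → ℕ),
      c * (N : ℝ) ^ (1 + 1 / (k : ℝ)) ≤ S.card ∧ ∀ x ∈ S, IsRep k a b (2 * k + 1) x N := by
  classical
  obtain ⟨C3, c4, c, hC3, hc4, hc, hu, h1, _⟩ := core k hk a ha b hG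
  obtain ⟨p0, hp0⟩ := eventually_atTop.mp (h1.and (pos_ev k (by omega) a ha b))
  have hC3r : (0 : ℝ) < C3 := by exact_mod_cast hC3
  refine ⟨c / (2 ^ k * C3) ^ (1 + 1 / (k : ℝ)), by positivity, C3 * (2 ^ k) ^ p0, fun N hN => ?_⟩
  obtain ⟨hp, hN1, hN2⟩ := scale k (by omega) C3 hC3 p0 N hN
  set p := Nat.log (2 ^ k) (N / C3) with hpdef
  obtain ⟨hcore, hpos⟩ := hp0 p hp
  set X : ℝ := (2 : ℝ) ^ p with hX
  have hX1 : 1 ≤ X := one_le_pow₀ (by norm_num)
  have hX0 : 0 < X := by linarith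
  have h2 := hcore (N : ℤ) (by exact_mod_cast hN1) (by exact_mod_cast hN2)
  set T := (BB k (2 ^ p) ×ˢ (BB k (2 ^ p) ×ˢ ZZ c4 p)).filter
    (fun t => uu k a b t.1 + uu k a b t.2.1 + ⌊fb k a b (t.2.2 : ℤ)⌋ = (N : ℤ)) with hT
  have hTcard : c * X ^ (k + 1) ≤ T.card := by
    refine h2.trans ?_
    rw [hT, Finset.card_filter]
    push_cast
    rw [Finset.sum_product]
    apply Finset.sum_le_sum
    intro x _
    rw [Finset.sum_product]
    apply Finset.sum_le_sum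
    intro y _
    refine (rr_le k a b c4 p _).trans (le_of_eq ?_)
    apply Finset.sum_congr rfl
    intro z _
    have : ⌊fb k a b z⌋ = (N : ℤ) - (uu k a b x + uu k a b y) ↔ uu k a b x + uu k a b y + ⌊fb k a b z⌋ = (N : ℤ) := by omega
    simp only [this]
  have hcardeq : Fintype.card (Fin k ⊕ (Fin k ⊕ Unit)) = Fintype.card (Fin (2 * k + 1)) := by
    simp only [Fintype.card_sum, Fintype.card_fin, Fintype.card_unit]
    omega
  set ε : Fin k ⊕ (Fin k ⊕ Unit) ≃ Fin (2 * k + 1) := Fintype.equivOfCardEq hcardeq with hε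
  set F : (Fin k → ℕ) × ((Fin k → ℕ) × ℤ) → (Fin (2 * k + 1) → ℕ) :=
    fun t i => Sum.elim t.1 (Sum.elim t.2.1 (fun _ => t.2.2.toNat)) (ε.symm i) with hF
  have hFv : ∀ t (s : Fin k ⊕ (Fin k ⊕ Unit)), F t (ε s) = Sum.elim t.1 (Sum.elim t.2.1 (fun _ => t.2.2.toNat)) s := by
    intro t s
    rw [hF]
    dsimp only
    rw [Equiv.symm_apply_apply]
  have hzpos : ∀ t ∈ T, 1 ≤ t.2.2 := by
    intro t ht
    rw [hT, Finset.mem_filter, Finset.mem_product, Finset.mem_product] at ht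
    have := ht.1.2.2
    unfold ZZ at this
    exact (Finset.mem_Icc.mp this).1
  have hinj : Set.InjOn F T := by
    intro t ht t' ht' htt
    have h3 : ∀ s : Fin k ⊕ (Fin k ⊕ Unit), Sum.elim t.1 (Sum.elim t.2.1 (fun _ => t.2.2.toNat)) s =
        Sum.elim t'.1 (Sum.elim t'.2.1 (fun _ => t'.2.2.toNat)) s := by
      intro s
      rw [← hFv, ← hFv, htt]
    have hz := hzpos t ht
    have hz' := hzpos t' ht'
    have e1 : t.1 = t'.1 := funext (fun l => h3 (Sum.inl l))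
    have e2 : t.2.1 = t'.2.1 := funext (fun l => h3 (Sum.inr (Sum.inl l)))
    have e3 : t.2.2.toNat = t'.2.2.toNat := h3 (Sum.inr (Sum.inr ()))
    have e4 : t.2.2 = t'.2.2 := by omega
    exact Prod.ext e1 (Prod.ext e2 e4)
  refine ⟨T.image F, ?_, ?_⟩
  · rw [Finset.card_image_of_injOn hinj]
    refine le_trans ?_ hTcard
    rw [div_mul_eq_mul_div, div_le_iff₀ (by positivity)]
    have hk0 : (k : ℝ) ≠ 0 := by
      have : k ≠ 0 := by omega
      exact_mod_cast this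
    have h3 : (N : ℝ) ^ (1 + 1 / (k : ℝ)) ≤ (2 ^ k * C3) ^ (1 + 1 / (k : ℝ)) * X ^ (k + 1) := by
      calc (N : ℝ) ^ (1 + 1 / (k : ℝ)) ≤ (2 ^ k * C3 * X ^ k) ^ (1 + 1 / (k : ℝ)) :=
            Real.rpow_le_rpow (by positivity) hN2 (by positivity)
        _ = (2 ^ k * C3) ^ (1 + 1 / (k : ℝ)) * (X ^ k) ^ (1 + 1 / (k : ℝ)) := Real.mul_rpow (by positivity) (by positivity)
        _ = _ := by
          congr 1
          rw [← Real.rpow_natCast X k, ← Real.rpow_mul hX0.le, ← Real.rpow_natCast X (k + 1)]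
          congr 1
          push_cast
          field_simp
    calc c * (N : ℝ) ^ (1 + 1 / (k : ℝ)) ≤ c * ((2 ^ k * C3) ^ (1 + 1 / (k : ℝ)) * X ^ (k + 1)) :=
          mul_le_mul_of_nonneg_left h3 hc.le
      _ = _ := by ring
  · intro w hw
    rw [Finset.mem_image] at hw
    obtain ⟨t, ht, rfl⟩ := hw
    have hz := hzpos t ht
    rw [hT, Finset.mem_filter, Finset.mem_product, Finset.mem_product] at ht
    obtain ⟨⟨ht1, ht2, ht3⟩, ht4⟩ := ht
    have hzr : ((t.2.2.toNat : ℕ) : ℝ) = (t.2.2 : ℝ) := by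
      have : ((t.2.2.toNat : ℕ) : ℤ) = t.2.2 := Int.toNat_of_nonneg (by omega)
      rw [← Int.cast_natCast, this]
    constructor
    · intro i
      obtain ⟨s, rfl⟩ := ε.surjective i
      rw [hFv]
      rcases s with l | l | _
      · exact hpos t.1 ht1 l
      · exact hpos t.2.1 ht2 l
      · simp only [Sum.elim_inr]
        refine ⟨by omega, ?_⟩
        rw [hzr]
        have h3 := hu p t.1 ht1
        have h4 := hu p t.2.1 ht2
        have h5 : (1 : ℝ) ≤ ((⌊fb k a b (t.2.2 : ℤ)⌋ : ℤ) : ℝ) := by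
          have h6 : ((uu k a b t.1 + uu k a b t.2.1 + ⌊fb k a b (t.2.2 : ℤ)⌋ : ℤ) : ℝ) = ((N : ℤ) : ℝ) := by rw [ht4]
          push_cast at h6
          have h7 := le_abs_self (uu k a b t.1 : ℝ)
          have h8 := le_abs_self (uu k a b t.2.1 : ℝ)
          rw [← hX] at h3 h4
          linarith
        have h6 : (1 : ℤ) ≤ ⌊fb k a b (t.2.2 : ℤ)⌋ := by exact_mod_cast h5
        omega
    · rw [← ht4, ← Equiv.sum_comp ε]
      simp_rw [hFv]
      rw [Fintype.sum_sum_type, Fintype.sum_sum_type]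
      simp only [Sum.elim_inl, Sum.elim_inr, Finset.univ_unique, Finset.sum_singleton]
      rw [hzr]
      unfold uu
      ring

/-- almost all integers are sums of `k+1` values, with a power saving -/
theorem main2 (k : ℕ) (hk : 2 ≤ k) (a : ℝ) (ha : 0 < a) (b : Fin k → ℝ) (hG : Good k a b) :
    ∃ κ : ℝ, 0 < κ ∧ ∃ C : ℝ, ∀ Y : ℕ, 1 ≤ Y →
      (Set.ncard {N : ℕ | N ≤ Y ∧ ¬ ∃ x : Fin (k + 1) → ℕ, IsRep k a b (k + 1) x N} : ℝ) ≤ C * (Y : ℝ) ^ (1 - κ) := by
  classical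
  obtain ⟨C3, c4, c, hC3, hc4, hc, hu, _, h1⟩ := core k hk a ha b hG
  obtain ⟨p0, hp0⟩ := eventually_atTop.mp (h1.and (pos_ev k (by omega) a ha b))
  have hs0 := sg_pos k
  have hs1 := sg_le k
  have hk0 : (0 : ℝ) < k := by
    have : 0 < k := by omega
    exact_mod_cast this
  have hk2 : (2 : ℝ) ≤ k := by exact_mod_cast hk
  set bad : ℕ → Prop := fun N => ¬ ∃ x : Fin (k + 1) → ℕ, IsRep k a b (k + 1) x N with hbad
  set C0 : ℕ := C3 * (2 ^ k) ^ p0 with hC0
  refine ⟨sg k / k, by positivity, (C0 : ℝ) + 2, fun Y hY => ?_⟩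
  have hY' : (1 : ℝ) ≤ Y := by exact_mod_cast hY
  set p1 := Nat.log (2 ^ k) (Y / C3) with hp1
  set Ep : ℕ → Finset ℕ := fun p => (range (Y + 1)).filter (fun N => bad N ∧ (C3 : ℝ) * ((2 : ℝ) ^ p) ^ k ≤ N ∧
    (N : ℝ) ≤ 2 ^ k * C3 * ((2 : ℝ) ^ p) ^ k) with hEp
  have h2 : {N : ℕ | N ≤ Y ∧ ¬ ∃ x : Fin (k + 1) → ℕ, IsRep k a b (k + 1) x N} ⊆
      ((range C0 ∪ (Icc p0 p1).biUnion Ep : Finset ℕ) : Set ℕ) := by
    rintro N ⟨hN1, hN2⟩
    rw [Finset.mem_coe, Finset.mem_union]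
    rcases Nat.lt_or_ge N C0 with h3 | h3
    · left; exact Finset.mem_range.mpr h3
    · right
      obtain ⟨h4, h5, h6⟩ := scale k (by omega) C3 hC3 p0 N h3
      rw [Finset.mem_biUnion]
      refine ⟨Nat.log (2 ^ k) (N / C3), ?_, ?_⟩
      · rw [Finset.mem_Icc]
        exact ⟨h4, Nat.log_mono_right (Nat.div_le_div_right hN1)⟩
      · rw [hEp, Finset.mem_filter, Finset.mem_range]
        exact ⟨by omega, hN2, h5, h6⟩
  have h3 := Set.ncard_le_ncard h2 (Finset.finite_toSet _)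
  rw [Set.ncard_coe_finset] at h3
  have h4 : ∀ p ∈ Icc p0 p1, ((Ep p).card : ℝ) ≤ ((2 : ℝ) ^ p) ^ ((k : ℝ) - sg k) := by
    intro p hp
    rw [Finset.mem_Icc] at hp
    obtain ⟨hcore, hpos⟩ := hp0 p hp.1
    have h5 := hcore ((Ep p).image (fun N : ℕ => (N : ℤ))) (by
      intro N hN
      rw [Finset.mem_image] at hN
      obtain ⟨M, hM, rfl⟩ := hN
      rw [hEp, Finset.mem_filter] at hM
      obtain ⟨_, hM1, hM2, hM3⟩ := hM
      refine ⟨by exact_mod_cast hM2, by exact_mod_cast hM3, ?_⟩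
      intro x hx
      unfold rr
      apply Finset.sum_eq_zero
      intro z hz
      rw [if_neg]
      intro hzz
      apply hM1
      have hz1 : 1 ≤ z := by
        unfold ZZ at hz
        exact (Finset.mem_Icc.mp hz).1
      have hzr : ((z.toNat : ℕ) : ℝ) = (z : ℝ) := by
        have : ((z.toNat : ℕ) : ℤ) = z := Int.toNat_of_nonneg (by omega)
        rw [← Int.cast_natCast, this]
      have hcardeq : Fintype.card (Fin k ⊕ Unit) = Fintype.card (Fin (k + 1)) := by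
        simp only [Fintype.card_sum, Fintype.card_fin, Fintype.card_unit]
      set ε : Fin k ⊕ Unit ≃ Fin (k + 1) := Fintype.equivOfCardEq hcardeq with hε
      refine ⟨fun i => Sum.elim x (fun _ => z.toNat) (ε.symm i), ?_, ?_⟩
      · intro i
        obtain ⟨s, rfl⟩ := ε.surjective i
        dsimp only
        rw [Equiv.symm_apply_apply]
        rcases s with l | _
        · exact hpos x hx l
        · simp only [Sum.elim_inr]
          refine ⟨by omega, ?_⟩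
          rw [hzr, hzz]
          have h3 := hu p x hx
          have h7 := le_abs_self (uu k a b x : ℝ)
          have h8 := abs_nonneg (uu k a b x : ℝ)
          have h9 : (1 : ℝ) ≤ (((M : ℤ) - uu k a b x : ℤ) : ℝ) := by
            push_cast
            linarith
          have h10 : (1 : ℤ) ≤ (M : ℤ) - uu k a b x := by exact_mod_cast h9
          omega
      · rw [← Equiv.sum_comp ε]
        simp_rw [Equiv.symm_apply_apply]
        rw [Fintype.sum_sum_type]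
        simp only [Sum.elim_inl, Sum.elim_inr, Finset.univ_unique, Finset.sum_singleton]
        rw [hzr, hzz]
        unfold uu
        ring)
    rw [Finset.card_image_of_injective _ Nat.cast_injective] at h5
    exact h5
  set r : ℝ := (2 : ℝ) ^ ((k : ℝ) - sg k) with hr
  have hr2 : 2 ≤ r := by
    calc (2 : ℝ) = (2 : ℝ) ^ (1 : ℝ) := (Real.rpow_one _).symm
      _ ≤ r := Real.rpow_le_rpow_of_exponent_le (by norm_num) (by linarith)
  have h5 : ∀ n : ℕ, ∑ p ∈ range (n + 1), r ^ p ≤ 2 * r ^ n := by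
    intro n
    induction n with
    | zero => simp
    | succ n ih =>
      rw [Finset.sum_range_succ]
      have : 2 * r ^ n ≤ r ^ (n + 1) := by
        rw [pow_succ]
        have : 0 < r ^ n := by positivity
        nlinarith
      linarith
  have h6 : ∑ p ∈ Icc p0 p1, ((Ep p).card : ℝ) ≤ 2 * r ^ p1 := by
    calc ∑ p ∈ Icc p0 p1, ((Ep p).card : ℝ) ≤ ∑ p ∈ Icc p0 p1, r ^ p := by
          apply Finset.sum_le_sum
          intro p hp
          refine (h4 p hp).trans (le_of_eq ?_)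
          rw [pow2_rpow]
      _ ≤ ∑ p ∈ range (p1 + 1), r ^ p := by
          apply Finset.sum_le_sum_of_subset_of_nonneg
          · intro p hp
            rw [Finset.mem_Icc] at hp
            rw [Finset.mem_range]; omega
          · intro p _ _
            positivity
      _ ≤ _ := h5 p1
  have h7 : r ^ p1 ≤ (Y : ℝ) ^ (1 - sg k / k) := by
    have h8 : ((2 : ℝ) ^ k) ^ p1 ≤ Y := by
      rcases Nat.eq_zero_or_pos (Y / C3) with h9 | h9
      · have : p1 = 0 := by rw [hp1, h9, Nat.log_zero_right]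
        rw [this, pow_zero]; exact hY'
      · have h10 : (2 ^ k) ^ p1 ≤ Y / C3 := Nat.pow_log_le_self _ (by omega)
        have h11 : Y / C3 ≤ Y := Nat.div_le_self _ _
        exact_mod_cast h10.trans h11
    have h9 : r ^ p1 = (((2 : ℝ) ^ k) ^ p1) ^ (1 - sg k / k) := by
      rw [hr, ← Real.rpow_natCast, ← Real.rpow_mul (by norm_num), ← Real.rpow_natCast (2 : ℝ) k,
        ← Real.rpow_natCast ((2 : ℝ) ^ (k : ℝ)) p1, ← Real.rpow_mul (by norm_num), ← Real.rpow_mul (by norm_num)]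
      congr 1
      field_simp
    rw [h9]
    apply Real.rpow_le_rpow (by positivity) h8
    have : sg k / k ≤ 1 := by
      rw [div_le_one hk0]; linarith
    linarith
  have h8 : 1 ≤ (Y : ℝ) ^ (1 - sg k / k) := by
    apply Real.one_le_rpow hY'
    have : sg k / k ≤ 1 := by
      rw [div_le_one hk0]; linarith
    linarith
  have h9 : ((range C0 ∪ (Icc p0 p1).biUnion Ep).card : ℝ) ≤ C0 + ∑ p ∈ Icc p0 p1, ((Ep p).card : ℝ) := by
    have h10 := (Finset.card_union_le (range C0) ((Icc p0 p1).biUnion Ep)).trans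
      (Nat.add_le_add_left Finset.card_biUnion_le _)
    rw [Finset.card_range] at h10
    exact_mod_cast h10
  calc (Set.ncard {N : ℕ | N ≤ Y ∧ ¬ ∃ x : Fin (k + 1) → ℕ, IsRep k a b (k + 1) x N} : ℝ)
      ≤ ((range C0 ∪ (Icc p0 p1).biUnion Ep).card : ℝ) := by exact_mod_cast h3
    _ ≤ C0 + 2 * r ^ p1 := by linarith
    _ ≤ C0 * (Y : ℝ) ^ (1 - sg k / k) + 2 * (Y : ℝ) ^ (1 - sg k / k) := by
        have : (C0 : ℝ) * 1 ≤ C0 * (Y : ℝ) ^ (1 - sg k / k) := mul_le_mul_of_nonneg_left h8 (by positivity)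
        linarith
    _ = _ := by ring

end Pool.Agent.Y867.WR
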