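import Pool.Agent.Y867.WR.Cnt
import Pool.Agent.Y867.WR.Slab

/-! # The mean value over the coefficients -/

set_option autoImplicit false

open MeasureTheory Filter Finset
open scoped ENNReal

namespace Pool.Agent.Y867.WR

/-- the polynomial with leading coefficient `a` and lower coefficients `b` -/
noncomputable def fb (k : ℕ) (a : ℝ) (b : Fin k → ℝ) (x : ℝ) : ℝ := a * x ^ k + ∑ j : Fin k, b j * x ^ (j : ℕ)

/-- differences of power sums -/
noncomputable def DD (k : ℕ) (z : (Fin k → ℕ) × (Fin k → ℕ)) (j : ℕ) : ℤ := ∑ l, ((z.1 l : ℤ) ^ j - (z.2 l : ℤ) ^ j)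

theorem DD_real (k : ℕ) (z : (Fin k → ℕ) × (Fin k → ℕ)) (j : ℕ) :
    ((DD k z j : ℤ) : ℝ) = ∑ l, ((z.1 l : ℝ) ^ j - (z.2 l : ℝ) ^ j) := by
  unfold DD; push_cast; rfl

theorem DD_zero (k : ℕ) (z : (Fin k → ℕ) × (Fin k → ℕ)) : DD k z 0 = 0 := by
  unfold DD; simp

theorem fb_diff (k : ℕ) (a : ℝ) (b : Fin k → ℝ) (z : (Fin k → ℕ) × (Fin k → ℕ)) :
    ∑ l, fb k a b (z.1 l) - ∑ l, fb k a b (z.2 l) = a * (DD k z k : ℝ) + ∑ j : Fin k, b j * (DD k z j : ℝ) := by
  rw [← Finset.sum_sub_distrib, DD_real, Finset.mul_sum]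
  have h1 : ∀ l : Fin k, fb k a b (z.1 l) - fb k a b (z.2 l) = a * ((z.1 l : ℝ) ^ k - (z.2 l : ℝ) ^ k) +
      ∑ j : Fin k, b j * ((z.1 l : ℝ) ^ (j : ℕ) - (z.2 l : ℝ) ^ (j : ℕ)) := by
    intro l
    unfold fb
    simp only [mul_sub, Finset.sum_sub_distrib]
    ring
  simp_rw [h1]
  rw [Finset.sum_add_distrib]
  congr 1
  rw [Finset.sum_comm]
  apply Finset.sum_congr rfl
  intro j _
  rw [DD_real, Finset.mul_sum]

/-- the largest difference of power sums -/
noncomputable def Mx (k : ℕ) (z : (Fin k → ℕ) × (Fin k → ℕ)) : ℕ :=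
  max 1 ((univ : Finset (Fin k)).sup (fun j => (DD k z j).natAbs))

theorem Mx_ge (k : ℕ) (z : (Fin k → ℕ) × (Fin k → ℕ)) (j : Fin k) : |(DD k z j : ℝ)| ≤ Mx k z := by
  have h1 : (DD k z j).natAbs ≤ Mx k z := by
    unfold Mx
    exact (Finset.le_sup (f := fun j : Fin k => (DD k z j).natAbs) (Finset.mem_univ j)).trans (le_max_right _ _)
  have h2 : |(DD k z j : ℝ)| = ((DD k z j).natAbs : ℝ) := by
    rw [Nat.cast_natAbs, Int.cast_abs]
  rw [h2]
  exact_mod_cast h1

theorem Mx_one (k : ℕ) (z : (Fin k → ℕ) × (Fin k → ℕ)) : (1 : ℝ) ≤ Mx k z := by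
  unfold Mx
  exact_mod_cast le_max_left _ _

theorem Mx_le (k P : ℕ) (z : (Fin k → ℕ) × (Fin k → ℕ)) (hP : 1 ≤ P) (hz : z ∈ BB k P ×ˢ BB k P) :
    Mx k z ≤ (k + 1) * ((2 * k + 2) * P) ^ k := by
  unfold Mx
  have h0 : 1 ≤ ((2 * k + 2) * P) ^ k := Nat.one_le_pow _ _ (by positivity)
  apply max_le
  · nlinarith
  · apply Finset.sup_le
    intro j _
    rw [Finset.mem_product, mem_BB, mem_BB] at hz
    have hx : ∀ w : Fin k → ℕ, (∀ l : Fin k, (2 * (l : ℕ) + 1) * P ≤ w l ∧ w l ≤ (2 * (l : ℕ) + 2) * P) →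
        ∀ l, (w l) ^ (j : ℕ) ≤ ((2 * k + 2) * P) ^ k := by
      intro w hw l
      have h1 : w l ≤ (2 * k + 2) * P := (hw l).2.trans (Nat.mul_le_mul_right _ (by omega))
      calc (w l) ^ (j : ℕ) ≤ ((2 * k + 2) * P) ^ (j : ℕ) := Nat.pow_le_pow_left h1 _
        _ ≤ _ := Nat.pow_le_pow_right (by positivity) (by omega)
    unfold DD
    have h2 : |∑ l, ((z.1 l : ℤ) ^ (j : ℕ) - (z.2 l : ℤ) ^ (j : ℕ))| ≤ ∑ _l : Fin k, ((((2 * k + 2) * P) ^ k : ℕ) : ℤ) := by
      refine (Finset.abs_sum_le_sum_abs _ _).trans (Finset.sum_le_sum (fun l _ => ?_))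
      have h3 : ((z.1 l : ℤ) ^ (j : ℕ)) ≤ ((((2 * k + 2) * P) ^ k : ℕ) : ℤ) := by exact_mod_cast hx z.1 hz.1 l
      have h4 : ((z.2 l : ℤ) ^ (j : ℕ)) ≤ ((((2 * k + 2) * P) ^ k : ℕ) : ℤ) := by exact_mod_cast hx z.2 hz.2 l
      have h5 : (0 : ℤ) ≤ (z.1 l : ℤ) ^ (j : ℕ) := by positivity
      have h6 : (0 : ℤ) ≤ (z.2 l : ℤ) ^ (j : ℕ) := by positivity
      rw [abs_le]; constructor <;> linarith
    rw [Finset.sum_const, Finset.card_univ, Fintype.card_fin, nsmul_eq_mul] at h2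
    have h7 : ((∑ l, ((z.1 l : ℤ) ^ (j : ℕ) - (z.2 l : ℤ) ^ (j : ℕ))).natAbs : ℤ) ≤ ((k * ((2 * k + 2) * P) ^ k : ℕ) : ℤ) := by
      rw [← Int.abs_eq_natAbs]
      push_cast at h2 ⊢
      exact h2
    have h8 := Int.ofNat_le.mp h7
    nlinarith

/-- the set of coefficients for which a pair nearly collides -/
def Sl (k : ℕ) (a : ℝ) (z : (Fin k → ℕ) × (Fin k → ℕ)) : Set (Fin k → ℝ) :=
  {b | |∑ l, fb k a b (z.1 l) - ∑ l, fb k a b (z.2 l)| ≤ k}

theorem Sl_meas (k : ℕ) (a : ℝ) (z : (Fin k → ℕ) × (Fin k → ℕ)) : MeasurableSet (Sl k a z) := by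
  unfold Sl
  simp_rw [fb_diff]
  apply measurableSet_le _ measurable_const
  fun_prop

/-- measure of the coefficients in a box for which a pair nearly collides -/
theorem Sl_vol (k : ℕ) (a : ℝ) (ha : 0 < a) (B : ℝ) (hB : 0 ≤ B) (z : (Fin k → ℕ) × (Fin k → ℕ)) :
    (volume.restrict (QB k B)) (Sl k a z) ≤
      ENNReal.ofReal (if |(DD k z k : ℝ)| ≤ (k * (1 + B)) / a * Mx k z then
        ((2 * B) ^ k + 2 * k * (2 * B) ^ (k - 1)) / Mx k z else 0) := by
  have hM1 := Mx_one k z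
  rw [Measure.restrict_apply (Sl_meas k a z)]
  split_ifs with hD
  · by_cases hmax : ∃ j : Fin k, |(DD k z j : ℝ)| = Mx k z
    · obtain ⟨j, hj⟩ := hmax
      obtain ⟨n, rfl⟩ : ∃ n, k = n + 1 := ⟨k - 1, by have := j.2; omega⟩
      have hj0 : (DD (n + 1) z j : ℝ) ≠ 0 := by
        intro h0
        rw [h0, abs_zero] at hj
        linarith
      have h1 := slab n j (fun j => (DD (n + 1) z j : ℝ)) (a * (DD (n + 1) z (n + 1) : ℝ)) ((n + 1 : ℕ) : ℝ) B hj0
      have h2 : Sl (n + 1) a z = {b | |a * (DD (n + 1) z (n + 1) : ℝ) + ∑ j : Fin (n + 1), b j * (DD (n + 1) z j : ℝ)| ≤ ((n + 1 : ℕ) : ℝ)} := by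
        unfold Sl
        simp_rw [fb_diff]
      rw [h2]
      refine h1.trans ?_
      rw [← ENNReal.ofReal_pow (by positivity), ← ENNReal.ofReal_mul (by positivity)]
      apply ENNReal.ofReal_le_ofReal
      rw [hj, Nat.add_sub_cancel]
      have h3 : 2 * (((n + 1 : ℕ) : ℝ) / Mx (n + 1) z) * (2 * B) ^ n = (2 * ((n + 1 : ℕ) : ℝ) * (2 * B) ^ n) / Mx (n + 1) z := by
        ring
      rw [h3]
      apply div_le_div_of_nonneg_right _ (by linarith)
      have : 0 ≤ (2 * B) ^ (n + 1) := by positivity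
      linarith
    · have hMx : Mx k z = 1 := by
        by_contra hne
        apply hmax
        have h1 : 1 < Mx k z := by
          have : 1 ≤ Mx k z := by exact_mod_cast hM1
          omega
        have h2 : Mx k z = (univ : Finset (Fin k)).sup (fun j => (DD k z j).natAbs) := by
          unfold Mx at h1 ⊢
          rcases max_choice 1 ((univ : Finset (Fin k)).sup (fun j => (DD k z j).natAbs)) with h | h
          · rw [h] at h1; omega
          · exact h
        have h3 : (univ : Finset (Fin k)).Nonempty := by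
          rw [Finset.nonempty_iff_ne_empty]
          intro h0
          rw [h0, Finset.sup_empty] at h2
          rw [h2] at h1
          simp at h1
        obtain ⟨j, _, hj⟩ := Finset.exists_mem_eq_sup (univ : Finset (Fin k)) h3 (fun j => (DD k z j).natAbs)
        refine ⟨j, ?_⟩
        rw [h2, hj, Nat.cast_natAbs, Int.cast_abs]
      refine (measure_mono Set.inter_subset_right).trans ?_
      rw [QB_vol, ← ENNReal.ofReal_pow (by positivity)]
      apply ENNReal.ofReal_le_ofReal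
      rw [hMx]
      have : 0 ≤ 2 * (k : ℝ) * (2 * B) ^ (k - 1) := by positivity
      rw [Nat.cast_one, div_one]
      linarith
  · have h1 : Sl k a z ∩ QB k B = ∅ := by
      rw [Set.eq_empty_iff_forall_notMem]
      rintro b ⟨hb1, hb2⟩
      apply hD
      unfold Sl at hb1
      rw [Set.mem_setOf_eq, fb_diff] at hb1
      rw [mem_QB] at hb2
      have h2 : |∑ j : Fin k, b j * (DD k z j : ℝ)| ≤ k * (B * Mx k z) := by
        refine (Finset.abs_sum_le_sum_abs _ _).trans ?_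
        calc ∑ j : Fin k, |b j * (DD k z j : ℝ)| ≤ ∑ _j : Fin k, B * Mx k z := by
              apply Finset.sum_le_sum
              intro j _
              rw [abs_mul]
              exact mul_le_mul (hb2 j) (Mx_ge k z j) (abs_nonneg _) hB
          _ = _ := by rw [Finset.sum_const, Finset.card_univ, Fintype.card_fin, nsmul_eq_mul]
      have h3 : |a * (DD k z k : ℝ)| ≤ k + k * (B * Mx k z) := by
        have h4 : a * (DD k z k : ℝ) = (a * (DD k z k : ℝ) + ∑ j : Fin k, b j * (DD k z j : ℝ)) -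
            ∑ j : Fin k, b j * (DD k z j : ℝ) := by ring
        rw [h4]
        exact (abs_sub _ _).trans (add_le_add hb1 h2)
      rw [abs_mul, abs_of_pos ha] at h3
      rw [div_mul_eq_mul_div, le_div_iff₀ ha, mul_comm]
      have hk : (0 : ℝ) ≤ k := by positivity
      have h5 : (k : ℝ) + k * (B * Mx k z) ≤ k * (1 + B) * Mx k z := by
        nlinarith
      linarith
    rw [h1, measure_empty]
    exact zero_le

/-- the sum of the measures -/
theorem mean (k : ℕ) (a : ℝ) (ha : 0 < a) (B : ℝ) (hB : 0 ≤ B) : ∃ A : ℝ, 0 < A ∧ ∀ p : ℕ,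
    ∑ z ∈ BB k (2 ^ p) ×ˢ BB k (2 ^ p), (if |(DD k z k : ℝ)| ≤ (k * (1 + B)) / a * Mx k z then
        ((2 * B) ^ k + 2 * k * (2 * B) ^ (k - 1)) / (Mx k z : ℝ) else 0) ≤ A * (p + 1) * ((2 : ℝ) ^ p) ^ k := by
  obtain ⟨A, hA, hpairs⟩ := pairs k
  set C0 : ℝ := max 1 ((k * (1 + B)) / a) with hC0
  have hC01 : 1 ≤ C0 := le_max_left _ _
  have hC02 : (k * (1 + B)) / a ≤ C0 := le_max_right _ _
  set V : ℝ := (2 * B) ^ k + 2 * k * (2 * B) ^ (k - 1) with hV
  have hV0 : 0 ≤ V := by positivity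
  set c1 : ℕ := Nat.log 2 ((k + 1) * (2 * k + 2) ^ k) + 1 with hc1
  refine ⟨V * (A * C0 * 2) * (c1 + k + 1) + 1, by positivity, fun p => ?_⟩
  set Z := BB k (2 ^ p) ×ˢ BB k (2 ^ p) with hZ
  set I : ℕ := c1 + k * p with hI
  have hlog : ∀ z ∈ Z, Nat.log 2 (Mx k z) ∈ range (I + 1) := by
    intro z hz
    have h1 := Mx_le k (2 ^ p) z Nat.one_le_two_pow hz
    rw [Finset.mem_range]
    have h2 : Mx k z < 2 ^ (I + 1) := by
      refine lt_of_le_of_lt h1 ?_
      have h3 : (k + 1) * (2 * k + 2) ^ k < 2 ^ c1 := by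
        rw [hc1]
        exact Nat.lt_pow_succ_log_self (by norm_num) _
      calc (k + 1) * ((2 * k + 2) * 2 ^ p) ^ k = ((k + 1) * (2 * k + 2) ^ k) * 2 ^ (k * p) := by
            rw [mul_pow, ← pow_mul, mul_comm p k]; ring
        _ ≤ 2 ^ c1 * 2 ^ (k * p) := Nat.mul_le_mul_right _ h3.le
        _ = 2 ^ I := by rw [hI]; exact (pow_add 2 c1 (k * p)).symm
        _ < 2 ^ (I + 1) := Nat.pow_lt_pow_right (by norm_num) (by omega)
    have h4 : Mx k z ≠ 0 := by
      have := Mx_one k z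
      intro h0
      rw [h0] at this
      norm_num at this
    exact Nat.log_lt_of_lt_pow h4 h2
  rw [← Finset.sum_fiberwise_of_maps_to hlog]
  have hfib : ∀ i ∈ range (I + 1), ∑ z ∈ Z.filter (fun z => Nat.log 2 (Mx k z) = i),
      (if |(DD k z k : ℝ)| ≤ (k * (1 + B)) / a * Mx k z then V / (Mx k z : ℝ) else 0) ≤
      V * (A * C0 * 2) * ((2 : ℝ) ^ p) ^ k := by
    intro i _
    have h1 : ∀ z ∈ Z.filter (fun z => Nat.log 2 (Mx k z) = i),
        (if |(DD k z k : ℝ)| ≤ (k * (1 + B)) / a * Mx k z then V / (Mx k z : ℝ) else 0) ≤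
        (if |(DD k z k : ℝ)| ≤ (k * (1 + B)) / a * Mx k z then V / (2 : ℝ) ^ i else 0) := by
      intro z hz
      rw [Finset.mem_filter] at hz
      split_ifs with h
      · apply div_le_div_of_nonneg_left hV0 (by positivity)
        have h2 : 2 ^ i ≤ Mx k z := by
          rw [← hz.2]
          apply Nat.pow_log_le_self
          have := Mx_one k z
          intro h0
          rw [h0] at this
          norm_num at this
        exact_mod_cast h2
      · exact le_rfl
    refine (Finset.sum_le_sum h1).trans ?_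
    rw [← Finset.sum_filter, Finset.sum_const, nsmul_eq_mul]
    have h3 := hpairs (2 ^ p) Nat.one_le_two_pow (C0 * 2 ^ (i + 1)) (by
      have : (1 : ℝ) ≤ 2 ^ (i + 1) := one_le_pow₀ (by norm_num)
      nlinarith) ((Z.filter (fun z => Nat.log 2 (Mx k z) = i)).filter
        (fun z => |(DD k z k : ℝ)| ≤ (k * (1 + B)) / a * Mx k z)) (by
        intro z hz
        rw [Finset.mem_filter, Finset.mem_filter] at hz
        exact hz.1.1) (by
        intro z hz j hj1 hj2
        rw [Finset.mem_filter, Finset.mem_filter] at hz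
        have h4 : (Mx k z : ℝ) ≤ 2 ^ (i + 1) := by
          have : Mx k z < 2 ^ (i + 1) := by
            rw [← hz.1.2]
            exact Nat.lt_pow_succ_log_self (by norm_num) _
          exact_mod_cast this.le
        have hM0 : (0 : ℝ) ≤ Mx k z := by positivity
        rw [← DD_real]
        rcases Nat.lt_or_ge j k with hjk | hjk
        · have h5 := Mx_ge k z ⟨j, hjk⟩
          calc |(DD k z j : ℝ)| ≤ Mx k z := h5
            _ = 1 * Mx k z := (one_mul _).symm
            _ ≤ C0 * 2 ^ (i + 1) := mul_le_mul hC01 h4 hM0 (by linarith)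
        · have h6 : j = k := by omega
          rw [h6]
          refine hz.2.trans ?_
          exact mul_le_mul hC02 h4 hM0 (by linarith))
    push_cast at h3
    calc (((Z.filter (fun z => Nat.log 2 (Mx k z) = i)).filter
        (fun z => |(DD k z k : ℝ)| ≤ (k * (1 + B)) / a * Mx k z)).card : ℝ) * (V / 2 ^ i)
        ≤ (A * ((2 : ℝ) ^ p) ^ k * (C0 * 2 ^ (i + 1))) * (V / 2 ^ i) :=
          mul_le_mul_of_nonneg_right h3 (by positivity)
      _ = _ := by
          rw [pow_succ]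
          field_simp
  refine (Finset.sum_le_sum hfib).trans ?_
  rw [Finset.sum_const, Finset.card_range, nsmul_eq_mul]
  have h7 : ((I + 1 : ℕ) : ℝ) ≤ (c1 + k + 1) * (p + 1) := by
    rw [hI]
    push_cast
    have h8 : (0 : ℝ) ≤ c1 := by positivity
    have h9 : (0 : ℝ) ≤ k := by positivity
    have h10 : (0 : ℝ) ≤ p := by positivity
    nlinarith [mul_nonneg h8 h10, mul_nonneg h9 h10]
  have h11 : 0 ≤ V * (A * C0 * 2) * ((2 : ℝ) ^ p) ^ k := by positivity
  calc ((I + 1 : ℕ) : ℝ) * (V * (A * C0 * 2) * ((2 : ℝ) ^ p) ^ k)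
      ≤ ((c1 + k + 1) * (p + 1)) * (V * (A * C0 * 2) * ((2 : ℝ) ^ p) ^ k) := mul_le_mul_of_nonneg_right h7 h11
    _ ≤ _ := by
      have h12 : 0 ≤ ((p : ℝ) + 1) * ((2 : ℝ) ^ p) ^ k := by positivity
      nlinarith

/-- number of near collisions -/
noncomputable def NC (k : ℕ) (a : ℝ) (b : Fin k → ℝ) (P : ℕ) : ℕ :=
  ((BB k P ×ˢ BB k P).filter (fun z => |∑ l, fb k a b (z.1 l) - ∑ l, fb k a b (z.2 l)| ≤ k)).card

/-- for almost all lower coefficients there are few near collisions at all dyadic scales -/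
theorem energy_ae (k : ℕ) (a : ℝ) (ha : 0 < a) : ∀ᵐ b : Fin k → ℝ, ∀ᶠ p : ℕ in atTop,
    (NC k a b (2 ^ p) : ℝ) ≤ ((p : ℝ) + 1) ^ 3 * ((2 : ℝ) ^ p) ^ k := by
  apply ae_boxes
  intro B
  obtain ⟨A, hA, hmean⟩ := mean k a ha B (by positivity)
  have hsum : Summable (fun p : ℕ => A / ((p : ℝ) + 1) ^ 2) := by
    have h1 : Summable (fun p : ℕ => 1 / ((p : ℝ) + 1) ^ 2) := by
      have h2 := (summable_nat_add_iff 1).mpr (Real.summable_one_div_nat_pow.mpr (show 1 < 2 by norm_num))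
      refine h2.congr (fun p => ?_)
      push_cast; rfl
    refine (h1.mul_left A).congr (fun p => ?_)
    ring
  have h1 := bc (volume.restrict (QB k B))
    (fun p => {b | ((p : ℝ) + 1) ^ 3 * ((2 : ℝ) ^ p) ^ k ≤ ∑ z ∈ BB k (2 ^ p) ×ˢ BB k (2 ^ p),
      (Sl k a z).indicator (fun _ => (1 : ℝ)) b}) _ hsum (by
      intro p
      have h2 := markov (volume.restrict (QB k B)) (BB k (2 ^ p) ×ˢ BB k (2 ^ p)) (Sl k a) (Sl_meas k a)
        (((p : ℝ) + 1) ^ 3 * ((2 : ℝ) ^ p) ^ k) (by positivity) (A * (p + 1) * ((2 : ℝ) ^ p) ^ k) _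
        (fun z _ => Sl_vol k a ha B (by positivity) z) (fun z _ => by
          split_ifs
          · have := Mx_one k z
            positivity
          · exact le_rfl) (hmean p)
      refine h2.trans (le_of_eq ?_)
      congr 1
      have h3 : (p : ℝ) + 1 ≠ 0 := by positivity
      have h4 : ((2 : ℝ) ^ p) ^ k ≠ 0 := by positivity
      field_simp)
  filter_upwards [h1] with b hb
  filter_upwards [hb] with p hp
  rw [not_le] at hp
  refine le_trans (le_of_eq ?_) hp.le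
  unfold NC
  rw [Finset.card_filter]
  push_cast
  apply Finset.sum_congr rfl
  intro z _
  by_cases hz : b ∈ Sl k a z
  · rw [Set.indicator_of_mem hz]
    exact if_pos hz
  · rw [Set.indicator_of_notMem hz]
    exact if_neg hz

end Pool.Agent.Y867.WR
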