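import Pool.Agent.Y867.WR.Sec

/-! # Minor arcs for almost all coefficients -/

set_option autoImplicit false

open MeasureTheory Filter Finset
open scoped ENNReal

namespace Pool.Agent.Y867.WR

open Pool.Agent.W928.MW (e e_add e_norm e_cont e_lip)
open Pool.Agent.TH181.MW (e_conj)

theorem ev_ge (C ε : ℝ) (hε : 0 < ε) : ∀ᶠ p : ℕ in atTop, C ≤ ((2 : ℝ) ^ p) ^ ε := by
  have h1 : Tendsto (fun p : ℕ => ((2 : ℝ) ^ p) ^ ε) atTop atTop :=
    (tendsto_rpow_atTop hε).comp (tendsto_pow_atTop_atTop_of_one_lt (by norm_num))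
  exact h1.eventually_ge_atTop C

theorem pow2_rpow (p : ℕ) (x : ℝ) : ((2 : ℝ) ^ p) ^ x = ((2 : ℝ) ^ x) ^ p := by
  rw [← Real.rpow_natCast, ← Real.rpow_mul (by norm_num), ← Real.rpow_natCast, ← Real.rpow_mul (by norm_num),
    mul_comm]

theorem ev_poly (C ε : ℝ) (hε : 0 < ε) (m : ℕ) : ∀ᶠ p : ℕ in atTop, C * ((p : ℝ) + 1) ^ m ≤ ((2 : ℝ) ^ p) ^ ε := by
  set r : ℝ := (2 : ℝ) ^ (-ε) with hr
  have hr0 : 0 < r := by positivity
  have hr1 : |r| < 1 := by
    rw [abs_of_pos hr0, hr]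
    exact Real.rpow_lt_one_of_one_lt_of_neg (by norm_num) (by linarith)
  have h1 := tendsto_pow_const_mul_const_pow_of_abs_lt_one m hr1
  have h2 : ∀ᶠ p : ℕ in atTop, (p : ℝ) ^ m * r ^ p < 1 / ((|C| + 1) * 2 ^ m) :=
    h1.eventually_lt_const (by positivity)
  filter_upwards [h2, eventually_ge_atTop 1] with p hp hp1
  have hp1' : (1 : ℝ) ≤ p := by exact_mod_cast hp1
  have h3 : ((p : ℝ) + 1) ^ m ≤ 2 ^ m * (p : ℝ) ^ m := by
    rw [← mul_pow]
    exact pow_le_pow_left₀ (by positivity) (by linarith) m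
  have h4 : ((2 : ℝ) ^ p) ^ ε * r ^ p = 1 := by
    rw [pow2_rpow, ← mul_pow, hr, ← Real.rpow_add (by norm_num), add_neg_cancel, Real.rpow_zero, one_pow]
  have h5 : 0 < ((2 : ℝ) ^ p) ^ ε := by positivity
  rw [lt_div_iff₀ (by positivity)] at hp
  have h6 : C * ((p : ℝ) + 1) ^ m * r ^ p ≤ 1 := by
    calc C * ((p : ℝ) + 1) ^ m * r ^ p ≤ (|C| + 1) * (2 ^ m * (p : ℝ) ^ m) * r ^ p := by
          apply mul_le_mul_of_nonneg_right _ (by positivity)
          apply mul_le_mul _ h3 (by positivity) (by positivity)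
          have := le_abs_self C
          linarith
      _ = (p : ℝ) ^ m * r ^ p * ((|C| + 1) * 2 ^ m) := by ring
      _ ≤ 1 := hp.le
  calc C * ((p : ℝ) + 1) ^ m = C * ((p : ℝ) + 1) ^ m * (((2 : ℝ) ^ p) ^ ε * r ^ p) := by rw [h4, mul_one]
    _ = (C * ((p : ℝ) + 1) ^ m * r ^ p) * ((2 : ℝ) ^ p) ^ ε := by ring
    _ ≤ 1 * ((2 : ℝ) ^ p) ^ ε := mul_le_mul_of_nonneg_right h6 h5.le
    _ = _ := one_mul _

theorem summ (K c : ℝ) (hc : 0 < c) : Summable (fun p : ℕ => K * ((p : ℝ) + 1) * ((2 : ℝ) ^ p) ^ (-c)) := by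
  set r : ℝ := (2 : ℝ) ^ (-c) with hr
  have hr0 : 0 < r := by positivity
  have hr1 : ‖r‖ < 1 := by
    rw [Real.norm_eq_abs, abs_of_pos hr0, hr]
    exact Real.rpow_lt_one_of_one_lt_of_neg (by norm_num) (by linarith)
  have h1 := summable_pow_mul_geometric_of_norm_lt_one 1 hr1
  have h2 := summable_geometric_of_norm_lt_one hr1
  refine ((h1.add h2).mul_left K).congr (fun p => ?_)
  rw [pow2_rpow, ← hr]
  ring

/-- short blocks -/
theorem blocks_ae (k : ℕ) (hk : 2 ≤ k) (a : ℝ) (c4 : ℕ) : ∀ᵐ b : Fin k → ℝ, ∀ᶠ p : ℕ in atTop,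
    ∀ m : ℕ, m < c4 * 2 ^ (p / 10) →
    ‖∑ x ∈ Icc (((m * 2 ^ (p - p / 10) : ℕ) : ℤ) + 1) (((m + 1) * 2 ^ (p - p / 10) : ℕ) : ℤ), e (fb k a b x)‖ ≤
      ((2 ^ (p - p / 10) : ℕ) : ℝ) / 4 := by
  apply ae_boxes
  intro B
  have hB : (0 : ℝ) ≤ B := by positivity
  set K : ℝ := c4 * (16 * (2 * B + 2)) * (2 * B) ^ (k - 1) with hK
  have h1 := bc (volume.restrict (QB k B))
    (fun p => ⋃ m ∈ range (c4 * 2 ^ (p / 10)), LV k a 1 (((m * 2 ^ (p - p / 10) : ℕ) : ℤ) + 1)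
      (((m + 1) * 2 ^ (p - p / 10) : ℕ) : ℤ) (((2 ^ (p - p / 10) : ℕ) : ℝ) / 4)) _ (summ K (1 / 2) (by norm_num)) (by
      intro p
      set L : ℕ := 2 ^ (p - p / 10) with hL
      have hL1 : 1 ≤ L := Nat.one_le_two_pow
      have hL1' : (1 : ℝ) ≤ L := by exact_mod_cast hL1
      have hLlog : 1 + Real.log L ≤ p + 1 := by
        have h2 : Real.log L ≤ p := by
          rw [hL]
          push_cast
          rw [Real.log_pow]
          have h3 : Real.log 2 ≤ 1 := by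
            have := Real.log_two_lt_d9
            linarith
          have h4 : ((p - p / 10 : ℕ) : ℝ) ≤ p := by exact_mod_cast Nat.sub_le _ _
          have h5 : 0 ≤ Real.log 2 := Real.log_nonneg (by norm_num)
          nlinarith
        linarith
      have hlog0 : 0 ≤ Real.log L := Real.log_nonneg hL1'
      have h2 : ∀ m ∈ range (c4 * 2 ^ (p / 10)), (volume.restrict (QB k B)) (LV k a 1 (((m * L : ℕ) : ℤ) + 1)
          (((m + 1) * L : ℕ) : ℤ) ((L : ℝ) / 4)) ≤ ENNReal.ofReal (16 * (2 * B + 2) * (p + 1) / L * (2 * B) ^ (k - 1)) := by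
        intro m _
        have h3 := LV_vol k hk a 1 one_ne_zero (((m * L : ℕ) : ℤ) + 1) (((m + 1) * L : ℕ) : ℤ) L hL1 (by
          push_cast
          have : ((m : ℤ) + 1) * (L : ℤ) = m * L + L := by ring
          omega) ((L : ℝ) / 4) (by positivity) B hB
        refine h3.trans (ENNReal.ofReal_le_ofReal ?_)
        apply mul_le_mul_of_nonneg_right _ (by positivity)
        rw [abs_one, div_one]
        have h4 : (L : ℝ) * (2 * B + 2 * (1 + Real.log L)) / ((L : ℝ) / 4) ^ 2 = 16 * (2 * B + 2 * (1 + Real.log L)) / L := by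
          field_simp
          ring
        rw [h4]
        apply div_le_div_of_nonneg_right _ (by positivity)
        have h5 : (0 : ℝ) ≤ B * p := by positivity
        nlinarith
      refine (measure_biUnion_finset_le _ _).trans ((Finset.sum_le_sum h2).trans ?_)
      rw [Finset.sum_const, Finset.card_range, nsmul_eq_mul, ← ENNReal.ofReal_natCast, ← ENNReal.ofReal_mul (by positivity)]
      apply ENNReal.ofReal_le_ofReal
      have h6 : (2 : ℝ) ^ (p / 10) / L ≤ ((2 : ℝ) ^ p) ^ (-(1 / 2) : ℝ) := by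
        rw [div_le_iff₀ (by positivity)]
        rw [hL]
        push_cast
        have e1 : ((2 : ℝ) ^ p) ^ (-(1 / 2) : ℝ) = (2 : ℝ) ^ (-((p : ℝ) / 2)) := by
          rw [← Real.rpow_natCast, ← Real.rpow_mul (by norm_num)]
          congr 1
          ring
        rw [e1, ← Real.rpow_natCast, ← Real.rpow_natCast, ← Real.rpow_add (by norm_num)]
        apply Real.rpow_le_rpow_of_exponent_le (by norm_num)
        have e2 : ((p - p / 10 : ℕ) : ℝ) = (p : ℝ) - ((p / 10 : ℕ) : ℝ) := by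
          rw [Nat.cast_sub (Nat.div_le_self _ _)]
        rw [e2]
        have e3 : ((p / 10 : ℕ) : ℝ) ≤ p / 10 := by
          have := Nat.cast_div_le (α := ℝ) (m := p) (n := 10)
          exact_mod_cast this
        have e4 : (0 : ℝ) ≤ p := by positivity
        linarith
      calc ((c4 * 2 ^ (p / 10) : ℕ) : ℝ) * (16 * (2 * B + 2) * (p + 1) / L * (2 * B) ^ (k - 1))
          = K * ((p : ℝ) + 1) * ((2 : ℝ) ^ (p / 10) / L) := by
            rw [hK]; push_cast; ring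
        _ ≤ K * ((p : ℝ) + 1) * ((2 : ℝ) ^ p) ^ (-(1 / 2) : ℝ) := mul_le_mul_of_nonneg_left h6 (by positivity))
  filter_upwards [h1] with b hb
  filter_upwards [hb] with p hp m hm
  by_contra hcon
  apply hp
  rw [Set.mem_iUnion₂]
  refine ⟨m, Finset.mem_range.mpr hm, ?_⟩
  unfold LV
  rw [Set.mem_setOf_eq]
  simp only [one_mul]
  exact (not_le.mp hcon).le

open Polynomial in
/-- the phase as a polynomial -/
noncomputable def polyF (k : ℕ) (a : ℝ) (b : Fin k → ℝ) (β : ℝ) : ℝ[X] :=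
  C (β * a) * X ^ k + ∑ j : Fin k, C (β * b j) * X ^ (j : ℕ)

open Polynomial in
theorem polyF_deg (k : ℕ) (a : ℝ) (b : Fin k → ℝ) (β : ℝ) : (polyF k a b β).natDegree ≤ k := by
  unfold polyF
  refine (natDegree_add_le _ _).trans (max_le (natDegree_C_mul_X_pow_le _ _) ?_)
  apply natDegree_sum_le_of_forall_le
  intro j _
  exact (natDegree_C_mul_X_pow_le _ _).trans (le_of_lt j.2)

open Polynomial in
theorem polyF_coeff (k : ℕ) (a : ℝ) (b : Fin k → ℝ) (β : ℝ) : (polyF k a b β).coeff k = β * a := by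
  unfold polyF
  rw [coeff_add, coeff_C_mul_X_pow, if_pos rfl, finset_sum_coeff]
  rw [Finset.sum_eq_zero, add_zero]
  intro j _
  rw [coeff_C_mul_X_pow, if_neg]
  have := j.2
  omega

open Polynomial in
theorem polyF_eval (k : ℕ) (a : ℝ) (b : Fin k → ℝ) (β x : ℝ) : (polyF k a b β).eval x = β * fb k a b x := by
  unfold polyF fb
  rw [eval_add, eval_mul, eval_C, eval_pow, eval_X, eval_finset_sum, mul_add, Finset.mul_sum]
  congr 1
  · ring
  · apply Finset.sum_congr rfl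
    intro j _
    rw [eval_mul, eval_C, eval_pow, eval_X]
    ring

/-- size of the polynomial -/
theorem fb_le (k : ℕ) (a : ℝ) (ha : 0 < a) (b : Fin k → ℝ) (B : ℝ) (hb : ∀ i, |b i| ≤ B) (x X : ℝ)
    (hx : 1 ≤ x) (hX : x ≤ X) : |fb k a b x| ≤ (a + k * B) * X ^ k := by
  unfold fb
  refine (abs_add_le _ _).trans ?_
  have h1 : |a * x ^ k| ≤ a * X ^ k := by
    rw [abs_mul, abs_of_pos ha, abs_of_nonneg (by positivity)]
    exact mul_le_mul_of_nonneg_left (pow_le_pow_left₀ (by linarith) hX k) ha.le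
  have h2 : |∑ j : Fin k, b j * x ^ (j : ℕ)| ≤ ∑ _j : Fin k, B * X ^ k := by
    refine (Finset.abs_sum_le_sum_abs _ _).trans (Finset.sum_le_sum (fun j _ => ?_))
    rw [abs_mul, abs_of_nonneg (show 0 ≤ x ^ (j : ℕ) by positivity)]
    apply mul_le_mul (hb j) _ (by positivity) ((abs_nonneg _).trans (hb j))
    calc x ^ (j : ℕ) ≤ X ^ (j : ℕ) := pow_le_pow_left₀ (by linarith) hX _
      _ ≤ X ^ k := pow_le_pow_right₀ (by linarith) j.2.le
  rw [Finset.sum_const, Finset.card_univ, Fintype.card_fin, nsmul_eq_mul] at h2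
  calc |a * x ^ k| + |∑ j : Fin k, b j * x ^ (j : ℕ)| ≤ a * X ^ k + k * (B * X ^ k) := add_le_add h1 h2
    _ = _ := by ring

/-- Lipschitz bound in the frequency -/
theorem S_lip (k : ℕ) (a : ℝ) (ha : 0 < a) (b : Fin k → ℝ) (B : ℝ) (hb : ∀ i, |b i| ≤ B) (N : ℕ) (β β' : ℝ) :
    ‖∑ n ∈ Icc 1 (N : ℤ), e (β * fb k a b n)‖ ≤ ‖∑ n ∈ Icc 1 (N : ℤ), e (β' * fb k a b n)‖ +
      2 * Real.pi * |β - β'| * ((a + k * B) * (N : ℝ) ^ (k + 1)) := by
  have h1 : ∑ n ∈ Icc 1 (N : ℤ), e (β * fb k a b n) = ∑ n ∈ Icc 1 (N : ℤ), e (β' * fb k a b n) +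
      ∑ n ∈ Icc 1 (N : ℤ), (e (β * fb k a b n) - e (β' * fb k a b n)) := by
    rw [← Finset.sum_add_distrib]
    apply Finset.sum_congr rfl
    intro n _
    ring
  rw [h1]
  refine (norm_add_le _ _).trans ?_
  apply add_le_add le_rfl
  have h2 : ∀ n ∈ Icc 1 (N : ℤ), ‖e (β * fb k a b n) - e (β' * fb k a b n)‖ ≤
      2 * Real.pi * |β - β'| * ((a + k * B) * (N : ℝ) ^ k) := by
    intro n hn
    rw [Finset.mem_Icc] at hn
    refine (e_lip _ _).trans ?_
    rw [← sub_mul, abs_mul, mul_assoc (2 * Real.pi)]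
    apply mul_le_mul_of_nonneg_left _ (by positivity)
    apply mul_le_mul_of_nonneg_left _ (abs_nonneg _)
    exact fb_le k a ha b B hb n N (by exact_mod_cast hn.1) (by exact_mod_cast hn.2)
  refine (norm_sum_le _ _).trans ((Finset.sum_le_sum h2).trans ?_)
  rw [Finset.sum_const, Int.card_Icc, nsmul_eq_mul]
  have h3 : (((N : ℤ) + 1 - 1).toNat : ℝ) = N := by
    have : ((N : ℤ) + 1 - 1).toNat = N := by omega
    rw [this]
  rw [h3]
  apply le_of_eq
  rw [pow_succ]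
  ring

end Pool.Agent.Y867.WR
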