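import Pool.Agent.Y867.WR.MinA

/-! # Minor arcs for almost all coefficients, main statement -/

set_option autoImplicit false

open MeasureTheory Filter Finset
open scoped ENNReal

namespace Pool.Agent.Y867.WR

open Pool.Agent.W928.MW (e e_add e_norm e_cont e_lip)
open Pool.Agent.TH181.MW (e_conj)

/-- the saving -/
noncomputable def sg (k : ℕ) : ℝ := 1 / (80 * 2 ^ (k + 1))

theorem sg_pos (k : ℕ) : 0 < sg k := by unfold sg; positivity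

theorem sg_le (k : ℕ) : sg k ≤ 1 / 160 := by
  unfold sg
  apply div_le_div_of_nonneg_left (by norm_num) (by norm_num)
  rw [pow_succ]
  have : (1 : ℝ) ≤ 2 ^ k := one_le_pow₀ (by norm_num)
  linarith

/-- large denominators: Weyl's inequality -/
theorem big_q (k : ℕ) (hk : 2 ≤ k) (c4 : ℕ) (hc4 : 1 ≤ c4) : ∀ᶠ p : ℕ in atTop, ∀ (a β : ℝ) (b : Fin k → ℝ)
    (r : ℤ) (q : ℕ), 1 ≤ q → IsCoprime r (q : ℤ) → ((2 : ℝ) ^ p) ^ (1 / 40 : ℝ) < q →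
    (q : ℝ) ≤ ((2 : ℝ) ^ p) ^ ((k : ℝ) - 1 / 40) → |β * a - r / q| ≤ 1 / (q : ℝ) ^ 2 →
    ‖∑ n ∈ Icc 1 ((c4 * 2 ^ p : ℕ) : ℤ), e (β * fb k a b n)‖ ≤ ((2 : ℝ) ^ p) ^ (1 - sg k) := by
  obtain ⟨C, hC, hw⟩ := weyl_min k hk (1 / 80) (by norm_num) (by norm_num)
  have hc4' : (1 : ℝ) ≤ c4 := by exact_mod_cast hc4
  filter_upwards [ev_ge c4 1 one_pos, ev_ge (C * c4) (sg k) (sg_pos k)] with p hp1 hp2 a β b r q hq hcop hq1 hq2 happ
  rw [Real.rpow_one] at hp1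
  set X : ℝ := (2 : ℝ) ^ p with hX
  have hX1 : 1 ≤ X := one_le_pow₀ (by norm_num)
  have hX0 : 0 < X := by linarith
  have hN : ((c4 * 2 ^ p : ℕ) : ℝ) = c4 * X := by push_cast; rfl
  have h1 := hw (c4 * 2 ^ p) q (Nat.mul_pos (by omega) (by positivity)) hq (polyF k a b β) (polyF_deg k a b β) r hcop
    (by
      rw [hN]
      refine le_trans ?_ hq1.le
      calc (c4 * X) ^ (1 / 80 : ℝ) ≤ (X * X) ^ (1 / 80 : ℝ) :=
            Real.rpow_le_rpow (by positivity) (mul_le_mul_of_nonneg_right hp1 hX0.le) (by norm_num)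
        _ = X ^ (1 / 40 : ℝ) := by
          rw [Real.mul_rpow hX0.le hX0.le, ← Real.rpow_add hX0]
          norm_num)
    (by
      rw [hN]
      refine hq2.trans ?_
      have hk2 : (2 : ℝ) ≤ k := by exact_mod_cast hk
      calc X ^ ((k : ℝ) - 1 / 40) ≤ X ^ ((k : ℝ) - 1 / 80) := Real.rpow_le_rpow_of_exponent_le hX1 (by linarith)
        _ ≤ (c4 * X) ^ ((k : ℝ) - 1 / 80) := by
          apply Real.rpow_le_rpow hX0.le _ (by linarith)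
          nlinarith)
    (by rw [polyF_coeff]; exact happ)
  have h2 : ∑ n ∈ Icc 1 ((c4 * 2 ^ p : ℕ) : ℤ), e ((polyF k a b β).eval (n : ℝ)) =
      ∑ n ∈ Icc 1 ((c4 * 2 ^ p : ℕ) : ℤ), e (β * fb k a b n) := by
    apply Finset.sum_congr rfl
    intro n _
    rw [polyF_eval]
  rw [h2] at h1
  refine h1.trans ?_
  rw [hN]
  have hs : 1 - 1 / 80 / 2 ^ k = 1 - 2 * sg k := by
    unfold sg
    rw [pow_succ]
    field_simp
  rw [hs]
  have hs1 := sg_le k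
  have hs0 := sg_pos k
  calc C * (c4 * X) ^ (1 - 2 * sg k) = C * ((c4 : ℝ) ^ (1 - 2 * sg k) * X ^ (1 - 2 * sg k)) := by
        rw [Real.mul_rpow (by positivity) hX0.le]
    _ ≤ C * (c4 * X ^ (1 - 2 * sg k)) := by
        apply mul_le_mul_of_nonneg_left _ hC.le
        apply mul_le_mul_of_nonneg_right _ (by positivity)
        calc (c4 : ℝ) ^ (1 - 2 * sg k) ≤ (c4 : ℝ) ^ (1 : ℝ) := Real.rpow_le_rpow_of_exponent_le hc4' (by linarith)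
          _ = c4 := Real.rpow_one _
    _ = (C * c4) * X ^ (1 - 2 * sg k) := by ring
    _ ≤ X ^ sg k * X ^ (1 - 2 * sg k) := mul_le_mul_of_nonneg_right hp2 (by positivity)
    _ = X ^ (1 - sg k) := by
        rw [← Real.rpow_add hX0]
        congr 1
        ring

/-- the points of the net -/
noncomputable def npt (k : ℕ) (a X : ℝ) (q : ℕ) (r m : ℤ) : ℝ := r / (a * q) + m * X ^ (-(k : ℝ) - 1 / 20)

/-- index set of the net -/
noncomputable def nix (k : ℕ) (a X : ℝ) : Finset (ℕ × ℤ × ℤ) :=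
  ((Icc 1 ⌊X ^ (1 / 40 : ℝ)⌋₊) ×ˢ ((Icc (-((⌈X ^ (1 / 40 : ℝ) * (a * X ^ (1 / 40 : ℝ) + 1)⌉₊ : ℕ) : ℤ))
    ((⌈X ^ (1 / 40 : ℝ) * (a * X ^ (1 / 40 : ℝ) + 1)⌉₊ : ℕ) : ℤ)) ×ˢ
    (Icc (-((⌈X ^ (3 / 40 : ℝ) / a⌉₊ + 1 : ℕ) : ℤ)) ((⌈X ^ (3 / 40 : ℝ) / a⌉₊ + 1 : ℕ) : ℤ)))).filter
    (fun z => X ^ (-(1 / 40) : ℝ) / (2 * a) ≤ |npt k a X z.1 z.2.1 z.2.2|)

theorem nix_card (k : ℕ) (a X : ℝ) (ha : 0 < a) (hX : 1 ≤ X) :
    ((nix k a X).card : ℝ) ≤ (2 * a + 5) * (2 / a + 7) * X ^ (6 / 40 : ℝ) := by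
  unfold nix
  have hX0 : 0 < X := by linarith
  have h1 : (((((Icc 1 ⌊X ^ (1 / 40 : ℝ)⌋₊) ×ˢ ((Icc (-((⌈X ^ (1 / 40 : ℝ) * (a * X ^ (1 / 40 : ℝ) + 1)⌉₊ : ℕ) : ℤ))
    ((⌈X ^ (1 / 40 : ℝ) * (a * X ^ (1 / 40 : ℝ) + 1)⌉₊ : ℕ) : ℤ)) ×ˢ
    (Icc (-((⌈X ^ (3 / 40 : ℝ) / a⌉₊ + 1 : ℕ) : ℤ)) ((⌈X ^ (3 / 40 : ℝ) / a⌉₊ + 1 : ℕ) : ℤ)))).filter
    (fun z => X ^ (-(1 / 40) : ℝ) / (2 * a) ≤ |npt k a X z.1 z.2.1 z.2.2|)).card : ℕ) : ℝ) ≤
    ((⌊X ^ (1 / 40 : ℝ)⌋₊ * ((2 * ⌈X ^ (1 / 40 : ℝ) * (a * X ^ (1 / 40 : ℝ) + 1)⌉₊ + 1) * (2 * (⌈X ^ (3 / 40 : ℝ) / a⌉₊ + 1) + 1)) : ℕ) : ℝ) := by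
    have h2 := Finset.card_filter_le ((Icc 1 ⌊X ^ (1 / 40 : ℝ)⌋₊) ×ˢ ((Icc (-((⌈X ^ (1 / 40 : ℝ) * (a * X ^ (1 / 40 : ℝ) + 1)⌉₊ : ℕ) : ℤ))
    ((⌈X ^ (1 / 40 : ℝ) * (a * X ^ (1 / 40 : ℝ) + 1)⌉₊ : ℕ) : ℤ)) ×ˢ
    (Icc (-((⌈X ^ (3 / 40 : ℝ) / a⌉₊ + 1 : ℕ) : ℤ)) ((⌈X ^ (3 / 40 : ℝ) / a⌉₊ + 1 : ℕ) : ℤ))))
      (fun z => X ^ (-(1 / 40) : ℝ) / (2 * a) ≤ |npt k a X z.1 z.2.1 z.2.2|)
    rw [Finset.card_product, Finset.card_product, Nat.card_Icc, Pool.Agent.TH181.MW.card_H, Pool.Agent.TH181.MW.card_H,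
      Nat.add_sub_cancel] at h2
    exact_mod_cast h2
  refine h1.trans ?_
  push_cast
  have hx1 : 1 ≤ X ^ (1 / 40 : ℝ) := Real.one_le_rpow hX (by norm_num)
  have hx3 : 1 ≤ X ^ (3 / 40 : ℝ) := Real.one_le_rpow hX (by norm_num)
  have hx2 : X ^ (1 / 40 : ℝ) ≤ X ^ (2 / 40 : ℝ) := Real.rpow_le_rpow_of_exponent_le hX (by norm_num)
  have hx22 : X ^ (1 / 40 : ℝ) * X ^ (1 / 40 : ℝ) = X ^ (2 / 40 : ℝ) := by
    rw [← Real.rpow_add hX0]; norm_num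
  have e1 : (⌊X ^ (1 / 40 : ℝ)⌋₊ : ℝ) ≤ X ^ (1 / 40 : ℝ) := Nat.floor_le (by positivity)
  have e2 : (2 * (⌈X ^ (1 / 40 : ℝ) * (a * X ^ (1 / 40 : ℝ) + 1)⌉₊ : ℝ) + 1) ≤ (2 * a + 5) * X ^ (2 / 40 : ℝ) := by
    have h3 := Nat.ceil_lt_add_one (show 0 ≤ X ^ (1 / 40 : ℝ) * (a * X ^ (1 / 40 : ℝ) + 1) by positivity)
    have h4 : X ^ (1 / 40 : ℝ) * (a * X ^ (1 / 40 : ℝ) + 1) = a * X ^ (2 / 40 : ℝ) + X ^ (1 / 40 : ℝ) := by
      rw [← hx22]; ring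
    rw [h4] at h3 ⊢
    nlinarith
  have e3 : (2 * ((⌈X ^ (3 / 40 : ℝ) / a⌉₊ : ℝ) + 1) + 1) ≤ (2 / a + 7) * X ^ (3 / 40 : ℝ) := by
    have h3 := Nat.ceil_lt_add_one (show 0 ≤ X ^ (3 / 40 : ℝ) / a by positivity)
    have h4 : (2 / a + 7) * X ^ (3 / 40 : ℝ) = 2 * (X ^ (3 / 40 : ℝ) / a) + 7 * X ^ (3 / 40 : ℝ) := by ring
    rw [h4]
    linarith
  have e4 : X ^ (1 / 40 : ℝ) * (X ^ (2 / 40 : ℝ) * X ^ (3 / 40 : ℝ)) = X ^ (6 / 40 : ℝ) := by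
    rw [← Real.rpow_add hX0, ← Real.rpow_add hX0]; norm_num
  calc (⌊X ^ (1 / 40 : ℝ)⌋₊ : ℝ) * ((2 * (⌈X ^ (1 / 40 : ℝ) * (a * X ^ (1 / 40 : ℝ) + 1)⌉₊ : ℝ) + 1) *
        (2 * ((⌈X ^ (3 / 40 : ℝ) / a⌉₊ : ℝ) + 1) + 1))
      ≤ X ^ (1 / 40 : ℝ) * (((2 * a + 5) * X ^ (2 / 40 : ℝ)) * ((2 / a + 7) * X ^ (3 / 40 : ℝ))) := by
        apply mul_le_mul e1 _ (by positivity) (by positivity)
        apply mul_le_mul e2 e3 (by positivity) (by positivity)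
    _ = (2 * a + 5) * (2 / a + 7) * (X ^ (1 / 40 : ℝ) * (X ^ (2 / 40 : ℝ) * X ^ (3 / 40 : ℝ))) := by ring
    _ = _ := by rw [e4]

/-- the net is avoided by almost all coefficients -/
theorem net_ae (k : ℕ) (hk : 2 ≤ k) (a : ℝ) (ha : 0 < a) (c4 : ℕ) (hc4 : 1 ≤ c4) (B : ℕ) :
    ∀ᵐ b ∂(volume.restrict (QB k B)), ∀ᶠ p : ℕ in atTop, ∀ z ∈ nix k a ((2 : ℝ) ^ p),
    ‖∑ n ∈ Icc 1 ((c4 * 2 ^ p : ℕ) : ℤ), e (npt k a ((2 : ℝ) ^ p) z.1 z.2.1 z.2.2 * fb k a b n)‖ ≤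
      ((2 : ℝ) ^ p) ^ (1 - 1 / 40 : ℝ) := by
  have hB : (0 : ℝ) ≤ B := by positivity
  have hc4' : (1 : ℝ) ≤ c4 := by exact_mod_cast hc4
  have hlc : 0 ≤ Real.log c4 := Real.log_nonneg hc4'
  set K1 : ℝ := c4 * (2 * B + 4 * a * (1 + Real.log c4)) * (2 * B) ^ (k - 1) with hK1
  have hK10 : 0 ≤ K1 := by positivity
  set K : ℝ := (2 * a + 5) * (2 / a + 7) * K1 with hK
  have h1 := bc (volume.restrict (QB k B))
    (fun p => ⋃ z ∈ nix k a ((2 : ℝ) ^ p), LV k a (npt k a ((2 : ℝ) ^ p) z.1 z.2.1 z.2.2) 1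
      ((c4 * 2 ^ p : ℕ) : ℤ) (((2 : ℝ) ^ p) ^ (1 - 1 / 40 : ℝ))) _ (summ K (31 / 40) (by norm_num)) (by
      intro p
      set X : ℝ := (2 : ℝ) ^ p with hX
      have hX1 : 1 ≤ X := one_le_pow₀ (by norm_num)
      have hX0 : 0 < X := by linarith
      have hN : ((c4 * 2 ^ p : ℕ) : ℝ) = c4 * X := by push_cast; rfl
      have hlogX : 1 + Real.log (c4 * X) ≤ (1 + Real.log c4) * (p + 1) := by
        rw [Real.log_mul (by positivity) (by positivity), hX, Real.log_pow]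
        have h3 : Real.log 2 ≤ 1 := by
          have := Real.log_two_lt_d9
          linarith
        have h4 : (0 : ℝ) ≤ p := by positivity
        nlinarith [mul_nonneg hlc h4]
      have hlog0 : 0 ≤ Real.log (c4 * X) := Real.log_nonneg (by nlinarith)
      have h2 : ∀ z ∈ nix k a X, (volume.restrict (QB k B)) (LV k a (npt k a X z.1 z.2.1 z.2.2) 1
          ((c4 * 2 ^ p : ℕ) : ℤ) (X ^ (1 - 1 / 40 : ℝ))) ≤ ENNReal.ofReal (K1 * (p + 1) * X ^ (-(37 / 40) : ℝ)) := by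
        intro z hz
        unfold nix at hz
        rw [Finset.mem_filter] at hz
        have hβ := hz.2
        set β : ℝ := npt k a X z.1 z.2.1 z.2.2 with hβd
        have hβ0 : 0 < |β| := lt_of_lt_of_le (by positivity) hβ
        have h3 := LV_vol k hk a β (abs_pos.mp hβ0) 1 ((c4 * 2 ^ p : ℕ) : ℤ) (c4 * 2 ^ p)
          (Nat.mul_pos (by omega) (by positivity)) (by omega) (X ^ (1 - 1 / 40 : ℝ)) (by positivity) B hB
        refine h3.trans (ENNReal.ofReal_le_ofReal ?_)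
        rw [hN]
        have h4 : 2 * (1 + Real.log (c4 * X)) / |β| ≤ 4 * a * (1 + Real.log (c4 * X)) * X ^ (1 / 40 : ℝ) := by
          rw [div_le_iff₀ hβ0]
          have h5 : 1 / (2 * a) ≤ X ^ (1 / 40 : ℝ) * |β| := by
            calc 1 / (2 * a) = X ^ (1 / 40 : ℝ) * (X ^ (-(1 / 40) : ℝ) / (2 * a)) := by
                  rw [← mul_div_assoc, ← Real.rpow_add hX0, add_neg_cancel, Real.rpow_zero]
              _ ≤ X ^ (1 / 40 : ℝ) * |β| := mul_le_mul_of_nonneg_left hβ (by positivity)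
          calc 2 * (1 + Real.log (c4 * X)) = (4 * a * (1 + Real.log (c4 * X))) * (1 / (2 * a)) := by
                field_simp; ring
            _ ≤ (4 * a * (1 + Real.log (c4 * X))) * (X ^ (1 / 40 : ℝ) * |β|) :=
                mul_le_mul_of_nonneg_left h5 (by positivity)
            _ = _ := by ring
        have hx1 : 1 ≤ X ^ (1 / 40 : ℝ) := Real.one_le_rpow hX1 (by norm_num)
        have h6 : 2 * B + 2 * (1 + Real.log (c4 * X)) / |β| ≤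
            (2 * B + 4 * a * (1 + Real.log c4)) * (p + 1) * X ^ (1 / 40 : ℝ) := by
          have hp0 : (0 : ℝ) ≤ p := by positivity
          have h7 : (2 * (B : ℝ)) ≤ 2 * B * (p + 1) * X ^ (1 / 40 : ℝ) := by
            have : (2 * (B : ℝ)) * 1 ≤ 2 * B * ((p + 1) * X ^ (1 / 40 : ℝ)) := by
              apply mul_le_mul_of_nonneg_left _ (by positivity)
              nlinarith
            linarith
          have h8 : 4 * a * (1 + Real.log (c4 * X)) * X ^ (1 / 40 : ℝ) ≤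
              4 * a * ((1 + Real.log c4) * (p + 1)) * X ^ (1 / 40 : ℝ) := by
            gcongr
          calc 2 * B + 2 * (1 + Real.log (c4 * X)) / |β| ≤ 2 * B * (p + 1) * X ^ (1 / 40 : ℝ) +
                4 * a * ((1 + Real.log c4) * (p + 1)) * X ^ (1 / 40 : ℝ) := by linarith
            _ = _ := by ring
        have h9 : (X ^ (1 - 1 / 40 : ℝ)) ^ 2 = X ^ (2 - 1 / 20 : ℝ) := by
          rw [← Real.rpow_natCast, ← Real.rpow_mul hX0.le]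
          norm_num
        rw [h9]
        have h10 : (c4 * X) * ((2 * B + 4 * a * (1 + Real.log c4)) * (p + 1) * X ^ (1 / 40 : ℝ)) / X ^ (2 - 1 / 20 : ℝ) * (2 * B) ^ (k - 1) =
            K1 * (p + 1) * X ^ (-(37 / 40) : ℝ) := by
          have h11 : X ^ (-(37 / 40) : ℝ) = X * X ^ (1 / 40 : ℝ) / X ^ (2 - 1 / 20 : ℝ) := by
            rw [eq_div_iff (by positivity), ← Real.rpow_add hX0]
            have : X * X ^ (1 / 40 : ℝ) = X ^ (1 : ℝ) * X ^ (1 / 40 : ℝ) := by rw [Real.rpow_one]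
            rw [this, ← Real.rpow_add hX0]
            norm_num
          rw [h11, hK1]
          ring
        rw [← h10]
        apply mul_le_mul_of_nonneg_right _ (by positivity)
        apply div_le_div_of_nonneg_right _ (by positivity)
        exact mul_le_mul_of_nonneg_left h6 (by positivity)
      refine (measure_biUnion_finset_le _ _).trans ((Finset.sum_le_sum h2).trans ?_)
      rw [Finset.sum_const, nsmul_eq_mul, ← ENNReal.ofReal_natCast, ← ENNReal.ofReal_mul (by positivity)]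
      apply ENNReal.ofReal_le_ofReal
      have h12 := nix_card k a X ha hX1
      calc ((nix k a X).card : ℝ) * (K1 * (p + 1) * X ^ (-(37 / 40) : ℝ))
          ≤ ((2 * a + 5) * (2 / a + 7) * X ^ (6 / 40 : ℝ)) * (K1 * (p + 1) * X ^ (-(37 / 40) : ℝ)) :=
            mul_le_mul_of_nonneg_right h12 (by positivity)
        _ = K * (p + 1) * (X ^ (6 / 40 : ℝ) * X ^ (-(37 / 40) : ℝ)) := by rw [hK]; ring
        _ = K * (p + 1) * X ^ (-(31 / 40) : ℝ) := by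
            rw [← Real.rpow_add hX0]; norm_num)
  filter_upwards [h1] with b hb
  filter_upwards [hb] with p hp z hz
  by_contra hcon
  apply hp
  rw [Set.mem_iUnion₂]
  refine ⟨z, hz, ?_⟩
  unfold LV
  rw [Set.mem_setOf_eq]
  exact (not_le.mp hcon).le

end Pool.Agent.Y867.WR
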