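import Pool.Agent.Y867.WR.Gen

/-! # Minor arcs for families of polynomials with a second moment bound -/

set_option autoImplicit false

open MeasureTheory Filter Finset
open scoped ENNReal

namespace Pool.Agent.Y867.WR

open Pool.Agent.W928.MW (e e_add e_norm e_cont e_lip)
open Pool.Agent.TH181.MW (e_conj)

/-- large values of the exponential sum along a family of polynomials -/
def LG {Ω : Type*} (k : ℕ) (a : ℝ) (bf : Ω → Fin k → ℝ) (β : ℝ) (u v : ℤ) (l : ℝ) : Set Ω :=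
  {ω | l ≤ ‖∑ x ∈ Icc u v, e (β * fb k a (bf ω) x)‖}

/-- the second moment bound for the family -/
def VBd {Ω : Type*} [MeasurableSpace Ω] (μ : Measure Ω) (k : ℕ) (a : ℝ) (bf : Ω → Fin k → ℝ) (B W : ℝ) : Prop :=
  ∀ β : ℝ, β ≠ 0 → ∀ (u v : ℤ) (N : ℕ), 1 ≤ u → 1 ≤ N → v - u < N → ∀ l : ℝ, 0 < l →
    μ (LG k a bf β u v l) ≤ ENNReal.ofReal (N * (2 * B + 2 * (1 + Real.log N) / |β|) / l ^ 2 * W)

/-- short blocks -/
theorem blocks_gen {Ω : Type*} [MeasurableSpace Ω] (μ : Measure Ω) (k : ℕ) (a : ℝ) (bf : Ω → Fin k → ℝ) (B W : ℝ)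
    (hB : 0 ≤ B) (hW : 0 ≤ W) (hV : VBd μ k a bf B W) (c4 : ℕ) : ∀ᵐ ω ∂μ, ∀ᶠ p : ℕ in atTop,
    ∀ m : ℕ, m < c4 * 2 ^ (p / 10) →
    ‖∑ x ∈ Icc (((m * 2 ^ (p - p / 10) : ℕ) : ℤ) + 1) (((m + 1) * 2 ^ (p - p / 10) : ℕ) : ℤ), e (fb k a (bf ω) x)‖ ≤
      ((2 ^ (p - p / 10) : ℕ) : ℝ) / 4 := by
  set K : ℝ := c4 * (16 * (2 * B + 2)) * W with hK
  have h1 := bc (μ)
    (fun p => ⋃ m ∈ range (c4 * 2 ^ (p / 10)), LG k a bf 1 (((m * 2 ^ (p - p / 10) : ℕ) : ℤ) + 1)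
      (((m + 1) * 2 ^ (p - p / 10) : ℕ) : ℤ) (((2 ^ (p - p / 10) : ℕ) : ℝ) / 4)) _ (summ K (1 / 2) (by norm_num)) (by
      intro p
      set L : ℕ := 2 ^ (p - p / 10) with hL
      have hL1 : 1 ≤ L := Nat.one_le_two_pow
      have hL1' : (1 : ℝ) ≤ L := by exact_mod_cast hL1
      have hLlog : 1 + Real.log L ≤ p + 1 := by
        have h2 : Real.log L ≤ p := by
          rw [hL]
          push_cast
          rw [Real.log_pow]
          have h3 : Real.log 2 ≤ 1 := by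
            have := Real.log_two_lt_d9
            linarith
          have h4 : ((p - p / 10 : ℕ) : ℝ) ≤ p := by exact_mod_cast Nat.sub_le _ _
          have h5 : 0 ≤ Real.log 2 := Real.log_nonneg (by norm_num)
          nlinarith
        linarith
      have hlog0 : 0 ≤ Real.log L := Real.log_nonneg hL1'
      have h2 : ∀ m ∈ range (c4 * 2 ^ (p / 10)), (μ) (LG k a bf 1 (((m * L : ℕ) : ℤ) + 1)
          (((m + 1) * L : ℕ) : ℤ) ((L : ℝ) / 4)) ≤ ENNReal.ofReal (16 * (2 * B + 2) * (p + 1) / L * W) := by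
        intro m _
        have h3 := hV 1 one_ne_zero (((m * L : ℕ) : ℤ) + 1) (((m + 1) * L : ℕ) : ℤ) L (by
          have : (0 : ℤ) ≤ ((m * L : ℕ) : ℤ) := by positivity
          linarith) hL1 (by
          push_cast
          have : ((m : ℤ) + 1) * (L : ℤ) = m * L + L := by ring
          omega) ((L : ℝ) / 4) (by positivity)
        refine h3.trans (ENNReal.ofReal_le_ofReal ?_)
        apply mul_le_mul_of_nonneg_right _ (by positivity)
        rw [abs_one, div_one]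
        have h4 : (L : ℝ) * (2 * B + 2 * (1 + Real.log L)) / ((L : ℝ) / 4) ^ 2 = 16 * (2 * B + 2 * (1 + Real.log L)) / L := by
          field_simp
          ring
        rw [h4]
        apply div_le_div_of_nonneg_right _ (by positivity)
        have h5 : (0 : ℝ) ≤ B * p := by positivity
        nlinarith
      refine (measure_biUnion_finset_le _ _).trans ((Finset.sum_le_sum h2).trans ?_)
      rw [Finset.sum_const, Finset.card_range, nsmul_eq_mul, ← ENNReal.ofReal_natCast, ← ENNReal.ofReal_mul (by positivity)]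
      apply ENNReal.ofReal_le_ofReal
      have h6 : (2 : ℝ) ^ (p / 10) / L ≤ ((2 : ℝ) ^ p) ^ (-(1 / 2) : ℝ) := by
        rw [div_le_iff₀ (by positivity)]
        rw [hL]
        push_cast
        have e1 : ((2 : ℝ) ^ p) ^ (-(1 / 2) : ℝ) = (2 : ℝ) ^ (-((p : ℝ) / 2)) := by
          rw [← Real.rpow_natCast, ← Real.rpow_mul (by norm_num)]
          congr 1
          ring
        rw [e1, ← Real.rpow_natCast, ← Real.rpow_natCast, ← Real.rpow_add (by norm_num)]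
        apply Real.rpow_le_rpow_of_exponent_le (by norm_num)
        have e2 : ((p - p / 10 : ℕ) : ℝ) = (p : ℝ) - ((p / 10 : ℕ) : ℝ) := by
          rw [Nat.cast_sub (Nat.div_le_self _ _)]
        rw [e2]
        have e3 : ((p / 10 : ℕ) : ℝ) ≤ p / 10 := by
          have := Nat.cast_div_le (α := ℝ) (m := p) (n := 10)
          exact_mod_cast this
        have e4 : (0 : ℝ) ≤ p := by positivity
        linarith
      calc ((c4 * 2 ^ (p / 10) : ℕ) : ℝ) * (16 * (2 * B + 2) * (p + 1) / L * W)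
          = K * ((p : ℝ) + 1) * ((2 : ℝ) ^ (p / 10) / L) := by
            rw [hK]; push_cast; ring
        _ ≤ K * ((p : ℝ) + 1) * ((2 : ℝ) ^ p) ^ (-(1 / 2) : ℝ) := mul_le_mul_of_nonneg_left h6 (by positivity))
  filter_upwards [h1] with ω hb
  filter_upwards [hb] with p hp m hm
  by_contra hcon
  apply hp
  rw [Set.mem_iUnion₂]
  refine ⟨m, Finset.mem_range.mpr hm, ?_⟩
  unfold LG
  rw [Set.mem_setOf_eq]
  simp only [one_mul]
  exact (not_le.mp hcon).le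

/-- the net is avoided by almost all coefficients -/
theorem net_gen {Ω : Type*} [MeasurableSpace Ω] (μ : Measure Ω) (k : ℕ) (a : ℝ) (ha : 0 < a) (bf : Ω → Fin k → ℝ) (B W : ℝ)
    (hB : 0 ≤ B) (hW : 0 ≤ W) (hV : VBd μ k a bf B W) (c4 : ℕ) (hc4 : 1 ≤ c4) :
    ∀ᵐ ω ∂μ, ∀ᶠ p : ℕ in atTop, ∀ z ∈ nix k a ((2 : ℝ) ^ p),
    ‖∑ n ∈ Icc 1 ((c4 * 2 ^ p : ℕ) : ℤ), e (npt k a ((2 : ℝ) ^ p) z.1 z.2.1 z.2.2 * fb k a (bf ω) n)‖ ≤
      ((2 : ℝ) ^ p) ^ (1 - 1 / 40 : ℝ) := by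
  have hc4' : (1 : ℝ) ≤ c4 := by exact_mod_cast hc4
  have hlc : 0 ≤ Real.log c4 := Real.log_nonneg hc4'
  set K1 : ℝ := c4 * (2 * B + 4 * a * (1 + Real.log c4)) * W with hK1
  have hK10 : 0 ≤ K1 := by positivity
  set K : ℝ := (2 * a + 5) * (2 / a + 7) * K1 with hK
  have h1 := bc (μ)
    (fun p => ⋃ z ∈ nix k a ((2 : ℝ) ^ p), LG k a bf (npt k a ((2 : ℝ) ^ p) z.1 z.2.1 z.2.2) 1
      ((c4 * 2 ^ p : ℕ) : ℤ) (((2 : ℝ) ^ p) ^ (1 - 1 / 40 : ℝ))) _ (summ K (31 / 40) (by norm_num)) (by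
      intro p
      set X : ℝ := (2 : ℝ) ^ p with hX
      have hX1 : 1 ≤ X := one_le_pow₀ (by norm_num)
      have hX0 : 0 < X := by linarith
      have hN : ((c4 * 2 ^ p : ℕ) : ℝ) = c4 * X := by push_cast; rfl
      have hlogX : 1 + Real.log (c4 * X) ≤ (1 + Real.log c4) * (p + 1) := by
        rw [Real.log_mul (by positivity) (by positivity), hX, Real.log_pow]
        have h3 : Real.log 2 ≤ 1 := by
          have := Real.log_two_lt_d9
          linarith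
        have h4 : (0 : ℝ) ≤ p := by positivity
        nlinarith [mul_nonneg hlc h4]
      have hlog0 : 0 ≤ Real.log (c4 * X) := Real.log_nonneg (by nlinarith)
      have h2 : ∀ z ∈ nix k a X, (μ) (LG k a bf (npt k a X z.1 z.2.1 z.2.2) 1
          ((c4 * 2 ^ p : ℕ) : ℤ) (X ^ (1 - 1 / 40 : ℝ))) ≤ ENNReal.ofReal (K1 * (p + 1) * X ^ (-(37 / 40) : ℝ)) := by
        intro z hz
        unfold nix at hz
        rw [Finset.mem_filter] at hz
        have hβ := hz.2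
        set β : ℝ := npt k a X z.1 z.2.1 z.2.2 with hβd
        have hβ0 : 0 < |β| := lt_of_lt_of_le (by positivity) hβ
        have h3 := hV β (abs_pos.mp hβ0) 1 ((c4 * 2 ^ p : ℕ) : ℤ) (c4 * 2 ^ p) le_rfl
          (Nat.mul_pos (by omega) (by positivity)) (by omega) (X ^ (1 - 1 / 40 : ℝ)) (by positivity)
        refine h3.trans (ENNReal.ofReal_le_ofReal ?_)
        rw [hN]
        have h4 : 2 * (1 + Real.log (c4 * X)) / |β| ≤ 4 * a * (1 + Real.log (c4 * X)) * X ^ (1 / 40 : ℝ) := by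
          rw [div_le_iff₀ hβ0]
          have h5 : 1 / (2 * a) ≤ X ^ (1 / 40 : ℝ) * |β| := by
            calc 1 / (2 * a) = X ^ (1 / 40 : ℝ) * (X ^ (-(1 / 40) : ℝ) / (2 * a)) := by
                  rw [← mul_div_assoc, ← Real.rpow_add hX0, add_neg_cancel, Real.rpow_zero]
              _ ≤ X ^ (1 / 40 : ℝ) * |β| := mul_le_mul_of_nonneg_left hβ (by positivity)
          calc 2 * (1 + Real.log (c4 * X)) = (4 * a * (1 + Real.log (c4 * X))) * (1 / (2 * a)) := by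
                field_simp; ring
            _ ≤ (4 * a * (1 + Real.log (c4 * X))) * (X ^ (1 / 40 : ℝ) * |β|) :=
                mul_le_mul_of_nonneg_left h5 (by positivity)
            _ = _ := by ring
        have hx1 : 1 ≤ X ^ (1 / 40 : ℝ) := Real.one_le_rpow hX1 (by norm_num)
        have h6 : 2 * B + 2 * (1 + Real.log (c4 * X)) / |β| ≤
            (2 * B + 4 * a * (1 + Real.log c4)) * (p + 1) * X ^ (1 / 40 : ℝ) := by
          have hp0 : (0 : ℝ) ≤ p := by positivity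
          have h7 : (2 * B) ≤ 2 * B * (p + 1) * X ^ (1 / 40 : ℝ) := by
            have : (2 * B) * 1 ≤ 2 * B * ((p + 1) * X ^ (1 / 40 : ℝ)) := by
              apply mul_le_mul_of_nonneg_left _ (by positivity)
              nlinarith
            linarith
          have h8 : 4 * a * (1 + Real.log (c4 * X)) * X ^ (1 / 40 : ℝ) ≤
              4 * a * ((1 + Real.log c4) * (p + 1)) * X ^ (1 / 40 : ℝ) := by
            gcongr
          calc 2 * B + 2 * (1 + Real.log (c4 * X)) / |β| ≤ 2 * B * (p + 1) * X ^ (1 / 40 : ℝ) +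
                4 * a * ((1 + Real.log c4) * (p + 1)) * X ^ (1 / 40 : ℝ) := by linarith
            _ = _ := by ring
        have h9 : (X ^ (1 - 1 / 40 : ℝ)) ^ 2 = X ^ (2 - 1 / 20 : ℝ) := by
          rw [← Real.rpow_natCast, ← Real.rpow_mul hX0.le]
          norm_num
        rw [h9]
        have h10 : (c4 * X) * ((2 * B + 4 * a * (1 + Real.log c4)) * (p + 1) * X ^ (1 / 40 : ℝ)) / X ^ (2 - 1 / 20 : ℝ) * W =
            K1 * (p + 1) * X ^ (-(37 / 40) : ℝ) := by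
          have h11 : X ^ (-(37 / 40) : ℝ) = X * X ^ (1 / 40 : ℝ) / X ^ (2 - 1 / 20 : ℝ) := by
            rw [eq_div_iff (by positivity), ← Real.rpow_add hX0]
            have : X * X ^ (1 / 40 : ℝ) = X ^ (1 : ℝ) * X ^ (1 / 40 : ℝ) := by rw [Real.rpow_one]
            rw [this, ← Real.rpow_add hX0]
            norm_num
          rw [h11, hK1]
          ring
        rw [← h10]
        apply mul_le_mul_of_nonneg_right _ (by positivity)
        apply div_le_div_of_nonneg_right _ (by positivity)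
        exact mul_le_mul_of_nonneg_left h6 (by positivity)
      refine (measure_biUnion_finset_le _ _).trans ((Finset.sum_le_sum h2).trans ?_)
      rw [Finset.sum_const, nsmul_eq_mul, ← ENNReal.ofReal_natCast, ← ENNReal.ofReal_mul (by positivity)]
      apply ENNReal.ofReal_le_ofReal
      have h12 := nix_card k a X ha hX1
      calc ((nix k a X).card : ℝ) * (K1 * (p + 1) * X ^ (-(37 / 40) : ℝ))
          ≤ ((2 * a + 5) * (2 / a + 7) * X ^ (6 / 40 : ℝ)) * (K1 * (p + 1) * X ^ (-(37 / 40) : ℝ)) :=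
            mul_le_mul_of_nonneg_right h12 (by positivity)
        _ = K * (p + 1) * (X ^ (6 / 40 : ℝ) * X ^ (-(37 / 40) : ℝ)) := by rw [hK]; ring
        _ = K * (p + 1) * X ^ (-(31 / 40) : ℝ) := by
            rw [← Real.rpow_add hX0]; norm_num)
  filter_upwards [h1] with ω hb
  filter_upwards [hb] with p hp z hz
  by_contra hcon
  apply hp
  rw [Set.mem_iUnion₂]
  refine ⟨z, hz, ?_⟩
  unfold LG
  rw [Set.mem_setOf_eq]
  exact (not_le.mp hcon).le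

/-- the exponential sums are small on the minor arcs, for almost all coefficients -/
theorem minor_gen {Ω : Type*} [MeasurableSpace Ω] (μ : Measure Ω) (k : ℕ) (hk : 2 ≤ k) (a : ℝ) (ha : 0 < a)
    (bf : Ω → Fin k → ℝ) (B W : ℝ) (hB : 0 ≤ B) (hW : 0 ≤ W) (hV : VBd μ k a bf B W) (Bb : ℝ) (hBb : 0 ≤ Bb)
    (hbd : ∀ᵐ ω ∂μ, ∀ i, |bf ω i| ≤ Bb) (c4 : ℕ) (hc4 : 1 ≤ c4) :
    ∀ᵐ ω ∂μ, ∀ᶠ p : ℕ in atTop, ∀ β : ℝ, ((2 : ℝ) ^ p) ^ ((1 / 20 : ℝ) - k) ≤ |β| →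
    |β| ≤ ((2 : ℝ) ^ p) ^ (1 / 40 : ℝ) →
    ‖∑ n ∈ Icc 1 ((c4 * 2 ^ p : ℕ) : ℤ), e (β * fb k a (bf ω) n)‖ ≤ ((2 : ℝ) ^ p) ^ (1 - sg k) := by
  have hk2 : (2 : ℝ) ≤ k := by exact_mod_cast hk
  filter_upwards [net_gen μ k a ha bf B W hB hW hV c4 hc4, hbd] with ω hb hbB
  set C : ℝ := 2 * Real.pi * ((a + k * Bb) * (c4 : ℝ) ^ (k + 1)) with hC
  have hC0 : 0 ≤ C := by positivity
  filter_upwards [hb, big_q k hk c4 hc4, small_q k hk a ha, ev_ge (2 * C) (1 / 80) (by norm_num),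
    ev_ge 2 (1 / 80) (by norm_num)] with p hp1 hp2 hp3 hp4 hp5 β hβ1 hβ2
  set X : ℝ := (2 : ℝ) ^ p with hX
  have hX1 : 1 ≤ X := one_le_pow₀ (by norm_num)
  have hX0 : 0 < X := by linarith
  set Y : ℝ := X ^ ((k : ℝ) - 1 / 40) with hY
  have hY1 : 1 ≤ Y := Real.one_le_rpow hX1 (by linarith)
  have hfl : 0 < ⌊Y⌋₊ := Nat.floor_pos.mpr hY1
  obtain ⟨ρ, hρ1, hρ2⟩ := Real.exists_rat_abs_sub_le_and_den_le (β * a) hfl
  have hq1 : 1 ≤ ρ.den := ρ.den_pos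
  have hq1' : (1 : ℝ) ≤ ρ.den := by exact_mod_cast hq1
  have hcop : IsCoprime ρ.num (ρ.den : ℤ) := by
    rw [Int.isCoprime_iff_gcd_eq_one, Int.gcd, Int.natAbs_natCast]
    exact ρ.reduced
  have hρ : (ρ : ℝ) = (ρ.num : ℝ) / (ρ.den : ℝ) := by
    exact_mod_cast (Rat.num_div_den ρ).symm
  rw [hρ] at hρ1
  have hfl2 : Y ≤ (⌊Y⌋₊ : ℝ) + 1 := (Nat.lt_floor_add_one Y).le
  have hYq : |β * a - (ρ.num : ℝ) / (ρ.den : ℝ)| ≤ 1 / (Y * ρ.den) := by
    refine hρ1.trans ?_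
    apply div_le_div_of_nonneg_left (by norm_num) (by positivity)
    exact mul_le_mul_of_nonneg_right hfl2 (by positivity)
  have hden : (ρ.den : ℝ) ≤ Y := by
    calc (ρ.den : ℝ) ≤ (⌊Y⌋₊ : ℝ) := by exact_mod_cast hρ2
      _ ≤ Y := Nat.floor_le (by linarith)
  rcases lt_or_ge (X ^ (1 / 40 : ℝ)) (ρ.den : ℝ) with hcase | hcase
  · apply hp2 a β (bf ω) ρ.num ρ.den hq1 hcop hcase hden
    refine hYq.trans ?_
    apply div_le_div_of_nonneg_left (by norm_num) (by positivity)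
    rw [sq]
    exact mul_le_mul_of_nonneg_right hden (by positivity)
  · obtain ⟨z, hz, hz2⟩ := hp3 β ρ.num ρ.den hq1 hcop hcase hYq hβ1 hβ2
    have h1 := hp1 z hz
    have h2 := S_lip k a ha (bf ω) Bb hbB (c4 * 2 ^ p) β (npt k a X z.1 z.2.1 z.2.2)
    refine h2.trans ?_
    have hN : ((c4 * 2 ^ p : ℕ) : ℝ) = c4 * X := by push_cast; rfl
    rw [hN]
    have h3 : 2 * Real.pi * |β - npt k a X z.1 z.2.1 z.2.2| * ((a + k * Bb) * (c4 * X) ^ (k + 1)) ≤ C * X ^ (1 - 1 / 20 : ℝ) := by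
      calc 2 * Real.pi * |β - npt k a X z.1 z.2.1 z.2.2| * ((a + k * Bb) * (c4 * X) ^ (k + 1))
          ≤ 2 * Real.pi * X ^ (-(k : ℝ) - 1 / 20) * ((a + k * Bb) * (c4 * X) ^ (k + 1)) := by
            apply mul_le_mul_of_nonneg_right _ (by positivity)
            exact mul_le_mul_of_nonneg_left hz2 (by positivity)
        _ = C * (X ^ (-(k : ℝ) - 1 / 20) * X ^ (k + 1)) := by rw [hC, mul_pow]; ring
        _ = C * X ^ (1 - 1 / 20 : ℝ) := by
            rw [← Real.rpow_natCast X (k + 1), ← Real.rpow_add hX0]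
            congr 2
            push_cast
            ring
    have hs1 := sg_le k
    have h4 : X ^ (1 - 1 / 40 : ℝ) ≤ X ^ (1 - sg k) / 2 := by
      rw [le_div_iff₀ (by norm_num)]
      calc X ^ (1 - 1 / 40 : ℝ) * 2 ≤ X ^ (1 - 1 / 40 : ℝ) * X ^ (1 / 80 : ℝ) := mul_le_mul_of_nonneg_left hp5 (by positivity)
        _ = X ^ (1 - 1 / 80 : ℝ) := by rw [← Real.rpow_add hX0]; norm_num
        _ ≤ _ := Real.rpow_le_rpow_of_exponent_le hX1 (by linarith)
    have h5 : C * X ^ (1 - 1 / 20 : ℝ) ≤ X ^ (1 - sg k) / 2 := by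
      rw [le_div_iff₀ (by norm_num)]
      calc C * X ^ (1 - 1 / 20 : ℝ) * 2 = (2 * C) * X ^ (1 - 1 / 20 : ℝ) := by ring
        _ ≤ X ^ (1 / 80 : ℝ) * X ^ (1 - 1 / 20 : ℝ) := mul_le_mul_of_nonneg_right hp4 (by positivity)
        _ = X ^ (1 - 3 / 80 : ℝ) := by rw [← Real.rpow_add hX0]; norm_num
        _ ≤ _ := Real.rpow_le_rpow_of_exponent_le hX1 (by linarith)
    linarith


theorem good2_gen {Ω : Type*} [MeasurableSpace Ω] (μ : Measure Ω) (k : ℕ) (hk : 2 ≤ k) (a : ℝ) (ha : 0 < a)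
    (bf : Ω → Fin k → ℝ) (B W : ℝ) (hB : 0 ≤ B) (hW : 0 ≤ W) (hV : VBd μ k a bf B W) (Bb : ℝ) (hBb : 0 ≤ Bb)
    (hbd : ∀ᵐ ω ∂μ, ∀ i, |bf ω i| ≤ Bb) : ∀ᵐ ω ∂μ, Good2 k a (bf ω) := by
  have h2 : ∀ᵐ ω ∂μ, ∀ c4 : ℕ, 1 ≤ c4 → ∀ᶠ p : ℕ in atTop, ∀ β : ℝ, ((2 : ℝ) ^ p) ^ ((1 / 20 : ℝ) - k) ≤ |β| →
    |β| ≤ ((2 : ℝ) ^ p) ^ (1 / 40 : ℝ) →
    ‖∑ n ∈ Icc 1 ((c4 * 2 ^ p : ℕ) : ℤ), e (β * fb k a (bf ω) n)‖ ≤ ((2 : ℝ) ^ p) ^ (1 - sg k) := by
    rw [ae_all_iff]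
    intro c4
    by_cases hc : 1 ≤ c4
    · filter_upwards [minor_gen μ k hk a ha bf B W hB hW hV Bb hBb hbd c4 hc] with ω hb _
      exact hb
    · exact Eventually.of_forall (fun ω h => absurd h hc)
  have h3 : ∀ᵐ ω ∂μ, ∀ c4 : ℕ, ∀ᶠ p : ℕ in atTop, ∀ m : ℕ, m < c4 * 2 ^ (p / 10) →
    ‖∑ x ∈ Icc (((m * 2 ^ (p - p / 10) : ℕ) : ℤ) + 1) (((m + 1) * 2 ^ (p - p / 10) : ℕ) : ℤ), e (fb k a (bf ω) x)‖ ≤
      ((2 ^ (p - p / 10) : ℕ) : ℝ) / 4 := by
    rw [ae_all_iff]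
    intro c4
    exact blocks_gen μ k a bf B W hB hW hV c4
  filter_upwards [h2, h3] with ω hb2 hb3
  exact ⟨hb2, hb3⟩

end Pool.Agent.Y867.WR
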