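import Pool.Agent.Y867.WR.Cnt

/-! # Diminishing ranges in blocks of two variables: the counting lemma -/

set_option autoImplicit false

open Finset

namespace Pool.Agent.Y867.WR

/-- the exponent of the `j`-th scale -/
noncomputable def sc (k p j : ℕ) : ℕ := ⌊(p : ℝ) * (((k : ℝ) - 2) / ((k : ℝ) - 1)) ^ j⌋₊

/-- the `j`-th scale -/
noncomputable def PS (k p j : ℕ) : ℕ := 2 ^ sc k p j

theorem PS_pos (k p j : ℕ) : 1 ≤ PS k p j := Nat.one_le_two_pow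

theorem PS_zero (k p : ℕ) : PS k p 0 = 2 ^ p := by
  unfold PS sc
  rw [pow_zero, mul_one, Nat.floor_natCast]

theorem sc_step1 (k p j : ℕ) (hk : 3 ≤ k) : (k - 1) * sc k p (j + 1) ≤ (k - 2) * (sc k p j + 1) := by
  have hk3 : (3 : ℝ) ≤ k := by exact_mod_cast hk
  have hμ : 0 ≤ ((k : ℝ) - 2) / ((k : ℝ) - 1) := div_nonneg (by linarith) (by linarith)
  have h1 : (sc k p (j + 1) : ℝ) ≤ (p : ℝ) * (((k : ℝ) - 2) / ((k : ℝ) - 1)) ^ (j + 1) := Nat.floor_le (by positivity)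
  have h2 : (p : ℝ) * (((k : ℝ) - 2) / ((k : ℝ) - 1)) ^ j < sc k p j + 1 := Nat.lt_floor_add_one _
  have h3 : ((k - 1 : ℕ) : ℝ) = (k : ℝ) - 1 := by rw [Nat.cast_sub (by omega)]; norm_num
  have h4 : ((k - 2 : ℕ) : ℝ) = (k : ℝ) - 2 := by rw [Nat.cast_sub (by omega)]; norm_num
  have h5 : (((k - 1) * sc k p (j + 1) : ℕ) : ℝ) ≤ (((k - 2) * (sc k p j + 1) : ℕ) : ℝ) := by
    push_cast
    rw [h3, h4]
    calc ((k : ℝ) - 1) * (sc k p (j + 1) : ℝ) ≤ ((k : ℝ) - 1) * ((p : ℝ) * (((k : ℝ) - 2) / ((k : ℝ) - 1)) ^ (j + 1)) :=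
          mul_le_mul_of_nonneg_left h1 (by linarith)
      _ = ((k : ℝ) - 2) * ((p : ℝ) * (((k : ℝ) - 2) / ((k : ℝ) - 1)) ^ j) := by
          have : (k : ℝ) - 1 ≠ 0 := by linarith
          rw [pow_succ]; field_simp
      _ ≤ _ := mul_le_mul_of_nonneg_left h2.le (by linarith)
  exact_mod_cast h5

theorem sc_step2 (k p j : ℕ) (hk : 3 ≤ k) : (k - 2) * sc k p j ≤ (k - 1) * (sc k p (j + 1) + 1) := by
  have hk3 : (3 : ℝ) ≤ k := by exact_mod_cast hk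
  have hμ : 0 ≤ ((k : ℝ) - 2) / ((k : ℝ) - 1) := div_nonneg (by linarith) (by linarith)
  have h1 : (sc k p j : ℝ) ≤ (p : ℝ) * (((k : ℝ) - 2) / ((k : ℝ) - 1)) ^ j := Nat.floor_le (by positivity)
  have h2 : (p : ℝ) * (((k : ℝ) - 2) / ((k : ℝ) - 1)) ^ (j + 1) < sc k p (j + 1) + 1 := Nat.lt_floor_add_one _
  have h3 : ((k - 1 : ℕ) : ℝ) = (k : ℝ) - 1 := by rw [Nat.cast_sub (by omega)]; norm_num
  have h4 : ((k - 2 : ℕ) : ℝ) = (k : ℝ) - 2 := by rw [Nat.cast_sub (by omega)]; norm_num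
  have h5 : (((k - 2) * sc k p j : ℕ) : ℝ) ≤ (((k - 1) * (sc k p (j + 1) + 1) : ℕ) : ℝ) := by
    push_cast
    rw [h3, h4]
    calc ((k : ℝ) - 2) * (sc k p j : ℝ) ≤ ((k : ℝ) - 2) * ((p : ℝ) * (((k : ℝ) - 2) / ((k : ℝ) - 1)) ^ j) :=
          mul_le_mul_of_nonneg_left h1 (by linarith)
      _ = ((k : ℝ) - 1) * ((p : ℝ) * (((k : ℝ) - 2) / ((k : ℝ) - 1)) ^ (j + 1)) := by
          have : (k : ℝ) - 1 ≠ 0 := by linarith
          rw [pow_succ]; field_simp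
      _ ≤ _ := mul_le_mul_of_nonneg_left h2.le (by linarith)
  exact_mod_cast h5

theorem PS_step1 (k p j : ℕ) (hk : 3 ≤ k) : PS k p (j + 1) ^ (k - 1) ≤ 2 ^ (k - 2) * PS k p j ^ (k - 2) := by
  unfold PS
  rw [← pow_mul, ← pow_mul, ← pow_add]
  apply Nat.pow_le_pow_right (by norm_num)
  have := sc_step1 k p j hk
  nlinarith

theorem PS_step2 (k p j : ℕ) (hk : 3 ≤ k) : PS k p j ^ (k - 2) ≤ 2 ^ (k - 1) * PS k p (j + 1) ^ (k - 1) := by
  unfold PS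
  rw [← pow_mul, ← pow_mul, ← pow_add]
  apply Nat.pow_le_pow_right (by norm_num)
  have := sc_step2 k p j hk
  nlinarith

theorem PS_anti (k p : ℕ) (hk : 3 ≤ k) (i j : ℕ) (hij : i ≤ j) : PS k p j ≤ PS k p i := by
  unfold PS
  apply Nat.pow_le_pow_right (by norm_num)
  unfold sc
  apply Nat.floor_le_floor
  have hk3 : (3 : ℝ) ≤ k := by exact_mod_cast hk
  apply mul_le_mul_of_nonneg_left _ (by positivity)
  apply pow_le_pow_of_le_one (div_nonneg (by linarith) (by linarith)) _ hij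
  rw [div_le_one (by linarith)]
  linarith

/-- two variables at one scale -/
theorem pair2 (k : ℕ) (hk : 3 ≤ k) : ∃ A : ℝ, 0 < A ∧ ∀ Q x1 x2 y1 y2 T : ℝ, 1 ≤ Q →
    (2 * (k : ℝ) - 3) * Q ≤ x1 → x1 ≤ (2 * (k : ℝ) - 2) * Q → (2 * (k : ℝ) - 3) * Q ≤ y1 → y1 ≤ (2 * (k : ℝ) - 2) * Q →
    (2 * (k : ℝ) - 1) * Q ≤ x2 → x2 ≤ 2 * (k : ℝ) * Q → (2 * (k : ℝ) - 1) * Q ≤ y2 → y2 ≤ 2 * (k : ℝ) * Q →
    |(x1 ^ (k - 1) - y1 ^ (k - 1)) + (x2 ^ (k - 1) - y2 ^ (k - 1))| ≤ T →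
    |(x1 ^ k - y1 ^ k) + (x2 ^ k - y2 ^ k)| ≤ T * Q → |x1 - y1| ≤ A * (T / Q ^ (k - 2)) := by
  obtain ⟨A, hA, h⟩ := sepE k (k - 2) (by omega)
  refine ⟨A, hA, ?_⟩
  intro Q x1 x2 y1 y2 T hQ a1 a2 a3 a4 b1 b2 b3 b4 h1 h2
  have hQ0 : 0 < Q := by linarith
  have hk3 : (3 : ℝ) ≤ k := by exact_mod_cast hk
  set u : Fin k → ℝ := fun l => if (l : ℕ) = k - 2 then x1 / Q else if (l : ℕ) = k - 1 then x2 / Q else 2 * ((l : ℕ) : ℝ) + 1 with hu
  set v : Fin k → ℝ := fun l => if (l : ℕ) = k - 2 then y1 / Q else if (l : ℕ) = k - 1 then y2 / Q else 2 * ((l : ℕ) : ℝ) + 1 with hv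
  have hc2 : ((k - 2 : ℕ) : ℝ) = (k : ℝ) - 2 := by rw [Nat.cast_sub (by omega)]; norm_num
  have hc1 : ((k - 1 : ℕ) : ℝ) = (k : ℝ) - 1 := by rw [Nat.cast_sub (by omega)]; norm_num
  have hbox : ∀ w1 w2 : ℝ, (2 * (k : ℝ) - 3) * Q ≤ w1 → w1 ≤ (2 * (k : ℝ) - 2) * Q → (2 * (k : ℝ) - 1) * Q ≤ w2 → w2 ≤ 2 * (k : ℝ) * Q →
      ∀ l : Fin k, 2 * ((l : ℕ) : ℝ) + 1 ≤ (if (l : ℕ) = k - 2 then w1 / Q else if (l : ℕ) = k - 1 then w2 / Q else 2 * ((l : ℕ) : ℝ) + 1) ∧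
      (if (l : ℕ) = k - 2 then w1 / Q else if (l : ℕ) = k - 1 then w2 / Q else 2 * ((l : ℕ) : ℝ) + 1) ≤ 2 * ((l : ℕ) : ℝ) + 2 := by
    intro w1 w2 c1 c2 c3 c4 l
    split_ifs with e1 e2
    · rw [e1, hc2]
      constructor
      · rw [le_div_iff₀ hQ0]; linarith
      · rw [div_le_iff₀ hQ0]; linarith
    · rw [e2, hc1]
      constructor
      · rw [le_div_iff₀ hQ0]; linarith
      · rw [div_le_iff₀ hQ0]; linarith
    · constructor <;> linarith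
  have hsum : ∀ e : ℕ, ∑ l, (u l ^ e - v l ^ e) = ((x1 ^ e - y1 ^ e) + (x2 ^ e - y2 ^ e)) / Q ^ e := by
    intro e
    have h3 : ∀ l : Fin k, u l ^ e - v l ^ e = (if l = (⟨k - 2, by omega⟩ : Fin k) then (x1 ^ e - y1 ^ e) / Q ^ e else 0) +
        (if l = (⟨k - 1, by omega⟩ : Fin k) then (x2 ^ e - y2 ^ e) / Q ^ e else 0) := by
      intro l
      rw [hu, hv]
      dsimp only
      by_cases e1 : (l : ℕ) = k - 2
      · have e2 : ¬ (l : ℕ) = k - 1 := by omega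
        rw [if_pos e1, if_pos e1, if_pos (Fin.ext e1), if_neg (fun h => e2 (congrArg Fin.val h)), add_zero, div_pow, div_pow, sub_div]
      · by_cases e2 : (l : ℕ) = k - 1
        · rw [if_neg e1, if_neg e1, if_pos e2, if_pos e2, if_neg (fun h => e1 (congrArg Fin.val h)), if_pos (Fin.ext e2), zero_add, div_pow, div_pow, sub_div]
        · rw [if_neg e1, if_neg e1, if_neg e2, if_neg e2, if_neg (fun h => e1 (congrArg Fin.val h)), if_neg (fun h => e2 (congrArg Fin.val h)), sub_self, add_zero]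
    simp_rw [h3]
    rw [Finset.sum_add_distrib, Finset.sum_ite_eq' univ, Finset.sum_ite_eq' univ, if_pos (Finset.mem_univ _), if_pos (Finset.mem_univ _), add_div]
  have hT : 0 ≤ T := (abs_nonneg _).trans h1
  have h4 := h u v (T / Q ^ (k - 1)) (hbox x1 x2 a1 a2 b1 b2) (hbox y1 y2 a3 a4 b3 b4)
    (by
      intro l hl
      rw [hu, hv]
      dsimp only
      rw [if_neg (by omega), if_neg (by omega), if_neg (by omega), if_neg (by omega)])
    (by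
      intro e he1 he2
      rw [hsum, abs_div, abs_of_pos (show 0 < Q ^ e by positivity)]
      have : e = k - 1 ∨ e = k := by omega
      rcases this with rfl | rfl
      · exact div_le_div_of_nonneg_right h1 (by positivity)
      · rw [div_le_div_iff₀ (by positivity) (by positivity)]
        have h5 : Q ^ e = Q ^ (e - 1) * Q := by
          rw [← pow_succ]; congr 1; omega
        calc |(x1 ^ e - y1 ^ e) + (x2 ^ e - y2 ^ e)| * Q ^ (e - 1) ≤ (T * Q) * Q ^ (e - 1) :=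
              mul_le_mul_of_nonneg_right h2 (by positivity)
          _ = T * Q ^ e := by rw [h5]; ring)
  have h5 : u ⟨k - 2, by omega⟩ - v ⟨k - 2, by omega⟩ = (x1 - y1) / Q := by
    rw [hu, hv]
    dsimp only
    rw [if_pos rfl, if_pos rfl, sub_div]
  rw [h5, abs_div, abs_of_pos hQ0, div_le_iff₀ hQ0] at h4
  refine h4.trans (le_of_eq ?_)
  have h6 : Q ^ (k - 1) = Q ^ (k - 2) * Q := by
    rw [← pow_succ]; congr 1; omega
  rw [h6]
  field_simp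

/-- one variable at one scale -/
theorem single1 (k : ℕ) (hk : 1 ≤ k) (Q x y T : ℝ) (hQ : 1 ≤ Q) (hx : Q ≤ x) (hy : Q ≤ y) (h : |x ^ k - y ^ k| ≤ T) :
    |x - y| ≤ T / Q ^ (k - 1) := by
  have hQ0 : 0 < Q := by linarith
  rw [le_div_iff₀ (by positivity)]
  refine le_trans ?_ h
  have key : ∀ x y : ℝ, Q ≤ y → y ≤ x → (x - y) * Q ^ (k - 1) ≤ x ^ k - y ^ k := by
    intro x y hy hxy
    have h1 : x ^ k = x ^ (k - 1) * x := by rw [← pow_succ]; congr 1; omega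
    have h2 : y ^ k = y ^ (k - 1) * y := by rw [← pow_succ]; congr 1; omega
    have h3 : y ^ (k - 1) ≤ x ^ (k - 1) := pow_le_pow_left₀ (by linarith) hxy _
    have h4 : Q ^ (k - 1) ≤ y ^ (k - 1) := pow_le_pow_left₀ hQ0.le hy _
    have h5 : 0 < Q ^ (k - 1) := by positivity
    rw [h1, h2]
    nlinarith
  rcases le_total y x with hxy | hxy
  · rw [abs_of_nonneg (by linarith)]
    exact (key x y hy hxy).trans (le_abs_self _)
  · rw [abs_sub_comm, abs_of_nonneg (by linarith), abs_sub_comm (x ^ k)]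
    exact (key y x hx hxy).trans (le_abs_self _)

/-- the box with diminishing ranges -/
noncomputable def DB (k r p : ℕ) : Finset (Fin (2 * r) → ℕ) := Fintype.piFinset (fun i : Fin (2 * r) =>
  Icc ((2 * k - 3 + 2 * ((i : ℕ) % 2)) * PS k p ((i : ℕ) / 2)) ((2 * k - 2 + 2 * ((i : ℕ) % 2)) * PS k p ((i : ℕ) / 2)))

theorem mem_DB (k r p : ℕ) (x : Fin (2 * r) → ℕ) : x ∈ DB k r p ↔ ∀ i : Fin (2 * r),
    (2 * k - 3 + 2 * ((i : ℕ) % 2)) * PS k p ((i : ℕ) / 2) ≤ x i ∧ x i ≤ (2 * k - 2 + 2 * ((i : ℕ) % 2)) * PS k p ((i : ℕ) / 2) := by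
  unfold DB
  rw [Fintype.mem_piFinset]
  simp only [Finset.mem_Icc]

theorem DB_le (k r p : ℕ) (hk : 3 ≤ k) (x : Fin (2 * r) → ℕ) (hx : x ∈ DB k r p) (i : Fin (2 * r)) (j : ℕ) (hj : j ≤ (i : ℕ) / 2) :
    (x i : ℝ) ≤ 2 * k * PS k p j := by
  have h1 := ((mem_DB k r p x).mp hx i).2
  have h2 := PS_anti k p hk j ((i : ℕ) / 2) hj
  have h3 : x i ≤ 2 * k * PS k p j := by
    refine h1.trans ?_
    apply Nat.mul_le_mul _ h2
    have := Nat.mod_lt (i : ℕ) (show 0 < 2 by norm_num)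
    omega
  exact_mod_cast h3

/-- the ratio inequality -/
theorem ratio_le (K M Q : ℝ) (e : ℕ) (hK : 0 ≤ K) (hM : 1 ≤ M) (hQ : 1 ≤ Q) :
    min Q (K * (1 + M / Q ^ e)) + 1 ≤ (2 * K + 2) * (min M (Q ^ (e + 1)) / min M (Q ^ e)) := by
  have hQe : 1 ≤ Q ^ e := one_le_pow₀ hQ
  have ht : 0 < min M (Q ^ e) := lt_min (by linarith) (by linarith)
  have e5 : (2 * K + 2) * min M (Q ^ (e + 1)) = min ((2 * K + 2) * M) ((2 * K + 2) * Q ^ (e + 1)) :=
    mul_min_of_nonneg _ _ (by positivity)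
  rw [← mul_div_assoc, le_div_iff₀ ht, e5]
  have e1 : min Q (K * (1 + M / Q ^ e)) ≤ Q := min_le_left _ _
  have e2 : min Q (K * (1 + M / Q ^ e)) ≤ K * (1 + M / Q ^ e) := min_le_right _ _
  have e3 : min M (Q ^ e) ≤ M := min_le_left _ _
  have e4 : min M (Q ^ e) ≤ Q ^ e := min_le_right _ _
  apply le_min
  · have h1 : (min Q (K * (1 + M / Q ^ e)) + 1) * min M (Q ^ e) ≤ (K * (1 + M / Q ^ e) + 1) * min M (Q ^ e) :=
      mul_le_mul_of_nonneg_right (by linarith) ht.le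
    have h2 : M / Q ^ e * min M (Q ^ e) ≤ M := by
      rw [div_mul_eq_mul_div, div_le_iff₀ (by linarith)]
      exact mul_le_mul_of_nonneg_left e4 (by linarith)
    have h3 : (K * (1 + M / Q ^ e) + 1) * min M (Q ^ e) = K * min M (Q ^ e) + K * (M / Q ^ e * min M (Q ^ e)) + min M (Q ^ e) := by ring
    have h4 : K * min M (Q ^ e) ≤ K * M := mul_le_mul_of_nonneg_left e3 hK
    have h5 : K * (M / Q ^ e * min M (Q ^ e)) ≤ K * M := mul_le_mul_of_nonneg_left h2 hK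
    have hM0 : 0 ≤ M := by linarith
    calc (min Q (K * (1 + M / Q ^ e)) + 1) * min M (Q ^ e) ≤ _ := h1
      _ = _ := h3
      _ ≤ K * M + K * M + M := by linarith
      _ ≤ (2 * K + 2) * M := by linarith
  · have h1 : (min Q (K * (1 + M / Q ^ e)) + 1) * min M (Q ^ e) ≤ (Q + Q) * Q ^ e :=
      mul_le_mul (by linarith) e4 ht.le (by linarith)
    have h2 : (Q + Q) * Q ^ e = 2 * Q ^ (e + 1) := by rw [pow_succ]; ring
    have h3 : 0 ≤ K * Q ^ (e + 1) := by positivity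
    calc (min Q (K * (1 + M / Q ^ e)) + 1) * min M (Q ^ e) ≤ (Q + Q) * Q ^ e := h1
      _ = 2 * Q ^ (e + 1) := h2
      _ ≤ (2 * K + 2) * Q ^ (e + 1) := by linarith

/-- one step of the product -/
theorem prodG_step (k : ℕ) (hk : 3 ≤ k) (K M G Pr Q R P0 : ℝ) (hK : 0 < K) (hM : 1 ≤ M) (hG : 0 ≤ G) (hPr : 0 ≤ Pr)
    (hQ : 1 ≤ Q) (hR : 1 ≤ R) (hP0 : 1 ≤ P0) (hstep : Q ^ (k - 1) ≤ 2 ^ (k - 2) * R ^ (k - 2))
    (h1 : G * min M (R ^ (k - 2)) * P0 ≤ K * M * Pr) :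
    G * (min M (Q ^ k) / min M (Q ^ (k - 2))) * min M (Q ^ (k - 2)) * P0 ≤ K * 2 ^ (k - 2) * M * (Pr * Q) := by
  have ht : 0 < min M (Q ^ (k - 2)) := lt_min (by linarith) (by positivity)
  have h2k : (1 : ℝ) ≤ 2 ^ (k - 2) := one_le_pow₀ (by norm_num)
  have h2 : min M (Q ^ k) ≤ (2 ^ (k - 2) * Q) * min M (R ^ (k - 2)) := by
    have e5 : (2 ^ (k - 2) * Q) * min M (R ^ (k - 2)) = min ((2 ^ (k - 2) * Q) * M) ((2 ^ (k - 2) * Q) * R ^ (k - 2)) :=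
      mul_min_of_nonneg _ _ (by positivity)
    rw [e5]
    apply le_min
    · refine (min_le_left _ _).trans ?_
      have h3 : (1 : ℝ) * 1 ≤ 2 ^ (k - 2) * Q := mul_le_mul h2k hQ zero_le_one (by linarith)
      have h4 : 1 * M ≤ (2 ^ (k - 2) * Q) * M := mul_le_mul_of_nonneg_right (by linarith) (by linarith)
      linarith
    · refine (min_le_right _ _).trans ?_
      have h3 : Q ^ k = Q * Q ^ (k - 1) := by
        rw [← pow_succ']; congr 1; omega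
      rw [h3]
      calc Q * Q ^ (k - 1) ≤ Q * (2 ^ (k - 2) * R ^ (k - 2)) := mul_le_mul_of_nonneg_left hstep (by linarith)
        _ = _ := by ring
  have h3 : G * (min M (Q ^ k) / min M (Q ^ (k - 2))) * min M (Q ^ (k - 2)) * P0 = (G * P0) * min M (Q ^ k) := by
    rw [mul_assoc G, div_mul_cancel₀ _ ht.ne']
    ring
  have hGP : 0 ≤ G * P0 := mul_nonneg hG (by linarith)
  have hQ2 : 0 ≤ 2 ^ (k - 2) * Q := mul_nonneg (by linarith) (by linarith)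
  calc G * (min M (Q ^ k) / min M (Q ^ (k - 2))) * min M (Q ^ (k - 2)) * P0
      = (G * P0) * min M (Q ^ k) := h3
    _ ≤ (G * P0) * ((2 ^ (k - 2) * Q) * min M (R ^ (k - 2))) := mul_le_mul_of_nonneg_left h2 hGP
    _ = (2 ^ (k - 2) * Q) * (G * min M (R ^ (k - 2)) * P0) := by ring
    _ ≤ (2 ^ (k - 2) * Q) * (K * M * Pr) := mul_le_mul_of_nonneg_left h1 hQ2
    _ = _ := by ring

/-- the product of the ratios, first form -/
theorem prodG (k : ℕ) (hk : 3 ≤ k) (r : ℕ) : ∃ K : ℝ, 0 < K ∧ ∀ (p : ℕ) (M : ℝ), 1 ≤ M →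
    (∏ j ∈ range (r + 1), min M ((PS k p j : ℝ) ^ k) / min M ((PS k p j : ℝ) ^ (k - 2))) *
      min M ((PS k p r : ℝ) ^ (k - 2)) * (PS k p 0 : ℝ) ≤ K * M * ∏ j ∈ range (r + 1), (PS k p j : ℝ) := by
  have hPS : ∀ p j : ℕ, (1 : ℝ) ≤ (PS k p j : ℝ) := fun p j => by exact_mod_cast PS_pos k p j
  induction r with
  | zero =>
    refine ⟨1, one_pos, fun p M hM => ?_⟩
    have hP := hPS p 0
    have ht : 0 < min M ((PS k p 0 : ℝ) ^ (k - 2)) := lt_min (by linarith) (by positivity)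
    rw [zero_add, Finset.prod_range_one, Finset.prod_range_one, div_mul_cancel₀ _ ht.ne', one_mul]
    exact mul_le_mul_of_nonneg_right (min_le_left _ _) (by positivity)
  | succ r ih =>
    obtain ⟨K, hK, ih⟩ := ih
    refine ⟨K * 2 ^ (k - 2), by positivity, fun p M hM => ?_⟩
    have h1 := ih p M hM
    rw [Finset.prod_range_succ, Finset.prod_range_succ _ (r + 1)]
    have hstep : (PS k p (r + 1) : ℝ) ^ (k - 1) ≤ 2 ^ (k - 2) * (PS k p r : ℝ) ^ (k - 2) := by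
      exact_mod_cast PS_step1 k p r hk
    exact prodG_step k hk K M _ _ _ _ _ hK hM
      (Finset.prod_nonneg (fun j _ => div_nonneg (le_min (by linarith) (by positivity)) (le_min (by linarith) (by positivity))))
      (Finset.prod_nonneg (fun j _ => by positivity)) (hPS p (r + 1)) (hPS p r) (hPS p 0) hstep h1

/-- size of the last scale -/
theorem prodJ (k : ℕ) (hk : 3 ≤ k) (r : ℕ) : ∃ K : ℝ, 0 < K ∧ ∀ (p : ℕ),
    (PS k p 0 : ℝ) ^ (k - 1) ≤ K * (PS k p r : ℝ) ^ (k - 2) * ∏ j ∈ range (r + 1), (PS k p j : ℝ) := by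
  induction r with
  | zero =>
    refine ⟨1, one_pos, fun p => ?_⟩
    rw [zero_add, Finset.prod_range_one, one_mul, ← pow_succ]
    apply le_of_eq
    congr 1
    omega
  | succ r ih =>
    obtain ⟨K, hK, ih⟩ := ih
    refine ⟨K * 2 ^ (k - 1), by positivity, fun p => ?_⟩
    refine (ih p).trans ?_
    rw [Finset.prod_range_succ _ (r + 1)]
    have hPr0 : 0 ≤ ∏ j ∈ range (r + 1), (PS k p j : ℝ) := Finset.prod_nonneg (fun j _ => by positivity)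
    generalize (∏ j ∈ range (r + 1), (PS k p j : ℝ)) = Pr at hPr0
    have h1 : (PS k p r : ℝ) ^ (k - 2) ≤ 2 ^ (k - 1) * (PS k p (r + 1) : ℝ) ^ (k - 1) := by
      exact_mod_cast PS_step2 k p r hk
    have h2 : (PS k p (r + 1) : ℝ) ^ (k - 1) = (PS k p (r + 1) : ℝ) ^ (k - 2) * (PS k p (r + 1) : ℝ) := by
      rw [← pow_succ]; congr 1; omega
    calc K * (PS k p r : ℝ) ^ (k - 2) * Pr ≤ K * (2 ^ (k - 1) * (PS k p (r + 1) : ℝ) ^ (k - 1)) * Pr :=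
          mul_le_mul_of_nonneg_right (mul_le_mul_of_nonneg_left h1 hK.le) hPr0
      _ = _ := by rw [h2]; ring

/-- the last case of the product estimate -/
theorem prodF_aux (k : ℕ) (hk : 3 ≤ k) (K1 K2 M G Pr R P0 : ℝ) (hK1 : 0 < K1) (hK2 : 0 < K2) (hM : 1 ≤ M) (hG : 0 ≤ G) (hPr : 0 ≤ Pr)
    (hR : 1 ≤ R) (hP0 : 1 ≤ P0) (h3 : G * R ^ (k - 2) * P0 ≤ K1 * M * Pr) (h4 : P0 ^ (k - 1) ≤ K2 * R ^ (k - 2) * Pr) :
    G ≤ K1 * K2 * M * (Pr ^ 2 / P0 ^ k) := by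
  have hk1 : P0 ^ k = P0 ^ (k - 1) * P0 := by
    rw [← pow_succ]; congr 1; omega
  have h5 : G * P0 ^ k ≤ K1 * K2 * M * Pr ^ 2 := by
    calc G * P0 ^ k = (G * P0) * P0 ^ (k - 1) := by rw [hk1]; ring
      _ ≤ (G * P0) * (K2 * R ^ (k - 2) * Pr) := mul_le_mul_of_nonneg_left h4 (mul_nonneg hG (by linarith))
      _ = (G * R ^ (k - 2) * P0) * (K2 * Pr) := by ring
      _ ≤ (K1 * M * Pr) * (K2 * Pr) := mul_le_mul_of_nonneg_right h3 (mul_nonneg hK2.le hPr)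
      _ = _ := by ring
  rw [← mul_div_assoc, le_div_iff₀ (by positivity)]
  exact h5

/-- the product of the ratios, final form -/
theorem prodF (k : ℕ) (hk : 3 ≤ k) (r : ℕ) : ∃ K : ℝ, 0 < K ∧ ∀ (p : ℕ) (M : ℝ), 1 ≤ M →
    (∏ j ∈ range (r + 1), min M ((PS k p j : ℝ) ^ k) / min M ((PS k p j : ℝ) ^ (k - 2))) ≤
      K * M * (1 + (∏ j ∈ range (r + 1), (PS k p j : ℝ)) ^ 2 / (PS k p 0 : ℝ) ^ k) := by
  obtain ⟨K1, hK1, h1⟩ := prodG k hk r
  obtain ⟨K2, hK2, h2⟩ := prodJ k hk r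
  refine ⟨K1 * K2 + 1, by positivity, fun p M hM => ?_⟩
  have hPr0 : 0 ≤ ∏ j ∈ range (r + 1), (PS k p j : ℝ) := Finset.prod_nonneg (fun j _ => by positivity)
  have hP0 : (1 : ℝ) ≤ PS k p 0 := by exact_mod_cast PS_pos k p 0
  have hPr1 : (1 : ℝ) ≤ PS k p r := by exact_mod_cast PS_pos k p r
  have hG0 : 0 ≤ ∏ j ∈ range (r + 1), min M ((PS k p j : ℝ) ^ k) / min M ((PS k p j : ℝ) ^ (k - 2)) :=
    Finset.prod_nonneg (fun j _ => div_nonneg (le_min (by linarith) (by positivity)) (le_min (by linarith) (by positivity)))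
  have h3 := h1 p M hM
  have h4 := h2 p
  have hone : M < (PS k p r : ℝ) ^ (k - 2) → (∏ j ∈ range (r + 1), min M ((PS k p j : ℝ) ^ k) / min M ((PS k p j : ℝ) ^ (k - 2))) = 1 := by
    intro hc
    apply Finset.prod_eq_one
    intro j hj
    rw [Finset.mem_range] at hj
    have h4 : (PS k p r : ℝ) ≤ PS k p j := by exact_mod_cast PS_anti k p hk j r (by omega)
    have h5 : M ≤ (PS k p j : ℝ) ^ (k - 2) := hc.le.trans (pow_le_pow_left₀ (by linarith) h4 _)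
    have h6 : M ≤ (PS k p j : ℝ) ^ k := h5.trans (pow_le_pow_right₀ (by linarith) (by omega))
    rw [min_eq_left h5, min_eq_left h6, div_self (by linarith)]
  generalize (∏ j ∈ range (r + 1), min M ((PS k p j : ℝ) ^ k) / min M ((PS k p j : ℝ) ^ (k - 2))) = G at hG0 h3 hone ⊢
  generalize (∏ j ∈ range (r + 1), (PS k p j : ℝ)) = Pr at hPr0 h3 h4 ⊢
  generalize hR : (PS k p r : ℝ) = R at hPr1 h3 h4 hone
  generalize hP : (PS k p 0 : ℝ) = P0 at hP0 h3 h4 ⊢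
  have hZ0 : 0 ≤ Pr ^ 2 / P0 ^ k := by positivity
  have hKK : 0 < K1 * K2 := mul_pos hK1 hK2
  rcases lt_or_ge M (R ^ (k - 2)) with hc | hc
  · rw [hone hc]
    have h5 : 1 * 1 ≤ M * (1 + Pr ^ 2 / P0 ^ k) := mul_le_mul hM (by linarith) zero_le_one (by linarith)
    have h6 : 1 * (M * (1 + Pr ^ 2 / P0 ^ k)) ≤ (K1 * K2 + 1) * (M * (1 + Pr ^ 2 / P0 ^ k)) :=
      mul_le_mul_of_nonneg_right (by linarith) (by linarith)
    have h7 : (K1 * K2 + 1) * M * (1 + Pr ^ 2 / P0 ^ k) = (K1 * K2 + 1) * (M * (1 + Pr ^ 2 / P0 ^ k)) := by ring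
    linarith
  · rw [min_eq_right hc] at h3
    have h5 := prodF_aux k hk K1 K2 M G Pr R P0 hK1 hK2 hM hG0 hPr0 hPr1 hP0 h3 h4
    refine h5.trans ?_
    have h6 : K1 * K2 * M * (Pr ^ 2 / P0 ^ k) ≤ K1 * K2 * M * (1 + Pr ^ 2 / P0 ^ k) :=
      mul_le_mul_of_nonneg_left (by linarith) (by positivity)
    have h7 : 0 ≤ M * (1 + Pr ^ 2 / P0 ^ k) := mul_nonneg (by linarith) (by linarith)
    have h8 : (K1 * K2 + 1) * M * (1 + Pr ^ 2 / P0 ^ k) = K1 * K2 * M * (1 + Pr ^ 2 / P0 ^ k) + M * (1 + Pr ^ 2 / P0 ^ k) := by ring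
    linarith

end Pool.Agent.Y867.WR
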