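import Pool.Agent.Y867.WR.OneA
import Pool.Agent.Y867.WR.MinA

/-! # One random coefficient: the counting lemma for perturbed powers -/

set_option autoImplicit false

open Finset

namespace Pool.Agent.Y867.WR

/-- the coefficient vector with the coefficient of `x ^ (k - 1)` equal to `θ` -/
def bt (k : ℕ) (b : Fin k → ℝ) (θ : ℝ) : Fin k → ℝ := fun j => if (j : ℕ) = k - 1 then θ else b j

theorem bt_fb (k : ℕ) (hk : 1 ≤ k) (a : ℝ) (b : Fin k → ℝ) (θ x : ℝ) :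
    fb k a (bt k b θ) x = fb k a (bt k b 0) x + θ * x ^ (k - 1) := by
  unfold fb bt
  have h1 : ∀ j : Fin k, (if (j : ℕ) = k - 1 then θ else b j) * x ^ (j : ℕ) =
      (if (j : ℕ) = k - 1 then 0 else b j) * x ^ (j : ℕ) + (if j = (⟨k - 1, by omega⟩ : Fin k) then θ * x ^ (k - 1) else 0) := by
    intro j
    by_cases h : (j : ℕ) = k - 1
    · rw [if_pos h, if_pos h, if_pos (Fin.ext h), h]; ring
    · rw [if_neg h, if_neg h, if_neg (fun h' => h (congrArg Fin.val h'))]; ring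
  simp_rw [h1]
  rw [Finset.sum_add_distrib, Finset.sum_ite_eq' univ, if_pos (Finset.mem_univ _)]
  ring

theorem bt_abs (k : ℕ) (b : Fin k → ℝ) (B θ : ℝ) (hb : ∀ i, |b i| ≤ B) (hθ : |θ| ≤ B) (i : Fin k) : |bt k b θ i| ≤ B := by
  unfold bt
  split_ifs
  · exact hθ
  · exact hb i

/-- the lower order terms -/
theorem low_diff (k : ℕ) (hk : 3 ≤ k) (a : ℝ) (b : Fin k → ℝ) (B : ℝ) (hB : 0 ≤ B) (hb : ∀ i, |b i| ≤ B) (Q x y : ℝ) (hQ : 1 ≤ Q)
    (hx0 : 0 ≤ x) (hy0 : 0 ≤ y) (hx : x ≤ 2 * k * Q) (hy : y ≤ 2 * k * Q) :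
    |(fb k a (bt k b 0) x - fb k a (bt k b 0) y) - a * (x ^ k - y ^ k)| ≤
      (k * B * k * (2 * k) ^ (k - 3)) * Q ^ (k - 3) * |x - y| := by
  have hk3 : (3 : ℝ) ≤ k := by exact_mod_cast hk
  have hkQ : 1 ≤ 2 * k * Q := by nlinarith
  have h1 : (fb k a (bt k b 0) x - fb k a (bt k b 0) y) - a * (x ^ k - y ^ k) =
      ∑ j : Fin k, bt k b 0 j * (x ^ (j : ℕ) - y ^ (j : ℕ)) := by
    unfold fb
    simp only [mul_sub, Finset.sum_sub_distrib]
    ring
  rw [h1]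
  refine (Finset.abs_sum_le_sum_abs _ _).trans ?_
  have h2 : ∀ j ∈ (univ : Finset (Fin k)), |bt k b 0 j * (x ^ (j : ℕ) - y ^ (j : ℕ))| ≤
      B * (k * (2 * k * Q) ^ (k - 3) * |x - y|) := by
    intro j _
    have hpos : 0 ≤ B * (k * (2 * k * Q) ^ (k - 3) * |x - y|) := by positivity
    by_cases hj : (j : ℕ) = k - 1
    · unfold bt
      rw [if_pos hj, zero_mul, abs_zero]
      exact hpos
    · have h3 : |bt k b 0 j| ≤ B := by
        unfold bt
        rw [if_neg hj]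
        exact hb j
      by_cases hj0 : (j : ℕ) = 0
      · rw [hj0, pow_zero, pow_zero, sub_self, mul_zero, abs_zero]
        exact hpos
      · rw [abs_mul]
        apply mul_le_mul h3 _ (abs_nonneg _) hB
        refine (abs_pow_sub_pow_le x y (j : ℕ)).trans ?_
        have hjk : (j : ℕ) ≤ k - 2 := by have := j.2; omega
        have h4 : max |x| |y| ≤ 2 * k * Q := by
          rw [abs_of_nonneg hx0, abs_of_nonneg hy0]
          exact max_le hx hy
        have h5 : max |x| |y| ^ ((j : ℕ) - 1) ≤ (2 * k * Q) ^ (k - 3) := by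
          calc max |x| |y| ^ ((j : ℕ) - 1) ≤ (2 * k * Q) ^ ((j : ℕ) - 1) := pow_le_pow_left₀ (by positivity) h4 _
            _ ≤ (2 * k * Q) ^ (k - 3) := pow_le_pow_right₀ hkQ (by omega)
        have h6 : ((j : ℕ) : ℝ) ≤ k := by exact_mod_cast j.2.le
        calc |x - y| * ((j : ℕ) : ℝ) * max |x| |y| ^ ((j : ℕ) - 1) ≤ |x - y| * k * (2 * k * Q) ^ (k - 3) := by
              apply mul_le_mul _ h5 (by positivity) (by positivity)
              exact mul_le_mul_of_nonneg_left h6 (abs_nonneg _)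
          _ = _ := by ring
  refine (Finset.sum_le_sum h2).trans (le_of_eq ?_)
  rw [Finset.sum_const, Finset.card_univ, Fintype.card_fin, nsmul_eq_mul, mul_pow (2 * (k : ℝ)) Q]
  ring

/-- two variables at one scale, perturbed -/
theorem pair2g (k : ℕ) (hk : 3 ≤ k) (a : ℝ) (ha : 0 < a) (b : Fin k → ℝ) : ∃ A : ℝ, 0 < A ∧ ∀ Q x1 x2 y1 y2 T : ℝ, 1 ≤ Q →
    (2 * (k : ℝ) - 3) * Q ≤ x1 → x1 ≤ (2 * (k : ℝ) - 2) * Q → (2 * (k : ℝ) - 3) * Q ≤ y1 → y1 ≤ (2 * (k : ℝ) - 2) * Q →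
    (2 * (k : ℝ) - 1) * Q ≤ x2 → x2 ≤ 2 * (k : ℝ) * Q → (2 * (k : ℝ) - 1) * Q ≤ y2 → y2 ≤ 2 * (k : ℝ) * Q →
    |(x1 ^ (k - 1) - y1 ^ (k - 1)) + (x2 ^ (k - 1) - y2 ^ (k - 1))| ≤ T →
    |(fb k a (bt k b 0) x1 - fb k a (bt k b 0) y1) + (fb k a (bt k b 0) x2 - fb k a (bt k b 0) y2)| ≤ T * Q →
    |x1 - y1| ≤ A * (1 + T / Q ^ (k - 2)) := by
  obtain ⟨A, hA, h⟩ := pair2 k hk
  have hk3 : (3 : ℝ) ≤ k := by exact_mod_cast hk
  set B : ℝ := ∑ i, |b i| with hB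
  have hB0 : 0 ≤ B := Finset.sum_nonneg (fun i _ => abs_nonneg _)
  have hbB : ∀ i, |b i| ≤ B := fun i => Finset.single_le_sum (f := fun i => |b i|) (fun i _ => abs_nonneg _) (Finset.mem_univ i)
  set C1 : ℝ := k * B * k * (2 * k) ^ (k - 3) with hC1
  have hC10 : 0 ≤ C1 := by positivity
  set C0 : ℝ := (k : ℝ) * (2 * k) ^ (k - 2) with hC0
  have hC00 : 0 ≤ C0 := by positivity
  set A2 : ℝ := A * (1 + (1 + C1) / a) with hA2
  have hA20 : 0 < A2 := by positivity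
  set C3 : ℝ := C1 * (1 + C0) / a with hC3
  have hC30 : 0 ≤ C3 := by positivity
  refine ⟨2 * A2 + 2 * A * C3 + 1, by positivity, ?_⟩
  intro Q x1 x2 y1 y2 T hQ a1 a2 a3 a4 b1 b2 b3 b4 h1 h2
  have hQ0 : 0 < Q := by linarith
  have hT : 0 ≤ T := (abs_nonneg _).trans h1
  have p1 : Q ≤ x1 := by nlinarith
  have p2 : Q ≤ y1 := by nlinarith
  have p3 : Q ≤ x2 := by nlinarith
  have p4 : Q ≤ y2 := by nlinarith
  have q1 : x1 ≤ 2 * k * Q := by nlinarith
  have q2 : y1 ≤ 2 * k * Q := by nlinarith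
  have hx1 : 0 ≤ x1 := by linarith
  have hy1 : 0 ≤ y1 := by linarith
  have hx2 : 0 ≤ x2 := by linarith
  have hy2 : 0 ≤ y2 := by linarith
  set d1 : ℝ := |x1 - y1| with hd1
  set d2 : ℝ := |x2 - y2| with hd2
  have hd10 : 0 ≤ d1 := abs_nonneg _
  have hd20 : 0 ≤ d2 := abs_nonneg _
  have hQk2 : 0 < Q ^ (k - 2) := by positivity
  have hQk3 : 0 < Q ^ (k - 3) := by positivity
  have hQs : Q ^ (k - 2) = Q ^ (k - 3) * Q := by
    rw [← pow_succ]; congr 1; omega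
  -- the second difference
  have e1 : |x1 ^ (k - 1) - y1 ^ (k - 1)| ≤ C0 * Q ^ (k - 2) * d1 := by
    refine (abs_pow_sub_pow_le x1 y1 (k - 1)).trans ?_
    have h4 : max |x1| |y1| ≤ 2 * k * Q := by
      rw [abs_of_nonneg hx1, abs_of_nonneg hy1]
      exact max_le q1 q2
    have h5 : max |x1| |y1| ^ (k - 1 - 1) ≤ (2 * k * Q) ^ (k - 2) := by
      have : k - 1 - 1 = k - 2 := by omega
      rw [this]
      exact pow_le_pow_left₀ (by positivity) h4 _
    have h6 : ((k - 1 : ℕ) : ℝ) ≤ k := by exact_mod_cast Nat.sub_le _ _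
    calc |x1 - y1| * ((k - 1 : ℕ) : ℝ) * max |x1| |y1| ^ (k - 1 - 1) ≤ |x1 - y1| * k * (2 * k * Q) ^ (k - 2) := by
          apply mul_le_mul _ h5 (by positivity) (by positivity)
          exact mul_le_mul_of_nonneg_left h6 (abs_nonneg _)
      _ = _ := by rw [hC0, mul_pow, ← hd1]; ring
  have e2 : |x2 ^ (k - 1) - y2 ^ (k - 1)| ≤ T + C0 * Q ^ (k - 2) * d1 := by
    have : x2 ^ (k - 1) - y2 ^ (k - 1) = ((x1 ^ (k - 1) - y1 ^ (k - 1)) + (x2 ^ (k - 1) - y2 ^ (k - 1))) -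
        (x1 ^ (k - 1) - y1 ^ (k - 1)) := by ring
    rw [this]
    exact (abs_sub _ _).trans (add_le_add h1 e1)
  have e3 : d2 ≤ (T + C0 * Q ^ (k - 2) * d1) / Q ^ (k - 2) := by
    have h4 := single1 (k - 1) (by omega) Q x2 y2 _ hQ p3 p4 e2
    have : k - 1 - 1 = k - 2 := by omega
    rwa [this] at h4
  have e4 : d2 * Q ^ (k - 2) ≤ T + C0 * Q ^ (k - 2) * d1 := by rwa [le_div_iff₀ hQk2] at e3
  -- the k-th powers
  have l1 := low_diff k hk a b B hB0 hbB Q x1 y1 hQ hx1 hy1 q1 q2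
  have l2 := low_diff k hk a b B hB0 hbB Q x2 y2 hQ hx2 hy2 b2 b4
  rw [← hC1, ← hd1] at l1
  rw [← hC1, ← hd2] at l2
  have e5 : Q ^ (k - 3) * d2 ≤ T * Q + C0 * Q ^ (k - 3) * d1 := by
    have h4 : Q * (Q ^ (k - 3) * d2) ≤ Q * (T * Q + C0 * Q ^ (k - 3) * d1) := by
      calc Q * (Q ^ (k - 3) * d2) = d2 * Q ^ (k - 2) := by rw [hQs]; ring
        _ ≤ T + C0 * Q ^ (k - 2) * d1 := e4
        _ ≤ T * (Q * Q) + C0 * Q ^ (k - 2) * d1 := by
            have : T * 1 ≤ T * (Q * Q) := mul_le_mul_of_nonneg_left (by nlinarith) hT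
            linarith
        _ = _ := by rw [hQs]; ring
    exact le_of_mul_le_mul_left h4 hQ0
  have e6 : a * |(x1 ^ k - y1 ^ k) + (x2 ^ k - y2 ^ k)| ≤ (1 + C1) * (T * Q) + C1 * (1 + C0) * (Q ^ (k - 3) * d1) := by
    rw [← abs_of_pos ha, ← abs_mul]
    have h4 : a * ((x1 ^ k - y1 ^ k) + (x2 ^ k - y2 ^ k)) =
        ((fb k a (bt k b 0) x1 - fb k a (bt k b 0) y1) + (fb k a (bt k b 0) x2 - fb k a (bt k b 0) y2)) -
        ((fb k a (bt k b 0) x1 - fb k a (bt k b 0) y1) - a * (x1 ^ k - y1 ^ k)) -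
        ((fb k a (bt k b 0) x2 - fb k a (bt k b 0) y2) - a * (x2 ^ k - y2 ^ k)) := by ring
    rw [h4]
    have h5 : C1 * (Q ^ (k - 3) * d2) ≤ C1 * (T * Q + C0 * Q ^ (k - 3) * d1) := mul_le_mul_of_nonneg_left e5 hC10
    have h6 := abs_sub (((fb k a (bt k b 0) x1 - fb k a (bt k b 0) y1) + (fb k a (bt k b 0) x2 - fb k a (bt k b 0) y2)) -
        ((fb k a (bt k b 0) x1 - fb k a (bt k b 0) y1) - a * (x1 ^ k - y1 ^ k)))
        ((fb k a (bt k b 0) x2 - fb k a (bt k b 0) y2) - a * (x2 ^ k - y2 ^ k))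
    have h7 := abs_sub ((fb k a (bt k b 0) x1 - fb k a (bt k b 0) y1) + (fb k a (bt k b 0) x2 - fb k a (bt k b 0) y2))
        ((fb k a (bt k b 0) x1 - fb k a (bt k b 0) y1) - a * (x1 ^ k - y1 ^ k))
    have h8 : (1 + C1) * (T * Q) + C1 * (1 + C0) * (Q ^ (k - 3) * d1) = T * Q + C1 * Q ^ (k - 3) * d1 +
        C1 * (T * Q + C0 * Q ^ (k - 3) * d1) := by ring
    rw [h8]
    linarith
  set T' : ℝ := (1 + (1 + C1) / a) * T + C3 * (Q ^ (k - 3) * d1) / Q with hT'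
  have hz : 0 ≤ C3 * (Q ^ (k - 3) * d1) / Q := by positivity
  have hz2 : 0 ≤ (1 + C1) / a * T := by positivity
  have e7 : |(x1 ^ k - y1 ^ k) + (x2 ^ k - y2 ^ k)| ≤ T' * Q := by
    have h4 : |(x1 ^ k - y1 ^ k) + (x2 ^ k - y2 ^ k)| ≤ ((1 + C1) * (T * Q) + C1 * (1 + C0) * (Q ^ (k - 3) * d1)) / a := by
      rw [le_div_iff₀ ha, mul_comm]
      exact e6
    refine h4.trans ?_
    have h5 : T' * Q = ((1 + C1) * (T * Q) + C1 * (1 + C0) * (Q ^ (k - 3) * d1)) / a + T * Q := by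
      rw [hT', hC3]
      field_simp
      ring
    rw [h5]
    have : 0 ≤ T * Q := by positivity
    linarith
  have e8 : |(x1 ^ (k - 1) - y1 ^ (k - 1)) + (x2 ^ (k - 1) - y2 ^ (k - 1))| ≤ T' := by
    rw [hT']
    have : (1 + (1 + C1) / a) * T = T + (1 + C1) / a * T := by ring
    linarith
  have e9 := h Q x1 x2 y1 y2 T' hQ a1 a2 a3 a4 b1 b2 b3 b4 e8 e7
  rw [← hd1] at e9
  have e10 : A * (T' / Q ^ (k - 2)) = A2 * (T / Q ^ (k - 2)) + A * C3 * (d1 / (Q * Q)) := by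
    rw [hT', hA2, hQs]
    field_simp
  rw [e10] at e9
  have hTQ : 0 ≤ T / Q ^ (k - 2) := by positivity
  have hAC : 0 ≤ 2 * A * C3 := by positivity
  rcases le_or_gt (2 * A * C3) (Q * Q) with hc | hc
  · have e11 : A * C3 * (d1 / (Q * Q)) ≤ d1 / 2 := by
      rw [← mul_div_assoc, div_le_iff₀ (by positivity)]
      calc A * C3 * d1 = (2 * A * C3) * (d1 / 2) := by ring
        _ ≤ (Q * Q) * (d1 / 2) := mul_le_mul_of_nonneg_right hc (by positivity)
        _ = _ := by ring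
    have e12 : d1 ≤ 2 * A2 * (T / Q ^ (k - 2)) := by linarith
    refine e12.trans ?_
    have : 0 ≤ (2 * A * C3 + 1) * (T / Q ^ (k - 2)) := by positivity
    nlinarith
  · have e11 : d1 ≤ Q := by
      rw [hd1, abs_le]
      constructor <;> nlinarith
    have e12 : Q ≤ Q * Q := by nlinarith
    have e13 : d1 ≤ 2 * A * C3 := by linarith
    have e14 : 0 ≤ (2 * A2 + 2 * A * C3 + 1) * (T / Q ^ (k - 2)) := by positivity
    nlinarith

/-- one variable at one scale, perturbed -/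
theorem single1g (k : ℕ) (hk : 3 ≤ k) (a : ℝ) (ha : 0 < a) (b : Fin k → ℝ) : ∃ A : ℝ, 0 < A ∧ ∀ Q x y T : ℝ, 1 ≤ Q →
    Q ≤ x → x ≤ 2 * k * Q → Q ≤ y → y ≤ 2 * k * Q → |x - y| ≤ Q →
    |fb k a (bt k b 0) x - fb k a (bt k b 0) y| ≤ T → |x - y| ≤ A * (1 + T / Q ^ (k - 1)) := by
  have hk3 : (3 : ℝ) ≤ k := by exact_mod_cast hk
  set B : ℝ := ∑ i, |b i| with hB
  have hB0 : 0 ≤ B := Finset.sum_nonneg (fun i _ => abs_nonneg _)
  have hbB : ∀ i, |b i| ≤ B := fun i => Finset.single_le_sum (f := fun i => |b i|) (fun i _ => abs_nonneg _) (Finset.mem_univ i)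
  set C1 : ℝ := k * B * k * (2 * k) ^ (k - 3) with hC1
  have hC10 : 0 ≤ C1 := by positivity
  refine ⟨2 / a + 2 * C1 / a, by positivity, ?_⟩
  intro Q x y T hQ p1 q1 p2 q2 hd h2
  have hQ0 : 0 < Q := by linarith
  have hT : 0 ≤ T := (abs_nonneg _).trans h2
  have l1 := low_diff k hk a b B hB0 hbB Q x y hQ (by linarith) (by linarith) q1 q2
  rw [← hC1] at l1
  set d : ℝ := |x - y| with hdd
  have hd0 : 0 ≤ d := abs_nonneg _
  have hQs : Q ^ (k - 1) = Q ^ (k - 3) * (Q * Q) := by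
    rw [← mul_assoc, ← pow_succ, ← pow_succ]; congr 1; omega
  have hQk3 : 0 < Q ^ (k - 3) := by positivity
  have hQk1 : 0 < Q ^ (k - 1) := by positivity
  have e1 : a * |x ^ k - y ^ k| ≤ T + C1 * Q ^ (k - 3) * d := by
    rw [← abs_of_pos ha, ← abs_mul]
    have h4 : a * (x ^ k - y ^ k) = (fb k a (bt k b 0) x - fb k a (bt k b 0) y) -
        ((fb k a (bt k b 0) x - fb k a (bt k b 0) y) - a * (x ^ k - y ^ k)) := by ring
    rw [h4]
    exact (abs_sub _ _).trans (add_le_add h2 l1)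
  have e2 := single1 k (by omega) Q x y _ hQ p1 p2 (le_refl _)
  rw [← hdd, le_div_iff₀ hQk1] at e2
  have e3 : a * (d * Q ^ (k - 1)) ≤ T + C1 * Q ^ (k - 3) * d := (mul_le_mul_of_nonneg_left e2 ha.le).trans e1
  have hTQ : 0 ≤ T / Q ^ (k - 1) := by positivity
  have hA0 : 0 ≤ 2 * C1 / a := by positivity
  have hA1 : 0 < 2 / a := by positivity
  rcases le_or_gt (2 * C1) (a * (Q * Q)) with hc | hc
  · have e4 : C1 * Q ^ (k - 3) * d ≤ a * (d * Q ^ (k - 1)) / 2 := by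
      rw [hQs]
      have h5 : (2 * C1) * (Q ^ (k - 3) * d) ≤ (a * (Q * Q)) * (Q ^ (k - 3) * d) := mul_le_mul_of_nonneg_right hc (by positivity)
      linarith
    have e5 : d ≤ 2 / a * (T / Q ^ (k - 1)) := by
      rw [div_mul_div_comm, le_div_iff₀ (by positivity)]
      calc d * (a * Q ^ (k - 1)) = a * (d * Q ^ (k - 1)) := by ring
        _ ≤ 2 * T := by linarith
    refine e5.trans ?_
    have : 0 ≤ 2 * C1 / a * (T / Q ^ (k - 1)) := by positivity
    nlinarith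
  · have e12 : Q ≤ Q * Q := by nlinarith
    have e13 : d ≤ 2 * C1 / a := by
      rw [le_div_iff₀ ha]
      nlinarith
    have e14 : 0 ≤ (2 / a + 2 * C1 / a) * (T / Q ^ (k - 1)) := by positivity
    nlinarith

theorem two_out {n : ℕ} (D : Fin n → ℝ) (i i' : Fin n) (hne : i ≠ i') (W : ℝ) (hW : 0 ≤ W)
    (h : ∀ l, l ≠ i → l ≠ i' → |D l| ≤ W) : |D i + D i'| ≤ |∑ l, D l| + n * W := by
  have h1 : ∀ l, D l = (if l = i then D i else 0) + (if l = i' then D i' else 0) + (if l = i ∨ l = i' then 0 else D l) := by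
    intro l
    by_cases h1 : l = i
    · rw [if_pos h1, if_neg (by rw [h1]; exact hne), if_pos (Or.inl h1), h1]; ring
    · by_cases h2 : l = i'
      · rw [if_neg h1, if_pos h2, if_pos (Or.inr h2), h2]; ring
      · rw [if_neg h1, if_neg h2, if_neg (by tauto)]; ring
  have h2 : ∑ l, D l = D i + D i' + ∑ l, (if l = i ∨ l = i' then 0 else D l) := by
    conv_lhs => rw [Finset.sum_congr rfl (fun l _ => h1 l)]
    rw [Finset.sum_add_distrib, Finset.sum_add_distrib, Finset.sum_ite_eq' univ, Finset.sum_ite_eq' univ,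
      if_pos (Finset.mem_univ _), if_pos (Finset.mem_univ _)]
  have h3 : |∑ l, (if l = i ∨ l = i' then 0 else D l)| ≤ n * W := by
    refine (Finset.abs_sum_le_sum_abs _ _).trans ?_
    have h4 : ∀ l ∈ (univ : Finset (Fin n)), |if l = i ∨ l = i' then 0 else D l| ≤ W := by
      intro l _
      split_ifs with h5
      · rw [abs_zero]; exact hW
      · rw [not_or] at h5
        exact h l h5.1 h5.2
    refine (Finset.sum_le_sum h4).trans (le_of_eq ?_)
    rw [Finset.sum_const, Finset.card_univ, Fintype.card_fin, nsmul_eq_mul]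
  have h4 : D i + D i' = ∑ l, D l - ∑ l, (if l = i ∨ l = i' then 0 else D l) := by rw [h2]; ring
  rw [h4]
  exact (abs_sub _ _).trans (add_le_add le_rfl h3)

theorem one_out {n : ℕ} (D : Fin n → ℝ) (i : Fin n) (W : ℝ) (hW : 0 ≤ W)
    (h : ∀ l, l ≠ i → |D l| ≤ W) : |D i| ≤ |∑ l, D l| + n * W := by
  have h2 : ∑ l, D l = D i + ∑ l ∈ univ.erase i, D l := (Finset.add_sum_erase univ D (Finset.mem_univ i)).symm
  have h3 : |∑ l ∈ univ.erase i, D l| ≤ n * W := by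
    refine (Finset.abs_sum_le_sum_abs _ _).trans ?_
    have h4 : ∀ l ∈ univ.erase i, |D l| ≤ W := fun l hl => h l (Finset.ne_of_mem_erase hl)
    refine (Finset.sum_le_sum h4).trans ?_
    rw [Finset.sum_const, nsmul_eq_mul]
    apply mul_le_mul_of_nonneg_right _ hW
    have := Finset.card_le_card (Finset.erase_subset i (univ : Finset (Fin n)))
    rw [Finset.card_univ, Fintype.card_fin] at this
    exact_mod_cast this
  have h4 : D i = ∑ l, D l - ∑ l ∈ univ.erase i, D l := by rw [h2]; ring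
  rw [h4]
  exact (abs_sub _ _).trans (add_le_add le_rfl h3)

end Pool.Agent.Y867.WR
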