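import Pool.Agent.Y867.WR.OneB

/-! # One random coefficient: counting pairs in the box with diminishing ranges -/

set_option autoImplicit false

open Finset

namespace Pool.Agent.Y867.WR

theorem DB_real (k r p : ℕ) (hk : 3 ≤ k) (x : Fin (2 * r) → ℕ) (hx : x ∈ DB k r p) (i : Fin (2 * r)) :
    (2 * (k : ℝ) - 3 + 2 * (((i : ℕ) % 2 : ℕ) : ℝ)) * (PS k p ((i : ℕ) / 2) : ℝ) ≤ x i ∧
    (x i : ℝ) ≤ (2 * (k : ℝ) - 2 + 2 * (((i : ℕ) % 2 : ℕ) : ℝ)) * (PS k p ((i : ℕ) / 2) : ℝ) := by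
  obtain ⟨h1, h2⟩ := (mem_DB k r p x).mp hx i
  have e3 : ((2 * k - 3 : ℕ) : ℝ) = 2 * (k : ℝ) - 3 := by rw [Nat.cast_sub (by omega)]; push_cast; ring
  have e2 : ((2 * k - 2 : ℕ) : ℝ) = 2 * (k : ℝ) - 2 := by rw [Nat.cast_sub (by omega)]; push_cast; ring
  have h1' : (((2 * k - 3 + 2 * ((i : ℕ) % 2)) * PS k p ((i : ℕ) / 2) : ℕ) : ℝ) ≤ (x i : ℝ) := by exact_mod_cast h1
  have h2' : (x i : ℝ) ≤ (((2 * k - 2 + 2 * ((i : ℕ) % 2)) * PS k p ((i : ℕ) / 2) : ℕ) : ℝ) := by exact_mod_cast h2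
  rw [Nat.cast_mul, Nat.cast_add, Nat.cast_mul, e3] at h1'
  rw [Nat.cast_mul, Nat.cast_add, Nat.cast_mul, e2] at h2'
  exact ⟨by exact_mod_cast h1', by exact_mod_cast h2'⟩

theorem DB_ge (k r p : ℕ) (hk : 3 ≤ k) (x : Fin (2 * r) → ℕ) (hx : x ∈ DB k r p) (i : Fin (2 * r)) :
    (PS k p ((i : ℕ) / 2) : ℝ) ≤ x i := by
  have h1 := ((mem_DB k r p x).mp hx i).1
  have h2 : PS k p ((i : ℕ) / 2) ≤ x i := by
    calc PS k p ((i : ℕ) / 2) = 1 * PS k p ((i : ℕ) / 2) := (one_mul _).symm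
      _ ≤ _ := Nat.mul_le_mul_right _ (by omega)
      _ ≤ _ := h1
  exact_mod_cast h2

/-- product over pairs of indices -/
theorem prod_pairs (F : ℕ → ℝ) (r : ℕ) : ∏ i ∈ range (2 * r), F i = ∏ j ∈ range r, (F (2 * j) * F (2 * j + 1)) := by
  induction r with
  | zero => simp
  | succ r ih =>
    have : 2 * (r + 1) = 2 * r + 1 + 1 := by ring
    rw [this, Finset.prod_range_succ, Finset.prod_range_succ, Finset.prod_range_succ _ r, ih]
    ring

/-- number of points with both sums in given intervals -/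
theorem cntO (k : ℕ) (hk : 3 ≤ k) (a : ℝ) (ha : 0 < a) (b : Fin k → ℝ) (r : ℕ) (hr : 1 ≤ r) : ∃ A : ℝ, 0 < A ∧
    ∀ (p : ℕ) (M : ℝ), 1 ≤ M → ∀ X : Finset (Fin (2 * r) → ℕ), X ⊆ DB k r p →
    (∀ x ∈ X, ∀ y ∈ X, |∑ l, ((x l : ℝ) ^ (k - 1) - (y l : ℝ) ^ (k - 1))| ≤ 2 * M) →
    (∀ x ∈ X, ∀ y ∈ X, |∑ l, (fb k a (bt k b 0) (x l) - fb k a (bt k b 0) (y l))| ≤ 2 * M) →
    (X.card : ℝ) ≤ A * M * (1 + (∏ j ∈ range r, (PS k p j : ℝ)) ^ 2 / (PS k p 0 : ℝ) ^ k) := by
  classical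
  have hk3 : (3 : ℝ) ≤ k := by exact_mod_cast hk
  obtain ⟨A1, hA1, hp2⟩ := pair2g k hk a ha b
  obtain ⟨A2, hA2, hs1⟩ := single1g k hk a ha b
  obtain ⟨r', rfl⟩ : ∃ r', r = r' + 1 := ⟨r - 1, by omega⟩
  obtain ⟨A3, hA3, hpF⟩ := prodF k hk r'
  set r : ℕ := r' + 1 with hrdef
  set B : ℝ := ∑ i, |b i| with hB
  have hB0 : 0 ≤ B := Finset.sum_nonneg (fun i _ => abs_nonneg _)
  have hbB : ∀ i, |b i| ≤ B := fun i => Finset.single_le_sum (f := fun i => |b i|) (fun i _ => abs_nonneg _) (Finset.mem_univ i)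
  have hbB' : ∀ i, |bt k b 0 i| ≤ B := fun i => bt_abs k b B 0 hbB (by rw [abs_zero]; exact hB0) i
  set Cw : ℝ := (2 * (a + k * B) + 1) * (2 * k) ^ k with hCw
  have hCw0 : 0 < Cw := by positivity
  set K : ℝ := (A1 + A2) * (3 + ((2 * r : ℕ) : ℝ) * Cw * 2 ^ (k - 2)) with hK
  have hK0 : 0 < K := by positivity
  refine ⟨((2 * K + 2) ^ 2) ^ r * A3, by positivity, ?_⟩
  intro p M hM X hX hX1 hX2
  have hM0 : 0 < M := by linarith
  set Q : ℕ → ℝ := fun j => (PS k p j : ℝ) with hQ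
  have hQ1 : ∀ j, 1 ≤ Q j := fun j => by rw [hQ]; dsimp only; exact_mod_cast PS_pos k p j
  have hQanti : ∀ i j, i ≤ j → Q j ≤ Q i := fun i j hij => by rw [hQ]; dsimp only; exact_mod_cast PS_anti k p hk i j hij
  have hQstep : ∀ j, Q (j + 1) ^ (k - 1) ≤ 2 ^ (k - 2) * Q j ^ (k - 2) := by
    intro j
    rw [hQ]
    dsimp only
    exact_mod_cast PS_step1 k p j hk
  have hQstep2 : ∀ j, Q (j + 1) ^ k ≤ 2 ^ (k - 2) * Q j ^ (k - 1) := by
    intro j
    have h1 : Q (j + 1) ^ k = Q (j + 1) ^ (k - 1) * Q (j + 1) := by rw [← pow_succ]; congr 1; omega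
    have h2 : Q j ^ (k - 1) = Q j ^ (k - 2) * Q j := by rw [← pow_succ]; congr 1; omega
    have h3 := hQ1 j
    have h4 := hQ1 (j + 1)
    rw [h1, h2]
    calc Q (j + 1) ^ (k - 1) * Q (j + 1) ≤ (2 ^ (k - 2) * Q j ^ (k - 2)) * Q j :=
          mul_le_mul (hQstep j) (hQanti j (j + 1) (by omega)) (by linarith) (by positivity)
      _ = _ := by ring
  have hle : ∀ x ∈ X, ∀ i : Fin (2 * r), ∀ j, j ≤ (i : ℕ) / 2 → (x i : ℝ) ≤ 2 * k * Q j :=
    fun x hx i j hj => DB_le k r p hk x (hX hx) i j hj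
  have hge : ∀ x ∈ X, ∀ i : Fin (2 * r), Q ((i : ℕ) / 2) ≤ (x i : ℝ) :=
    fun x hx i => DB_ge k r p hk x (hX hx) i
  have hreal : ∀ x ∈ X, ∀ i : Fin (2 * r), (2 * (k : ℝ) - 3 + 2 * (((i : ℕ) % 2 : ℕ) : ℝ)) * Q ((i : ℕ) / 2) ≤ x i ∧
      (x i : ℝ) ≤ (2 * (k : ℝ) - 2 + 2 * (((i : ℕ) % 2 : ℕ) : ℝ)) * Q ((i : ℕ) / 2) :=
    fun x hx i => DB_real k r p hk x (hX hx) i
  have hdist : ∀ x ∈ X, ∀ y ∈ X, ∀ i : Fin (2 * r), |(x i : ℝ) - y i| ≤ Q ((i : ℕ) / 2) := by
    intro x hx y hy i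
    obtain ⟨a1, a2⟩ := hreal x hx i
    obtain ⟨b1, b2⟩ := hreal y hy i
    rw [abs_le]
    constructor <;> linarith
  -- tails
  have htail1 : ∀ x ∈ X, ∀ y ∈ X, ∀ l : Fin (2 * r), ∀ j, j ≤ (l : ℕ) / 2 →
      |(x l : ℝ) ^ (k - 1) - (y l : ℝ) ^ (k - 1)| ≤ Cw * Q j ^ (k - 1) := by
    intro x hx y hy l j hj
    have h1 := hle x hx l j hj
    have h2 := hle y hy l j hj
    have h3 := hQ1 j
    have h4 : (x l : ℝ) ^ (k - 1) ≤ (2 * k * Q j) ^ (k - 1) := pow_le_pow_left₀ (by positivity) h1 _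
    have h5 : (y l : ℝ) ^ (k - 1) ≤ (2 * k * Q j) ^ (k - 1) := pow_le_pow_left₀ (by positivity) h2 _
    have h6 : (0 : ℝ) ≤ (x l : ℝ) ^ (k - 1) := by positivity
    have h7 : (0 : ℝ) ≤ (y l : ℝ) ^ (k - 1) := by positivity
    have h8 : (2 * k * Q j) ^ (k - 1) ≤ Cw * Q j ^ (k - 1) := by
      rw [mul_pow]
      apply mul_le_mul_of_nonneg_right _ (by positivity)
      have h9 : (2 * (k : ℝ)) ^ (k - 1) ≤ (2 * k) ^ k := pow_le_pow_right₀ (by linarith) (by omega)
      have h10 : (1 : ℝ) * (2 * k) ^ k ≤ (2 * (a + k * B) + 1) * (2 * k) ^ k := by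
        apply mul_le_mul_of_nonneg_right _ (by positivity)
        have : 0 ≤ 2 * (a + k * B) := by positivity
        linarith
      rw [hCw]
      linarith
    rw [abs_le]
    constructor <;> linarith
  have htail2 : ∀ x ∈ X, ∀ y ∈ X, ∀ l : Fin (2 * r), ∀ j, j ≤ (l : ℕ) / 2 →
      |fb k a (bt k b 0) (x l) - fb k a (bt k b 0) (y l)| ≤ Cw * Q j ^ k := by
    intro x hx y hy l j hj
    have h3 := hQ1 j
    have hx1 : (1 : ℝ) ≤ x l := (hQ1 _).trans (hge x hx l)
    have hy1 : (1 : ℝ) ≤ y l := (hQ1 _).trans (hge y hy l)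
    have h4 := fb_le k a ha (bt k b 0) B hbB' (x l) (2 * k * Q j) hx1 (hle x hx l j hj)
    have h5 := fb_le k a ha (bt k b 0) B hbB' (y l) (2 * k * Q j) hy1 (hle y hy l j hj)
    rw [mul_pow] at h4 h5
    refine (abs_sub _ _).trans ((add_le_add h4 h5).trans ?_)
    rw [hCw]
    have h6 : 0 ≤ (2 * (k : ℝ)) ^ k * Q j ^ k := by positivity
    nlinarith
  set L : ℕ → ℝ := fun i => min (Q (i / 2)) (K * (1 + M / Q (i / 2) ^ (k - 2 + i % 2))) with hL
  have hL0 : ∀ i, 0 ≤ L i := by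
    intro i
    rw [hL]
    have := hQ1 (i / 2)
    exact le_min (by linarith) (by positivity)
  have hmain : ∀ x ∈ X, ∀ y ∈ X, ∀ i : Fin (2 * r), (∀ l : Fin (2 * r), (l : ℕ) < i → x l = y l) →
      |(x i : ℝ) - y i| ≤ L i := by
    intro x hx y hy i hi
    have hQj := hQ1 ((i : ℕ) / 2)
    have hQj' := hQ1 ((i : ℕ) / 2 + 1)
    have hQQ := hQanti ((i : ℕ) / 2) ((i : ℕ) / 2 + 1) (by omega)
    have hst1 := hQstep ((i : ℕ) / 2)
    have hst2 := hQstep2 ((i : ℕ) / 2)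
    apply le_min (hdist x hx y hy i)
    rcases Nat.mod_two_eq_zero_or_one (i : ℕ) with hpar | hpar
    · -- even index
      rw [hpar, add_zero]
      have hi1 : (i : ℕ) + 1 < 2 * r := by have := i.2; omega
      set i' : Fin (2 * r) := ⟨(i : ℕ) + 1, hi1⟩ with hi'
      have hi'2 : (i' : ℕ) / 2 = (i : ℕ) / 2 := by rw [hi']; dsimp only; omega
      have hi'm : (i' : ℕ) % 2 = 1 := by rw [hi']; dsimp only; omega
      have hne : i ≠ i' := by
        intro h
        have := congrArg Fin.val h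
        rw [hi'] at this
        dsimp only at this
        omega
      generalize hj : (i : ℕ) / 2 = j at *
      have hout1 := two_out (fun l => (x l : ℝ) ^ (k - 1) - (y l : ℝ) ^ (k - 1)) i i' hne (Cw * Q (j + 1) ^ (k - 1)) (by positivity) (by
        intro l hl1 hl2
        rcases Nat.lt_trichotomy (l : ℕ) (i : ℕ) with h | h | h
        · rw [hi l h, sub_self, abs_zero]; positivity
        · exact absurd (Fin.ext h) hl1
        · apply htail1 x hx y hy l (j + 1)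
          have : (l : ℕ) ≠ (i : ℕ) + 1 := fun h' => hl2 (Fin.ext h')
          omega)
      have hout2 := two_out (fun l => fb k a (bt k b 0) (x l) - fb k a (bt k b 0) (y l)) i i' hne (Cw * Q (j + 1) ^ k) (by positivity) (by
        intro l hl1 hl2
        rcases Nat.lt_trichotomy (l : ℕ) (i : ℕ) with h | h | h
        · rw [hi l h, sub_self, abs_zero]; positivity
        · exact absurd (Fin.ext h) hl1
        · apply htail2 x hx y hy l (j + 1)
          have : (l : ℕ) ≠ (i : ℕ) + 1 := fun h' => hl2 (Fin.ext h')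
          omega)
      set T : ℝ := 2 * M + ((2 * r : ℕ) : ℝ) * (Cw * Q (j + 1) ^ (k - 1)) with hT
      have hT1 := hout1.trans (add_le_add (hX1 x hx y hy) le_rfl)
      have hT2 : |(fb k a (bt k b 0) (x i) - fb k a (bt k b 0) (y i)) + (fb k a (bt k b 0) (x i') - fb k a (bt k b 0) (y i'))| ≤ T * Q j := by
        refine (hout2.trans (add_le_add (hX2 x hx y hy) le_rfl)).trans ?_
        rw [hT, add_mul]
        apply add_le_add
        · nlinarith
        · have h1 : Q (j + 1) ^ k = Q (j + 1) ^ (k - 1) * Q (j + 1) := by rw [← pow_succ]; congr 1; omega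
          rw [h1]
          calc ((2 * r : ℕ) : ℝ) * (Cw * (Q (j + 1) ^ (k - 1) * Q (j + 1))) = (((2 * r : ℕ) : ℝ) * (Cw * Q (j + 1) ^ (k - 1))) * Q (j + 1) := by ring
            _ ≤ (((2 * r : ℕ) : ℝ) * (Cw * Q (j + 1) ^ (k - 1))) * Q j := mul_le_mul_of_nonneg_left hQQ (by positivity)
      have hxi := hreal x hx i
      have hyi := hreal y hy i
      have hxi' := hreal x hx i'
      have hyi' := hreal y hy i'
      rw [hpar, hj] at hxi hyi
      rw [hi'm, hi'2] at hxi' hyi'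
      push_cast at hxi hyi hxi' hyi'
      have h3 := hp2 (Q j) (x i) (x i') (y i) (y i') T hQj (by linarith [hxi.1]) (by linarith [hxi.2]) (by linarith [hyi.1])
        (by linarith [hyi.2]) (by linarith [hxi'.1]) (by linarith [hxi'.2]) (by linarith [hyi'.1]) (by linarith [hyi'.2]) hT1 hT2
      refine h3.trans ?_
      have h4 : T / Q j ^ (k - 2) ≤ 2 * (M / Q j ^ (k - 2)) + ((2 * r : ℕ) : ℝ) * Cw * 2 ^ (k - 2) := by
        rw [hT, add_div]
        apply add_le_add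
        · rw [mul_div_assoc]
        · rw [div_le_iff₀ (by positivity)]
          calc ((2 * r : ℕ) : ℝ) * (Cw * Q (j + 1) ^ (k - 1)) ≤ ((2 * r : ℕ) : ℝ) * (Cw * (2 ^ (k - 2) * Q j ^ (k - 2))) := by
                apply mul_le_mul_of_nonneg_left _ (by positivity)
                exact mul_le_mul_of_nonneg_left hst1 hCw0.le
            _ = _ := by ring
      have hMQ : 0 ≤ M / Q j ^ (k - 2) := by positivity
      have hW : 0 ≤ ((2 * r : ℕ) : ℝ) * Cw * 2 ^ (k - 2) := by positivity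
      calc A1 * (1 + T / Q j ^ (k - 2)) ≤ A1 * (1 + (2 * (M / Q j ^ (k - 2)) + ((2 * r : ℕ) : ℝ) * Cw * 2 ^ (k - 2))) :=
            mul_le_mul_of_nonneg_left (by linarith) hA1.le
        _ ≤ A1 * ((3 + ((2 * r : ℕ) : ℝ) * Cw * 2 ^ (k - 2)) * (1 + M / Q j ^ (k - 2))) := by
            apply mul_le_mul_of_nonneg_left _ hA1.le
            nlinarith [mul_nonneg hW hMQ]
        _ ≤ K * (1 + M / Q j ^ (k - 2)) := by
            rw [hK, ← mul_assoc]
            apply mul_le_mul_of_nonneg_right _ (by linarith)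
            apply mul_le_mul_of_nonneg_right _ (by linarith)
            linarith
    · -- odd index
      rw [hpar]
      have hexp : k - 2 + 1 = k - 1 := by omega
      rw [hexp]
      generalize hj : (i : ℕ) / 2 = j at *
      have hout2 := one_out (fun l => fb k a (bt k b 0) (x l) - fb k a (bt k b 0) (y l)) i (Cw * Q (j + 1) ^ k) (by positivity) (by
        intro l hl1
        rcases Nat.lt_trichotomy (l : ℕ) (i : ℕ) with h | h | h
        · rw [hi l h, sub_self, abs_zero]; positivity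
        · exact absurd (Fin.ext h) hl1
        · apply htail2 x hx y hy l (j + 1)
          omega)
      have hT2 := hout2.trans (add_le_add (hX2 x hx y hy) le_rfl)
      have hxd := hdist x hx y hy i
      have hxg := hge x hx i
      have hyg := hge y hy i
      rw [hj] at hxd hxg hyg
      have h3 := hs1 (Q j) (x i) (y i) _ hQj hxg (hle x hx i j (by omega)) hyg (hle y hy i j (by omega)) hxd hT2
      refine h3.trans ?_
      have h4 : (2 * M + ((2 * r : ℕ) : ℝ) * (Cw * Q (j + 1) ^ k)) / Q j ^ (k - 1) ≤ 2 * (M / Q j ^ (k - 1)) + ((2 * r : ℕ) : ℝ) * Cw * 2 ^ (k - 2) := by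
        rw [add_div]
        apply add_le_add
        · rw [mul_div_assoc]
        · rw [div_le_iff₀ (by positivity)]
          calc ((2 * r : ℕ) : ℝ) * (Cw * Q (j + 1) ^ k) ≤ ((2 * r : ℕ) : ℝ) * (Cw * (2 ^ (k - 2) * Q j ^ (k - 1))) := by
                apply mul_le_mul_of_nonneg_left _ (by positivity)
                exact mul_le_mul_of_nonneg_left hst2 hCw0.le
            _ = _ := by ring
      have hMQ : 0 ≤ M / Q j ^ (k - 1) := by positivity
      have hW : 0 ≤ ((2 * r : ℕ) : ℝ) * Cw * 2 ^ (k - 2) := by positivity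
      calc A2 * (1 + (2 * M + ((2 * r : ℕ) : ℝ) * (Cw * Q (j + 1) ^ k)) / Q j ^ (k - 1)) ≤
            A2 * (1 + (2 * (M / Q j ^ (k - 1)) + ((2 * r : ℕ) : ℝ) * Cw * 2 ^ (k - 2))) :=
            mul_le_mul_of_nonneg_left (by linarith) hA2.le
        _ ≤ A2 * ((3 + ((2 * r : ℕ) : ℝ) * Cw * 2 ^ (k - 2)) * (1 + M / Q j ^ (k - 1))) := by
            apply mul_le_mul_of_nonneg_left _ hA2.le
            nlinarith [mul_nonneg hW hMQ]
        _ ≤ K * (1 + M / Q j ^ (k - 1)) := by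
            rw [hK, ← mul_assoc]
            apply mul_le_mul_of_nonneg_right _ (by linarith)
            apply mul_le_mul_of_nonneg_right _ (by linarith)
            linarith
  have h1 := tree (2 * r) X L hL0 hmain
  refine h1.trans ?_
  rw [prod_pairs]
  have h2 : ∀ j ∈ range r, (L (2 * j) + 1) * (L (2 * j + 1) + 1) ≤
      (2 * K + 2) ^ 2 * (min M (Q j ^ k) / min M (Q j ^ (k - 2))) := by
    intro j _
    have e1 : 2 * j / 2 = j := by omega
    have e2 : 2 * j % 2 = 0 := by omega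
    have e3 : (2 * j + 1) / 2 = j := by omega
    have e4 : (2 * j + 1) % 2 = 1 := by omega
    have h3 := ratio_le K M (Q j) (k - 2) hK0.le hM (hQ1 j)
    have h4 := ratio_le K M (Q j) (k - 1) hK0.le hM (hQ1 j)
    have e5 : k - 2 + 1 = k - 1 := by omega
    have e6 : k - 1 + 1 = k := by omega
    rw [e5] at h3
    rw [e6] at h4
    have h5 : L (2 * j) + 1 ≤ (2 * K + 2) * (min M (Q j ^ (k - 1)) / min M (Q j ^ (k - 2))) := by
      rw [hL]
      dsimp only
      rw [e1, e2, add_zero]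
      exact h3
    have h6 : L (2 * j + 1) + 1 ≤ (2 * K + 2) * (min M (Q j ^ k) / min M (Q j ^ (k - 1))) := by
      rw [hL]
      dsimp only
      rw [e3, e4, e5]
      exact h4
    have hq := hQ1 j
    have hm1 : 0 < min M (Q j ^ (k - 1)) := lt_min hM0 (by positivity)
    have hm2 : 0 < min M (Q j ^ (k - 2)) := lt_min hM0 (by positivity)
    have hm3 : 0 < min M (Q j ^ k) := lt_min hM0 (by positivity)
    have h7 := hL0 (2 * j)
    have h8 := hL0 (2 * j + 1)
    refine (mul_le_mul h5 h6 (by linarith) (by positivity)).trans (le_of_eq ?_)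
    generalize min M (Q j ^ (k - 1)) = m1 at hm1
    generalize min M (Q j ^ (k - 2)) = m2 at hm2
    generalize min M (Q j ^ k) = m3 at hm3
    field_simp
  refine (Finset.prod_le_prod (fun j _ => by
    have h7 := hL0 (2 * j)
    have h8 := hL0 (2 * j + 1)
    exact mul_nonneg (by linarith) (by linarith)) h2).trans ?_
  rw [Finset.prod_mul_distrib, Finset.prod_const, Finset.card_range]
  have h3 := hpF p M hM
  calc ((2 * K + 2) ^ 2) ^ r * ∏ j ∈ range r, (min M (Q j ^ k) / min M (Q j ^ (k - 2))) ≤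
        ((2 * K + 2) ^ 2) ^ r * (A3 * M * (1 + (∏ j ∈ range r, Q j) ^ 2 / (PS k p 0 : ℝ) ^ k)) :=
        mul_le_mul_of_nonneg_left h3 (by positivity)
    _ = _ := by ring

end Pool.Agent.Y867.WR
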