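import Pool.Agent.Y867.WR.OneC

/-! # One random coefficient: the mean value -/

set_option autoImplicit false

open MeasureTheory Filter Finset
open scoped ENNReal

namespace Pool.Agent.Y867.WR

theorem DB_card (k r p : ℕ) (hk : 3 ≤ k) : ((DB k r p).card : ℝ) = (∏ j ∈ range r, ((PS k p j : ℝ) + 1)) ^ 2 := by
  unfold DB
  rw [Fintype.card_piFinset]
  have h1 : ∀ i : Fin (2 * r), (Icc ((2 * k - 3 + 2 * ((i : ℕ) % 2)) * PS k p ((i : ℕ) / 2))
      ((2 * k - 2 + 2 * ((i : ℕ) % 2)) * PS k p ((i : ℕ) / 2))).card = PS k p ((i : ℕ) / 2) + 1 := by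
    intro i
    rw [Nat.card_Icc]
    have : (2 * k - 2 + 2 * ((i : ℕ) % 2)) * PS k p ((i : ℕ) / 2) =
        (2 * k - 3 + 2 * ((i : ℕ) % 2)) * PS k p ((i : ℕ) / 2) + PS k p ((i : ℕ) / 2) := by
      have h2 : 2 * k - 2 + 2 * ((i : ℕ) % 2) = (2 * k - 3 + 2 * ((i : ℕ) % 2)) + 1 := by omega
      rw [h2]; ring
    omega
  simp only [h1]
  push_cast
  have h2 := Finset.prod_range (fun i => ((PS k p (i / 2) : ℝ) + 1)) (n := 2 * r)
  rw [← h2, prod_pairs, ← Finset.prod_pow]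
  apply Finset.prod_congr rfl
  intro j _
  have e1 : 2 * j / 2 = j := by omega
  have e3 : (2 * j + 1) / 2 = j := by omega
  rw [e1, e3]
  ring

theorem DB_card_ge (k r p : ℕ) (hk : 3 ≤ k) : (∏ j ∈ range r, (PS k p j : ℝ)) ^ 2 ≤ ((DB k r p).card : ℝ) := by
  rw [DB_card k r p hk]
  apply pow_le_pow_left₀ (Finset.prod_nonneg (fun j _ => by positivity))
  apply Finset.prod_le_prod (fun j _ => by positivity)
  intro j _
  linarith

/-- the factor of the energy -/
noncomputable def EF (k r p : ℕ) : ℝ := 1 + (∏ j ∈ range r, (PS k p j : ℝ)) ^ 2 / (PS k p 0 : ℝ) ^ k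

theorem EF_pos (k r p : ℕ) : 0 < EF k r p := by
  unfold EF
  have : 0 ≤ (∏ j ∈ range r, (PS k p j : ℝ)) ^ 2 / (PS k p 0 : ℝ) ^ k := by positivity
  linarith

/-- pairs -/
theorem pairsO (k : ℕ) (hk : 3 ≤ k) (a : ℝ) (ha : 0 < a) (b : Fin k → ℝ) (r : ℕ) (hr : 1 ≤ r) : ∃ A : ℝ, 0 < A ∧
    ∀ (p : ℕ) (M : ℝ), 1 ≤ M → ∀ Y : Finset ((Fin (2 * r) → ℕ) × (Fin (2 * r) → ℕ)), Y ⊆ DB k r p ×ˢ DB k r p →
    (∀ z ∈ Y, |∑ l, ((z.1 l : ℝ) ^ (k - 1) - (z.2 l : ℝ) ^ (k - 1))| ≤ M) →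
    (∀ z ∈ Y, |∑ l, (fb k a (bt k b 0) (z.1 l) - fb k a (bt k b 0) (z.2 l))| ≤ M) →
    (Y.card : ℝ) ≤ A * ((DB k r p).card : ℝ) * M * EF k r p := by
  classical
  obtain ⟨A, hA, h⟩ := cntO k hk a ha b r hr
  refine ⟨A, hA, ?_⟩
  intro p M hM Y hY h1 h2
  have h3 : Y.card = ∑ y ∈ DB k r p, (Y.filter (fun z => z.2 = y)).card := by
    apply Finset.card_eq_sum_card_fiberwise
    intro z hz
    exact (Finset.mem_product.mp (hY hz)).2
  rw [h3]
  push_cast
  have h4 : ∀ y ∈ DB k r p, ((Y.filter (fun z => z.2 = y)).card : ℝ) ≤ A * M * EF k r p := by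
    intro y _
    have h5 : (Y.filter (fun z => z.2 = y)).card = ((Y.filter (fun z => z.2 = y)).image Prod.fst).card := by
      symm
      apply Finset.card_image_of_injOn
      intro c hc d hd hcd
      rw [Finset.mem_coe, Finset.mem_filter] at hc hd
      exact Prod.ext hcd (hc.2.trans hd.2.symm)
    rw [h5]
    apply h p M hM
    · intro x hx
      rw [Finset.mem_image] at hx
      obtain ⟨z, hz, rfl⟩ := hx
      exact (Finset.mem_product.mp (hY (Finset.mem_filter.mp hz).1)).1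
    · intro x hx x' hx'
      rw [Finset.mem_image] at hx hx'
      obtain ⟨z, hz, rfl⟩ := hx
      obtain ⟨z', hz', rfl⟩ := hx'
      rw [Finset.mem_filter] at hz hz'
      have h6 := h1 z hz.1
      have h7 := h1 z' hz'.1
      have h8 : ∑ l, ((z.1 l : ℝ) ^ (k - 1) - (z'.1 l : ℝ) ^ (k - 1)) = ∑ l, ((z.1 l : ℝ) ^ (k - 1) - (z.2 l : ℝ) ^ (k - 1)) -
          ∑ l, ((z'.1 l : ℝ) ^ (k - 1) - (z'.2 l : ℝ) ^ (k - 1)) := by
        rw [← Finset.sum_sub_distrib]
        apply Finset.sum_congr rfl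
        intro l _
        rw [hz.2, hz'.2]
        ring
      rw [h8]
      refine (abs_sub _ _).trans ?_
      linarith
    · intro x hx x' hx'
      rw [Finset.mem_image] at hx hx'
      obtain ⟨z, hz, rfl⟩ := hx
      obtain ⟨z', hz', rfl⟩ := hx'
      rw [Finset.mem_filter] at hz hz'
      have h6 := h2 z hz.1
      have h7 := h2 z' hz'.1
      have h8 : ∑ l, (fb k a (bt k b 0) (z.1 l) - fb k a (bt k b 0) (z'.1 l)) =
          ∑ l, (fb k a (bt k b 0) (z.1 l) - fb k a (bt k b 0) (z.2 l)) -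
          ∑ l, (fb k a (bt k b 0) (z'.1 l) - fb k a (bt k b 0) (z'.2 l)) := by
        rw [← Finset.sum_sub_distrib]
        apply Finset.sum_congr rfl
        intro l _
        rw [hz.2, hz'.2]
        ring
      rw [h8]
      refine (abs_sub _ _).trans ?_
      linarith
  refine (Finset.sum_le_sum h4).trans (le_of_eq ?_)
  rw [Finset.sum_const, nsmul_eq_mul]
  ring

/-- dyadic summation -/
theorem dyad {ι : Type*} (Z : Finset ι) (m : ι → ℕ) (hm1 : ∀ z ∈ Z, 1 ≤ m z) (I : ℕ) (hI : ∀ z ∈ Z, m z < 2 ^ (I + 1))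
    (G : ι → Prop) [DecidablePred G] (V W : ℝ) (hV : 0 ≤ V)
    (hcount : ∀ i : ℕ, (((Z.filter (fun z => Nat.log 2 (m z) = i)).filter G).card : ℝ) ≤ W * 2 ^ (i + 1)) :
    ∑ z ∈ Z, (if G z then V / (m z : ℝ) else 0) ≤ ((I : ℝ) + 1) * (V * W * 2) := by
  classical
  have hlog : ∀ z ∈ Z, Nat.log 2 (m z) ∈ range (I + 1) := by
    intro z hz
    rw [Finset.mem_range]
    exact Nat.log_lt_of_lt_pow (by have := hm1 z hz; omega) (hI z hz)
  rw [← Finset.sum_fiberwise_of_maps_to hlog]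
  have hfib : ∀ i ∈ range (I + 1), ∑ z ∈ Z.filter (fun z => Nat.log 2 (m z) = i),
      (if G z then V / (m z : ℝ) else 0) ≤ V * W * 2 := by
    intro i _
    have h1 : ∀ z ∈ Z.filter (fun z => Nat.log 2 (m z) = i), (if G z then V / (m z : ℝ) else 0) ≤
        (if G z then V / (2 : ℝ) ^ i else 0) := by
      intro z hz
      rw [Finset.mem_filter] at hz
      split_ifs with h
      · apply div_le_div_of_nonneg_left hV (by positivity)
        have h2 : 2 ^ i ≤ m z := by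
          rw [← hz.2]
          apply Nat.pow_log_le_self
          have := hm1 z hz.1
          omega
        exact_mod_cast h2
      · exact le_rfl
    refine (Finset.sum_le_sum h1).trans ?_
    rw [← Finset.sum_filter, Finset.sum_const, nsmul_eq_mul]
    calc (((Z.filter (fun z => Nat.log 2 (m z) = i)).filter G).card : ℝ) * (V / 2 ^ i) ≤ (W * 2 ^ (i + 1)) * (V / 2 ^ i) :=
          mul_le_mul_of_nonneg_right (hcount i) (by positivity)
      _ = V * W * 2 := by
          rw [pow_succ]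
          field_simp
  refine (Finset.sum_le_sum hfib).trans (le_of_eq ?_)
  rw [Finset.sum_const, Finset.card_range, nsmul_eq_mul]
  push_cast
  ring

/-- difference of the sums of `(k-1)`-st powers -/
def DZ (k r : ℕ) (z : (Fin (2 * r) → ℕ) × (Fin (2 * r) → ℕ)) : ℤ := ∑ l, ((z.1 l : ℤ) ^ (k - 1) - (z.2 l : ℤ) ^ (k - 1))

/-- difference of the sums of the fixed part -/
noncomputable def GZ (k : ℕ) (a : ℝ) (b : Fin k → ℝ) (r : ℕ) (z : (Fin (2 * r) → ℕ) × (Fin (2 * r) → ℕ)) : ℝ :=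
  ∑ l, (fb k a (bt k b 0) (z.1 l) - fb k a (bt k b 0) (z.2 l))

theorem DZ_real (k r : ℕ) (z : (Fin (2 * r) → ℕ) × (Fin (2 * r) → ℕ)) :
    ((DZ k r z : ℤ) : ℝ) = ∑ l, ((z.1 l : ℝ) ^ (k - 1) - (z.2 l : ℝ) ^ (k - 1)) := by
  unfold DZ; push_cast; rfl

theorem bt_diff (k : ℕ) (hk : 1 ≤ k) (a : ℝ) (b : Fin k → ℝ) (r : ℕ) (θ : ℝ) (z : (Fin (2 * r) → ℕ) × (Fin (2 * r) → ℕ)) :
    ∑ l, fb k a (bt k b θ) (z.1 l) - ∑ l, fb k a (bt k b θ) (z.2 l) = GZ k a b r z + θ * (DZ k r z : ℝ) := by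
  rw [← Finset.sum_sub_distrib, DZ_real, Finset.mul_sum]
  unfold GZ
  rw [← Finset.sum_add_distrib]
  apply Finset.sum_congr rfl
  intro l _
  rw [bt_fb k hk a b θ, bt_fb k hk a b θ]
  ring

/-- the parameters for which a pair nearly collides -/
def SO (k : ℕ) (a : ℝ) (b : Fin k → ℝ) (r : ℕ) (z : (Fin (2 * r) → ℕ) × (Fin (2 * r) → ℕ)) : Set ℝ :=
  {θ | |GZ k a b r z + θ * (DZ k r z : ℝ)| ≤ 2 * r}

theorem SO_meas (k : ℕ) (a : ℝ) (b : Fin k → ℝ) (r : ℕ) (z : (Fin (2 * r) → ℕ) × (Fin (2 * r) → ℕ)) :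
    MeasurableSet (SO k a b r z) := by
  unfold SO
  apply measurableSet_le _ measurable_const
  fun_prop

/-- weight -/
def mZ (k r : ℕ) (z : (Fin (2 * r) → ℕ) × (Fin (2 * r) → ℕ)) : ℕ := max 1 (DZ k r z).natAbs

theorem mZ_one (k r : ℕ) (z : (Fin (2 * r) → ℕ) × (Fin (2 * r) → ℕ)) : 1 ≤ mZ k r z := le_max_left _ _

theorem mZ_ge (k r : ℕ) (z : (Fin (2 * r) → ℕ) × (Fin (2 * r) → ℕ)) : |(DZ k r z : ℝ)| ≤ mZ k r z := by
  have h2 : |(DZ k r z : ℝ)| = ((DZ k r z).natAbs : ℝ) := by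
    rw [Nat.cast_natAbs, Int.cast_abs]
  rw [h2]
  exact_mod_cast le_max_right _ _

theorem SO_vol (k : ℕ) (a : ℝ) (b : Fin k → ℝ) (r : ℕ) (B : ℝ) (hB : 0 ≤ B) (z : (Fin (2 * r) → ℕ) × (Fin (2 * r) → ℕ)) :
    (volume.restrict (Set.Icc (-B) B)) (SO k a b r z) ≤
      ENNReal.ofReal (if |GZ k a b r z| ≤ (2 * r + B) * mZ k r z then (2 * B + 4 * r) / (mZ k r z : ℝ) else 0) := by
  have hm1 : (1 : ℝ) ≤ mZ k r z := by exact_mod_cast mZ_one k r z
  rw [Measure.restrict_apply (SO_meas k a b r z)]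
  split_ifs with hG
  · by_cases hD : DZ k r z = 0
    · have hm : mZ k r z = 1 := by
        unfold mZ
        rw [hD]
        rfl
      refine (measure_mono Set.inter_subset_right).trans ?_
      rw [Real.volume_Icc, hm]
      apply ENNReal.ofReal_le_ofReal
      have : (0 : ℝ) ≤ 4 * r := by positivity
      rw [Nat.cast_one, div_one]
      linarith
    · have hDr : (DZ k r z : ℝ) ≠ 0 := by exact_mod_cast hD
      have hDa : 0 < |(DZ k r z : ℝ)| := abs_pos.mpr hDr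
      have hm : (mZ k r z : ℝ) = |(DZ k r z : ℝ)| := by
        have h2 : |(DZ k r z : ℝ)| = ((DZ k r z).natAbs : ℝ) := by
          rw [Nat.cast_natAbs, Int.cast_abs]
        rw [h2]
        unfold mZ
        have : 1 ≤ (DZ k r z).natAbs := Int.natAbs_pos.mpr hD
        rw [max_eq_right this]
      have h1 : SO k a b r z ∩ Set.Icc (-B) B ⊆ Metric.closedBall (-(GZ k a b r z) / (DZ k r z : ℝ)) (2 * r / |(DZ k r z : ℝ)|) := by
        rintro t ⟨ht, _⟩
        unfold SO at ht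
        rw [Set.mem_setOf_eq] at ht
        rw [Metric.mem_closedBall, Real.dist_eq, le_div_iff₀ hDa, ← abs_mul]
        have h3 : (t - -(GZ k a b r z) / (DZ k r z : ℝ)) * (DZ k r z : ℝ) = GZ k a b r z + t * (DZ k r z : ℝ) := by
          field_simp
          ring
        rw [h3]
        exact ht
      refine (measure_mono h1).trans ?_
      rw [Real.volume_closedBall, hm]
      apply ENNReal.ofReal_le_ofReal
      rw [← mul_div_assoc]
      apply div_le_div_of_nonneg_right _ hDa.le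
      linarith
  · have h1 : SO k a b r z ∩ Set.Icc (-B) B = ∅ := by
      rw [Set.eq_empty_iff_forall_notMem]
      rintro t ⟨ht, htB⟩
      apply hG
      unfold SO at ht
      rw [Set.mem_setOf_eq] at ht
      have h2 : |t * (DZ k r z : ℝ)| ≤ B * mZ k r z := by
        rw [abs_mul]
        exact mul_le_mul (abs_le.mpr htB) (mZ_ge k r z) (abs_nonneg _) hB
      have h4 : GZ k a b r z = (GZ k a b r z + t * (DZ k r z : ℝ)) - t * (DZ k r z : ℝ) := by ring
      rw [h4]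
      refine (abs_sub _ _).trans ?_
      have hr0 : (0 : ℝ) ≤ 2 * r := by positivity
      nlinarith
    rw [h1, measure_empty]
    exact zero_le

theorem mZ_lt (k r p : ℕ) (hk : 3 ≤ k) (z : (Fin (2 * r) → ℕ) × (Fin (2 * r) → ℕ)) (hz : z ∈ DB k r p ×ˢ DB k r p) :
    mZ k r z ≤ (2 * r + 1) * (2 * k * 2 ^ p) ^ k := by
  rw [Finset.mem_product] at hz
  have h0 : 1 ≤ (2 * k * 2 ^ p) ^ k := Nat.one_le_pow _ _ (by positivity)
  unfold mZ
  apply max_le
  · nlinarith
  · have hx : ∀ w ∈ DB k r p, ∀ l, (w l) ^ (k - 1) ≤ (2 * k * 2 ^ p) ^ k := by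
      intro w hw l
      have h1 := DB_le k r p hk w hw l 0 (by omega)
      rw [PS_zero] at h1
      have h2 : w l ≤ 2 * k * 2 ^ p := by exact_mod_cast h1
      calc (w l) ^ (k - 1) ≤ (2 * k * 2 ^ p) ^ (k - 1) := Nat.pow_le_pow_left h2 _
        _ ≤ _ := Nat.pow_le_pow_right (by positivity) (by omega)
    unfold DZ
    have h2 : |∑ l, ((z.1 l : ℤ) ^ (k - 1) - (z.2 l : ℤ) ^ (k - 1))| ≤ ∑ _l : Fin (2 * r), (((2 * k * 2 ^ p) ^ k : ℕ) : ℤ) := by
      refine (Finset.abs_sum_le_sum_abs _ _).trans (Finset.sum_le_sum (fun l _ => ?_))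
      have h3 : ((z.1 l : ℤ) ^ (k - 1)) ≤ (((2 * k * 2 ^ p) ^ k : ℕ) : ℤ) := by exact_mod_cast hx z.1 hz.1 l
      have h4 : ((z.2 l : ℤ) ^ (k - 1)) ≤ (((2 * k * 2 ^ p) ^ k : ℕ) : ℤ) := by exact_mod_cast hx z.2 hz.2 l
      have h5 : (0 : ℤ) ≤ (z.1 l : ℤ) ^ (k - 1) := by positivity
      have h6 : (0 : ℤ) ≤ (z.2 l : ℤ) ^ (k - 1) := by positivity
      rw [abs_le]; constructor <;> linarith
    rw [Finset.sum_const, Finset.card_univ, Fintype.card_fin, nsmul_eq_mul] at h2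
    have h7 : ((∑ l, ((z.1 l : ℤ) ^ (k - 1) - (z.2 l : ℤ) ^ (k - 1))).natAbs : ℤ) ≤ ((2 * r * (2 * k * 2 ^ p) ^ k : ℕ) : ℤ) := by
      rw [← Int.abs_eq_natAbs]
      push_cast at h2 ⊢
      exact h2
    have h8 := Int.ofNat_le.mp h7
    nlinarith

/-- the sum of the measures -/
theorem meanO (k : ℕ) (hk : 3 ≤ k) (a : ℝ) (ha : 0 < a) (b : Fin k → ℝ) (r : ℕ) (hr : 1 ≤ r) (B : ℝ) (hB : 0 ≤ B) :
    ∃ A : ℝ, 0 < A ∧ ∀ p : ℕ, ∑ z ∈ DB k r p ×ˢ DB k r p,
      (if |GZ k a b r z| ≤ (2 * r + B) * mZ k r z then (2 * B + 4 * r) / (mZ k r z : ℝ) else 0) ≤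
        A * (p + 1) * (((DB k r p).card : ℝ) * EF k r p) := by
  classical
  obtain ⟨A, hA, hpairs⟩ := pairsO k hk a ha b r hr
  set C0 : ℝ := 1 + 2 * r + B with hC0
  have hr0 : (0 : ℝ) ≤ r := by positivity
  have hC01 : 1 ≤ C0 := by rw [hC0]; linarith
  set V : ℝ := 2 * B + 4 * r with hV
  have hV0 : 0 ≤ V := by positivity
  set c1 : ℕ := Nat.log 2 ((2 * r + 1) * (2 * k) ^ k) + 1 with hc1
  refine ⟨(c1 + k + 1) * (V * (A * C0) * 2) + 1, by positivity, fun p => ?_⟩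
  have hE := EF_pos k r p
  have h1 := dyad (DB k r p ×ˢ DB k r p) (mZ k r) (fun z _ => mZ_one k r z) (c1 + k * p) (by
    intro z hz
    refine lt_of_le_of_lt (mZ_lt k r p hk z hz) ?_
    have h3 : (2 * r + 1) * (2 * k) ^ k < 2 ^ c1 := by
      rw [hc1]
      exact Nat.lt_pow_succ_log_self (by norm_num) _
    calc (2 * r + 1) * (2 * k * 2 ^ p) ^ k = ((2 * r + 1) * (2 * k) ^ k) * 2 ^ (k * p) := by
          rw [mul_pow (2 * k), ← pow_mul, mul_comm p k]; ring
      _ ≤ 2 ^ c1 * 2 ^ (k * p) := Nat.mul_le_mul_right _ h3.le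
      _ = 2 ^ (c1 + k * p) := (pow_add 2 c1 (k * p)).symm
      _ < 2 ^ (c1 + k * p + 1) := Nat.pow_lt_pow_right (by norm_num) (by omega))
    (fun z => |GZ k a b r z| ≤ (2 * r + B) * mZ k r z) V (A * C0 * (((DB k r p).card : ℝ) * EF k r p)) hV0 (by
      intro i
      have h3 := hpairs p (C0 * 2 ^ (i + 1)) (by
        have : (1 : ℝ) ≤ 2 ^ (i + 1) := one_le_pow₀ (by norm_num)
        nlinarith) (((DB k r p ×ˢ DB k r p).filter (fun z => Nat.log 2 (mZ k r z) = i)).filter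
          (fun z => |GZ k a b r z| ≤ (2 * r + B) * mZ k r z)) (by
          intro z hz
          rw [Finset.mem_filter, Finset.mem_filter] at hz
          exact hz.1.1) (by
          intro z hz
          rw [Finset.mem_filter, Finset.mem_filter] at hz
          rw [← DZ_real]
          refine (mZ_ge k r z).trans ?_
          have h4 : (mZ k r z : ℝ) ≤ 2 ^ (i + 1) := by
            have : mZ k r z < 2 ^ (i + 1) := by
              rw [← hz.1.2]
              exact Nat.lt_pow_succ_log_self (by norm_num) _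
            exact_mod_cast this.le
          have h5 : (0 : ℝ) < 2 ^ (i + 1) := by positivity
          nlinarith) (by
          intro z hz
          rw [Finset.mem_filter, Finset.mem_filter] at hz
          have h4 : (mZ k r z : ℝ) ≤ 2 ^ (i + 1) := by
            have : mZ k r z < 2 ^ (i + 1) := by
              rw [← hz.1.2]
              exact Nat.lt_pow_succ_log_self (by norm_num) _
            exact_mod_cast this.le
          have h5 : (0 : ℝ) < 2 ^ (i + 1) := by positivity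
          have h6 := hz.2
          unfold GZ at h6
          refine h6.trans ?_
          calc (2 * r + B) * (mZ k r z : ℝ) ≤ (2 * r + B) * 2 ^ (i + 1) := mul_le_mul_of_nonneg_left h4 (by positivity)
            _ ≤ C0 * 2 ^ (i + 1) := mul_le_mul_of_nonneg_right (by rw [hC0]; linarith) h5.le)
      refine h3.trans (le_of_eq ?_)
      ring)
  refine h1.trans ?_
  have h7 : (((c1 + k * p : ℕ) : ℝ) + 1) ≤ (c1 + k + 1) * (p + 1) := by
    push_cast
    have h8 : (0 : ℝ) ≤ c1 := by positivity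
    have h9 : (0 : ℝ) ≤ k := by positivity
    have h10 : (0 : ℝ) ≤ p := by positivity
    nlinarith [mul_nonneg h8 h10, mul_nonneg h9 h10]
  set U : ℝ := ((DB k r p).card : ℝ) * EF k r p with hU
  have hU0 : 0 ≤ U := by positivity
  have h11 : 0 ≤ V * (A * C0 * U) * 2 := by positivity
  calc (((c1 + k * p : ℕ) : ℝ) + 1) * (V * (A * C0 * U) * 2) ≤ ((c1 + k + 1) * (p + 1)) * (V * (A * C0 * U) * 2) :=
        mul_le_mul_of_nonneg_right h7 h11
    _ ≤ _ := by
      have h12 : 0 ≤ ((p : ℝ) + 1) * U := by positivity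
      nlinarith

/-- number of near collisions -/
noncomputable def NCO (k : ℕ) (a : ℝ) (b : Fin k → ℝ) (r : ℕ) (p : ℕ) (θ : ℝ) : ℕ :=
  ((DB k r p ×ˢ DB k r p).filter (fun z => |∑ l, fb k a (bt k b θ) (z.1 l) - ∑ l, fb k a (bt k b θ) (z.2 l)| ≤ 2 * r)).card

/-- almost everywhere on all intervals -/
theorem ae_R (φ : ℝ → Prop) (h : ∀ B : ℕ, ∀ᵐ t ∂(volume.restrict (Set.Icc (-(B : ℝ)) B)), φ t) : ∀ᵐ t : ℝ, φ t := by
  have h1 : ∀ᵐ t : ℝ, ∀ B : ℕ, t ∈ Set.Icc (-(B : ℝ)) B → φ t := by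
    rw [ae_all_iff]
    intro B
    exact (ae_restrict_iff' measurableSet_Icc).mp (h B)
  filter_upwards [h1] with t ht
  obtain ⟨B, hB⟩ := exists_nat_ge |t|
  exact ht B (abs_le.mp hB)

/-- for almost all values of the parameter there are few near collisions -/
theorem energyO_ae (k : ℕ) (hk : 3 ≤ k) (a : ℝ) (ha : 0 < a) (b : Fin k → ℝ) (r : ℕ) (hr : 1 ≤ r) : ∀ᵐ θ : ℝ, ∀ᶠ p : ℕ in atTop,
    (NCO k a b r p θ : ℝ) ≤ ((p : ℝ) + 1) ^ 3 * (((DB k r p).card : ℝ) * EF k r p) := by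
  apply ae_R
  intro B
  obtain ⟨A, hA, hmean⟩ := meanO k hk a ha b r hr B (by positivity)
  have hsum : Summable (fun p : ℕ => A / ((p : ℝ) + 1) ^ 2) := by
    have h1 : Summable (fun p : ℕ => 1 / ((p : ℝ) + 1) ^ 2) := by
      have h2 := (summable_nat_add_iff 1).mpr (Real.summable_one_div_nat_pow.mpr (show 1 < 2 by norm_num))
      refine h2.congr (fun p => ?_)
      push_cast; rfl
    refine (h1.mul_left A).congr (fun p => ?_)
    ring
  have hcard : ∀ p, (0 : ℝ) < ((DB k r p).card : ℝ) := by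
    intro p
    rw [DB_card k r p hk]
    have : 0 < ∏ j ∈ range r, ((PS k p j : ℝ) + 1) := Finset.prod_pos (fun j _ => by positivity)
    positivity
  have h1 := bc (volume.restrict (Set.Icc (-(B : ℝ)) B))
    (fun p => {θ | ((p : ℝ) + 1) ^ 3 * (((DB k r p).card : ℝ) * EF k r p) ≤ ∑ z ∈ DB k r p ×ˢ DB k r p,
      (SO k a b r z).indicator (fun _ => (1 : ℝ)) θ}) _ hsum (by
      intro p
      have hc := hcard p
      have hE := EF_pos k r p
      have h2 := markov (volume.restrict (Set.Icc (-(B : ℝ)) B)) (DB k r p ×ˢ DB k r p) (SO k a b r) (SO_meas k a b r)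
        (((p : ℝ) + 1) ^ 3 * (((DB k r p).card : ℝ) * EF k r p)) (by positivity)
        (A * (p + 1) * (((DB k r p).card : ℝ) * EF k r p)) _
        (fun z _ => SO_vol k a b r B (by positivity) z) (fun z _ => by
          split_ifs
          · have := mZ_one k r z
            positivity
          · exact le_rfl) (hmean p)
      refine h2.trans (le_of_eq ?_)
      congr 1
      have h3 : (p : ℝ) + 1 ≠ 0 := by positivity
      have hc' := hc.ne'
      have hE' := hE.ne'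
      field_simp)
  filter_upwards [h1] with θ hθ
  filter_upwards [hθ] with p hp
  rw [not_le] at hp
  refine le_trans (le_of_eq ?_) hp.le
  unfold NCO
  rw [Finset.card_filter]
  push_cast
  apply Finset.sum_congr rfl
  intro z _
  rw [bt_diff k (by omega)]
  by_cases hz : θ ∈ SO k a b r z
  · rw [Set.indicator_of_mem hz]
    exact if_pos hz
  · rw [Set.indicator_of_notMem hz]
    exact if_neg hz

end Pool.Agent.Y867.WR
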