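import Pool.Agent.Y867.WR.OneD
import Pool.Agent.Y867.WR.MinG

/-! # One random coefficient: exponential sums and the conclusion -/

set_option autoImplicit false

open MeasureTheory Filter Finset
open scoped ENNReal

namespace Pool.Agent.Y867.WR

open Pool.Agent.W928.MW (e e_add e_norm e_cont e_lip)

/-- second moment in one coefficient, with a separated sequence of frequencies -/
theorem smh (X : Finset ℤ) (h : ℤ → ℝ) (hh : ∀ x ∈ X, ∀ y ∈ X, |(x : ℝ) - y| ≤ |h x - h y|) (g : ℤ → ℝ) (β B : ℝ) (hβ : β ≠ 0) (hB : 0 ≤ B) :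
    ∫ t in (-B)..B, ‖∑ x ∈ X, e (β * (t * h x + g x))‖ ^ 2 ≤
      ∑ x ∈ X, ∑ y ∈ X, (if x = y then 2 * B else 1 / |β * ((x : ℝ) - y)|) := by
  have h0 : 0 ≤ ∫ t in (-B)..B, ‖∑ x ∈ X, e (β * (t * h x + g x))‖ ^ 2 :=
    intervalIntegral.integral_nonneg (by linarith) (fun t _ => by positivity)
  have h1 : ∫ t in (-B)..B, ‖∑ x ∈ X, e (β * (t * h x + g x))‖ ^ 2 =
      ‖∫ t in (-B)..B, ((‖∑ x ∈ X, e (β * (t * h x + g x))‖ ^ 2 : ℝ) : ℂ)‖ := by
    rw [intervalIntegral.integral_ofReal, Complex.norm_real, Real.norm_of_nonneg h0]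
  have h2 : ∀ t : ℝ, ((‖∑ x ∈ X, e (β * (t * h x + g x))‖ ^ 2 : ℝ) : ℂ) =
      ∑ x ∈ X, ∑ y ∈ X, e (β * (g x - g y)) * e ((β * (h x - h y)) * t) := by
    intro t
    rw [sq_e]
    apply Finset.sum_congr rfl
    intro x _
    apply Finset.sum_congr rfl
    intro y _
    rw [← e_add]
    congr 1
    ring
  rw [h1]
  simp_rw [h2]
  have hcont : ∀ x y : ℤ, Continuous (fun t : ℝ => e (β * (g x - g y)) * e ((β * (h x - h y)) * t)) := by
    intro x y
    exact continuous_const.mul (e_cont.comp (by fun_prop))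
  rw [intervalIntegral.integral_finsetSum (fun x _ => (continuous_finsetSum X (fun y _ => hcont x y)).intervalIntegrable _ _)]
  refine (norm_sum_le _ _).trans (Finset.sum_le_sum (fun x hx => ?_))
  rw [intervalIntegral.integral_finsetSum (fun y _ => (hcont x y).intervalIntegrable _ _)]
  refine (norm_sum_le _ _).trans (Finset.sum_le_sum (fun y hy => ?_))
  rw [intervalIntegral.integral_const_mul, norm_mul, e_norm, one_mul]
  split_ifs with hxy
  · have h3 : ∀ t : ℝ, e ((β * (h x - h y)) * t) = 1 := by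
      intro t
      rw [hxy, sub_self, mul_zero, zero_mul]
      unfold Pool.Agent.W928.MW.e
      simp
    simp_rw [h3]
    rw [intervalIntegral.integral_const, norm_smul, norm_one, mul_one, Real.norm_eq_abs, abs_of_nonneg (by linarith)]
    linarith
  · have hxy' : 0 < |(x : ℝ) - y| := by
      rw [abs_pos, sub_ne_zero]
      exact_mod_cast hxy
    have h4 := hh x hx y hy
    have h5 : h x - h y ≠ 0 := by
      rw [← abs_pos]
      linarith
    refine (e_int_le _ B (mul_ne_zero hβ h5)).trans ?_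
    have hb : 0 < |β| := abs_pos.mpr hβ
    rw [abs_mul, abs_mul]
    apply div_le_div_of_nonneg_left (by norm_num) (by positivity)
    exact mul_le_mul_of_nonneg_left h4 hb.le

/-- measure of the slice of large values -/
theorem sliceh (u v : ℤ) (N : ℕ) (hN : 1 ≤ N) (huv : v - u < N) (h : ℤ → ℝ)
    (hh : ∀ x ∈ Icc u v, ∀ y ∈ Icc u v, |(x : ℝ) - y| ≤ |h x - h y|) (g : ℤ → ℝ) (β B l : ℝ) (hβ : β ≠ 0) (hB : 0 ≤ B)
    (hl : 0 < l) : (volume.restrict (Set.Icc (-B) B)) {t : ℝ | l ≤ ‖∑ x ∈ Icc u v, e (β * (t * h x + g x))‖} ≤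
      ENNReal.ofReal (N * (2 * B + 2 * (1 + Real.log N) / |β|) / l ^ 2) := by
  have hcont : Continuous (fun t : ℝ => ‖∑ x ∈ Icc u v, e (β * (t * h x + g x))‖ ^ 2) := by
    apply Continuous.pow
    apply Continuous.norm
    apply continuous_finsetSum
    intro x _
    exact e_cont.comp (by fun_prop)
  have hb : 0 < |β| := abs_pos.mpr hβ
  have hsm : ∫ t in (-B)..B, ‖∑ x ∈ Icc u v, e (β * (t * h x + g x))‖ ^ 2 ≤ N * (2 * B + 2 * (1 + Real.log N) / |β|) := by
    refine (smh (Icc u v) h hh g β B hβ hB).trans ?_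
    have h1 : ∀ x ∈ Icc u v, ∑ y ∈ Icc u v, (if x = y then 2 * B else 1 / |β * ((x : ℝ) - y)|) ≤
        2 * B + 2 * (1 + Real.log N) / |β| := by
      intro x hx
      rw [← Finset.sum_filter_add_sum_filter_not (Icc u v) (fun y => x = y)]
      apply add_le_add
      · rw [Finset.sum_congr rfl (fun y hy => if_pos (Finset.mem_filter.mp hy).2), Finset.filter_eq, if_pos hx,
          Finset.sum_singleton]
      · have h2 : ∀ y ∈ (Icc u v).filter (fun y => ¬ x = y), (if x = y then 2 * B else 1 / |β * ((x : ℝ) - y)|) =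
            1 / |β| * (1 / |(x : ℝ) - y|) := by
          intro y hy
          rw [if_neg (Finset.mem_filter.mp hy).2, abs_mul, one_div_mul_one_div]
        rw [Finset.sum_congr rfl h2, ← Finset.mul_sum]
        calc 1 / |β| * ∑ y ∈ (Icc u v).filter (fun y => ¬ x = y), 1 / |(x : ℝ) - y| ≤ 1 / |β| * (2 * (1 + Real.log N)) :=
              mul_le_mul_of_nonneg_left (harm u v N hN huv x hx) (by positivity)
          _ = _ := by ring
    refine (Finset.sum_le_sum h1).trans ?_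
    rw [Finset.sum_const, nsmul_eq_mul]
    apply mul_le_mul_of_nonneg_right
    · rw [Int.card_Icc]
      have : (v + 1 - u).toNat ≤ N := by omega
      exact_mod_cast this
    · have : 0 ≤ Real.log N := Real.log_nonneg (by exact_mod_cast hN)
      positivity
  have h1 := mul_meas_ge_le_integral_of_nonneg (μ := volume.restrict (Set.Ioc (-B) B))
    (f := fun t : ℝ => ‖∑ x ∈ Icc u v, e (β * (t * h x + g x))‖ ^ 2)
    (Filter.Eventually.of_forall (fun t => by positivity)) (hcont.integrableOn_Ioc) (l ^ 2)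
  rw [← intervalIntegral.integral_of_le (by linarith)] at h1
  have h2 := h1.trans hsm
  have h3 : (volume.restrict (Set.Ioc (-B) B)) {t : ℝ | l ^ 2 ≤ ‖∑ x ∈ Icc u v, e (β * (t * h x + g x))‖ ^ 2} ≤
      ENNReal.ofReal (N * (2 * B + 2 * (1 + Real.log N) / |β|) / l ^ 2) := by
    rw [ENNReal.le_ofReal_iff_toReal_le (measure_ne_top _ _)]
    · rw [le_div_iff₀ (by positivity), mul_comm]
      exact h2
    · have : 0 ≤ Real.log N := Real.log_nonneg (by exact_mod_cast hN)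
      positivity
  refine le_trans ?_ h3
  rw [restrict_Ioc_eq_restrict_Icc]
  apply measure_mono
  intro t ht
  rw [Set.mem_setOf_eq] at ht ⊢
  exact pow_le_pow_left₀ hl.le ht 2

/-- powers of positive integers are at least as separated as the integers -/
theorem pow_sep (m : ℕ) (hm : 1 ≤ m) (x y : ℤ) (hx : 1 ≤ x) (hy : 1 ≤ y) : |(x : ℝ) - y| ≤ |(x : ℝ) ^ m - (y : ℝ) ^ m| := by
  have hx' : (1 : ℝ) ≤ x := by exact_mod_cast hx
  have hy' : (1 : ℝ) ≤ y := by exact_mod_cast hy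
  have h1 := single1 m hm 1 x y _ le_rfl hx' hy' (le_refl |(x : ℝ) ^ m - (y : ℝ) ^ m|)
  rwa [one_pow, div_one] at h1

/-- the second moment bound for the one parameter family -/
theorem VBd_one (k : ℕ) (hk : 2 ≤ k) (a : ℝ) (b : Fin k → ℝ) (B : ℝ) (hB : 0 ≤ B) :
    VBd (volume.restrict (Set.Icc (-B) B)) k a (bt k b) B 1 := by
  intro β hβ u v N hu hN huv l hl
  have h1 := sliceh u v N hN huv (fun x => (x : ℝ) ^ (k - 1)) (by
    intro x hx y hy
    rw [Finset.mem_Icc] at hx hy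
    exact pow_sep (k - 1) (by omega) x y (by omega) (by omega)) (fun x => fb k a (bt k b 0) x) β B l hβ hB hl
  rw [mul_one]
  refine le_trans (measure_mono ?_) h1
  intro t ht
  unfold LG at ht
  rw [Set.mem_setOf_eq] at ht ⊢
  refine ht.trans (le_of_eq ?_)
  congr 1
  apply Finset.sum_congr rfl
  intro x _
  rw [bt_fb k (by omega) a b t]
  congr 1
  ring

/-- the exponential sums are good for almost all values of the parameter -/
theorem good2_one (k : ℕ) (hk : 2 ≤ k) (a : ℝ) (ha : 0 < a) (b : Fin k → ℝ) : ∀ᵐ θ : ℝ, Good2 k a (bt k b θ) := by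
  apply ae_R
  intro B
  set B1 : ℝ := ∑ i, |b i| with hB1
  have hB10 : 0 ≤ B1 := Finset.sum_nonneg (fun i _ => abs_nonneg _)
  have hbB : ∀ i, |b i| ≤ B1 := fun i => Finset.single_le_sum (f := fun i => |b i|) (fun i _ => abs_nonneg _) (Finset.mem_univ i)
  apply good2_gen (volume.restrict (Set.Icc (-(B : ℝ)) B)) k hk a ha (bt k b) B 1 (by positivity) zero_le_one
    (VBd_one k hk a b B (by positivity)) (B + B1) (by positivity)
  filter_upwards [ae_restrict_mem measurableSet_Icc] with θ hθ i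
  apply bt_abs k b (B + B1) θ (fun i => (hbB i).trans (by
    have : (0 : ℝ) ≤ B := by positivity
    linarith)) _ i
  have := abs_le.mpr hθ
  linarith

/-- size of the product of the scales -/
theorem prodPS_ge (k r p : ℕ) (hk : 3 ≤ k) (hr : (k : ℝ) ≤ 2 * ((k : ℝ) - 1) * (1 - (((k : ℝ) - 2) / ((k : ℝ) - 1)) ^ r)) :
    ((2 : ℝ) ^ p) ^ k ≤ 4 ^ r * (∏ j ∈ range r, (PS k p j : ℝ)) ^ 2 := by
  have hk3 : (3 : ℝ) ≤ k := by exact_mod_cast hk
  set μ : ℝ := ((k : ℝ) - 2) / ((k : ℝ) - 1) with hμ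
  have hμ0 : 0 ≤ μ := div_nonneg (by linarith) (by linarith)
  have hμ1 : 1 - μ = 1 / ((k : ℝ) - 1) := by
    have : (k : ℝ) - 1 ≠ 0 := by linarith
    rw [hμ]; field_simp; ring
  have hgeo : ∀ n : ℕ, ∑ j ∈ range n, μ ^ j = ((k : ℝ) - 1) * (1 - μ ^ n) := by
    intro n
    have hk1 : (k : ℝ) - 1 ≠ 0 := by linarith
    have h1 : (∑ j ∈ range n, μ ^ j) * (1 - μ) = 1 - μ ^ n := by
      have := geom_sum_mul_neg μ n
      exact this
    rw [hμ1] at h1
    field_simp at h1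
    linarith
  have h1 : ∀ j ∈ range r, (2 : ℝ) ^ ((p : ℝ) * μ ^ j) ≤ 2 * (PS k p j : ℝ) := by
    intro j _
    unfold PS
    push_cast
    have h2 : (p : ℝ) * μ ^ j < sc k p j + 1 := by
      unfold sc
      exact Nat.lt_floor_add_one _
    have h3 : (2 : ℝ) * 2 ^ sc k p j = (2 : ℝ) ^ ((sc k p j : ℝ) + 1) := by
      rw [Real.rpow_add (by norm_num), Real.rpow_one, Real.rpow_natCast]; ring
    rw [h3]
    exact Real.rpow_le_rpow_of_exponent_le (by norm_num) h2.le
  have h2 := Finset.prod_le_prod (fun j _ => by positivity) h1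
  rw [Finset.prod_mul_distrib, Finset.prod_const, Finset.card_range] at h2
  have h3 : ∏ j ∈ range r, (2 : ℝ) ^ ((p : ℝ) * μ ^ j) = (2 : ℝ) ^ ((p : ℝ) * ∑ j ∈ range r, μ ^ j) := by
    rw [Finset.mul_sum, Real.rpow_sum_of_pos (by norm_num)]
  rw [h3, hgeo] at h2
  have h4 : ((2 : ℝ) ^ p) ^ k ≤ ((2 : ℝ) ^ ((p : ℝ) * (((k : ℝ) - 1) * (1 - μ ^ r)))) ^ 2 := by
    rw [← Real.rpow_natCast ((2 : ℝ) ^ ((p : ℝ) * (((k : ℝ) - 1) * (1 - μ ^ r)))) 2, ← Real.rpow_mul (by norm_num),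
      ← pow_mul, ← Real.rpow_natCast]
    apply Real.rpow_le_rpow_of_exponent_le (by norm_num)
    push_cast
    have h5 : (0 : ℝ) ≤ p := by positivity
    nlinarith
  have h5 : 0 ≤ ∏ j ∈ range r, (PS k p j : ℝ) := Finset.prod_nonneg (fun j _ => by positivity)
  calc ((2 : ℝ) ^ p) ^ k ≤ ((2 : ℝ) ^ ((p : ℝ) * (((k : ℝ) - 1) * (1 - μ ^ r)))) ^ 2 := h4
    _ ≤ (2 ^ r * ∏ j ∈ range r, (PS k p j : ℝ)) ^ 2 := pow_le_pow_left₀ (by positivity) h2 2
    _ = _ := by
      rw [mul_pow, ← pow_mul, mul_comm r 2, pow_mul]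
      norm_num

/-- sums of integer parts over the box -/
noncomputable def uo (k : ℕ) (a : ℝ) (b : Fin k → ℝ) (r : ℕ) (x : Fin (2 * r) → ℕ) : ℤ := ∑ l, ⌊fb k a b (x l)⌋

theorem uo_le (k : ℕ) (hk : 3 ≤ k) (a : ℝ) (ha : 0 < a) (b : Fin k → ℝ) (B : ℝ) (hB : 0 ≤ B) (hb : ∀ i, |b i| ≤ B) (r p : ℕ)
    (x : Fin (2 * r) → ℕ) (hx : x ∈ DB k r p) :
    |(uo k a b r x : ℝ)| ≤ (2 * r * ((a + k * B) * (2 * k) ^ k + 1)) * ((2 : ℝ) ^ p) ^ k := by
  set X : ℝ := (2 : ℝ) ^ p with hX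
  have hX1 : 1 ≤ X := one_le_pow₀ (by norm_num)
  unfold uo
  push_cast
  refine (Finset.abs_sum_le_sum_abs _ _).trans ?_
  have h1 : ∀ l ∈ (univ : Finset (Fin (2 * r))), |(⌊fb k a b (x l)⌋ : ℝ)| ≤ ((a + k * B) * (2 * k) ^ k + 1) * X ^ k := by
    intro l _
    have h4 : (1 : ℝ) ≤ x l := by
      have h5 := DB_ge k r p hk x hx l
      have h6 : (1 : ℝ) ≤ PS k p ((l : ℕ) / 2) := by exact_mod_cast PS_pos k p _
      linarith
    have h5 : (x l : ℝ) ≤ 2 * k * X := by
      have h6 := DB_le k r p hk x hx l 0 (by omega)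
      rw [PS_zero] at h6
      push_cast at h6
      exact h6
    have h6 := fb_le k a ha b B hb (x l) (2 * k * X) h4 h5
    rw [mul_pow] at h6
    have h7 : |(⌊fb k a b (x l)⌋ : ℝ)| ≤ |fb k a b (x l)| + 1 := by
      have h8 := Int.floor_le (fb k a b (x l))
      have h9 := Int.lt_floor_add_one (fb k a b (x l))
      rw [abs_le]
      have h10 := neg_abs_le (fb k a b (x l))
      have h11 := le_abs_self (fb k a b (x l))
      constructor <;> linarith
    have h8 : 1 ≤ X ^ k := one_le_pow₀ hX1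
    calc |(⌊fb k a b (x l)⌋ : ℝ)| ≤ |fb k a b (x l)| + 1 := h7
      _ ≤ (a + k * B) * ((2 * k) ^ k * X ^ k) + X ^ k := add_le_add h6 h8
      _ = _ := by ring
  refine (Finset.sum_le_sum h1).trans (le_of_eq ?_)
  rw [Finset.sum_const, Finset.card_univ, Fintype.card_fin, nsmul_eq_mul]
  push_cast
  ring

/-- the energy is controlled by the number of near collisions -/
theorem energyO_le (k : ℕ) (a : ℝ) (b : Fin k → ℝ) (r p : ℕ) (θ : ℝ) :
    (((DB k r p ×ˢ DB k r p).filter (fun z => uo k a (bt k b θ) r z.1 = uo k a (bt k b θ) r z.2)).card : ℝ) ≤ NCO k a b r p θ := by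
  unfold NCO
  have h1 : (DB k r p ×ˢ DB k r p).filter (fun z => uo k a (bt k b θ) r z.1 = uo k a (bt k b θ) r z.2) ⊆
      (DB k r p ×ˢ DB k r p).filter (fun z => |∑ l, fb k a (bt k b θ) (z.1 l) - ∑ l, fb k a (bt k b θ) (z.2 l)| ≤ 2 * r) := by
    intro z hz
    rw [Finset.mem_filter] at hz ⊢
    refine ⟨hz.1, ?_⟩
    have h2 : ∀ x : Fin (2 * r) → ℕ, ∑ l, fb k a (bt k b θ) (x l) = (uo k a (bt k b θ) r x : ℝ) + ∑ l, Int.fract (fb k a (bt k b θ) (x l)) := by
      intro x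
      unfold uo
      push_cast
      rw [← Finset.sum_add_distrib]
      apply Finset.sum_congr rfl
      intro l _
      rw [Int.floor_add_fract]
    have h3 : ∀ x : Fin (2 * r) → ℕ, 0 ≤ ∑ l, Int.fract (fb k a (bt k b θ) (x l)) :=
      fun x => Finset.sum_nonneg (fun l _ => Int.fract_nonneg _)
    have h4 : ∀ x : Fin (2 * r) → ℕ, ∑ l, Int.fract (fb k a (bt k b θ) (x l)) ≤ 2 * r := by
      intro x
      calc ∑ l, Int.fract (fb k a (bt k b θ) (x l)) ≤ ∑ _l : Fin (2 * r), (1 : ℝ) :=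
            Finset.sum_le_sum (fun l _ => (Int.fract_lt_one _).le)
        _ = 2 * r := by simp
    rw [h2, h2, hz.2, abs_le]
    have := h3 z.1
    have := h3 z.2
    have := h4 z.1
    have := h4 z.2
    constructor <;> linarith
  exact_mod_cast Finset.card_le_card h1

end Pool.Agent.Y867.WR
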