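import Pool.Agent.Y867.WR.OneE

/-! # One random coefficient: the conclusion -/

set_option autoImplicit false

open MeasureTheory Filter Finset

namespace Pool.Agent.Y867.WR

open Pool.Agent.W928.MW (e e_add e_norm e_cont e_lip)

/-- all the scales tend to infinity -/
theorem PS_ev (k : ℕ) (hk : 3 ≤ k) (j : ℕ) (M : ℝ) : ∀ᶠ p : ℕ in atTop, M ≤ (PS k p j : ℝ) := by
  have hk3 : (3 : ℝ) ≤ k := by exact_mod_cast hk
  have hμ0 : 0 < (((k : ℝ) - 2) / ((k : ℝ) - 1)) ^ j := by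
    have : 0 < ((k : ℝ) - 2) / ((k : ℝ) - 1) := div_pos (by linarith) (by linarith)
    positivity
  have h1 : Tendsto (fun p : ℕ => sc k p j) atTop atTop := by
    unfold sc
    exact tendsto_nat_floor_atTop.comp (tendsto_natCast_atTop_atTop.atTop_mul_const hμ0)
  filter_upwards [h1.eventually_ge_atTop ⌈M⌉₊] with p hp
  have h2 : sc k p j < 2 ^ sc k p j := Nat.lt_two_pow_self
  have h3 : M ≤ (⌈M⌉₊ : ℝ) := Nat.le_ceil _
  unfold PS
  have h4 : (⌈M⌉₊ : ℝ) ≤ ((2 ^ sc k p j : ℕ) : ℝ) := by exact_mod_cast (hp.trans h2.le)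
  linarith

/-- the values are positive from some point on -/
theorem fl_pos (k : ℕ) (hk : 1 ≤ k) (a : ℝ) (b : Fin k → ℝ) (B : ℝ) (hB0 : 0 ≤ B) (hbB : ∀ i, |b i| ≤ B) (t : ℝ)
    (ht : 1 ≤ t) (hp : k * B + 1 ≤ a * t) : 0 < ⌊fb k a b t⌋ := by
  have h4 : |∑ j : Fin k, b j * t ^ (j : ℕ)| ≤ k * B * t ^ (k - 1) := by
    refine (Finset.abs_sum_le_sum_abs _ _).trans ?_
    have h8 : ∀ j ∈ (univ : Finset (Fin k)), |b j * t ^ (j : ℕ)| ≤ B * t ^ (k - 1) := by
      intro j _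
      rw [abs_mul, abs_of_nonneg (show 0 ≤ t ^ (j : ℕ) by positivity)]
      apply mul_le_mul (hbB j) _ (by positivity) hB0
      exact pow_le_pow_right₀ ht (by have := j.2; omega)
    refine (Finset.sum_le_sum h8).trans (le_of_eq ?_)
    rw [Finset.sum_const, Finset.card_univ, Fintype.card_fin, nsmul_eq_mul]
    ring
  have h5 : 1 ≤ t ^ (k - 1) := one_le_pow₀ ht
  have h6 : t ^ k = t ^ (k - 1) * t := by
    rw [← pow_succ]; congr 1; omega
  have h7 : (1 : ℝ) ≤ fb k a b t := by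
    unfold fb
    have h8 := (abs_le.mp h4).1
    have h10 : 1 * (t ^ (k - 1)) ≤ (a * t - k * B) * t ^ (k - 1) := mul_le_mul_of_nonneg_right (by linarith) (by positivity)
    rw [h6]
    nlinarith
  have h8 : (1 : ℤ) ≤ ⌊fb k a b t⌋ := by
    rw [Int.le_floor]
    exact_mod_cast h7
  omega

/-- the energy is small enough for the circle method -/
theorem energyO_ev (k : ℕ) (hk : 3 ≤ k) (r : ℕ)
    (hr : (k : ℝ) ≤ 2 * ((k : ℝ) - 1) * (1 - (((k : ℝ) - 2) / ((k : ℝ) - 1)) ^ r)) (E : ℕ → ℝ) (hE0 : ∀ p, 0 ≤ E p)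
    (hE : ∀ᶠ p : ℕ in atTop, E p ≤ ((p : ℝ) + 1) ^ 3 * (((DB k r p).card : ℝ) * EF k r p)) (C : ℝ) :
    ∀ᶠ p : ℕ in atTop, C * ((2 : ℝ) ^ p) ^ (1 - sg k) * E p ≤ ((DB k r p).card : ℝ) ^ 2 / ((2 : ℝ) ^ p) ^ (k - 1) := by
  have hs0 : 0 < sg k := sg_pos k
  filter_upwards [hE, ev_poly (|C| * (4 ^ r + 1)) (sg k) hs0 3] with p hp1 hp2
  set X : ℝ := (2 : ℝ) ^ p with hX
  have hX1 : 1 ≤ X := one_le_pow₀ (by norm_num)
  have hX0 : 0 < X := by linarith
  have h1 := prodPS_ge k r p hk hr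
  have h2 := DB_card_ge k r p hk
  set W : ℝ := ∏ j ∈ range r, (PS k p j : ℝ) with hW
  set D : ℝ := ((DB k r p).card : ℝ) with hD
  rw [← hX] at h1
  have hEF : EF k r p ≤ (4 ^ r + 1) * D / X ^ k := by
    unfold EF
    rw [← hW, PS_zero]
    push_cast
    rw [← hX, le_div_iff₀ (by positivity)]
    have h3 : (1 + W ^ 2 / X ^ k) * X ^ k = X ^ k + W ^ 2 := by
      have : X ^ k ≠ 0 := by positivity
      field_simp
    rw [h3]
    have h4 : (0 : ℝ) < 4 ^ r := by positivity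
    nlinarith [mul_le_mul_of_nonneg_left h2 h4.le]
  have hD0 : 0 ≤ D := by positivity
  rw [le_div_iff₀ (by positivity)]
  have hpos : 0 ≤ X ^ (1 - sg k) := by positivity
  have hXk : X ^ k = X ^ (k - 1) * X := by
    rw [← pow_succ]; congr 1; omega
  calc C * X ^ (1 - sg k) * E p * X ^ (k - 1)
      ≤ |C| * X ^ (1 - sg k) * (((p : ℝ) + 1) ^ 3 * (D * ((4 ^ r + 1) * D / X ^ k))) * X ^ (k - 1) := by
        apply mul_le_mul_of_nonneg_right _ (by positivity)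
        apply mul_le_mul _ _ (hE0 p) (by positivity)
        · exact mul_le_mul_of_nonneg_right (le_abs_self C) hpos
        · refine hp1.trans ?_
          apply mul_le_mul_of_nonneg_left _ (by positivity)
          exact mul_le_mul_of_nonneg_left hEF hD0
    _ = (|C| * (4 ^ r + 1) * ((p : ℝ) + 1) ^ 3) * (X ^ (1 - sg k) * D ^ 2 / X) := by
        rw [hXk]
        field_simp
    _ ≤ X ^ (sg k) * (X ^ (1 - sg k) * D ^ 2 / X) := mul_le_mul_of_nonneg_right hp2 (by positivity)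
    _ = D ^ 2 := by
        have h5 : X ^ (sg k) * X ^ (1 - sg k) = X := by
          rw [← Real.rpow_add hX0]
          have : sg k + (1 - sg k) = 1 := by ring
          rw [this, Real.rpow_one]
        calc X ^ (sg k) * (X ^ (1 - sg k) * D ^ 2 / X) = (X ^ (sg k) * X ^ (1 - sg k)) * D ^ 2 / X := by ring
          _ = _ := by rw [h5]; field_simp

/-- the main theorem on one parameter families -/
theorem mainO (k : ℕ) (hk : 3 ≤ k) (a : ℝ) (ha : 0 < a) (b : Fin k → ℝ) (r : ℕ)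
    (hr : (k : ℝ) ≤ 2 * ((k : ℝ) - 1) * (1 - (((k : ℝ) - 2) / ((k : ℝ) - 1)) ^ r)) : ∀ᵐ θ : ℝ, ∃ N0 : ℕ, ∀ N : ℕ, N0 ≤ N →
      ∃ w : Fin (4 * r + 1) → ℕ, (∀ i, 1 ≤ w i ∧ 0 < ⌊fb k a (bt k b θ) (w i)⌋) ∧
        ∑ i, ⌊fb k a (bt k b θ) (w i)⌋ = (N : ℤ) := by
  classical
  have hk3 : (3 : ℝ) ≤ k := by exact_mod_cast hk
  have hr1 : 1 ≤ r := by
    rcases Nat.eq_zero_or_pos r with h | h
    · rw [h, pow_zero, sub_self, mul_zero] at hr
      linarith
    · exact h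
  filter_upwards [good2_one k (by omega) a ha b, energyO_ae k hk a ha b r hr1] with θ hG hE
  set b' : Fin k → ℝ := bt k b θ with hb'
  set B : ℝ := ∑ i, |b' i| with hB
  have hB0 : 0 ≤ B := Finset.sum_nonneg (fun i _ => abs_nonneg _)
  have hbB : ∀ i, |b' i| ≤ B := fun i => Finset.single_le_sum (f := fun i => |b' i|) (fun i _ => abs_nonneg _) (Finset.mem_univ i)
  obtain ⟨N0, hN0⟩ := exG k (by omega) a ha b' hG (DB k r) (uo k a b' r) (2 * r * ((a + k * B) * (2 * k) ^ k + 1)) (by positivity)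
    (fun p x hx => uo_le k hk a ha b' B hB0 hbB r p x hx)
    (energyO_ev k hk r hr _ (fun p => by positivity) (by
      filter_upwards [hE] with p hp
      exact (energyO_le k a b r p θ).trans hp))
    (fun x => ∀ l, 1 ≤ x l ∧ 0 < ⌊fb k a b' (x l)⌋)
    (by
      filter_upwards [PS_ev k hk (r - 1) ((k * B + 1) / a)] with p hp
      constructor
      · rw [← Finset.card_pos]
        have h1 : (0 : ℝ) < ((DB k r p).card : ℝ) := by
          rw [DB_card k r p hk]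
          have : 0 < ∏ j ∈ range r, ((PS k p j : ℝ) + 1) := Finset.prod_pos (fun j _ => by positivity)
          positivity
        exact_mod_cast h1
      · intro x hx l
        have h1 := DB_ge k r p hk x hx l
        have h2 : (PS k p (r - 1) : ℝ) ≤ PS k p ((l : ℕ) / 2) := by
          have := PS_anti k p hk ((l : ℕ) / 2) (r - 1) (by have := l.2; omega)
          exact_mod_cast this
        have h3 : (1 : ℝ) ≤ PS k p ((l : ℕ) / 2) := by exact_mod_cast PS_pos k p _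
        have h4 : (1 : ℝ) ≤ x l := by linarith
        refine ⟨by exact_mod_cast h4, ?_⟩
        apply fl_pos k (by omega) a b' B hB0 hbB _ h4
        rw [div_le_iff₀ ha] at hp
        have h5 : (PS k p (r - 1) : ℝ) * a ≤ (x l : ℝ) * a := mul_le_mul_of_nonneg_right (h2.trans h1) ha.le
        linarith)
  refine ⟨N0, fun N hN => ?_⟩
  obtain ⟨x, y, z, hx, hy, hz1, hz2, hsum⟩ := hN0 N hN
  have hcardeq : Fintype.card (Fin (2 * r) ⊕ (Fin (2 * r) ⊕ Unit)) = Fintype.card (Fin (4 * r + 1)) := by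
    simp only [Fintype.card_sum, Fintype.card_fin, Fintype.card_unit]
    omega
  set ε : Fin (2 * r) ⊕ (Fin (2 * r) ⊕ Unit) ≃ Fin (4 * r + 1) := Fintype.equivOfCardEq hcardeq with hε
  refine ⟨fun i => Sum.elim x (Sum.elim y (fun _ => z)) (ε.symm i), ?_, ?_⟩
  · intro i
    obtain ⟨s, rfl⟩ := ε.surjective i
    dsimp only
    rw [Equiv.symm_apply_apply]
    rcases s with l | l | l
    · exact hx l
    · exact hy l
    · exact ⟨hz1, hz2⟩
  · rw [← Equiv.sum_comp ε]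
    simp_rw [Equiv.symm_apply_apply]
    rw [Fintype.sum_sum_type, Fintype.sum_sum_type]
    simp only [Sum.elim_inl, Sum.elim_inr, Finset.univ_unique, Finset.sum_singleton]
    unfold uo at hsum
    linarith

/-- the condition on the number of scales in terms of integers -/
theorem cond_int (k : ℕ) (hk : 3 ≤ k) (t : ℕ) (ht : 2 * (k - 2) ^ t ≤ (k - 1) ^ t) :
    (k : ℝ) ≤ 2 * ((k : ℝ) - 1) * (1 - (((k : ℝ) - 2) / ((k : ℝ) - 1)) ^ (t + 1)) := by
  have hk3 : (3 : ℝ) ≤ k := by exact_mod_cast hk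
  have h1 : ((k - 1 : ℕ) : ℝ) = (k : ℝ) - 1 := by rw [Nat.cast_sub (by omega)]; norm_num
  have h2 : ((k - 2 : ℕ) : ℝ) = (k : ℝ) - 2 := by rw [Nat.cast_sub (by omega)]; norm_num
  have h3 : 2 * ((k : ℝ) - 2) ^ t ≤ ((k : ℝ) - 1) ^ t := by
    rw [← h1, ← h2]
    exact_mod_cast ht
  have h4 : (0 : ℝ) < ((k : ℝ) - 1) ^ t := pow_pos (by linarith) t
  have h5 : (((k : ℝ) - 2) / ((k : ℝ) - 1)) ^ t ≤ 1 / 2 := by
    rw [div_pow, div_le_iff₀ h4]
    linarith
  have h6 : 2 * ((k : ℝ) - 1) * (((k : ℝ) - 2) / ((k : ℝ) - 1)) ^ (t + 1) = 2 * ((k : ℝ) - 2) * (((k : ℝ) - 2) / ((k : ℝ) - 1)) ^ t := by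
    rw [pow_succ]
    have : (k : ℝ) - 1 ≠ 0 := by linarith
    generalize (((k : ℝ) - 2) / ((k : ℝ) - 1)) ^ t = w
    field_simp
  rw [mul_sub, mul_one, h6]
  have h7 : 2 * ((k : ℝ) - 2) * (((k : ℝ) - 2) / ((k : ℝ) - 1)) ^ t ≤ 2 * ((k : ℝ) - 2) * (1 / 2) :=
    mul_le_mul_of_nonneg_left h5 (by linarith)
  linarith

/-- Bernoulli -/
theorem cond_bern (k : ℕ) (hk : 3 ≤ k) : 2 * (k - 2) ^ (k - 2) ≤ (k - 1) ^ (k - 2) := by
  obtain ⟨m, rfl⟩ : ∃ m, k = m + 3 := ⟨k - 3, by omega⟩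
  have e1 : m + 3 - 2 = m + 1 := by omega
  have e2 : m + 3 - 1 = m + 2 := by omega
  rw [e1, e2]
  have h1 : ((m : ℝ) + 1) ^ (m + 1) * (1 + ((m + 1 : ℕ) : ℝ) * (1 / ((m : ℝ) + 1))) ≤ ((m : ℝ) + 2) ^ (m + 1) := by
    have h2 := one_add_mul_le_pow (a := 1 / ((m : ℝ) + 1)) (by
      have : (0 : ℝ) ≤ 1 / ((m : ℝ) + 1) := by positivity
      linarith) (m + 1)
    have h3 : ((m : ℝ) + 2) ^ (m + 1) = ((m : ℝ) + 1) ^ (m + 1) * (1 + 1 / ((m : ℝ) + 1)) ^ (m + 1) := by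
      rw [← mul_pow]
      congr 1
      field_simp
      ring
    rw [h3]
    exact mul_le_mul_of_nonneg_left h2 (by positivity)
  have h4 : (1 + ((m + 1 : ℕ) : ℝ) * (1 / ((m : ℝ) + 1))) = 2 := by
    push_cast
    field_simp
    norm_num
  rw [h4] at h1
  have h5 : 2 * ((m : ℝ) + 1) ^ (m + 1) ≤ ((m : ℝ) + 2) ^ (m + 1) := by linarith
  exact_mod_cast h5

/-- the logarithmic form of the condition -/
theorem cond_log (k : ℕ) (hk : 3 ≤ k) (t : ℕ) (ht : ((k : ℝ) - 3 / 2) * Real.log 2 ≤ t) : 2 * (k - 2) ^ t ≤ (k - 1) ^ t := by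
  obtain ⟨m, rfl⟩ : ∃ m, k = m + 3 := ⟨k - 3, by omega⟩
  have e1 : m + 3 - 2 = m + 1 := by omega
  have e2 : m + 3 - 1 = m + 2 := by omega
  rw [e1, e2]
  push_cast at ht
  have hx0 : (0 : ℝ) ≤ 1 / ((m : ℝ) + 1) := by positivity
  have h1 := Real.le_log_one_add_of_nonneg hx0
  have h2 : 2 * (1 / ((m : ℝ) + 1)) / (1 / ((m : ℝ) + 1) + 2) = 2 / (2 * (m : ℝ) + 3) := by
    field_simp
    ring
  rw [h2] at h1
  have h3 : 1 + 1 / ((m : ℝ) + 1) = ((m : ℝ) + 2) / ((m : ℝ) + 1) := by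
    field_simp
    ring
  rw [h3] at h1
  have h4 : Real.log 2 ≤ t * Real.log (((m : ℝ) + 2) / ((m : ℝ) + 1)) := by
    calc Real.log 2 = (((m : ℝ) + 3 - 3 / 2) * Real.log 2) * (2 / (2 * (m : ℝ) + 3)) := by
          field_simp
          ring
      _ ≤ (t : ℝ) * (2 / (2 * (m : ℝ) + 3)) := mul_le_mul_of_nonneg_right ht (by positivity)
      _ ≤ _ := mul_le_mul_of_nonneg_left h1 (by positivity)
  rw [← Real.log_pow] at h4
  have h5 := (Real.log_le_log_iff (by norm_num) (by positivity)).mp h4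
  rw [div_pow, le_div_iff₀ (by positivity)] at h5
  exact_mod_cast h5

end Pool.Agent.Y867.WR
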