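import Pool.Agent.Y867.WR.OneF

/-! # One random coefficient: any larger number of summands -/

set_option autoImplicit false

open MeasureTheory Filter Finset

namespace Pool.Agent.Y867.WR

/-- one more summand -/
theorem more_one (F : ℕ → ℤ) (s : ℕ) (hs : 1 ≤ s)
    (h : ∃ N0 : ℕ, ∀ N : ℕ, N0 ≤ N → ∃ x : Fin s → ℕ, (∀ i, 1 ≤ x i ∧ 0 < F (x i)) ∧ ∑ i, F (x i) = (N : ℤ)) :
    ∃ N0 : ℕ, ∀ N : ℕ, N0 ≤ N → ∃ x : Fin (s + 1) → ℕ, (∀ i, 1 ≤ x i ∧ 0 < F (x i)) ∧ ∑ i, F (x i) = (N : ℤ) := by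
  obtain ⟨N0, hN0⟩ := h
  obtain ⟨x0, hx0, _⟩ := hN0 N0 le_rfl
  have h1 := hx0 ⟨0, by omega⟩
  set n : ℕ := x0 ⟨0, by omega⟩ with hn
  refine ⟨N0 + (F n).toNat, fun N hN => ?_⟩
  obtain ⟨x, hx, hsum⟩ := hN0 (N - (F n).toNat) (by omega)
  refine ⟨Fin.cons n x, ?_, ?_⟩
  · intro i
    refine Fin.cases ?_ (fun j => ?_) i
    · exact h1
    · exact hx j
  · rw [Fin.sum_univ_succ]
    simp only [Fin.cons_zero, Fin.cons_succ]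
    rw [hsum]
    omega

theorem more_all (F : ℕ → ℤ) (s : ℕ) (hs : 1 ≤ s)
    (h : ∃ N0 : ℕ, ∀ N : ℕ, N0 ≤ N → ∃ x : Fin s → ℕ, (∀ i, 1 ≤ x i ∧ 0 < F (x i)) ∧ ∑ i, F (x i) = (N : ℤ)) (s' : ℕ) (hs' : s ≤ s') :
    ∃ N0 : ℕ, ∀ N : ℕ, N0 ≤ N → ∃ x : Fin s' → ℕ, (∀ i, 1 ≤ x i ∧ 0 < F (x i)) ∧ ∑ i, F (x i) = (N : ℤ) := by
  induction s', hs' using Nat.le_induction with
  | base => exact h
  | succ n hn ih => exact more_one F n (by omega) ih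

/-- the polynomial with separate coefficient of `x ^ (k - 1)` -/
theorem fb_split (k : ℕ) (hk : 1 ≤ k) (a : ℝ) (b : Fin (k - 1) → ℝ) (θ x : ℝ) :
    fb k a (bt k (fun j => if h : (j : ℕ) < k - 1 then b ⟨j, h⟩ else 0) θ) x =
      a * x ^ k + θ * x ^ (k - 1) + ∑ j : Fin (k - 1), b j * x ^ (j : ℕ) := by
  obtain ⟨m, rfl⟩ : ∃ m, k = m + 1 := ⟨k - 1, by omega⟩
  rw [bt_fb (m + 1) (by omega)]
  unfold fb
  rw [Fin.sum_univ_castSucc]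
  have h1 : bt (m + 1) (fun j => if h : (j : ℕ) < m + 1 - 1 then b ⟨j, h⟩ else 0) 0 (Fin.last m) = 0 := by
    unfold bt
    rw [if_pos]
    simp
  have h2 : ∀ j : Fin m, bt (m + 1) (fun j => if h : (j : ℕ) < m + 1 - 1 then b ⟨j, h⟩ else 0) 0 j.castSucc = b j := by
    intro j
    have hj := j.2
    unfold bt
    rw [if_neg (by simp only [Fin.val_castSucc]; omega)]
    dsimp only
    rw [dif_pos (by simp only [Fin.val_castSucc]; omega)]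
    rfl
  have h3 : ∑ j : Fin (m + 1 - 1), b j * x ^ (j : ℕ) = ∑ j : Fin m, b j * x ^ (j : ℕ) := rfl
  rw [h1, h3]
  simp_rw [h2]
  simp only [Fin.val_castSucc, Nat.add_sub_cancel]
  ring

/-- one parameter families: the final form -/
theorem finalO (k : ℕ) (hk : 3 ≤ k) (a : ℝ) (ha : 0 < a) (b : Fin (k - 1) → ℝ) :
    ∀ᵐ θ : ℝ, ∀ s : ℕ, ((∃ t : ℕ, 2 * (k - 2) ^ t ≤ (k - 1) ^ t ∧ 4 * t + 5 ≤ s) ∨ 4 * k - 3 ≤ s ∨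
      4 * ⌈((k : ℝ) - 3 / 2) * Real.log 2⌉₊ + 5 ≤ s) →
      ∃ N₀ : ℕ, ∀ N : ℕ, N₀ ≤ N → ∃ x : Fin s → ℕ,
        (∀ i, 1 ≤ x i ∧ 0 < ⌊a * (x i : ℝ) ^ k + θ * (x i : ℝ) ^ (k - 1) + ∑ j : Fin (k - 1), b j * (x i : ℝ) ^ (j : ℕ)⌋) ∧
          ∑ i, ⌊a * (x i : ℝ) ^ k + θ * (x i : ℝ) ^ (k - 1) + ∑ j : Fin (k - 1), b j * (x i : ℝ) ^ (j : ℕ)⌋ = (N : ℤ) := by
  have h1 : ∀ᵐ θ : ℝ, ∀ t : ℕ, 2 * (k - 2) ^ t ≤ (k - 1) ^ t → ∃ N0 : ℕ, ∀ N : ℕ, N0 ≤ N →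
      ∃ w : Fin (4 * (t + 1) + 1) → ℕ,
        (∀ i, 1 ≤ w i ∧ 0 < ⌊fb k a (bt k (fun j => if h : (j : ℕ) < k - 1 then b ⟨j, h⟩ else 0) θ) (w i)⌋) ∧
        ∑ i, ⌊fb k a (bt k (fun j => if h : (j : ℕ) < k - 1 then b ⟨j, h⟩ else 0) θ) (w i)⌋ = (N : ℤ) := by
    rw [ae_all_iff]
    intro t
    by_cases ht : 2 * (k - 2) ^ t ≤ (k - 1) ^ t
    · filter_upwards [mainO k hk a ha (fun j => if h : (j : ℕ) < k - 1 then b ⟨j, h⟩ else 0) (t + 1) (cond_int k hk t ht)] with θ hθ _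
      exact hθ
    · exact Eventually.of_forall (fun θ h => absurd h ht)
  filter_upwards [h1] with θ hθ s hs
  have h2 : ∃ t : ℕ, 2 * (k - 2) ^ t ≤ (k - 1) ^ t ∧ 4 * t + 5 ≤ s := by
    rcases hs with h | h | h
    · exact h
    · exact ⟨k - 2, cond_bern k hk, by omega⟩
    · exact ⟨⌈((k : ℝ) - 3 / 2) * Real.log 2⌉₊, cond_log k hk _ (Nat.le_ceil _), h⟩
  obtain ⟨t, ht, hts⟩ := h2
  have h3 := more_all (fun n => ⌊fb k a (bt k (fun j => if h : (j : ℕ) < k - 1 then b ⟨j, h⟩ else 0) θ) n⌋) (4 * (t + 1) + 1)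
    (by omega) (hθ t ht) s (by omega)
  simp only [fb_split k (by omega) a b] at h3
  exact h3

end Pool.Agent.Y867.WR
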