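import Pool.Agent.Y867.WR.WeylA

/-! # Weyl's inequality for real polynomial phases -/

set_option autoImplicit false

open Finset

namespace Pool.Agent.Y867.WR

open Pool.Agent.W928.MW (e e_add e_norm)
open Pool.Agent.TH181.MW (LS LS_sum LS_card mem_LS LS_zero AA AA_sub sq_out card_H two_pow_ge)
open Pool.Agent.TH181.MX (AA_int geo_int KK_abs prod_cnt prod_abs log_le)
open Pool.Agent.H807R2.Dav (ee KK KK_nonneg KK_neg KK_le geo_bound vino)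

open Polynomial in
/-- Weyl's inequality on the minor arcs -/
theorem weyl_min (k : ℕ) (hk : 2 ≤ k) (δ : ℝ) (hδ : 0 < δ) (hδ1 : δ ≤ 1) : ∃ C : ℝ, 0 < C ∧
    ∀ N q : ℕ, 1 ≤ N → 1 ≤ q → ∀ (F : ℝ[X]), F.natDegree ≤ k → ∀ a : ℤ, IsCoprime a (q : ℤ) →
    (N : ℝ) ^ δ ≤ q → (q : ℝ) ≤ (N : ℝ) ^ ((k : ℝ) - δ) → |F.coeff k - a / q| ≤ 1 / (q : ℝ) ^ 2 →
    ‖∑ n ∈ Icc 1 (N : ℤ), e (F.eval (n : ℝ))‖ ≤ C * (N : ℝ) ^ (1 - δ / 2 ^ k) := by
  obtain ⟨j, hjk⟩ : ∃ j, k = j + 1 := ⟨k - 1, by omega⟩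
  have hj1 : 1 ≤ j := by omega
  have hjk' : k - 1 = j := by omega
  have hj0 : (0 : ℝ) < j := by exact_mod_cast hj1
  have hk0 : (2 : ℝ) ≤ (k : ℝ) := by exact_mod_cast hk
  set η : ℝ := δ / 2 with hη
  have hη0 : 0 < η := by positivity
  set ε : ℝ := η / (2 * j * j) with hε
  have hε0 : 0 < ε := by positivity
  obtain ⟨C0, hC0, hC⟩ := Pool.Agent.Helper112.divisor_bound ε hε0
  obtain ⟨C1, hC1, hlog⟩ := log_le (η / 2) (by positivity)
  set F0 : ℝ := (k.factorial : ℝ) with hF0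
  have hF1 : 1 ≤ F0 := by
    rw [hF0]; exact_mod_cast Nat.factorial_pos k
  set C2 : ℝ := (2 * (C0 * F0 ^ ε)) ^ j with hC2
  have hC2' : 0 < C2 := by positivity
  set C3 : ℝ := 2 * j * 3 ^ j + C2 * (39 * (k * C1) * (4 * (F0 + 1))) with hC3
  have hC3' : 0 < C3 := by positivity
  set C4 : ℝ := 3 ^ (2 ^ j - j - 1) * C3 with hC4
  have hC4' : 0 < C4 := by positivity
  refine ⟨C4 ^ (1 / (2 : ℝ) ^ j), by positivity, fun N q hN hq F hF a hcop hq1 hq2 ht => ?_⟩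
  have hN' : (1 : ℝ) ≤ (N : ℝ) := by exact_mod_cast hN
  have hN0 : (0 : ℝ) < (N : ℝ) := by linarith
  have hq' : (1 : ℝ) ≤ (q : ℝ) := by exact_mod_cast hq
  have hq0 : (0 : ℝ) < (q : ℝ) := by linarith
  set D : ℕ := ⌊C0 * (F0 * (N : ℝ) ^ j) ^ ε⌋₊ with hD
  have hDb : ∀ n : ℕ, 1 ≤ n → n ≤ k.factorial * N ^ (k - 1) → n.divisors.card ≤ D := by
    intro n hn hn2
    rw [hD]
    apply Nat.le_floor
    refine (hC n hn).trans ?_
    apply mul_le_mul_of_nonneg_left _ hC0.le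
    apply Real.rpow_le_rpow (by positivity) _ hε0.le
    rw [hF0]
    rw [hjk'] at hn2
    exact_mod_cast hn2
  have hDr : (2 * (D : ℝ)) ^ j ≤ C2 * (N : ℝ) ^ (η / 2) := by
    have h1 : (D : ℝ) ≤ C0 * (F0 * (N : ℝ) ^ j) ^ ε := Nat.floor_le (by positivity)
    have h2 : (F0 * (N : ℝ) ^ j) ^ ε = F0 ^ ε * (N : ℝ) ^ (j * ε) := by
      rw [Real.mul_rpow (by positivity) (by positivity), ← Real.rpow_natCast (N : ℝ) j, ← Real.rpow_mul hN0.le]
    have h3 : 2 * (D : ℝ) ≤ 2 * (C0 * F0 ^ ε) * (N : ℝ) ^ (j * ε) := by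
      rw [h2] at h1
      calc 2 * (D : ℝ) ≤ 2 * (C0 * (F0 ^ ε * (N : ℝ) ^ (j * ε))) := by linarith
        _ = _ := by ring
    have h4 := pow_le_pow_left₀ (by positivity) h3 j
    refine h4.trans (le_of_eq ?_)
    rw [mul_pow, ← hC2]
    congr 1
    rw [← Real.rpow_natCast ((N : ℝ) ^ (j * ε)) j, ← Real.rpow_mul hN0.le]
    congr 1
    rw [hε]; field_simp
  have hUU := UU_weyl N j (fun n : ℤ => F.eval (n : ℝ))
  have hS : UU N (fun n : ℤ => F.eval (n : ℝ)) [] = ∑ n ∈ Icc 1 (N : ℤ), e (F.eval (n : ℝ)) := by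
    unfold UU
    rw [AA]
    rfl
  rw [hS] at hUU
  have hmain := sum_all' k N q D hk hq a hcop (F.coeff k) ht hDb
    (fun l => ‖UU N (fun n : ℤ => F.eval (n : ℝ)) l‖) (fun l hl => UU_le k N (by omega) F hF l hl)
  rw [hjk'] at hmain
  set S : ℝ := ‖∑ n ∈ Icc 1 (N : ℤ), e (F.eval (n : ℝ))‖ with hSdef
  have hS0 : 0 ≤ S := norm_nonneg _
  have hNη : 1 ≤ (N : ℝ) ^ η := Real.one_le_rpow hN' hη0.le
  have hsplit : (N : ℝ) ^ η = (N : ℝ) ^ (η / 2) * (N : ℝ) ^ (η / 2) := by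
    rw [← Real.rpow_add hN0]; congr 1; ring
  set Z : ℝ := (N : ℝ) ^ ((k : ℝ) - δ) with hZ
  have hZ0 : 0 < Z := by positivity
  have hNjZ : (N : ℝ) ^ j ≤ Z := by
    rw [hZ, ← Real.rpow_natCast]
    apply Real.rpow_le_rpow_of_exponent_le hN'
    rw [hjk]; push_cast; linarith
  have hNZ : (N : ℝ) ≤ Z := by
    rw [hZ]
    calc (N : ℝ) = (N : ℝ) ^ (1 : ℝ) := (Real.rpow_one _).symm
      _ ≤ _ := Real.rpow_le_rpow_of_exponent_le hN' (by linarith)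
  have hNkq : (N : ℝ) ^ (j + 1) / q ≤ Z := by
    rw [div_le_iff₀ hq0]
    have h1 : (N : ℝ) ^ (j + 1) = Z * (N : ℝ) ^ δ := by
      rw [hZ, ← Real.rpow_add hN0, ← Real.rpow_natCast]
      congr 1
      rw [hjk]; push_cast; ring
    rw [h1]
    exact mul_le_mul_of_nonneg_left hq1 hZ0.le
  have hA : 2 * (j : ℝ) * (2 * (N : ℝ) + 1) ^ j ≤ (2 * j * 3 ^ j) * ((N : ℝ) ^ η * Z) := by
    have h1 : (2 * (N : ℝ) + 1) ^ j ≤ 3 ^ j * (N : ℝ) ^ j := by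
      rw [← mul_pow]
      exact pow_le_pow_left₀ (by positivity) (by linarith) j
    calc 2 * (j : ℝ) * (2 * (N : ℝ) + 1) ^ j ≤ 2 * (j : ℝ) * (3 ^ j * (N : ℝ) ^ j) :=
          mul_le_mul_of_nonneg_left h1 (by positivity)
      _ = (2 * j * 3 ^ j) * (1 * (N : ℝ) ^ j) := by ring
      _ ≤ (2 * j * 3 ^ j) * ((N : ℝ) ^ η * Z) := by
          gcongr
  have hlq : 1 + Real.log q ≤ k * (C1 * (N : ℝ) ^ (η / 2)) := by
    have h1 : Real.log q ≤ k * Real.log N := by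
      have h2 : Real.log q ≤ Real.log ((N : ℝ) ^ ((k : ℝ) - δ)) := Real.log_le_log hq0 hq2
      rw [Real.log_rpow hN0] at h2
      have h3 : 0 ≤ Real.log N := Real.log_nonneg hN'
      nlinarith
    have h4 := hlog N hN
    have h5 : 1 + Real.log q ≤ k * (1 + Real.log N) := by nlinarith
    exact h5.trans (mul_le_mul_of_nonneg_left h4 (by positivity))
  have hlq0 : 0 ≤ Real.log q := Real.log_nonneg hq'
  have hB : (((k.factorial * N ^ j + 1 : ℕ) : ℝ) / q + 1) * (39 * N + 3 * q * (1 + Real.log q)) ≤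
      (39 * (k * C1) * (4 * (F0 + 1))) * ((N : ℝ) ^ (η / 2) * Z) := by
    have h1 : ((k.factorial * N ^ j + 1 : ℕ) : ℝ) / q + 1 ≤ (F0 + 1) * ((N : ℝ) ^ j / q + 1) := by
      have h3 : (1 : ℝ) ≤ (N : ℝ) ^ j := one_le_pow₀ hN'
      have h4 : (1 : ℝ) / q ≤ (N : ℝ) ^ j / q := by
        apply div_le_div_of_nonneg_right _ hq0.le
        linarith
      push_cast
      rw [add_div]
      have h5 : (F0 + 1) * ((N : ℝ) ^ j / q + 1) = F0 * (N : ℝ) ^ j / q + (N : ℝ) ^ j / q + F0 + 1 := by ring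
      rw [h5]
      linarith
    have h5 : 39 * (N : ℝ) + 3 * q * (1 + Real.log q) ≤ 39 * (k * (C1 * (N : ℝ) ^ (η / 2))) * (N + q) := by
      have h9 : 1 ≤ k * (C1 * (N : ℝ) ^ (η / 2)) := by linarith
      have h10 : 3 * (q : ℝ) * (1 + Real.log q) ≤ 39 * q * (k * (C1 * (N : ℝ) ^ (η / 2))) := by
        apply mul_le_mul (by linarith) hlq (by linarith) (by positivity)
      have h11 : 39 * (N : ℝ) * 1 ≤ 39 * (N : ℝ) * (k * (C1 * (N : ℝ) ^ (η / 2))) :=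
        mul_le_mul_of_nonneg_left h9 (by positivity)
      calc 39 * (N : ℝ) + 3 * q * (1 + Real.log q) ≤ 39 * (N : ℝ) * (k * (C1 * (N : ℝ) ^ (η / 2))) +
            39 * q * (k * (C1 * (N : ℝ) ^ (η / 2))) := by linarith
        _ = _ := by ring
    have h6 : ((N : ℝ) ^ j / q + 1) * (N + q) ≤ 4 * Z := by
      have h7 : ((N : ℝ) ^ j / q + 1) * (N + q) = (N : ℝ) ^ (j + 1) / q + (N : ℝ) ^ j + N + q := by
        field_simp
        ring
      rw [h7]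
      linarith
    calc (((k.factorial * N ^ j + 1 : ℕ) : ℝ) / q + 1) * (39 * N + 3 * q * (1 + Real.log q))
        ≤ ((F0 + 1) * ((N : ℝ) ^ j / q + 1)) * (39 * (k * (C1 * (N : ℝ) ^ (η / 2))) * (N + q)) := by
          apply mul_le_mul h1 h5 (by positivity) (by positivity)
      _ = (39 * (k * C1) * (F0 + 1)) * (N : ℝ) ^ (η / 2) * (((N : ℝ) ^ j / q + 1) * (N + q)) := by ring
      _ ≤ (39 * (k * C1) * (F0 + 1)) * (N : ℝ) ^ (η / 2) * (4 * Z) :=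
          mul_le_mul_of_nonneg_left h6 (by positivity)
      _ = _ := by ring
  have hsum : ∑ l ∈ LS (Icc (-(N : ℤ)) N) j, ‖UU N (fun n : ℤ => F.eval (n : ℝ)) l‖ ≤ C3 * ((N : ℝ) ^ η * Z) := by
    refine hmain.trans ?_
    calc 2 * (j : ℝ) * (2 * (N : ℝ) + 1) ^ j + (2 * (D : ℝ)) ^ j *
          ((((k.factorial * N ^ j + 1 : ℕ) : ℝ) / q + 1) * (39 * N + 3 * q * (1 + Real.log q)))
        ≤ (2 * j * 3 ^ j) * ((N : ℝ) ^ η * Z) + (C2 * (N : ℝ) ^ (η / 2)) *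
          ((39 * (k * C1) * (4 * (F0 + 1))) * ((N : ℝ) ^ (η / 2) * Z)) := by
          apply add_le_add hA
          apply mul_le_mul hDr hB (by positivity) (by positivity)
      _ = _ := by
          rw [hC3, hsplit]; ring
  have hpow : S ^ (2 ^ j) ≤ C4 * (N : ℝ) ^ (((2 ^ j : ℕ) : ℝ) - η) := by
    have hge := two_pow_ge j
    refine hUU.trans ?_
    have h1 : (2 * (N : ℝ) + 1) ^ (2 ^ j - j - 1) ≤ 3 ^ (2 ^ j - j - 1) * (N : ℝ) ^ (2 ^ j - j - 1) := by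
      rw [← mul_pow]
      exact pow_le_pow_left₀ (by positivity) (by linarith) _
    calc (2 * (N : ℝ) + 1) ^ (2 ^ j - j - 1) * ∑ l ∈ LS (Icc (-(N : ℤ)) N) j, ‖UU N (fun n : ℤ => F.eval (n : ℝ)) l‖
        ≤ (3 ^ (2 ^ j - j - 1) * (N : ℝ) ^ (2 ^ j - j - 1)) * (C3 * ((N : ℝ) ^ η * Z)) :=
          mul_le_mul h1 hsum (Finset.sum_nonneg (fun _ _ => norm_nonneg _)) (by positivity)
      _ = C4 * ((N : ℝ) ^ (2 ^ j - j - 1) * ((N : ℝ) ^ η * Z)) := by rw [hC4]; ring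
      _ = _ := by
          congr 1
          rw [hZ, ← Real.rpow_natCast, ← Real.rpow_add hN0, ← Real.rpow_add hN0]
          congr 1
          have h2 : ((2 ^ j - j - 1 : ℕ) : ℝ) = ((2 ^ j : ℕ) : ℝ) - j - 1 := by
            rw [Nat.cast_sub (by omega), Nat.cast_sub (by omega)]
            push_cast; ring
          rw [h2, hη, hjk]
          push_cast
          ring
  set n : ℕ := 2 ^ j with hn
  have hn0 : n ≠ 0 := by positivity
  have hfin : S ≤ C4 ^ (1 / (n : ℝ)) * (N : ℝ) ^ ((((n : ℕ) : ℝ) - η) * (1 / (n : ℝ))) := by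
    have hn1 : (n : ℝ) ≠ 0 := by exact_mod_cast hn0
    have h6 : (C4 ^ (1 / (n : ℝ)) * (N : ℝ) ^ ((((n : ℕ) : ℝ) - η) * (1 / (n : ℝ)))) ^ n =
        C4 * (N : ℝ) ^ (((n : ℕ) : ℝ) - η) := by
      rw [mul_pow, ← Real.rpow_natCast (C4 ^ (1 / (n : ℝ))) n, ← Real.rpow_mul hC4'.le,
        ← Real.rpow_natCast ((N : ℝ) ^ ((((n : ℕ) : ℝ) - η) * (1 / (n : ℝ)))) n, ← Real.rpow_mul hN0.le]
      have h7 : 1 / (n : ℝ) * n = 1 := by field_simp
      have h8 : ((n : ℝ) - η) * (1 / (n : ℝ)) * n = (n : ℝ) - η := by field_simp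
      rw [h7, h8, Real.rpow_one]
    rw [← h6] at hpow
    exact (pow_le_pow_iff_left₀ hS0 (by positivity) hn0).mp hpow
  refine hfin.trans (le_of_eq ?_)
  have e2 : (n : ℝ) = (2 : ℝ) ^ j := by rw [hn]; push_cast; rfl
  have e3 : ((n : ℝ) - η) * (1 / (n : ℝ)) = 1 - δ / 2 ^ k := by
    rw [e2, hη, hjk, pow_succ]
    field_simp
  rw [e3, e2]

end Pool.Agent.Y867.WR
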