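import Pool.Agent.Y867.WR.Mean
import Pool.Agent.Y867.WR.WeylB

/-! # Second moment over the linear coefficient -/

set_option autoImplicit false

open MeasureTheory Filter Finset
open scoped ENNReal

namespace Pool.Agent.Y867.WR

open Pool.Agent.W928.MW (e e_add e_norm e_cont e_lip)
open Pool.Agent.TH181.MW (e_conj)

theorem e_int_le (c B : ℝ) (hc : c ≠ 0) : ‖∫ t in (-B)..B, e (c * t)‖ ≤ 1 / |c| := by
  have h1 : ∀ t : ℝ, e (c * t) = Complex.exp ((2 * (Real.pi : ℂ) * Complex.I * (c : ℂ)) * (t : ℂ)) := by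
    intro t
    unfold Pool.Agent.W928.MW.e
    congr 1
    push_cast
    ring
  have hc' : (2 * (Real.pi : ℂ) * Complex.I * (c : ℂ)) ≠ 0 := by
    have h2 : (Real.pi : ℂ) ≠ 0 := by exact_mod_cast Real.pi_ne_zero
    have h3 : (c : ℂ) ≠ 0 := by exact_mod_cast hc
    exact mul_ne_zero (mul_ne_zero (mul_ne_zero two_ne_zero h2) Complex.I_ne_zero) h3
  simp_rw [h1]
  rw [integral_exp_mul_complex hc', ← h1, ← h1, norm_div]
  have h4 : ‖(2 * (Real.pi : ℂ) * Complex.I * (c : ℂ))‖ = 2 * Real.pi * |c| := by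
    rw [norm_mul, norm_mul, norm_mul, Complex.norm_I, Complex.norm_real, Complex.norm_real, Real.norm_eq_abs,
      Real.norm_eq_abs, abs_of_pos Real.pi_pos]
    norm_num
  rw [h4]
  have h5 : ‖e (c * B) - e (c * -B)‖ ≤ 2 := by
    refine (norm_sub_le _ _).trans ?_
    rw [e_norm, e_norm]; norm_num
  have h6 : 0 < |c| := abs_pos.mpr hc
  have h7 : 1 ≤ Real.pi := by linarith [Real.pi_gt_three]
  rw [div_le_div_iff₀ (by positivity) h6]
  nlinarith

/-- squaring out a sum of exponentials -/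
theorem sq_e {ι : Type*} (X : Finset ι) (φ : ι → ℝ) :
    ((‖∑ x ∈ X, e (φ x)‖ ^ 2 : ℝ) : ℂ) = ∑ x ∈ X, ∑ y ∈ X, e (φ x - φ y) := by
  have h1 : ((‖∑ n ∈ X, e (φ n)‖ ^ 2 : ℝ) : ℂ) = (∑ n ∈ X, e (φ n)) * (starRingEnd ℂ) (∑ n ∈ X, e (φ n)) := by
    rw [Complex.mul_conj, Complex.normSq_eq_norm_sq]
  rw [h1, map_sum, Finset.sum_mul_sum]
  apply Finset.sum_congr rfl
  intro x _
  apply Finset.sum_congr rfl
  intro y _
  rw [e_conj, ← e_add]
  congr 1

theorem sm2 (X : Finset ℤ) (g : ℤ → ℝ) (β B : ℝ) (hβ : β ≠ 0) (hB : 0 ≤ B) :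
    ∫ t in (-B)..B, ‖∑ x ∈ X, e (β * (t * x + g x))‖ ^ 2 ≤
      ∑ x ∈ X, ∑ y ∈ X, (if x = y then 2 * B else 1 / |β * ((x : ℝ) - y)|) := by
  have h0 : 0 ≤ ∫ t in (-B)..B, ‖∑ x ∈ X, e (β * (t * x + g x))‖ ^ 2 :=
    intervalIntegral.integral_nonneg (by linarith) (fun t _ => by positivity)
  have h1 : ∫ t in (-B)..B, ‖∑ x ∈ X, e (β * (t * x + g x))‖ ^ 2 =
      ‖∫ t in (-B)..B, ((‖∑ x ∈ X, e (β * (t * x + g x))‖ ^ 2 : ℝ) : ℂ)‖ := by
    rw [intervalIntegral.integral_ofReal, Complex.norm_real, Real.norm_of_nonneg h0]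
  have h2 : ∀ t : ℝ, ((‖∑ x ∈ X, e (β * (t * x + g x))‖ ^ 2 : ℝ) : ℂ) =
      ∑ x ∈ X, ∑ y ∈ X, e (β * (g x - g y)) * e ((β * ((x : ℝ) - y)) * t) := by
    intro t
    rw [sq_e]
    apply Finset.sum_congr rfl
    intro x _
    apply Finset.sum_congr rfl
    intro y _
    rw [← e_add]
    congr 1
    ring
  rw [h1]
  simp_rw [h2]
  have hcont : ∀ x y : ℤ, Continuous (fun t : ℝ => e (β * (g x - g y)) * e ((β * ((x : ℝ) - y)) * t)) := by
    intro x y
    exact continuous_const.mul (e_cont.comp (by fun_prop))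
  rw [intervalIntegral.integral_finsetSum (fun x _ => (continuous_finsetSum X (fun y _ => hcont x y)).intervalIntegrable _ _)]
  refine (norm_sum_le _ _).trans (Finset.sum_le_sum (fun x _ => ?_))
  rw [intervalIntegral.integral_finsetSum (fun y _ => (hcont x y).intervalIntegrable _ _)]
  refine (norm_sum_le _ _).trans (Finset.sum_le_sum (fun y _ => ?_))
  rw [intervalIntegral.integral_const_mul, norm_mul, e_norm, one_mul]
  split_ifs with hxy
  · have h3 : ∀ t : ℝ, e ((β * ((x : ℝ) - y)) * t) = 1 := by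
      intro t
      rw [hxy, sub_self, mul_zero, zero_mul]
      unfold Pool.Agent.W928.MW.e
      simp
    simp_rw [h3]
    rw [intervalIntegral.integral_const, norm_smul, norm_one, mul_one, Real.norm_eq_abs, abs_of_nonneg (by linarith)]
    linarith
  · apply e_int_le
    apply mul_ne_zero hβ
    rw [sub_ne_zero]
    exact_mod_cast hxy

/-- harmonic sum over an interval of integers -/
theorem harm (u v : ℤ) (N : ℕ) (hN : 1 ≤ N) (huv : v - u < N) (x : ℤ) (hx : x ∈ Icc u v) :
    ∑ y ∈ (Icc u v).filter (fun y => ¬ x = y), 1 / |(x : ℝ) - y| ≤ 2 * (1 + Real.log N) := by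
  have hh := Pool.Agent.Helper112.harm_le N hN
  have hx' := Finset.mem_Icc.mp hx
  rw [← Finset.sum_filter_add_sum_filter_not _ (fun y => y < x)]
  have h1 : ∑ y ∈ ((Icc u v).filter (fun y => ¬ x = y)).filter (fun y => y < x), 1 / |(x : ℝ) - y| ≤ 1 + Real.log N := by
    refine le_trans ?_ hh
    have h2 : ∑ y ∈ ((Icc u v).filter (fun y => ¬ x = y)).filter (fun y => y < x), 1 / |(x : ℝ) - y| =
        ∑ m ∈ (((Icc u v).filter (fun y => ¬ x = y)).filter (fun y => y < x)).image (fun y => (x - y).toNat), 1 / (m : ℝ) := by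
      rw [Finset.sum_image]
      · apply Finset.sum_congr rfl
        intro y hy
        rw [Finset.mem_filter] at hy
        have h3 : (((x - y).toNat : ℕ) : ℝ) = (x : ℝ) - y := by
          have : (((x - y).toNat : ℕ) : ℤ) = x - y := Int.toNat_of_nonneg (by omega)
          rw [← Int.cast_natCast, this]; push_cast; ring
        rw [h3, abs_of_pos]
        have : (y : ℝ) < x := by exact_mod_cast hy.2
        linarith
      · intro y hy z hz hyz
        rw [Finset.mem_coe, Finset.mem_filter] at hy hz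
        dsimp only at hyz
        omega
    rw [h2]
    apply Finset.sum_le_sum_of_subset_of_nonneg
    · intro m hm
      rw [Finset.mem_image] at hm
      obtain ⟨y, hy, rfl⟩ := hm
      rw [Finset.mem_filter, Finset.mem_filter, Finset.mem_Icc] at hy
      rw [Finset.mem_Icc]
      omega
    · intro m _ _
      positivity
  have h1' : ∑ y ∈ ((Icc u v).filter (fun y => ¬ x = y)).filter (fun y => ¬ y < x), 1 / |(x : ℝ) - y| ≤ 1 + Real.log N := by
    refine le_trans ?_ hh
    have h2 : ∑ y ∈ ((Icc u v).filter (fun y => ¬ x = y)).filter (fun y => ¬ y < x), 1 / |(x : ℝ) - y| =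
        ∑ m ∈ (((Icc u v).filter (fun y => ¬ x = y)).filter (fun y => ¬ y < x)).image (fun y => (y - x).toNat), 1 / (m : ℝ) := by
      rw [Finset.sum_image]
      · apply Finset.sum_congr rfl
        intro y hy
        rw [Finset.mem_filter, Finset.mem_filter] at hy
        have h3 : (((y - x).toNat : ℕ) : ℝ) = (y : ℝ) - x := by
          have : (((y - x).toNat : ℕ) : ℤ) = y - x := Int.toNat_of_nonneg (by omega)
          rw [← Int.cast_natCast, this]; push_cast; ring
        rw [h3, abs_sub_comm, abs_of_pos]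
        have : (x : ℝ) < y := by
          have : x < y := by omega
          exact_mod_cast this
        linarith
      · intro y hy z hz hyz
        rw [Finset.mem_coe, Finset.mem_filter] at hy hz
        dsimp only at hyz
        omega
    rw [h2]
    apply Finset.sum_le_sum_of_subset_of_nonneg
    · intro m hm
      rw [Finset.mem_image] at hm
      obtain ⟨y, hy, rfl⟩ := hm
      rw [Finset.mem_filter, Finset.mem_filter, Finset.mem_Icc] at hy
      rw [Finset.mem_Icc]
      omega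
    · intro m _ _
      positivity
  linarith

/-- the second moment, final form -/
theorem sm2' (u v : ℤ) (N : ℕ) (hN : 1 ≤ N) (huv : v - u < N) (g : ℤ → ℝ) (β B : ℝ) (hβ : β ≠ 0) (hB : 0 ≤ B) :
    ∫ t in (-B)..B, ‖∑ x ∈ Icc u v, e (β * (t * x + g x))‖ ^ 2 ≤ N * (2 * B + 2 * (1 + Real.log N) / |β|) := by
  refine (sm2 (Icc u v) g β B hβ hB).trans ?_
  have hb : 0 < |β| := abs_pos.mpr hβ
  have h1 : ∀ x ∈ Icc u v, ∑ y ∈ Icc u v, (if x = y then 2 * B else 1 / |β * ((x : ℝ) - y)|) ≤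
      2 * B + 2 * (1 + Real.log N) / |β| := by
    intro x hx
    rw [← Finset.sum_filter_add_sum_filter_not (Icc u v) (fun y => x = y)]
    apply add_le_add
    · rw [Finset.sum_congr rfl (fun y hy => if_pos (Finset.mem_filter.mp hy).2), Finset.filter_eq, if_pos hx,
        Finset.sum_singleton]
    · have h2 : ∀ y ∈ (Icc u v).filter (fun y => ¬ x = y), (if x = y then 2 * B else 1 / |β * ((x : ℝ) - y)|) =
          1 / |β| * (1 / |(x : ℝ) - y|) := by
        intro y hy
        rw [if_neg (Finset.mem_filter.mp hy).2, abs_mul, one_div_mul_one_div]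
      rw [Finset.sum_congr rfl h2, ← Finset.mul_sum]
      calc 1 / |β| * ∑ y ∈ (Icc u v).filter (fun y => ¬ x = y), 1 / |(x : ℝ) - y| ≤ 1 / |β| * (2 * (1 + Real.log N)) :=
            mul_le_mul_of_nonneg_left (harm u v N hN huv x hx) (by positivity)
        _ = _ := by ring
  refine (Finset.sum_le_sum h1).trans ?_
  rw [Finset.sum_const, nsmul_eq_mul]
  apply mul_le_mul_of_nonneg_right
  · rw [Int.card_Icc]
    have : (v + 1 - u).toNat ≤ N := by omega
    exact_mod_cast this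
  · have : 0 ≤ Real.log N := Real.log_nonneg (by exact_mod_cast hN)
    positivity

/-- measure of the slice of large values -/
theorem slice2 (u v : ℤ) (N : ℕ) (hN : 1 ≤ N) (huv : v - u < N) (g : ℤ → ℝ) (β B l : ℝ) (hβ : β ≠ 0) (hB : 0 ≤ B)
    (hl : 0 < l) : volume {t : ℝ | |t| ≤ B ∧ l ≤ ‖∑ x ∈ Icc u v, e (β * (t * x + g x))‖} ≤
      ENNReal.ofReal (N * (2 * B + 2 * (1 + Real.log N) / |β|) / l ^ 2) := by
  have hcont : Continuous (fun t : ℝ => ‖∑ x ∈ Icc u v, e (β * (t * x + g x))‖ ^ 2) := by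
    apply Continuous.pow
    apply Continuous.norm
    apply continuous_finsetSum
    intro x _
    exact e_cont.comp (by fun_prop)
  have h1 := mul_meas_ge_le_integral_of_nonneg (μ := volume.restrict (Set.Ioc (-B) B))
    (f := fun t : ℝ => ‖∑ x ∈ Icc u v, e (β * (t * x + g x))‖ ^ 2)
    (Filter.Eventually.of_forall (fun t => by positivity)) (hcont.integrableOn_Ioc) (l ^ 2)
  rw [← intervalIntegral.integral_of_le (by linarith)] at h1
  have h2 := h1.trans (sm2' u v N hN huv g β B hβ hB)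
  have hset : MeasurableSet {t : ℝ | l ^ 2 ≤ ‖∑ x ∈ Icc u v, e (β * (t * x + g x))‖ ^ 2} :=
    measurableSet_le measurable_const hcont.measurable
  have h3 : (volume.restrict (Set.Ioc (-B) B)) {t : ℝ | l ^ 2 ≤ ‖∑ x ∈ Icc u v, e (β * (t * x + g x))‖ ^ 2} ≤
      ENNReal.ofReal (N * (2 * B + 2 * (1 + Real.log N) / |β|) / l ^ 2) := by
    rw [ENNReal.le_ofReal_iff_toReal_le (measure_ne_top _ _)]
    · rw [le_div_iff₀ (by positivity), mul_comm]
      exact h2
    · have : 0 ≤ Real.log N := Real.log_nonneg (by exact_mod_cast hN)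
      positivity
  refine le_trans ?_ h3
  rw [restrict_Ioc_eq_restrict_Icc, Measure.restrict_apply hset]
  apply measure_mono
  rintro t ⟨ht1, ht2⟩
  refine ⟨?_, abs_le.mp ht1⟩
  rw [Set.mem_setOf_eq]
  exact pow_le_pow_left₀ hl.le ht2 2

/-- large values of the exponential sum as a function of the coefficients -/
def LV (k : ℕ) (a β : ℝ) (u v : ℤ) (l : ℝ) : Set (Fin k → ℝ) :=
  {b | l ≤ ‖∑ x ∈ Icc u v, e (β * fb k a b x)‖}

theorem LV_meas (k : ℕ) (a β : ℝ) (u v : ℤ) (l : ℝ) : MeasurableSet (LV k a β u v l) := by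
  unfold LV
  apply measurableSet_le measurable_const
  apply Continuous.measurable
  apply Continuous.norm
  apply continuous_finsetSum
  intro x _
  apply e_cont.comp
  unfold fb
  fun_prop

theorem LV_vol (k : ℕ) (hk : 2 ≤ k) (a β : ℝ) (hβ : β ≠ 0) (u v : ℤ) (N : ℕ) (hN : 1 ≤ N) (huv : v - u < N) (l : ℝ)
    (hl : 0 < l) (B : ℝ) (hB : 0 ≤ B) :
    (volume.restrict (QB k B)) (LV k a β u v l) ≤
      ENNReal.ofReal (N * (2 * B + 2 * (1 + Real.log N) / |β|) / l ^ 2 * (2 * B) ^ (k - 1)) := by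
  obtain ⟨n, rfl⟩ : ∃ n, k = n + 1 := ⟨k - 1, by omega⟩
  rw [Measure.restrict_apply (LV_meas _ _ _ _ _ _)]
  have hlog : 0 ≤ Real.log N := Real.log_nonneg (by exact_mod_cast hN)
  rw [ENNReal.ofReal_mul (by positivity), Nat.add_sub_cancel, ENNReal.ofReal_pow (by positivity)]
  apply fub n ⟨1, by omega⟩ _ (LV_meas _ _ _ _ _ _)
  intro b' _
  set j1 : Fin (n + 1) := ⟨1, by omega⟩ with hj1
  have h1 : ∀ t x : ℝ, fb (n + 1) a (j1.insertNth t b') x = t * x + (a * x ^ (n + 1) + ∑ i : Fin n, b' i * x ^ ((j1.succAbove i : Fin (n + 1)) : ℕ)) := by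
    intro t x
    unfold fb
    rw [Fin.sum_univ_succAbove _ j1]
    simp only [Fin.insertNth_apply_same, Fin.insertNth_apply_succAbove]
    have : ((j1 : Fin (n + 1)) : ℕ) = 1 := rfl
    rw [this, pow_one]
    ring
  refine le_trans (measure_mono ?_) (slice2 u v N hN huv (fun x => a * (x : ℝ) ^ (n + 1) +
    ∑ i : Fin n, b' i * (x : ℝ) ^ ((j1.succAbove i : Fin (n + 1)) : ℕ)) β B l hβ hB hl)
  rintro t ⟨ht1, ht2⟩
  refine ⟨ht1, ?_⟩
  unfold LV at ht2
  rw [Set.mem_setOf_eq] at ht2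
  simp_rw [h1] at ht2
  exact ht2

end Pool.Agent.Y867.WR
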