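import Mathlib

/-! # Separated intervals: power sums determine the points, quantitatively -/

set_option autoImplicit false

open Finset Polynomial

namespace Pool.Agent.Y867.WR

/-- polynomials with prescribed signs on the separated intervals -/
theorem sgn (i : ℕ) (m : ℕ) (hm : i + 1 ≤ m) : ∃ c K : ℝ, 0 < c ∧ 0 ≤ K ∧
    ∀ ε : ℕ → ℝ, (∀ l, ε l = 1 ∨ ε l = -1) → ∃ h : ℝ[X], h.natDegree ≤ m - 1 - i ∧ (∀ j, |h.coeff j| ≤ K) ∧
    (∀ l, i ≤ l → l < m → ∀ t : ℝ, 2 * (l : ℝ) + 1 ≤ t → t ≤ 2 * (l : ℝ) + 2 → c ≤ ε l * h.eval t) ∧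
    (∃ s : ℝ, (s = 1 ∨ s = -1) ∧ ∀ t : ℝ, 2 * (m : ℝ) ≤ t → c ≤ s * h.eval t) := by
  induction m, hm using Nat.le_induction with
  | base =>
    refine ⟨1, 1, one_pos, zero_le_one, fun ε hε => ⟨C (ε i), ?_, ?_, ?_, ?_⟩⟩
    · rw [natDegree_C]; omega
    · intro j
      rw [coeff_C]
      split_ifs
      · rcases hε i with h | h <;> rw [h] <;> norm_num
      · norm_num
    · intro l h1 h2 t _ _
      have h3 : l = i := by omega
      subst h3
      rw [eval_C]
      rcases hε l with h | h <;> rw [h] <;> norm_num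
    · refine ⟨ε i, hε i, fun t _ => ?_⟩
      rw [eval_C]
      rcases hε i with h | h <;> rw [h] <;> norm_num
  | succ m hm ih =>
    obtain ⟨c, K, hc, hK, ih⟩ := ih
    refine ⟨c / 2, (2 * m + 1 / 2) * K + K, by positivity, by positivity, fun ε hε => ?_⟩
    obtain ⟨h, h1, h2, h3, s, hs, h4⟩ := ih ε hε
    by_cases hεs : ε m = s
    · refine ⟨h, by omega, fun j => (h2 j).trans ?_, ?_, s, hs, ?_⟩
      · have : 0 ≤ (2 * (m : ℝ) + 1 / 2) * K := by positivity
        linarith
      · intro l hl1 hl2 t ht1 ht2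
        rcases Nat.lt_or_ge l m with hlm | hlm
        · have := h3 l hl1 hlm t ht1 ht2
          linarith
        · have hlm' : l = m := by omega
          subst hlm'
          rw [hεs]
          have := h4 t (by linarith)
          linarith
      · intro t ht
        push_cast at ht
        have := h4 t (by linarith)
        linarith
    · have hεs' : ε m = -s := by
        rcases hε m with h5 | h5 <;> rcases hs with h6 | h6
        · exact absurd (h5.trans h6.symm) hεs
        · rw [h5, h6]; norm_num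
        · rw [h5, h6]
        · exact absurd (h5.trans h6.symm) hεs
      have hs2 : s * s = 1 := by
        rcases hs with h6 | h6 <;> rw [h6] <;> norm_num
      refine ⟨h * (C (2 * (m : ℝ) + 1 / 2) - X), ?_, ?_, ?_, -s, ?_, ?_⟩
      · refine natDegree_mul_le.trans ?_
        have : (C (2 * (m : ℝ) + 1 / 2) - X : ℝ[X]).natDegree ≤ 1 := by
          refine (natDegree_sub_le _ _).trans ?_
          rw [natDegree_C, natDegree_X]; norm_num
        omega
      · intro j
        rw [mul_sub, coeff_sub, coeff_mul_C]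
        have hX : |(h * X).coeff j| ≤ K := by
          cases j with
          | zero => rw [coeff_mul_X_zero, abs_zero]; exact hK
          | succ j => rw [coeff_mul_X]; exact h2 j
        have h5 : |h.coeff j * (2 * (m : ℝ) + 1 / 2)| ≤ (2 * (m : ℝ) + 1 / 2) * K := by
          rw [abs_mul, abs_of_pos (show (0 : ℝ) < 2 * (m : ℝ) + 1 / 2 by positivity), mul_comm]
          exact mul_le_mul_of_nonneg_left (h2 j) (by positivity)
        exact (abs_sub _ _).trans (by linarith)
      · intro l hl1 hl2 t ht1 ht2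
        rw [eval_mul, eval_sub, eval_C, eval_X]
        rcases Nat.lt_or_ge l m with hlm | hlm
        · have h5 := h3 l hl1 hlm t ht1 ht2
          have h6 : (l : ℝ) + 1 ≤ m := by exact_mod_cast hlm
          have h7 : (1 : ℝ) / 2 ≤ 2 * (m : ℝ) + 1 / 2 - t := by linarith
          calc c / 2 = c * (1 / 2) := by ring
            _ ≤ (ε l * h.eval t) * (2 * (m : ℝ) + 1 / 2 - t) := mul_le_mul h5 h7 (by norm_num) (by linarith)
            _ = _ := by ring
        · have hlm' : l = m := by omega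
          subst hlm'
          rw [hεs']
          have h5 := h4 t (by linarith)
          have h7 : (1 : ℝ) / 2 ≤ t - (2 * (l : ℝ) + 1 / 2) := by linarith
          calc c / 2 = c * (1 / 2) := by ring
            _ ≤ (s * h.eval t) * (t - (2 * (l : ℝ) + 1 / 2)) := mul_le_mul h5 h7 (by norm_num) (by linarith)
            _ = _ := by ring
      · rcases hs with h6 | h6 <;> rw [h6] <;> norm_num
      · intro t ht
        push_cast at ht
        rw [eval_mul, eval_sub, eval_C, eval_X]
        have h5 := h4 t (by linarith)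
        have h7 : (1 : ℝ) / 2 ≤ t - (2 * (m : ℝ) + 1 / 2) := by linarith
        calc c / 2 = c * (1 / 2) := by ring
          _ ≤ (s * h.eval t) * (t - (2 * (m : ℝ) + 1 / 2)) := mul_le_mul h5 h7 (by norm_num) (by linarith)
          _ = _ := by ring

/-- the primitive of `t^i h(t)` -/
noncomputable def prim (i d : ℕ) (h : ℝ[X]) (t : ℝ) : ℝ :=
  ∑ j ∈ range (d + 1), h.coeff j / ((i : ℝ) + j + 1) * t ^ (i + j + 1)

theorem prim_deriv (i d : ℕ) (h : ℝ[X]) (hd : h.natDegree ≤ d) (t : ℝ) :
    HasDerivAt (prim i d h) (t ^ i * h.eval t) t := by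
  have h1 : t ^ i * h.eval t = ∑ j ∈ range (d + 1), h.coeff j / ((i : ℝ) + j + 1) *
      (((i + j + 1 : ℕ) : ℝ) * t ^ (i + j + 1 - 1)) := by
    rw [eval_eq_sum_range' (show h.natDegree < d + 1 by omega), Finset.mul_sum]
    apply Finset.sum_congr rfl
    intro j _
    have h2 : (i : ℝ) + j + 1 ≠ 0 := by positivity
    rw [Nat.add_sub_cancel, pow_add]
    push_cast
    field_simp
  rw [h1]
  unfold prim
  apply HasDerivAt.fun_sum
  intro j _
  exact (hasDerivAt_pow (i + j + 1) t).const_mul _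

/-- the separation lemma: power sums control the first free variable -/
theorem sepE (k i : ℕ) (hik : i < k) : ∃ A : ℝ, 0 < A ∧ ∀ (u v : Fin k → ℝ) (η : ℝ),
    (∀ l : Fin k, 2 * ((l : ℕ) : ℝ) + 1 ≤ u l ∧ u l ≤ 2 * ((l : ℕ) : ℝ) + 2) →
    (∀ l : Fin k, 2 * ((l : ℕ) : ℝ) + 1 ≤ v l ∧ v l ≤ 2 * ((l : ℕ) : ℝ) + 2) →
    (∀ l : Fin k, (l : ℕ) < i → u l = v l) →
    (∀ j : ℕ, i + 1 ≤ j → j ≤ k → |∑ l, (u l ^ j - v l ^ j)| ≤ η) →
    |u ⟨i, hik⟩ - v ⟨i, hik⟩| ≤ A * η := by
  obtain ⟨c, K, hc, hK, hsg⟩ := sgn i k hik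
  refine ⟨(k * K + 1) / c, by positivity, fun u v η hu hv heq hpow => ?_⟩
  have hη : 0 ≤ η := (abs_nonneg _).trans (hpow k hik le_rfl)
  set ε : ℕ → ℝ := fun l => if hl : l < k then (if v ⟨l, hl⟩ ≤ u ⟨l, hl⟩ then 1 else -1) else 1 with hε
  have hε1 : ∀ l, ε l = 1 ∨ ε l = -1 := by
    intro l
    rw [hε]
    dsimp only
    split_ifs <;> simp
  obtain ⟨h, h1, h2, h3, _⟩ := hsg ε hε1
  have hterm : ∀ l : Fin k, i ≤ (l : ℕ) → c * |u l - v l| ≤ prim i (k - 1 - i) h (u l) - prim i (k - 1 - i) h (v l) := by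
    intro l hl
    set a : ℝ := 2 * ((l : ℕ) : ℝ) + 1 with ha
    have ha1 : 1 ≤ a := by rw [ha]; have : (0 : ℝ) ≤ ((l : ℕ) : ℝ) := by positivity
                           linarith
    have hb : 2 * ((l : ℕ) : ℝ) + 2 = a + 1 := by rw [ha]; ring
    have hul := hu l
    have hvl := hv l
    rw [hb, ← ha] at hul hvl
    have hconv : Convex ℝ (Set.Icc a (a + 1)) := convex_Icc _ _
    have hder : ∀ t, HasDerivAt (prim i (k - 1 - i) h) (t ^ i * h.eval t) t := prim_deriv i _ h h1
    have hcont : Continuous (prim i (k - 1 - i) h) :=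
      continuous_iff_continuousAt.mpr (fun t => (hder t).continuousAt)
    have hge : ∀ t ∈ interior (Set.Icc a (a + 1)), c ≤ ε l * (t ^ i * h.eval t) := by
      intro t ht
      have ht' := interior_subset ht
      have h4 := h3 l hl l.2 t (by rw [← ha]; exact ht'.1) (by rw [hb]; exact ht'.2)
      have h5 : 1 ≤ t ^ i := one_le_pow₀ (ha1.trans ht'.1)
      calc c ≤ ε l * h.eval t := h4
        _ = 1 * (ε l * h.eval t) := by ring
        _ ≤ t ^ i * (ε l * h.eval t) := mul_le_mul_of_nonneg_right h5 (by linarith)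
        _ = _ := by ring
    rcases le_or_gt (v l) (u l) with hle | hlt
    · have hεl : ε l = 1 := by
        rw [hε]; dsimp only; rw [dif_pos l.2, if_pos hle]
      rw [hεl] at hge
      have h6 := hconv.mul_sub_le_image_sub_of_le_deriv (f := prim i (k - 1 - i) h) hcont.continuousOn
        (fun t _ => (hder t).differentiableAt.differentiableWithinAt)
        (C := c) (fun t ht => by rw [(hder t).deriv]; have := hge t ht; linarith) (v l) hvl (u l) hul hle
      rw [abs_of_nonneg (by linarith)]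
      exact h6
    · have hεl : ε l = -1 := by
        rw [hε]; dsimp only; rw [dif_pos l.2, if_neg (by exact not_le.mpr hlt)]
      rw [hεl] at hge
      have hder' : ∀ t, HasDerivAt (fun t => -prim i (k - 1 - i) h t) (-(t ^ i * h.eval t)) t :=
        fun t => (hder t).neg
      have h6 := hconv.mul_sub_le_image_sub_of_le_deriv (f := fun t => -prim i (k - 1 - i) h t)
        hcont.neg.continuousOn
        (fun t _ => (hder' t).differentiableAt.differentiableWithinAt)
        (C := c) (fun t ht => by rw [(hder' t).deriv]; have := hge t ht; linarith) (u l) hul (v l) hvl hlt.le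
      rw [abs_of_neg (by linarith)]
      linarith
  have hsum : c * |u ⟨i, hik⟩ - v ⟨i, hik⟩| ≤ ∑ l, (prim i (k - 1 - i) h (u l) - prim i (k - 1 - i) h (v l)) := by
    calc c * |u ⟨i, hik⟩ - v ⟨i, hik⟩| ≤ prim i (k - 1 - i) h (u ⟨i, hik⟩) - prim i (k - 1 - i) h (v ⟨i, hik⟩) :=
          hterm ⟨i, hik⟩ le_rfl
      _ ≤ _ := by
        apply Finset.single_le_sum (f := fun l : Fin k => prim i (k - 1 - i) h (u l) - prim i (k - 1 - i) h (v l))
          _ (Finset.mem_univ _)
        intro l _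
        rcases Nat.lt_or_ge (l : ℕ) i with hl | hl
        · rw [heq l hl, sub_self]
        · exact (mul_nonneg hc.le (abs_nonneg _)).trans (hterm l hl)
  have hswap : ∑ l, (prim i (k - 1 - i) h (u l) - prim i (k - 1 - i) h (v l)) =
      ∑ j ∈ range (k - 1 - i + 1), h.coeff j / ((i : ℝ) + j + 1) * ∑ l, (u l ^ (i + j + 1) - v l ^ (i + j + 1)) := by
    unfold prim
    simp_rw [← Finset.sum_sub_distrib, ← mul_sub]
    rw [Finset.sum_comm]
    apply Finset.sum_congr rfl
    intro j _
    rw [Finset.mul_sum]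
  have hbound : ∑ j ∈ range (k - 1 - i + 1), h.coeff j / ((i : ℝ) + j + 1) *
      ∑ l, (u l ^ (i + j + 1) - v l ^ (i + j + 1)) ≤ ∑ _j ∈ range (k - 1 - i + 1), K * η := by
    apply Finset.sum_le_sum
    intro j hj
    rw [Finset.mem_range] at hj
    refine (le_abs_self _).trans ?_
    rw [abs_mul]
    apply mul_le_mul _ (hpow (i + j + 1) (by omega) (by omega)) (abs_nonneg _) hK
    have h5 : (1 : ℝ) ≤ (i : ℝ) + j + 1 := by
      have : (0 : ℝ) ≤ (i : ℝ) + j := by positivity
      linarith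
    rw [abs_div, abs_of_pos (show (0 : ℝ) < (i : ℝ) + j + 1 by linarith)]
    exact (div_le_self (abs_nonneg _) h5).trans (h2 j)
  rw [Finset.sum_const, Finset.card_range, nsmul_eq_mul] at hbound
  have hkk : ((k - 1 - i + 1 : ℕ) : ℝ) * (K * η) ≤ k * K * η := by
    have : ((k - 1 - i + 1 : ℕ) : ℝ) ≤ k := by
      have : k - 1 - i + 1 ≤ k := by omega
      exact_mod_cast this
    calc ((k - 1 - i + 1 : ℕ) : ℝ) * (K * η) ≤ k * (K * η) := mul_le_mul_of_nonneg_right this (by positivity)
      _ = _ := by ring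
  have hfin : c * |u ⟨i, hik⟩ - v ⟨i, hik⟩| ≤ (k * K + 1) * η := by
    rw [hswap] at hsum
    nlinarith
  rw [div_mul_eq_mul_div, le_div_iff₀ hc]
  linarith

end Pool.Agent.Y867.WR
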