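import Pool.Agent.Y867.WR.Main

/-! # A positive proportion of the integers needs `k+1` values -/

set_option autoImplicit false

open Filter Finset

namespace Pool.Agent.Y867.WR

/-- the values up to `Y` come from few arguments -/
theorem few_args (k : ℕ) (hk : 1 ≤ k) (a a' : ℝ) (ha' : 0 < a') (haa : a' < a) (b : Fin k → ℝ) :
    ∃ n0 : ℕ, ∀ Y n : ℕ, n0 ≤ n → ⌊fb k a b n⌋ ≤ (Y : ℤ) → (n : ℝ) ≤ (((Y : ℝ) + 1) / a') ^ (1 / (k : ℝ)) := by
  set B : ℝ := ∑ i, |b i| with hB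
  have hB0 : 0 ≤ B := Finset.sum_nonneg (fun i _ => abs_nonneg _)
  have hbB : ∀ i, |b i| ≤ B := fun i => Finset.single_le_sum (f := fun i => |b i|) (fun i _ => abs_nonneg _) (Finset.mem_univ i)
  refine ⟨⌈k * B / (a - a')⌉₊ + 1, fun Y n hn hY => ?_⟩
  have hn1 : 1 ≤ n := by omega
  have hn1' : (1 : ℝ) ≤ n := by exact_mod_cast hn1
  have h1 : k * B / (a - a') ≤ n := by
    have h2 : k * B / (a - a') ≤ (⌈k * B / (a - a')⌉₊ : ℝ) := Nat.le_ceil _
    have h3 : (⌈k * B / (a - a')⌉₊ : ℝ) ≤ n := by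
      have : ⌈k * B / (a - a')⌉₊ ≤ n := by omega
      exact_mod_cast this
    linarith
  rw [div_le_iff₀ (by linarith)] at h1
  set t : ℝ := (n : ℝ) with ht
  have h4 : |∑ j : Fin k, b j * t ^ (j : ℕ)| ≤ k * B * t ^ (k - 1) := by
    refine (Finset.abs_sum_le_sum_abs _ _).trans ?_
    have h8 : ∀ j ∈ (univ : Finset (Fin k)), |b j * t ^ (j : ℕ)| ≤ B * t ^ (k - 1) := by
      intro j _
      rw [abs_mul, abs_of_nonneg (show 0 ≤ t ^ (j : ℕ) by positivity)]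
      apply mul_le_mul (hbB j) _ (by positivity) hB0
      exact pow_le_pow_right₀ hn1' (by have := j.2; omega)
    refine (Finset.sum_le_sum h8).trans (le_of_eq ?_)
    rw [Finset.sum_const, Finset.card_univ, Fintype.card_fin, nsmul_eq_mul]
    ring
  have h6 : t ^ k = t ^ (k - 1) * t := by
    rw [← pow_succ]; congr 1; omega
  have h7 : a' * t ^ k ≤ fb k a b t := by
    unfold fb
    have h8 := (abs_le.mp h4).1
    have h9 : k * B * t ^ (k - 1) ≤ (a - a') * t ^ k := by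
      rw [h6]
      calc k * B * t ^ (k - 1) ≤ (t * (a - a')) * t ^ (k - 1) := mul_le_mul_of_nonneg_right h1 (by positivity)
        _ = _ := by ring
    nlinarith
  have h8 : fb k a b t < Y + 1 := by
    have h9 := Int.lt_floor_add_one (fb k a b t)
    have h10 : ((⌊fb k a b t⌋ : ℤ) : ℝ) ≤ (Y : ℝ) := by exact_mod_cast hY
    linarith
  have h9 : t ^ k ≤ (Y + 1) / a' := by
    rw [le_div_iff₀ ha', mul_comm]; linarith
  have hk0 : (k : ℝ) ≠ 0 := by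
    have : k ≠ 0 := by omega
    exact_mod_cast this
  calc t = (t ^ k) ^ (1 / (k : ℝ)) := by
        rw [← Real.rpow_natCast, ← Real.rpow_mul (by positivity)]
        have : (k : ℝ) * (1 / k) = 1 := by field_simp
        rw [this, Real.rpow_one]
    _ ≤ _ := Real.rpow_le_rpow (by positivity) h9 (by positivity)

/-- number of integers up to `Y` which are sums of `k` values -/
theorem reps_le (k : ℕ) (a : ℝ) (b : Fin k → ℝ) (Y : ℕ) (V : Finset ℕ)
    (hV : ∀ n : ℕ, 1 ≤ n → 0 < ⌊fb k a b n⌋ → ⌊fb k a b n⌋ ≤ (Y : ℤ) → n ∈ V) :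
    (Set.ncard {N : ℕ | N ≤ Y ∧ ∃ x : Fin k → ℕ, IsRep k a b k x N} : ℝ) ≤ ((V.card + k : ℕ) : ℝ) ^ k / (k.factorial : ℝ) := by
  classical
  set g : {n // n ∈ V} → ℤ := fun n => ⌊fb k a b (n.1 : ℝ)⌋ with hg
  set W : Finset ℕ := (univ : Finset (Sym {n // n ∈ V} k)).image (fun m => ((m.1.map g).sum).toNat) with hW
  have h1 : {N : ℕ | N ≤ Y ∧ ∃ x : Fin k → ℕ, IsRep k a b k x N} ⊆ (W : Set ℕ) := by
    rintro N ⟨hN, x, hx1, hx2⟩
    have hle : ∀ i, ⌊fb k a b (x i)⌋ ≤ (Y : ℤ) := by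
      intro i
      have h2 : ⌊fb k a b (x i)⌋ ≤ ∑ i, ⌊fb k a b (x i)⌋ :=
        Finset.single_le_sum (f := fun i => ⌊fb k a b (x i)⌋) (fun i _ => (hx1 i).2.le) (Finset.mem_univ i)
      rw [hx2] at h2
      have h3 : (N : ℤ) ≤ Y := by exact_mod_cast hN
      exact h2.trans h3
    have hmem : ∀ i, x i ∈ V := fun i => hV (x i) (hx1 i).1 (hx1 i).2 (hle i)
    rw [Finset.mem_coe, hW, Finset.mem_image]
    refine ⟨⟨(univ : Finset (Fin k)).val.map (fun i => (⟨x i, hmem i⟩ : {n // n ∈ V})), by simp⟩, Finset.mem_univ _, ?_⟩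
    have h2 : (((univ : Finset (Fin k)).val.map (fun i => (⟨x i, hmem i⟩ : {n // n ∈ V}))).map g).sum =
        ∑ i, ⌊fb k a b (x i)⌋ := by
      rw [Multiset.map_map]
      rfl
    dsimp only
    rw [h2, hx2]
    simp
  have h2 := Set.ncard_le_ncard h1 (Finset.finite_toSet _)
  rw [Set.ncard_coe_finset] at h2
  have h3 : W.card ≤ (V.card + k - 1).choose k := by
    have h4 := Finset.card_image_le (s := (univ : Finset (Sym {n // n ∈ V} k))) (f := fun m => ((m.1.map g).sum).toNat)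
    rw [← hW, Finset.card_univ, Sym.card_sym_eq_multichoose, Fintype.card_coe, Nat.multichoose_eq] at h4
    exact h4
  calc (Set.ncard {N : ℕ | N ≤ Y ∧ ∃ x : Fin k → ℕ, IsRep k a b k x N} : ℝ) ≤ (((V.card + k - 1).choose k : ℕ) : ℝ) := by
        exact_mod_cast h2.trans h3
    _ ≤ (((V.card + k).choose k : ℕ) : ℝ) := by
        exact_mod_cast Nat.choose_le_choose k (by omega)
    _ ≤ ((V.card + k : ℕ) : ℝ) ^ k / (k.factorial : ℝ) := Nat.choose_le_pow_div k (V.card + k)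

/-- a positive proportion of the integers are not sums of `k` values -/
theorem main3 (k : ℕ) (hk : 1 ≤ k) (a : ℝ) (hak : 1 < a * (k.factorial : ℝ)) (b : Fin k → ℝ) :
    ∃ c : ℝ, 0 < c ∧ ∃ Y0 : ℕ, ∀ Y : ℕ, Y0 ≤ Y →
      c * (Y : ℝ) ≤ (Set.ncard {N : ℕ | N ≤ Y ∧ ¬ ∃ x : Fin k → ℕ, IsRep k a b k x N} : ℝ) := by
  classical
  have hf : (0 : ℝ) < (k.factorial : ℝ) := by exact_mod_cast Nat.factorial_pos k
  have hk0 : (k : ℝ) ≠ 0 := by
    have : k ≠ 0 := by omega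
    exact_mod_cast this
  have hkpos : (0 : ℝ) < k := by positivity
  set a' : ℝ := (a + 1 / (k.factorial : ℝ)) / 2 with ha'
  have h0 : 1 / (k.factorial : ℝ) < a := by
    rw [div_lt_iff₀ hf]; exact hak
  have ha'0 : 0 < a' := by
    have : 0 < 1 / (k.factorial : ℝ) := by positivity
    rw [ha']; linarith
  have ha'1 : 1 / (k.factorial : ℝ) < a' := by rw [ha']; linarith
  have ha'2 : a' < a := by rw [ha']; linarith
  have ha'3 : 1 < a' * (k.factorial : ℝ) := by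
    rw [div_lt_iff₀ hf] at ha'1; exact ha'1
  obtain ⟨n0, hn0⟩ := few_args k hk a a' ha'0 ha'2 b
  -- the limit
  have hlim : Tendsto (fun Y : ℕ => (((n0 + k + 1 : ℕ) : ℝ) / (Y : ℝ) ^ (1 / (k : ℝ)) +
      ((1 + 1 / (Y : ℝ)) / a') ^ (1 / (k : ℝ))) ^ k / (k.factorial : ℝ)) atTop
      (nhds ((0 + ((1 + 0) / a') ^ (1 / (k : ℝ))) ^ k / (k.factorial : ℝ))) := by
    apply Tendsto.div_const
    apply Tendsto.pow
    apply Tendsto.add
    · apply Tendsto.div_atTop tendsto_const_nhds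
      exact (tendsto_rpow_atTop (by positivity)).comp tendsto_natCast_atTop_atTop
    · apply Tendsto.rpow_const
      · apply Tendsto.div_const
        exact tendsto_const_nhds.add tendsto_one_div_atTop_nhds_zero_nat
      · right; positivity
  have hval : (0 + ((1 + 0) / a') ^ (1 / (k : ℝ))) ^ k / (k.factorial : ℝ) = 1 / (a' * (k.factorial : ℝ)) := by
    rw [zero_add, add_zero, ← Real.rpow_natCast, ← Real.rpow_mul (by positivity)]
    have : 1 / (k : ℝ) * k = 1 := by field_simp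
    rw [this, Real.rpow_one, div_div]
  rw [hval] at hlim
  set ρ : ℝ := 1 / (a' * (k.factorial : ℝ)) with hρ
  have hρ1 : ρ < 1 := by
    rw [hρ, div_lt_one (by positivity)]; exact ha'3
  have hev := hlim.eventually_lt_const (show ρ < (1 + ρ) / 2 by linarith)
  obtain ⟨Y1, hY1⟩ := eventually_atTop.mp hev
  refine ⟨(1 - ρ) / 2, by linarith, Y1 + 1, fun Y hY => ?_⟩
  have hYpos : (0 : ℝ) < Y := by
    have : 0 < Y := by omega
    exact_mod_cast this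
  have h1 := hY1 Y (by omega)
  set Vb : ℕ := n0 + 1 + ⌊(((Y : ℝ) + 1) / a') ^ (1 / (k : ℝ))⌋₊ with hVb
  have h2 := reps_le k a b Y (range Vb) (by
    intro n _ _ hn
    rw [Finset.mem_range, hVb]
    rcases Nat.lt_or_ge n n0 with h3 | h3
    · omega
    · have h4 := Nat.le_floor (hn0 Y n h3 hn)
      omega)
  rw [Finset.card_range] at h2
  have hu : 0 ≤ (((Y : ℝ) + 1) / a') ^ (1 / (k : ℝ)) := by positivity
  have h3 : ((Vb + k : ℕ) : ℝ) ≤ (Y : ℝ) ^ (1 / (k : ℝ)) * (((n0 + k + 1 : ℕ) : ℝ) / (Y : ℝ) ^ (1 / (k : ℝ)) +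
      ((1 + 1 / (Y : ℝ)) / a') ^ (1 / (k : ℝ))) := by
    have h4 : (Y : ℝ) ^ (1 / (k : ℝ)) * (((n0 + k + 1 : ℕ) : ℝ) / (Y : ℝ) ^ (1 / (k : ℝ)) +
      ((1 + 1 / (Y : ℝ)) / a') ^ (1 / (k : ℝ))) = ((n0 + k + 1 : ℕ) : ℝ) + (((Y : ℝ) + 1) / a') ^ (1 / (k : ℝ)) := by
      have h5 : (((Y : ℝ) + 1) / a') = Y * ((1 + 1 / (Y : ℝ)) / a') := by field_simp
      rw [h5, Real.mul_rpow hYpos.le (by positivity)]
      have h6 : (Y : ℝ) ^ (1 / (k : ℝ)) ≠ 0 := by positivity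
      field_simp
    rw [h4, hVb]
    push_cast
    have h5 := Nat.floor_le hu
    linarith
  have h4 : ((Vb + k : ℕ) : ℝ) ^ k ≤ Y * (((n0 + k + 1 : ℕ) : ℝ) / (Y : ℝ) ^ (1 / (k : ℝ)) +
      ((1 + 1 / (Y : ℝ)) / a') ^ (1 / (k : ℝ))) ^ k := by
    refine (pow_le_pow_left₀ (by positivity) h3 k).trans (le_of_eq ?_)
    rw [mul_pow]
    congr 1
    rw [← Real.rpow_natCast, ← Real.rpow_mul hYpos.le]
    have : 1 / (k : ℝ) * k = 1 := by field_simp
    rw [this, Real.rpow_one]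
  have h5 : (Set.ncard {N : ℕ | N ≤ Y ∧ ∃ x : Fin k → ℕ, IsRep k a b k x N} : ℝ) ≤ Y * ((1 + ρ) / 2) := by
    refine h2.trans ?_
    calc ((Vb + k : ℕ) : ℝ) ^ k / (k.factorial : ℝ) ≤ Y * (((n0 + k + 1 : ℕ) : ℝ) / (Y : ℝ) ^ (1 / (k : ℝ)) +
      ((1 + 1 / (Y : ℝ)) / a') ^ (1 / (k : ℝ))) ^ k / (k.factorial : ℝ) := div_le_div_of_nonneg_right h4 hf.le
      _ = Y * ((((n0 + k + 1 : ℕ) : ℝ) / (Y : ℝ) ^ (1 / (k : ℝ)) +
      ((1 + 1 / (Y : ℝ)) / a') ^ (1 / (k : ℝ))) ^ k / (k.factorial : ℝ)) := by ring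
      _ ≤ _ := mul_le_mul_of_nonneg_left h1.le hYpos.le
  have h6 : Y + 1 ≤ Set.ncard {N : ℕ | N ≤ Y ∧ ∃ x : Fin k → ℕ, IsRep k a b k x N} +
      Set.ncard {N : ℕ | N ≤ Y ∧ ¬ ∃ x : Fin k → ℕ, IsRep k a b k x N} := by
    have h7 : ((range (Y + 1) : Finset ℕ) : Set ℕ) = {N : ℕ | N ≤ Y ∧ ∃ x : Fin k → ℕ, IsRep k a b k x N} ∪
        {N : ℕ | N ≤ Y ∧ ¬ ∃ x : Fin k → ℕ, IsRep k a b k x N} := by
      ext N
      simp only [Finset.coe_range, Set.mem_Iio, Set.mem_union, Set.mem_setOf_eq]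
      constructor
      · intro h
        by_cases h8 : ∃ x : Fin k → ℕ, IsRep k a b k x N
        · left; exact ⟨by omega, h8⟩
        · right; exact ⟨by omega, h8⟩
      · rintro (h | h) <;> omega
    have h8 := Set.ncard_union_le {N : ℕ | N ≤ Y ∧ ∃ x : Fin k → ℕ, IsRep k a b k x N}
        {N : ℕ | N ≤ Y ∧ ¬ ∃ x : Fin k → ℕ, IsRep k a b k x N}
    rw [← h7, Set.ncard_coe_finset, Finset.card_range] at h8
    exact h8
  have h7 : ((Y : ℝ) + 1) ≤ (Set.ncard {N : ℕ | N ≤ Y ∧ ∃ x : Fin k → ℕ, IsRep k a b k x N} : ℝ) +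
      (Set.ncard {N : ℕ | N ≤ Y ∧ ¬ ∃ x : Fin k → ℕ, IsRep k a b k x N} : ℝ) := by exact_mod_cast h6
  linarith

end Pool.Agent.Y867.WR
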