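import Pool.Agent.TH181.MX.Sum

/-! # Weyl's inequality for real polynomial phases: differencing -/

set_option autoImplicit false

open Finset

namespace Pool.Agent.Y867.WR

open Pool.Agent.W928.MW (e e_add e_norm)
open Pool.Agent.TH181.MW (LS LS_sum LS_card mem_LS LS_zero AA AA_sub sq_out card_H two_pow_ge)
open Pool.Agent.TH181.MX (AA_int geo_int KK_abs prod_cnt prod_abs log_le)
open Pool.Agent.H807R2.Dav (ee KK KK_nonneg KK_neg KK_le geo_bound vino)

/-- iterated differences of a real function -/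
def phR (f : ℤ → ℝ) : List ℤ → ℤ → ℝ
  | [] => f
  | h :: l => fun n => phR f l (n + h) - phR f l n

/-- differenced exponential sum -/
noncomputable def UU (N : ℕ) (f : ℤ → ℝ) (l : List ℤ) : ℂ := ∑ n ∈ AA N l, e (phR f l n)

theorem UU_sq (N : ℕ) (f : ℤ → ℝ) (l : List ℤ) :
    ((‖UU N f l‖ ^ 2 : ℝ) : ℂ) = ∑ h ∈ Icc (-(N : ℤ)) N, UU N f (h :: l) := by
  unfold UU
  rw [sq_out N (AA N l) (AA_sub N l)]
  apply Finset.sum_congr rfl
  intro h _
  rw [AA]
  rfl

theorem UU_step (N j : ℕ) (f : ℤ → ℝ) :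
    (∑ l ∈ LS (Icc (-(N : ℤ)) N) j, ‖UU N f l‖) ^ 2 ≤
      (2 * (N : ℝ) + 1) ^ j * ∑ l ∈ LS (Icc (-(N : ℤ)) N) (j + 1), ‖UU N f l‖ := by
  have h1 := sq_sum_le_card_mul_sum_sq (s := LS (Icc (-(N : ℤ)) N) j) (f := fun l => ‖UU N f l‖)
  rw [LS_card, card_H] at h1
  have h2 : ∑ l ∈ LS (Icc (-(N : ℤ)) N) j, ‖UU N f l‖ ^ 2 =
      (∑ l ∈ LS (Icc (-(N : ℤ)) N) (j + 1), UU N f l).re := by
    rw [LS_sum, Complex.re_sum]
    apply Finset.sum_congr rfl
    intro l _
    rw [← UU_sq, Complex.ofReal_re]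
  rw [h2] at h1
  refine h1.trans ?_
  push_cast
  apply mul_le_mul_of_nonneg_left _ (by positivity)
  exact (Complex.re_le_norm _).trans (norm_sum_le _ _)

theorem UU_weyl (N j : ℕ) (f : ℤ → ℝ) :
    ‖UU N f []‖ ^ (2 ^ j) ≤ (2 * (N : ℝ) + 1) ^ (2 ^ j - j - 1) *
      ∑ l ∈ LS (Icc (-(N : ℤ)) N) j, ‖UU N f l‖ := by
  induction j with
  | zero => simp [LS]
  | succ j ih =>
    have h1 : ‖UU N f []‖ ^ (2 ^ (j + 1)) = (‖UU N f []‖ ^ (2 ^ j)) ^ 2 := by
      rw [← pow_mul, pow_succ]
    rw [h1]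
    have h2 := pow_le_pow_left₀ (by positivity) ih 2
    refine h2.trans ?_
    rw [mul_pow]
    have h3 := UU_step N j f
    have h6 : 2 ^ (j + 1) - (j + 1) - 1 = (2 ^ j - j - 1) * 2 + j := by
      have := two_pow_ge j
      rw [pow_succ]; omega
    calc ((2 * (N : ℝ) + 1) ^ (2 ^ j - j - 1)) ^ 2 * (∑ l ∈ LS (Icc (-(N : ℤ)) N) j, ‖UU N f l‖) ^ 2
        ≤ ((2 * (N : ℝ) + 1) ^ (2 ^ j - j - 1)) ^ 2 *
          ((2 * (N : ℝ) + 1) ^ j * ∑ l ∈ LS (Icc (-(N : ℤ)) N) (j + 1), ‖UU N f l‖) :=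
          mul_le_mul_of_nonneg_left h3 (by positivity)
      _ = (2 * (N : ℝ) + 1) ^ (2 ^ (j + 1) - (j + 1) - 1) *
          ∑ l ∈ LS (Icc (-(N : ℤ)) N) (j + 1), ‖UU N f l‖ := by
          rw [h6, pow_add, pow_mul, mul_assoc]

open Polynomial in
/-- the polynomial of the iterated difference -/
noncomputable def PR (F : ℝ[X]) : List ℤ → ℝ[X]
  | [] => F
  | h :: l => (PR F l).comp (X + C (h : ℝ)) - PR F l

open Polynomial in
theorem PR_eval (F : ℝ[X]) (l : List ℤ) (n : ℤ) :
    (PR F l).eval (n : ℝ) = phR (fun n : ℤ => F.eval (n : ℝ)) l n := by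
  induction l generalizing n with
  | nil => simp [PR, phR]
  | cons h l ih =>
    simp only [PR, phR]
    rw [eval_sub, eval_comp, eval_add, eval_X, eval_C, ih, ← ih (n + h)]
    push_cast
    rfl

open Polynomial in
theorem PR_lc (k : ℕ) (F : ℝ[X]) (hF : F.natDegree ≤ k) (l : List ℤ) (hl : l.length ≤ k) :
    (PR F l).natDegree ≤ k - l.length ∧
      (PR F l).coeff (k - l.length) = (k.descFactorial l.length : ℝ) * (l.prod : ℤ) * F.coeff k := by
  induction l with
  | nil => simp [PR, hF]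
  | cons h l ih =>
    rw [List.length_cons] at hl
    obtain ⟨h1, h2⟩ := ih (by omega)
    simp only [PR, List.length_cons, List.prod_cons]
    rw [← taylor_apply]
    set d : ℕ := k - l.length with hd
    have hd' : k - (l.length + 1) = d - 1 := by omega
    have hd1 : 1 ≤ d := by omega
    rw [hd']
    constructor
    · rw [natDegree_le_iff_coeff_eq_zero]
      intro n hn
      rw [coeff_sub]
      rcases Nat.lt_or_ge d n with h3 | h3
      · rw [coeff_eq_zero_of_natDegree_lt (by rw [natDegree_taylor]; omega),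
          coeff_eq_zero_of_natDegree_lt (by omega), sub_self]
      · have h4 : n = d := by omega
        rw [h4]
        rcases Nat.lt_or_ge (PR F l).natDegree d with h5 | h5
        · rw [coeff_eq_zero_of_natDegree_lt (by rw [natDegree_taylor]; omega),
            coeff_eq_zero_of_natDegree_lt h5, sub_self]
        · have h6 : d = (PR F l).natDegree := le_antisymm h5 h1
          rw [h6, coeff_taylor_natDegree, coeff_natDegree, sub_self]
    · rw [coeff_sub, taylor_coeff]
      have h3 : (hasseDeriv (d - 1) (PR F l)).natDegree < 2 := by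
        have := natDegree_hasseDeriv_le (PR F l) (d - 1)
        omega
      rw [eval_eq_sum_range' h3, Finset.sum_range_succ, Finset.sum_range_succ, Finset.sum_range_zero,
        hasseDeriv_coeff, hasseDeriv_coeff]
      have h4 : 1 + (d - 1) = d := by omega
      rw [zero_add, zero_add, Nat.choose_self, pow_zero, pow_one, Nat.cast_one, one_mul, mul_one, h4, h2]
      have h5 : (d.choose (d - 1) : ℝ) = d := by
        obtain ⟨d', hd'⟩ : ∃ d', d = d' + 1 := ⟨d - 1, by omega⟩
        rw [hd', Nat.add_sub_cancel, Nat.choose_succ_self_right]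
      rw [h5, Nat.descFactorial_succ]
      push_cast
      ring

open Polynomial in
/-- after `k-1` differences the phase is linear -/
theorem phR_lin (k : ℕ) (hk : 1 ≤ k) (F : ℝ[X]) (hF : F.natDegree ≤ k) (l : List ℤ) (hl : l.length = k - 1) :
    ∃ β : ℝ, ∀ n : ℤ, phR (fun n : ℤ => F.eval (n : ℝ)) l n =
      ((((k.factorial : ℤ) * l.prod : ℤ) : ℝ) * F.coeff k) * n + β := by
  obtain ⟨h1, h2⟩ := PR_lc k F hF l (by omega)
  have h3 : k - l.length = 1 := by omega
  rw [h3] at h1 h2
  refine ⟨(PR F l).coeff 0, fun n => ?_⟩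
  rw [← PR_eval, Polynomial.eval_eq_sum_range' (show (PR F l).natDegree < 2 by omega), Finset.sum_range_succ,
    Finset.sum_range_succ, Finset.sum_range_zero, h2, hl]
  have h4 : k.descFactorial (k - 1) = k.factorial := by
    have h5 := Nat.factorial_mul_descFactorial (show k - 1 ≤ k by omega)
    have h6 : k - (k - 1) = 1 := by omega
    rw [h6, Nat.factorial_one, one_mul] at h5
    exact h5
  rw [h4]
  push_cast
  ring

open Polynomial in
theorem UU_le (k N : ℕ) (hk : 1 ≤ k) (F : ℝ[X]) (hF : F.natDegree ≤ k) (l : List ℤ) (hl : l.length = k - 1) :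
    ‖UU N (fun n : ℤ => F.eval (n : ℝ)) l‖ ≤ KK N ((((k.factorial : ℤ) * l.prod : ℤ) : ℝ) * F.coeff k) := by
  obtain ⟨β, hβ⟩ := phR_lin k hk F hF l hl
  obtain ⟨a, b, hab⟩ := AA_int N l
  unfold UU
  rw [hab]
  rw [Finset.sum_congr rfl (fun n _ => by rw [hβ])]
  apply geo_int
  rw [← hab]
  exact AA_sub N l

/-- the sum over all lists of length `k-1`, for any function bounded by the majorant -/
theorem sum_all' (k N q D : ℕ) (hk : 2 ≤ k) (hq : 1 ≤ q) (a : ℤ) (hcop : IsCoprime a (q : ℤ)) (t : ℝ)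
    (ht : |t - a / q| ≤ 1 / (q : ℝ) ^ 2)
    (hD : ∀ n : ℕ, 1 ≤ n → n ≤ k.factorial * N ^ (k - 1) → n.divisors.card ≤ D) (G : List ℤ → ℝ)
    (hG : ∀ l : List ℤ, l.length = k - 1 → G l ≤ KK N ((((k.factorial : ℤ) * l.prod : ℤ) : ℝ) * t)) :
    ∑ l ∈ LS (Icc (-(N : ℤ)) N) (k - 1), G l ≤
      2 * ((k - 1 : ℕ) : ℝ) * (2 * (N : ℝ) + 1) ^ (k - 1) + (2 * (D : ℝ)) ^ (k - 1) *
        ((((k.factorial * N ^ (k - 1) + 1 : ℕ) : ℝ) / q + 1) * (39 * N + 3 * q * (1 + Real.log q))) := by
  classical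
  set S : Finset ℤ := Icc (-(N : ℤ)) N with hS
  set j : ℕ := k - 1 with hj
  set H : ℕ := k.factorial * N ^ j + 1 with hH
  rw [← Finset.sum_filter_add_sum_filter_not (LS S j) (fun l => (0 : ℤ) ∈ l)]
  apply add_le_add
  · calc ∑ l ∈ (LS S j).filter (fun l => (0 : ℤ) ∈ l), G l
        ≤ ∑ _l ∈ (LS S j).filter (fun l => (0 : ℤ) ∈ l), 2 * (2 * (N : ℝ) + 1) := by
          apply Finset.sum_le_sum
          intro l hl
          rw [Finset.mem_filter, mem_LS] at hl
          refine (hG l hl.1.1).trans ((KK_le (by positivity) _).trans ?_)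
          linarith
      _ = 2 * ((((LS S j).filter (fun l => (0 : ℤ) ∈ l)).card : ℝ) * (2 * (N : ℝ) + 1)) := by
          rw [Finset.sum_const, nsmul_eq_mul]; ring
      _ ≤ 2 * ((j : ℝ) * (2 * (N : ℝ) + 1) ^ j) := by
          apply mul_le_mul_of_nonneg_left _ (by norm_num)
          have h1 := LS_zero S j
          rw [hS, card_H] at h1
          exact_mod_cast h1
      _ = 2 * (j : ℝ) * (2 * (N : ℝ) + 1) ^ j := by ring
  · have h1 : ∑ l ∈ (LS S j).filter (fun l => ¬ (0 : ℤ) ∈ l), G l ≤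
        ∑ l ∈ (LS S j).filter (fun l => ¬ (0 : ℤ) ∈ l), KK N (((((k.factorial : ℤ) * l.prod).natAbs : ℕ) : ℝ) * t) := by
      apply Finset.sum_le_sum
      intro l hl
      rw [Finset.mem_filter, mem_LS] at hl
      rw [← KK_abs]
      exact hG l hl.1.1
    refine h1.trans ?_
    have h2 : ∀ l ∈ (LS S j).filter (fun l => ¬ (0 : ℤ) ∈ l), ((k.factorial : ℤ) * l.prod).natAbs ∈ range H := by
      intro l hl
      rw [Finset.mem_filter] at hl
      rw [Finset.mem_range, Int.natAbs_mul, Int.natAbs_natCast, hH]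
      have := Nat.mul_le_mul_left k.factorial (prod_abs N j l hl.1)
      omega
    rw [← Finset.sum_fiberwise_of_maps_to h2]
    have h3 : ∀ m ∈ range H, ∑ l ∈ ((LS S j).filter (fun l => ¬ (0 : ℤ) ∈ l)).filter
        (fun l => ((k.factorial : ℤ) * l.prod).natAbs = m), KK N (((((k.factorial : ℤ) * l.prod).natAbs : ℕ) : ℝ) * t) ≤
        (2 * (D : ℝ)) ^ j * KK N (0 + (m : ℝ) * t) := by
      intro m hm
      rw [zero_add]
      rcases Nat.eq_zero_or_pos m with h0 | h0
      · have h4 : ((LS S j).filter (fun l => ¬ (0 : ℤ) ∈ l)).filter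
            (fun l => ((k.factorial : ℤ) * l.prod).natAbs = m) = ∅ := by
          rw [Finset.eq_empty_iff_forall_notMem]
          intro l hl
          rw [Finset.mem_filter, Finset.mem_filter] at hl
          have h5 := hl.2
          rw [h0, Int.natAbs_eq_zero, mul_eq_zero] at h5
          rcases h5 with h5 | h5
          · have := Nat.factorial_ne_zero k
            exact this (by exact_mod_cast h5)
          · exact hl.1.2 (List.prod_eq_zero_iff.mp h5)
        rw [h4, Finset.sum_empty]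
        have := KK_nonneg (M := (N : ℝ)) (by positivity) ((m : ℝ) * t)
        positivity
      · have h4 : ∀ l ∈ ((LS S j).filter (fun l => ¬ (0 : ℤ) ∈ l)).filter
            (fun l => ((k.factorial : ℤ) * l.prod).natAbs = m),
            KK N (((((k.factorial : ℤ) * l.prod).natAbs : ℕ) : ℝ) * t) = KK N ((m : ℝ) * t) := by
          intro l hl
          rw [(Finset.mem_filter.mp hl).2]
        rw [Finset.sum_congr rfl h4, Finset.sum_const, nsmul_eq_mul]
        apply mul_le_mul_of_nonneg_right _ (KK_nonneg (by positivity) _)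
        have h5 : (((LS S j).filter (fun l => ¬ (0 : ℤ) ∈ l)).filter
            (fun l => ((k.factorial : ℤ) * l.prod).natAbs = m)).card ≤ (2 * D) ^ j := by
          refine le_trans (Finset.card_le_card ?_) (prod_cnt S j D k.factorial m (by omega)
            (hD m h0 (by rw [Finset.mem_range] at hm; omega)))
          intro l hl
          rw [Finset.mem_filter, Finset.mem_filter] at hl
          rw [Finset.mem_filter]
          exact ⟨hl.1.1, hl.2⟩
        exact_mod_cast h5
    refine (Finset.sum_le_sum h3).trans ?_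
    rw [← Finset.mul_sum]
    apply mul_le_mul_of_nonneg_left _ (by positivity)
    exact vino hq hcop ht (by positivity) 0 H

end Pool.Agent.Y867.WR
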